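import Mathlib
import Pool.Agent.Work.MP_38c61c_al.D6.Defs
import Pool.Agent.Work.MP_38c61c_al.Quad.QGeneric
import Pool.Agent.Work.MP_38c61c_al.Transfer
import Pool.Agent.Work.MP_38c61c_al.D5.StmtsX

/-!
Block D6, part X: the context exists over the generic ring `RR 6 V` (localization at 2), and the
bookkeeping from injectivity over this ring to certificates. The items prove
`HG Δ α VP → (earlier statements) → St Δ α VP`.
-/

namespace CSLef.D6

open MvPolynomial Finset

universe u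

variable {V : Type} [Fintype V] [DecidableEq V]

/-- a homology 5-sphere with a free involution and a half `VP` of the vertices -/
structure HG (Δ : Finset (Finset V)) (α : Equiv.Perm V) (VP : Finset V) : Prop where
  hs : IsHomSphere Δ 6
  cs : IsCS Δ α
  vp : ∀ v, v ∈ VP ↔ α v ∉ VP

/-- the generic rows -/
noncomputable def ga (α : Equiv.Perm V) (VP : Finset V) (l : ℕ) (v : V) : RR 6 V :=
  algebraMap (PR 6 V) (RR 6 V) (aP 6 α VP l v)

/-- the generic `μ` -/
noncomputable def gm (V : Type) (l : ℕ) : RR 6 V := algebraMap (PR 6 V) (RR 6 V) (muP l)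

/-- the generic `c` -/
noncomputable def gc (v : V) : RR 6 V := algebraMap (PR 6 V) (RR 6 V) (cP v)

/-- the functional over the residue field -/
noncomputable def gpi (Δ : Finset (Finset V)) (α : Equiv.Perm V) (VP : Finset V) :
    MvPolynomial V (FF 6 V) →ₗ[FF 6 V] FF 6 V :=
  piF Δ 6 (fun l w => toF (pP α VP l w)) (fun l w => FD (DP α VP l w))

/-- a degree functional over the generic ring -/
structure IsDg (Δ : Finset (Finset V)) (α : Equiv.Perm V) (VP : Finset V) (σ : Finset V)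
    (dg : MvPolynomial V (RR 6 V) →ₗ[RR 6 V] RR 6 V) : Prop where
  J : ∀ f ∈ Jid Δ (ga α VP) 6, dg f = 0
  h : ∀ n, n ≠ 6 → ∀ f : MvPolynomial V (RR 6 V), f.IsHomogeneous n → dg f = 0
  t : ∀ f : MvPolynomial V (RR 6 V), f.IsHomogeneous 6 →
    f - C (dg f) * xm (RR 6 V) σ ∈ Jid Δ (ga α VP) 6
  s : dg (xm (RR 6 V) σ) = 1

variable (Δ : Finset (Finset V)) (α : Equiv.Perm V) (VP : Finset V)

/-- the functionals in degree 7 -/
structure IsT (Δ : Finset (Finset V)) (α : Equiv.Perm V) (VP : Finset V)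
    (dg : MvPolynomial V (RR 6 V) →ₗ[RR 6 V] RR 6 V)
    (T : ℕ → MvPolynomial V (RR 6 V) →ₗ[RR 6 V] RR 6 V) : Prop where
  sr : ∀ m, ∀ f ∈ srIdeal (RR 6 V) Δ, T m f = 0
  lin : ∀ m < 6, ∀ l < 6, ∀ f, T m (lin (ga α VP l) * f) = if l = m then dg f else 0
  h : ∀ m n, n ≠ 7 → ∀ f : MvPolynomial V (RR 6 V), f.IsHomogeneous n → T m f = 0
  a : ∀ m < 6, ∀ f, T m (rename α f) = - T m f

/-- Xdg. Proof. `locHyp`, `setupF` (RingR, Generic) give the hypotheses of `top_gen`; that
`xm F σ` is not in the ideal over the residue field is proved inside `cert_generic_q`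
(`Quad/QGeneric.lean`: `piF_J`, `piF_facet_ne`). So for `f` homogeneous of degree 6 there is `r` with
`f - r xm σ ∈ J`. It is unique: if `r xm σ ∈ J`, `r ≠ 0`, then `xm σ ∈ J` by `tors`, and `map_J` gives a
contradiction. Let `dg f` be the `r` of the homogeneous component of degree 6 of `f`: linear by
uniqueness; it kills `J` by `homComp_mem_J`. -/
def StXdg : Prop := ∀ σ ∈ Δ, σ.card = 6 → ∃ dg, IsDg Δ α VP σ dg

/-- Xpi. Link with the functional over the residue field.
Proof. Apply `map_J` to `f - C (dg f) xm σ ∈ J` (homogeneous of degree 6) and `piF_J` (the rows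
`rows p` are the reductions of `ga`, see `cert_generic_q` and `inj_generic_q`, `hrows`); nonvanishing is
`piF_facet_ne`. Last part: `red r = 0` iff `2 ∣ r` (`red_ker`, `red_two`). -/
def StXpi : Prop := ∀ σ ∈ Δ, σ.card = 6 → ∀ dg, IsDg Δ α VP σ dg →
  gpi Δ α VP (xm (FF 6 V) σ) ≠ 0 ∧
  (∀ f : MvPolynomial V (RR 6 V), f.IsHomogeneous 6 →
    gpi Δ α VP (MvPolynomial.map (red 6 V) f) = red 6 V (dg f) * gpi Δ α VP (xm (FF 6 V) σ)) ∧
  (∀ f : MvPolynomial V (RR 6 V), f.IsHomogeneous 6 →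
    (gpi Δ α VP (MvPolynomial.map (red 6 V) f) = 0 ↔ (2 : RR 6 V) ∣ dg f))

/-- Xdga. The degree functional is invariant.
Proof. Let `f = xm σ`, `κ = dg (α f)`. `g ↦ dg (α g)` is linear, kills `J` (`rename_J`), so for `g`
homogeneous of degree 6, `dg (α g) = κ dg g` (apply it to `g - C (dg g) f ∈ J`); `g = α f` gives
`κ^2 = 1`, so `κ = 1` or `κ = -1` (domain). If `κ = -1`: `f + α f` is homogeneous of degree 6 with
`dg = 0`, so it is in `J` (`IsDg.t`); by `star` there is `g` with `f - (g - α g) ∈ J`, and taking the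
homogeneous component of degree 6 (`homComp_mem_J`, as in `piF_zero_of_add_rename`) we may assume `g`
homogeneous of degree 6. Apply `dg`: `1 = dg g - κ dg g = 2 dg g`, impossible, as `2` is not a unit
(`red_two`: `red 1 = 1 ≠ 0`). So `κ = 1`. For other degrees both sides are `0`; sum the homogeneous
components of a general `f` (`sum_homogeneousComponent`). -/
def StXdga : Prop := ∀ σ ∈ Δ, σ.card = 6 → ∀ dg, IsDg Δ α VP σ dg → ∀ f, dg (rename α f) = dg f

/-- XT. The functionals in degree 7.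
Proof. Every `f` homogeneous of degree 7 is in `J` (`large_R`), so `f = ∑ Θ_l g_l` modulo `sr`
(`mem_J_iff`), and `dg (g_m)` does not depend on the choice: a relation `∑ Θ_l h_l ∈ sr` has
`h_l ∈ J` (`syz_J`). Let `T m f = dg (g_m)` for the component of degree 7 of `f`. It is linear, kills
`sr` (the component of degree 7 of an element of `sr` is in `sr`: `mem_sr_iff`), and
`T m (Θ_l f) = [l = m] dg f`: take the component `f_5` of degree 6 of `f`, the component of degree 7 of
`Θ_l f` is `Θ_l f_5` (`homComp_lin_mul` or `mem_J_hom`), and `dg f = dg f_5`. Invariance: apply `α` to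
`f = ∑ Θ_l g_l + s`: `α f = ∑ Θ_l (- α g_l) + α s`, and `dg (α g) = dg g`. -/
def StXT : Prop := ∀ σ ∈ Δ, σ.card = 6 → ∀ dg, IsDg Δ α VP σ dg → (∀ f, dg (rename α f) = dg f) →
  ∃ T : ℕ → MvPolynomial V (RR 6 V) →ₗ[RR 6 V] RR 6 V, IsT Δ α VP dg T

/-- Xnd. Nondegeneracy, and nondegeneracy modulo 2.
Proof. First part: `nondeg_R` (for `g` homogeneous of degree `k`, `g f` is homogeneous of degree 6
with `dg = 0`, so in `J`). Second: `gpi (xm G * map f) = 0` for the faces `G` with `k` vertices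
(`StXpi`), so `map f` is in the ideal over the residue field (`nondeg_pi`), and `lift_J_hom`. -/
def StXnd : Prop := ∀ σ ∈ Δ, σ.card = 6 → ∀ dg, IsDg Δ α VP σ dg →
  (∀ i k, i + k = 6 → ∀ f : MvPolynomial V (RR 6 V), f.IsHomogeneous i →
    (∀ g : MvPolynomial V (RR 6 V), g.IsHomogeneous k → dg (f * g) = 0) → f ∈ Jid Δ (ga α VP) 6) ∧
  (∀ i k, i + k = 6 → ∀ f : MvPolynomial V (RR 6 V), f.IsHomogeneous i →
    (∀ G ∈ Δ, G.card = k → (2 : RR 6 V) ∣ dg (f * xm (RR 6 V) G)) →
    ∃ u : MvPolynomial V (RR 6 V), u.IsHomogeneous i ∧ f - (2 : RR 6 V) • u ∈ Jid Δ (ga α VP) 6)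

/-- Rb2 (characteristic 2, any `d`): copy of `rel_b1` (`Quad/QChar2.lean`) with one more variable.
Proof. As there, with `X u * X v` in the place of `X v`. First
`D 0 tau (piF (X s * (X u * X v * X'^2))) = 0` for all `s, u, v`: for `s ∈ VP` by `rel3_aux` (with
`Con (X u * X v * X'^2)` and `hE u v`), for the others by `D_pi` and `h1`. Then `CC_pi_T` for the list
`u :: v :: q :: (gs ++ gs)` (of length `d - 1`) and `X q * (X u * X v * X'^2)`; modulo `srIdeal`,
`(yy u * (yy v * (yy q * P^2))) * (X q * (X u * X v * X'^2)) = (X u * X v * X q * P * X')^2`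
(`Xyy`), and `CC_piF_sq` gives the square of the wanted value. -/
def StRb2 : Prop := ∀ {V : Type} [Fintype V] [DecidableEq V] {F : Type} [Field F] [CharP F 2]
  {Δ : Finset (Finset V)} {d : ℕ} {α : Equiv.Perm V} {VP : Finset V} {p : ℕ → V ⊕ Bool → F}
  {D : ℕ → V ⊕ Bool → Derivation ℤ F F} {μ : ℕ → F} {c : V → F} {Dm : ℕ → Derivation ℤ F F}
  {Dc : V → Derivation ℤ F F}, Setup Δ d α VP p D μ c Dm Dc → ∀ e, e + e + 2 = d →
  ∀ X' : MvPolynomial V F, (∀ u v, piF Δ d p D (X u * X v * X' ^ 2) = 0) →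
  (∀ u v, ∑ v' ∈ VP, p 0 (Sum.inl v') * piF Δ d p D (X v' * (X u * X v * X' ^ 2)) = 0) →
  ∀ u v q, ∀ gs : List V, gs.length + 3 + e = d →
  piF Δ d p D (X u * X v * X q * (gs.map (yy F α)).prod * X') = 0

/-- XpiT. Proof. `f = ∑ Θ_l g_l` modulo `sr` (`large_R`, `mem_J_hom`: `g_l` homogeneous of degree 6), so
`T m f = dg (g_m)` (`IsT`), which is even: `gpi (map g_m) = 0` (`StXpi`). `piF_lin_mul`:
`gpi (map (Θ_l g_l)) = p_l(tau) * gpi (map g_l) = 0`, and `gpi` kills the reduction of `sr`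
(`piF_sr`, `map_sr`). -/
def StXpiT : Prop := ∀ σ ∈ Δ, σ.card = 6 → ∀ dg, IsDg Δ α VP σ dg → ∀ T, IsT Δ α VP dg T →
  ∀ f : MvPolynomial V (RR 6 V), f.IsHomogeneous 7 → (∀ m < 6, (2 : RR 6 V) ∣ T m f) →
  gpi Δ α VP (MvPolynomial.map (red 6 V) f) = 0

/-- Xrelb. The relations modulo 2.
Proof. `X' = map (red 6 V) y`. `StXpi` and `StXpiT`: `piF (X u * X v * X'^2) = 0` and
`piF (wel * (X u * X v * X'^2)) = 0` (`map` of `welA` is `wel`: `hmapw` in the proof of `inj_Rq`).
`derive_m` with `l = 0` (for `Con (X u * X v * X'^2)`) gives the second hypothesis of `StRb2`, and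
`StRb2` with `d = 6`, `e = 2`, `gs = [q]` gives `piF (X u * X v * X p * yy q * X') = 0`; `StXpi`. -/
def StXrelb : Prop := ∀ σ ∈ Δ, σ.card = 6 → ∀ dg, IsDg Δ α VP σ dg → ∀ T, IsT Δ α VP dg T →
  ∀ y : MvPolynomial V (RR 6 V), y.IsHomogeneous 2 →
  (∀ u v, (2 : RR 6 V) ∣ dg (X u * X v * y ^ 2)) →
  (∀ u v, ∀ m < 6, (2 : RR 6 V) ∣
    T m (X u * X v * welA 6 α VP (ga α VP) (gm V) gc * y ^ 2)) →
  ∀ u v p q, (2 : RR 6 V) ∣ dg (X u * X v * X p * yy (RR 6 V) α q * y)

/-- Xind. Six distinct columns in `VP` are independent modulo 2; the weights are odd; one more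
condition. (First two parts: port of D5 `I_Xind.lean`.) Third part: put `μ_0 = 1`, the other `μ_l = 0`,
the column of `s` equal to `e_0`, of `u` equal to `e_1`, of `c' 0` equal to `e_0`, of `c' i` equal to
`e_(i+1)` for `i = 1, ..., 4`: the first product is the determinant of a permutation matrix, `±1`, the
second factor of the second product is multiplied by `0`.
Proof. The entries are (for `v ∈ VP`, `l < 6`) the variables `X (Sum.inl (l, Sum.inl v))` of `PR 6 V`
(`aP`, `pP`), so the determinant `M` is the image of a polynomial `P` of `PR 6 V`, and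
`2 ∣ algebraMap P` in `RR 6 V` implies `2 ∣ P` in `PR 6 V` (localization at the prime ideal `(2)`:
`algebraMap` of the complement consists of units). Evaluate the variables at integers: the matrix
entry variables `(l, c' i)` at `1` if `l = i`, else `0` (possible: the `c' i` are distinct): `P` goes to
the determinant of the identity, `1`, not divisible by 2. For the weights: put
`X (Sum.inl (0, inl v)) = 1`, `μ_0 = 1` and all the other variables `0`: the value is `1`. -/
def StXind : Prop :=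
  (∀ c' : Fin 6 → V, Function.Injective c' → (∀ i, c' i ∈ VP) →
    ¬ (2 : RR 6 V) ∣ Matrix.det (fun i l : Fin 6 => ga α VP l (c' i))) ∧
  (∀ v ∈ VP, ¬ (2 : RR 6 V) ∣ ∑ l ∈ range 6, gm V l * ga α VP l v) ∧
  (∀ (u s : V) (c' : Fin 5 → V), Function.Injective c' → (∀ i, c' i ∈ VP) → u ∈ VP →
    s ∈ VP → u ≠ s → (∀ i, c' i ≠ u) → (∀ i, c' i ≠ s) →
    ¬ (2 : RR 6 V) ∣ (∑ l ∈ range 6, gm V l * ga α VP l s) *
        Matrix.det (fun i l : Fin 6 => ga α VP l ((![u, c' 0, c' 1, c' 2, c' 3, c' 4] :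
          Fin 6 → V) i)) +
      (∑ l ∈ range 6, gm V l * ga α VP l u) *
        Matrix.det (fun i l : Fin 6 => ga α VP l ((![s, c' 0, c' 1, c' 2, c' 3, c' 4] :
          Fin 6 → V) i)))

/-- Xder. The derivations. Proof. `LD (DP α VP m (Sum.inl v))` and `LD (DcP v)`: the computations are
in the proof of `inj_generic_q` (`Quad/QGeneric.lean`). -/
def StXder : Prop :=
  (∀ m < 6, ∀ v ∈ VP, ∃ δ : Derivation ℤ (RR 6 V) (RR 6 V),
    (∀ l < 6, ∀ u, δ (ga α VP l u) =
      if m = l then (if u = v then 1 else if u = α v then -1 else 0) else 0) ∧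
    (∀ l, δ (gm V l) = 0) ∧ (∀ u, δ (gc u) = 0)) ∧
  (∀ v ∈ VP, ∃ δ : Derivation ℤ (RR 6 V) (RR 6 V), (∀ l u, δ (ga α VP l u) = 0) ∧
    (∀ l, δ (gm V l) = 0) ∧ (∀ u, δ (gc u) = if v = u then 1 else 0))

/-- Xcube. `x^2 + x y + y^2` has only the trivial zero in the residue field.
Proof. Write `x = P/s`, `y = Q/s` with `P, Q, s` in `PR 6 V`, `s` odd (not divisible by 2): then
`2 ∣ P^2 + P Q + Q^2` in `PR 6 V` (as in Xind), so for the reductions `p, q` in
`MvPolynomial (Om 6 V) (ZMod 2)`: `p^2 + p q + q^2 = 0`. Let `K` be an algebraic closure of `ZMod 2`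
and `ω ∈ K` a root of `t^2 + t + 1`; `ω` is not in the image of `ZMod 2`. In the domain
`MvPolynomial _ K`: `(p - ω q)(p - ω^2 q) = p^2 + p q + q^2 = 0` (`ω + ω^2 = -1`, `ω^3 = 1`), so all
coefficients satisfy `p_m = ω q_m` (or all `p_m = ω^2 q_m`), with `p_m, q_m` in the image of `ZMod 2`:
`q_m = 0` and `p_m = 0`. So `p = q = 0`, `2 ∣ P, Q`, `2 ∣ x, y`. -/
def StXcube (V : Type) [Fintype V] [DecidableEq V] : Prop :=
  ∀ x y : RR 6 V, (2 : RR 6 V) ∣ x ^ 2 + x * y + y ^ 2 →
    (2 : RR 6 V) ∣ x ∧ (2 : RR 6 V) ∣ y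

/-- Xdual. Duality over the generic ring: every functional killing `J` in degree `h` is
`g ↦ dg (f g)`.
Proof. `F = FF 6 V`. Represent functionals on the homogeneous polynomials of degree `h` by the
functions `cc : Mon V h → R`, `lam_cc g = ∑_(m ∈ Mon V h) cc m * coeff m g` (`R = RR 6 V`; the module
of these functions is finitely generated over the Noetherian ring `R`, for instance
`(Mon V h → R)` with the finite index type). `M` = those `cc` for which `lam_cc` kills the elements of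
`J` homogeneous of degree `h`; `U` = those of the form `cc m = dg (f * monomial m 1)`, `f` homogeneous
of degree `6 - h`. `U ≤ M`; claim `M ≤ U + 2 M`, then `M ≤ U` by Nakayama
(`Submodule.le_of_le_smul_of_le_jacobson_bot`, as in `nak`, `max_eq`). Let `cc ∈ M`, `cb = red ∘ cc`.
`lam_cb` kills the elements of the reduced ideal of degree `h`: such an element lifts to `g`
homogeneous of degree `h`, `g = e + 2 g'`, `e ∈ J` (`lift_J_hom`), `lam_cc g = 2 lam_cc g'`, reduce.
By `D5.StXdualF` with `e = gpi` (nondegeneracy: `nondeg_pi`) there is `fb` homogeneous of degree `6 - h`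
with `gpi (fb * g) = lam_cb g`. Scale by `gpi (xm σ)` (`StXpi`, a nonzero constant) and lift to `f`
homogeneous: `red (dg (f * monomial m 1)) = cb m`, so `cc = (cc - 2 cc'') + 2 cc''` with
`cc - 2 cc'' ∈ U`, and `cc'' ∈ M` because `2 cc'' = cc - u`, `u ∈ U ≤ M`, and `R` is a domain. Finally for
`lam` given take `cc m = lam (monomial m 1)`; for `g` homogeneous of degree `h`,
`lam_cc g = lam g` (`hom_sum_Mon`). -/
def StXdual : Prop := ∀ σ ∈ Δ, σ.card = 6 → ∀ dg, IsDg Δ α VP σ dg → ∀ h ≤ 6,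
  ∀ lam : MvPolynomial V (RR 6 V) →ₗ[RR 6 V] RR 6 V,
  (∀ g ∈ Jid Δ (ga α VP) 6, g.IsHomogeneous h → lam g = 0) →
  ∃ f : MvPolynomial V (RR 6 V), f.IsHomogeneous (6 - h) ∧
    ∀ g : MvPolynomial V (RR 6 V), g.IsHomogeneous h → dg (f * g) = lam g

/-- Xtate. The Tate property over the generic ring.
Proof. `f` homogeneous of degree `n`, `α f - f ∈ J`: reduce, `fb + α fb` is in the reduced ideal
(characteristic 2). `D5.StTateF` with `j = 6` (`locHyp.ind`), take the homogeneous component of degree `n`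
(`W_I` is homogeneous of degree `|I|`; `homComp_mem_J`; the component of `α g` is `α` of the
component): `fb = ∑_(|I| = n) β_I W_I + gb + α gb` modulo the reduced ideal, `gb` homogeneous. Lift `β`
and `gb` (homogeneous); the difference is homogeneous of degree `n` and reduces into the ideal:
`lift_J_hom` gives `e ∈ J` and `v` homogeneous. -/
def StXtate : Prop := ∀ n, ∀ f : MvPolynomial V (RR 6 V), f.IsHomogeneous n →
  rename α f - f ∈ Jid Δ (ga α VP) 6 →
  ∃ (β : Finset ℕ → RR 6 V) (g v : MvPolynomial V (RR 6 V)), g.IsHomogeneous n ∧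
    v.IsHomogeneous n ∧
    f - ∑ I ∈ (range 6).powersetCard n, C (β I) * ∏ i ∈ I, (∑ v ∈ VP, C (ga α VP i v) * X v) -
      (g + rename α g) - (2 : RR 6 V) • v ∈ Jid Δ (ga α VP) 6

/-- Xall. The context exists. Proof. `exists_facet` for `σ`; put everything together: `dg` from `StXdg`,
`T` from `StXT`, `XH H` for full `H` from `StXdual` with `lam = ph H` (which kills `J`: `ph` does not
depend on `dg, T, XH`, see `StPh`; here take any datum with the given `Δ, α, VP, a`), extended to all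
`g` by homogeneous components (`ph H g = 0` and `dg (XH H * g) = 0` in the other degrees), `0` for the
other sets. `tors`, `syz`: `tors_reg`, `syz_J`; `two`: `2` generates the maximal ideal and is not `0`
(see the proof of `tors`). -/
def StXall : Prop := ∃ D : Dat V (RR 6 V), D.Δ = Δ ∧ D.α = α ∧ D.VP = VP ∧ D.a = ga α VP ∧
  D.μ = gm V ∧ D.c = gc ∧ Ctx D

/-- XeK. The degree functional over the fraction field `KK 6 V`.
Proof. `φ = algebraMap (RR 6 V) (KK 6 V)`, `den_R`. Take `dg` from `StXdg` (a facet `σ` exists) and let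
`e` be the `KK`-linear functional with `e (monomial m 1) = φ (dg (monomial m 1))`
(`MvPolynomial.basisMonomials`, `Basis.constr`), so `e (map φ f) = φ (dg f)`. If `g ∈ JK`, clear
denominators (`den_poly`): `C (φ s) * g = map φ g'`, `g' ∈ J` by `descend_tors` (torsion-freeness: `tors`),
so `φ s * e g = 0`. If `h` is homogeneous of degree 6 with `e h = 0`: `C (φ s) * h = map φ h'`, `h'`
homogeneous of degree 6 (`clear_hom`), `dg h' = 0`, so `h' ∈ J` (`IsDg.t`) and `h ∈ JK` (`unscale`). -/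
def StXeK : Prop := ∃ e : MvPolynomial V (KK 6 V) →ₗ[KK 6 V] KK 6 V,
  (∀ g ∈ Jid Δ (fun l v => algebraMap (RR 6 V) (KK 6 V) (ga α VP l v)) 6, e g = 0) ∧
  (∀ h : MvPolynomial V (KK 6 V), h.IsHomogeneous 6 → e h = 0 →
    h ∈ Jid Δ (fun l v => algebraMap (RR 6 V) (KK 6 V) (ga α VP l v)) 6)

/-- SurjF. Surjectivity in degree `k` from injectivity in degree `h` by duality.
Proof. `D5.StXdualF` for the functional `e' g = e (w g)` and `lam g = e (y g)` (on degree `h`): the
nondegeneracy hypothesis holds: if `e (w f g) = 0` for all `f` homogeneous of degree `k`, then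
`w g ∈ I` by `n1`, so `g ∈ I` by `inj`. So there is `x` homogeneous of degree `k` with
`e (w x g) = e (y g)` for all `g` of degree `h`, and `w x - y ∈ I` by `n2`. -/
def StSurjF : Prop := ∀ {F : Type} [Field F] {V : Type} [Fintype V] [DecidableEq V]
  (I : Ideal (MvPolynomial V F)) (e : MvPolynomial V F →ₗ[F] F) (w : MvPolynomial V F) (h k : ℕ),
  w.IsHomogeneous 1 → (∀ g ∈ I, e g = 0) →
  (∀ g : MvPolynomial V F, g.IsHomogeneous (h + 1) →
    (∀ f : MvPolynomial V F, f.IsHomogeneous k → e (f * g) = 0) → g ∈ I) →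
  (∀ g : MvPolynomial V F, g.IsHomogeneous h → w * g ∈ I → g ∈ I) →
  (∀ y : MvPolynomial V F, y.IsHomogeneous (k + 1) →
    (∀ g : MvPolynomial V F, g.IsHomogeneous h → e (y * g) = 0) → y ∈ I) →
  ∀ y : MvPolynomial V F, y.IsHomogeneous (k + 1) →
    ∃ x : MvPolynomial V F, x.IsHomogeneous k ∧ w * x - y ∈ I

/-- SCex. Surjectivity specializes.
Proof. The part `c1` of `cert_exists` and `Cert.surj` (`Cert.lean`): for each monomial `n` of degree
`i + 1` choose `x n` over `K` with `wK x n - monomial n 1 ∈ JK`, clear denominators (`den_poly`), descend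
(`descend_finset`): there are `g ≠ 0` and `L n` homogeneous of degree `i` over `A` with
`w L n - C g * monomial n 1 ∈ J`. Map by `ψ` and extend linearly (`hom_sum_Mon`), divide by `ψ g`. -/
def StSCex : Prop := ∀ {V : Type} [Fintype V] [DecidableEq V] {A K : Type} [CommRing A] [IsDomain A]
  [Field K] (φ : A →+* K), Den φ → ∀ (Δ : Finset (Finset V)), (∀ F ∈ Δ, ∀ G, G ⊆ F → G ∈ Δ) →
  ∀ (a : ℕ → V → A) (d : ℕ) (w : MvPolynomial V A) (i : ℕ), w.IsHomogeneous 1 →
  (∀ y : MvPolynomial V K, y.IsHomogeneous (i + 1) → ∃ x : MvPolynomial V K, x.IsHomogeneous i ∧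
    MvPolynomial.map φ w * x - y ∈ Jid Δ (fun l v => φ (a l v)) d) →
  ∃ g : A, g ≠ 0 ∧ ∀ {B : Type u} [Field B] (ψ : A →+* B), ψ g ≠ 0 →
    ∀ y : MvPolynomial V B, y.IsHomogeneous (i + 1) → ∃ x : MvPolynomial V B, x.IsHomogeneous i ∧
      MvPolynomial.map ψ w * x - y ∈ Jid Δ (fun l v => ψ (a l v)) d

/-- Gen. Generic weak Lefschetz property from injectivity over the generic ring in degree 2.
Proof. (a) `i ≤ 2`: over `RR 6 V`, if `w x ∈ J`, `x` homogeneous of degree `i`, then for `g` homogeneous of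
degree `2 - i`, `w (g x) ∈ J`, so `g x ∈ J`; hence `g' x ∈ J` for all `g'` homogeneous of degree `6 - i`
and `x ∈ J` by `nondeg_R`. `k_inj` moves this to the fraction field, `D5.StHCex` gives a certificate over
`PR 6 V` (for `φ = phiP 6 V`, `k = 1`, `w^1 = w`), `D5.StHCmap` injectivity at `ψ`; model: D5
`I_Gen.lean`. (b) surjectivity `3 → 4`: over `KK 6 V` by `StSurjF` with `h = 2`, `k = 3`, `e` from `StXeK`
(the nondegeneracies from `k_nondeg`, `nondeg_R` and the second part of `StXeK`), the injectivity from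
(a); then `StSCex` for `φ = phiP 6 V`. (c) everything of degree at least 7 is in the ideal: as in
`generic_bij_q`. Take the product of the finitely many `g`. -/
def StGen : Prop :=
  (∀ x : MvPolynomial V (RR 6 V), x.IsHomogeneous 2 →
    welA 6 α VP (ga α VP) (gm V) gc * x ∈ Jid Δ (ga α VP) 6 → x ∈ Jid Δ (ga α VP) 6) →
  ∃ g : PR 6 V, g ≠ 0 ∧ ∀ {k : Type u} [Field k] (ψ : PR 6 V →+* k), ψ g ≠ 0 →
    (∀ i ≤ 2, ∀ x : MvPolynomial V k, x.IsHomogeneous i →
      MvPolynomial.map ψ (wP 6 α VP) * x ∈ Jid Δ (fun l v => ψ (aP 6 α VP l v)) 6 →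
      x ∈ Jid Δ (fun l v => ψ (aP 6 α VP l v)) 6) ∧
    (∀ y : MvPolynomial V k, y.IsHomogeneous 4 → ∃ x : MvPolynomial V k,
      x.IsHomogeneous 3 ∧ MvPolynomial.map ψ (wP 6 α VP) * x - y ∈
        Jid Δ (fun l v => ψ (aP 6 α VP l v)) 6) ∧
    (∀ n, 6 < n → ∀ f : MvPolynomial V k, f.IsHomogeneous n →
      f ∈ Jid Δ (fun l v => ψ (aP 6 α VP l v)) 6)

/-- Trans. Port of D5 `I_Trans.lean`: injectivity for `i ≤ 2`, surjectivity from degree `3` to `4` and
then by induction in all degrees `i ≥ 3`. -/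
def StTrans : Prop := ∀ {k : Type u} [Field k] [CharZero k], ∀ g : PR 6 V, g ≠ 0 →
  (∀ ψ : PR 6 V →+* k, ψ g ≠ 0 →
    (∀ i ≤ 2, ∀ x : MvPolynomial V k, x.IsHomogeneous i →
      MvPolynomial.map ψ (wP 6 α VP) * x ∈ Jid Δ (fun l v => ψ (aP 6 α VP l v)) 6 →
      x ∈ Jid Δ (fun l v => ψ (aP 6 α VP l v)) 6) ∧
    (∀ y : MvPolynomial V k, y.IsHomogeneous 4 → ∃ x : MvPolynomial V k,
      x.IsHomogeneous 3 ∧ MvPolynomial.map ψ (wP 6 α VP) * x - y ∈
        Jid Δ (fun l v => ψ (aP 6 α VP l v)) 6) ∧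
    (∀ n, 6 < n → ∀ f : MvPolynomial V k, f.IsHomogeneous n →
      f ∈ Jid Δ (fun l v => ψ (aP 6 α VP l v)) 6)) →
  ∃ Φ : MvPolynomial (Fin 6 × V) k,
    (∃ A : Fin 6 → V → k, (∀ l v, A l (α v) = - A l v) ∧ eval (fun q => A q.1 q.2) Φ ≠ 0) ∧
    ∀ A : Fin 6 → V → k, (∀ l v, A l (α v) = - A l v) → eval (fun q => A q.1 q.2) Φ ≠ 0 →
      (∀ i, (∀ x ∈ gr (Jid Δ (rowN A) 6) i,
          Ideal.Quotient.mk _ (wsum V k) * x = 0 → x = 0) ∨
        (∀ y ∈ gr (Jid Δ (rowN A) 6) (i + 1), ∃ x ∈ gr (Jid Δ (rowN A) 6) i,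
          Ideal.Quotient.mk _ (wsum V k) * x = y)) ∧
      (∀ n, 6 < n → ∀ f : MvPolynomial V k, f.IsHomogeneous n → f ∈ Jid Δ (rowN A) 6)

end CSLef.D6
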