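import Mathlib
import Pool.Agent.Work.MP_38c61c_al.D6.StmtsX

/-!
Block D6, item SCex (helper55): surjectivity specializes.
-/

namespace CSLef.D6

open MvPolynomial Finset

universe u

namespace ISCex

/-- surjectivity from a certificate -/
theorem surj {V : Type} [Fintype V] [DecidableEq V] {B : Type u} [Field B]
    (J : Ideal (MvPolynomial V B)) (w : MvPolynomial V B) (i : ℕ) (g : B) (hg : g ≠ 0)
    (L : (V →₀ ℕ) → MvPolynomial V B) (hL : ∀ n, (L n).IsHomogeneous i)
    (hc : ∀ n ∈ Mon V (i + 1), w * L n - C g * monomial n 1 ∈ J) (y : MvPolynomial V B)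
    (hy : y.IsHomogeneous (i + 1)) :
    ∃ x : MvPolynomial V B, x.IsHomogeneous i ∧ w * x - y ∈ J := by
  refine ⟨C g⁻¹ * Lam L (i + 1) y, ?_, ?_⟩
  · have := (isHomogeneous_C V g⁻¹).mul (Lam_hom hL (i + 1) y)
    rwa [zero_add] at this
  · have h1 : w * Lam L (i + 1) y - C g * y ∈ J := by
      have e0 : w * Lam L (i + 1) y - C g * y =
          ∑ m ∈ Mon V (i + 1), C (coeff m y) * (w * L m - C g * monomial m 1) := by
        have e1 : C g * y = ∑ m ∈ Mon V (i + 1), C g * (C (coeff m y) * monomial m 1) := by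
          rw [← Finset.mul_sum, ← hom_sum_Mon hy]
        rw [e1]
        unfold Lam
        rw [Finset.mul_sum, ← Finset.sum_sub_distrib]
        refine Finset.sum_congr rfl (fun m _ => ?_)
        ring
      rw [e0]
      exact Ideal.sum_mem _ (fun m hm => Ideal.mul_mem_left _ _ (hc m hm))
    have h2 := Ideal.mul_mem_left _ (C g⁻¹) h1
    have e2 : (C g⁻¹ * C g : MvPolynomial V B) = 1 := by
      rw [← map_mul, inv_mul_cancel₀ hg, map_one]
    have e3 : w * (C g⁻¹ * Lam L (i + 1) y) - y = C g⁻¹ * (w * Lam L (i + 1) y - C g * y) := by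
      linear_combination y * e2
    rw [e3]
    exact h2

end ISCex

theorem pr_SCex : StSCex.{u} := by
  intro V _ _ A K _ _ _ φ hφ Δ hdown a d w i hw hsurj
  have hx : ∀ n : V →₀ ℕ, ∃ x : MvPolynomial V K, x.IsHomogeneous i ∧
      (n ∈ Mon V (i + 1) → MvPolynomial.map φ w * x - monomial n 1 ∈
        Jid Δ (fun l v => φ (a l v)) d) := by
    intro n
    by_cases hn : n ∈ Mon V (i + 1)
    · obtain ⟨x, h1, h2⟩ := hsurj (monomial n 1) (monomial_hom hn 1)
      exact ⟨x, h1, fun _ => h2⟩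
    · exact ⟨0, isHomogeneous_zero _ _ _, fun h => absurd h hn⟩
  choose x hx1 hx2 using hx
  obtain ⟨s0, hs0, hL⟩ := den_poly hφ (Mon V (i + 1)) x
  have hL' : ∀ n : V →₀ ℕ, ∃ f' : MvPolynomial V A, f'.IsHomogeneous i ∧
      (n ∈ Mon V (i + 1) → C (φ s0) * x n = MvPolynomial.map φ f') := by
    intro n
    by_cases hn : n ∈ Mon V (i + 1)
    · obtain ⟨f', hf'⟩ := hL n hn
      refine ⟨f', ?_, fun _ => hf'⟩
      apply map_hom_iff hφ
      rw [← hf']
      have := (isHomogeneous_C V (φ s0)).mul (hx1 n)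
      rwa [zero_add] at this
    · exact ⟨0, isHomogeneous_zero _ _ _, fun h => absurd h hn⟩
  choose L0 hL0 hL0' using hL'
  obtain ⟨s1, hs1, h1⟩ := descend_finset hφ hdown (a := a) (j := d) (Mon V (i + 1))
    (fun n => w * L0 n - C s0 * monomial n 1) (by
      intro n hn
      have h3 := Ideal.mul_mem_left _ (C (φ s0)) (hx2 n hn)
      have e : MvPolynomial.map φ (w * L0 n - C s0 * monomial n 1) =
          C (φ s0) * (MvPolynomial.map φ w * x n - monomial n 1) := by
        rw [map_sub, map_mul, map_mul, map_C, map_mon_one, ← hL0' n hn]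
        ring
      rw [e]
      exact h3)
  refine ⟨s1 * s0, mul_ne_zero hs1 hs0, ?_⟩
  intro B _ ψ hψ y hy
  refine ISCex.surj (Jid Δ (fun l v => ψ (a l v)) d) (MvPolynomial.map ψ w) i (ψ (s1 * s0)) hψ
    (fun n => MvPolynomial.map ψ (C s1 * L0 n)) (fun n => ?_) (fun n hn => ?_) y hy
  · have := (isHomogeneous_C V s1).mul (hL0 n)
    rw [zero_add] at this
    exact this.map ψ
  · have h3 := map_J ψ hdown (h1 n hn)
    have e : MvPolynomial.map ψ w * MvPolynomial.map ψ (C s1 * L0 n) -
        C (ψ (s1 * s0)) * monomial n 1 =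
        MvPolynomial.map ψ (C s1 * (w * L0 n - C s0 * monomial n 1)) := by
      simp only [map_mul, map_sub, map_C, map_mon_one]
      ring
    rw [e]
    exact h3

end CSLef.D6
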