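import Mathlib
import Pool.Agent.Work.MP_38c61c_al.D6.StmtsX

/-!
Block D6, item SurjF: surjectivity in degree `k` from injectivity in degree `h` by duality.
-/

namespace CSLef.D6

open MvPolynomial Finset

theorem pr_SurjF (h1 : D5.StXdualF) : StSurjF := by
  intro F _ V _ _ I e w h k hw he n1 inj n2 y hy
  have hnd : ∀ g : MvPolynomial V F, g.IsHomogeneous h →
      (∀ f : MvPolynomial V F, f.IsHomogeneous k →
        (e ∘ₗ LinearMap.mulLeft F w) (f * g) = 0) → g ∈ I := by
    intro g hg hf
    refine inj g hg (n1 (w * g) ?_ ?_)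
    · have h2 := hw.mul hg
      rwa [add_comm] at h2
    · intro f hfk
      have h2 := hf f hfk
      rw [LinearMap.comp_apply, LinearMap.mulLeft_apply] at h2
      rw [← h2]
      congr 1
      ring
  have hlam : ∀ g ∈ I, g.IsHomogeneous h → (e ∘ₗ LinearMap.mulLeft F y) g = 0 := by
    intro g hg _
    rw [LinearMap.comp_apply, LinearMap.mulLeft_apply]
    exact he _ (I.mul_mem_left y hg)
  obtain ⟨x, hx, hxg⟩ := h1 I (e ∘ₗ LinearMap.mulLeft F w) (e ∘ₗ LinearMap.mulLeft F y) h k
    hnd hlam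
  refine ⟨x, hx, n2 _ ?_ ?_⟩
  · have h2 := hw.mul hx
    rw [add_comm] at h2
    exact h2.sub hy
  · intro g hg
    have h2 := hxg g hg
    rw [LinearMap.comp_apply, LinearMap.comp_apply, LinearMap.mulLeft_apply,
      LinearMap.mulLeft_apply] at h2
    rw [sub_mul, map_sub, mul_assoc, h2, sub_self]

end CSLef.D6
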