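import Mathlib
import Pool.Agent.Work.MP_38c61c_al.D6.Defs

/-!
Block D6, part 1: statements (functionals, pairs, reduction, main identity), the analogue of
`D5/Stmts.lean` in dimension one higher. Up to `StDisT` the statements and the proofs are those of D5
with 5, 6 replaced by 6, 7. Each statement is about
one datum `D`; the items prove `Ctx D → (the listed earlier statements for D) → St D`.
In the docstrings `deg` is `D.dg`, `α` acts by `rename D.α`, `φ_H = D.ph H`, `ψ_(p,H) = D.ps p H`,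
`Θ_l = lin (D.a l)`, `y_v = X_v + X_(αv)`, `z_v = X_v - X_(αv)`, `sr = srIdeal R D.Δ`.
-/

namespace CSLef.D6

open MvPolynomial Finset

variable {V : Type} [Fintype V] [DecidableEq V] {R : Type} [CommRing R] [IsDomain R]

/-- PhX. Values of `φ_H` on multiples of a variable.
Proof. For `H ⊆ VP` and `T ⊆ H` the set `flip H T` contains exactly one of `p, αp` for every `p ∈ H`
(`αp` if `p ∈ T`, else `p`) and no other vertices (`αp ∉ VP` by `vp`). The coefficient of `ex S` in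
`X u * f` is `0` for `u ∉ S`, and the coefficient of `ex (S.erase u)` in `f` for `u ∈ S`. For `v ∈ H`:
in `φ_H (X v * f)` only the `T` with `v ∉ T` contribute, `flip H T` without `v` is
`flip (H.erase v) T`, and `T` runs over the subsets of `H.erase v`. In `φ_H (X (αv) * f)` only the
`T ∋ v` contribute, `flip H T` without `αv` is `flip (H.erase v) (T.erase v)`. For `v ∉ H` nothing
contributes. Last part: `flip H' T ⊆ flip H T` for `T ⊆ H' ⊆ H`. -/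
def StPhX (D : Dat V R) : Prop :=
  (∀ H ⊆ D.VP, ∀ v ∈ D.VP, ∀ f : MvPolynomial V R,
    (v ∈ H → D.ph H (X v * f) = D.ph (H.erase v) f ∧ D.ph H (X (D.α v) * f) = D.ph (H.erase v) f) ∧
    (v ∉ H → D.ph H (X v * f) = 0 ∧ D.ph H (X (D.α v) * f) = 0)) ∧
  (∀ H, D.Full H → ∀ H' ⊆ H, D.Full H')

/-- Ph. `φ_H` kills `sr`, all `z_v g`, and the ideal `J`.
Proof. `sr`: by `mem_sr_iff` the coefficients of `f ∈ sr` at exponents whose support is a face vanish,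
and the support of `ex (flip H T)` is `flip H T`, a face. `z_v f`: for `v ∈ VP` by `StPhX` the two
parts are equal; for `v ∉ VP`, `αv ∈ VP` and `z_v = - z_(αv)`. `J`: `mem_J_iff` and
`lin (a l) = ∑_(v ∈ VP) C (a l v) * (X v - X (αv))` (`lin_eq_VP`). -/
def StPh (D : Dat V R) : Prop := ∀ H, D.Full H →
  (∀ f ∈ srIdeal R D.Δ, D.ph H f = 0) ∧ (∀ v, ∀ f : MvPolynomial V R, D.ph H (D.z v * f) = 0) ∧
  (∀ f ∈ D.J, D.ph H f = 0)

/-- PhA. Invariance, homogeneity, derivations and values of `φ_H`.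
Proof. (a) `coeff_rename_inv` and: the image under `α` of `flip H T` is `flip H (H \ T)`; substitute
`T ↦ H \ T` in the sum. (b) the degree of `ex (flip H T)` is `|flip H T| = |H|`. (c) `coeff_dmap`.
(d), (e) `xm R S = monomial (ex S) 1`, and `T ↦ flip H T` is injective on subsets of `H ⊆ VP`; `ex` is
injective. (f) all flips of `H` are faces of `card` at most 6 and have `card = |H|`. -/
def StPhA (D : Dat V R) : Prop := ∀ H, D.Full H →
  (∀ f, D.ph H (rename D.α f) = D.ph H f) ∧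
  (∀ n, n ≠ H.card → ∀ f : MvPolynomial V R, f.IsHomogeneous n → D.ph H f = 0) ∧
  (∀ (δ : Derivation ℤ R R) (f : MvPolynomial V R), D.ph H (dmap δ f) = δ (D.ph H f)) ∧
  (∀ T ⊆ H, D.ph H (xm R (flip D.α H T)) = 1) ∧
  (∀ S : Finset V, (∀ T ⊆ H, S ≠ flip D.α H T) → D.ph H (xm R S) = 0) ∧
  H.card ≤ 6

/-- Ps. The functionals `ψ_(p,H)`.
Proof. `sr`: as in `StPh` (the exponents have support `flip H T`). `z_v f`, `v ∈ VP`, `v ≠ p`,
`v ∈ H`: for `v ∉ T` only `X v * f` contributes, with the coefficient of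
`ex (flip H T) + single (p^T) - single v` in `f`; for `v ∈ T` only `- X (αv) * f`, with the same
exponent for `T` and `T.erase v` and the same sign (the sign depends on `p ∈ T` only): cancellation.
`v ∉ H`: nothing contributes. `v = p`: for `p ∉ T` the coefficient of `ex (flip H T) + single p 1` in
`X p * f` is the coefficient of `ex (flip H T)` in `f`, and `X (αp) * f` contributes nothing; for
`p ∈ T` only `- X (αp) * f` contributes, minus the coefficient of `ex (flip H T)` in `f`, with the sign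
`-1` of `T`: plus. Third part: `lin_eq_VP` and the second part. -/
def StPs (D : Dat V R) : Prop := ∀ H, D.Full H → ∀ p ∈ H,
  (∀ f ∈ srIdeal R D.Δ, D.ps p H f = 0) ∧
  (∀ v ∈ D.VP, ∀ f : MvPolynomial V R, D.ps p H (D.z v * f) = if v = p then D.ph H f else 0) ∧
  (∀ l, ∀ f : MvPolynomial V R, D.ps p H (lin (D.a l) * f) = D.a l p * D.ph H f)

/-- Ev. The Euler derivation at `v ∈ VP`.
Proof. `E v` multiplies every monomial by the number (exponent of `v`) + (exponent of `αv`): prove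
this for monomials, it gives (a), (d) and (c) (each exponent `ex (flip H T)` has the number 1 if
`v ∈ H`, else 0) and (e) (`σ` is a face, so it does not contain both `v, αv`). (b) from
`lin = ∑ C (a l u) * X u`: only `u = v, αv` contribute, `a l (αv) = - a l v`, and `αv ≠ v`. -/
def StEv (D : Dat V R) : Prop := ∀ v ∈ D.VP,
  (∀ f ∈ srIdeal R D.Δ, D.E v f ∈ srIdeal R D.Δ) ∧
  (∀ l, D.E v (lin (D.a l)) = C (D.a l v) * D.z v) ∧
  (∀ H, D.Full H → ∀ f, D.ph H (D.E v f) = if v ∈ H then D.ph H f else 0) ∧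
  (∀ n, ∀ f : MvPolynomial V R, f.IsHomogeneous n → (D.E v f).IsHomogeneous n) ∧
  D.E v (xm R D.σ) = (if v ∈ D.σ ∨ D.α v ∈ D.σ then xm R D.σ else 0)

/-- P1. The duals `X_G`.
Proof. All by `nd` (or `tors` etc. not needed): `deg (z_v X_G g) = φ_G (z_v g) = 0` for all `g`
(`xh_dg`, `StPh`), and `z_v X_G` is homogeneous of degree `7 - |G|`, `|G| ≥ 1`; so `z_v X_G ∈ J`.
For `v ∈ VP \ G`: `deg (X_v X_G g) = φ_G (X_v g) = 0` (`StPhX`). For `v ∈ G`: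
`deg (X_v X_G g) = φ_G (X_v g) = φ_(G - v) g = deg (X_(G-v) g)`, the difference is homogeneous of
degree `7 - |G|`. For the last: `deg (α X_G * g) = deg (X_G * α g) = φ_G (α g) = φ_G g` (`dga`,
`rename α` is a ring homomorphism with square the identity, `StPhA`). -/
def StP1 (D : Dat V R) : Prop := ∀ G, D.Full G → G.Nonempty →
  (∀ v, D.z v * D.XH G ∈ D.J) ∧
  (∀ v ∈ D.VP, v ∉ G → X v * D.XH G ∈ D.J ∧ X (D.α v) * D.XH G ∈ D.J) ∧
  (∀ v ∈ G, X v * D.XH G - D.XH (G.erase v) ∈ D.J) ∧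
  rename D.α (D.XH G) - D.XH G ∈ D.J

/-- Tx. Values of `T m` from expansions; products of two elements of `J`.
Proof. `f = ∑ Θ_l g_l + s`, `s ∈ sr`: `T m (f h) = ∑_l T m (Θ_l g_l h) + T m (s h)`, and `s h ∈ sr`
(`Tlin`, `Tsr`). Second part: `mem_J_iff` for `f`, then `deg (g_m h) = 0` as `h ∈ J` (`dgJ`). -/
def StTx (D : Dat V R) : Prop :=
  (∀ (f : MvPolynomial V R) (g : ℕ → MvPolynomial V R),
    f - ∑ l ∈ range 6, lin (D.a l) * g l ∈ srIdeal R D.Δ →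
    ∀ m < 6, ∀ h, D.T m (f * h) = D.dg (g m * h)) ∧
  (∀ f ∈ D.J, ∀ h ∈ D.J, ∀ m < 6, D.T m (f * h) = 0)

/-- F3. Proof. Let `p ∈ H` (the case `p ∈ G` is the same with `G, H` exchanged). `z_v X_G ∈ J` (`StP1`),
write `z_v X_G = ∑ Θ_l g_l` modulo `sr`. By `StTx`, `T m (z_v X_G X_H) = deg (g_m X_H) = φ_H (g_m)`.
Apply `ψ_(p,H)`: `ψ (z_v X_G) = [v = p] φ_H (X_G) = [v = p] deg (X_H X_G)` and
`ψ (∑ Θ_l g_l) = ∑_l a_(l p) φ_H (g_l)` (`StPs`). -/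
def StF3 (D : Dat V R) : Prop := ∀ G H, D.Full G → D.Full H → G.Nonempty → H.Nonempty →
  G.card + H.card = 6 → ∀ p ∈ G ∪ H, ∀ v ∈ D.VP,
  ∑ m ∈ range 6, D.a m p * D.T m (D.z v * D.XH G * D.XH H) =
    if v = p then D.dg (D.XH G * D.XH H) else 0

/-- Eul. Proof. Let `L f = ∑_m a_(m v) T_m (z_v f) - deg (E_v f)`, linear. (1) `L` vanishes on
homogeneous elements of `J` of degree 6, indeed on all of `J`: for `f ∈ sr` by `Tsr` and `StEv`,
`dgJ`; for `f = Θ_l g`: `∑_m a_(m v) T_m (z_v Θ_l g) = a_(l v) deg (z_v g)` and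
`deg (E_v (Θ_l g)) = deg (a_(l v) z_v g) + deg (Θ_l E_v g) = a_(l v) deg (z_v g)` (`mem_J_iff` gives the
general element). (2) So `L f = deg f * L (xm σ)` for `f` homogeneous of degree 6 (`dgt`), and we need
`L (xm σ) = 0`. If neither `v` nor `αv` is in `σ`: `z_v xm σ ∈ sr` (six vertices, `card_le`), and
`E_v (xm σ) = 0`. For `u ∈ σ` put `B m u = T_m (X_u xm σ)`. Modulo `sr`,
`Θ_l xm σ = ∑_(u ∈ σ) a_(l u) X_u xm σ` (the other products have six vertices), so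
`∑_(u ∈ σ) a_(l u) B m u = [l = m]` (`Tlin`, `dgs`). Square matrices (`|σ| = 6`): hence also
`∑_m a_(m u) B m u = 1` for `u ∈ σ`. If `v ∈ σ`: `X_(αv) xm σ ∈ sr` (`no_pair`), so
`L (xm σ) = ∑ a_(m v) B m v - 1 = 0`. If `αv ∈ σ`: `z_v xm σ = - X_(αv) xm σ` modulo `sr` and
`a_(m v) = - a_(m, αv)`: `L (xm σ) = ∑ a_(m, αv) B m (αv) - 1 = 0`. -/
def StEul (D : Dat V R) : Prop := ∀ v ∈ D.VP, ∀ f : MvPolynomial V R, f.IsHomogeneous 6 →
  ∑ m ∈ range 6, D.a m v * D.T m (D.z v * f) = D.dg (D.E v f)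

/-- Non. Duals of meeting full sets are orthogonal.
Proof. Let `v ∈ G ∩ H`, `l = deg (X_G X_H)`. `StF3` with `p = v`: `∑_m a_(m v) T_m (z_v X_G X_H) = l`.
`StEul` for `f = X_G X_H` (homogeneous of degree 6): the same sum is
`deg (E_v (X_G) X_H) + deg (X_G E_v (X_H)) = φ_H (E_v X_G) + φ_G (E_v X_H) = φ_H (X_G) + φ_G (X_H) = 2 l`
(`StEv`, `xh_dg`). So `l = 2 l`, `l = 0`. -/
def StNon (D : Dat V R) : Prop := ∀ G H, D.Full G → D.Full H → G.card + H.card = 6 →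
  (G ∩ H).Nonempty → D.dg (D.XH G * D.XH H) = 0

/-- Der. Proof. `L f = deg (dmap δ f) - δ (deg f) - T_m (z_v f)` is additive and `R`-linear in `f`:
`dmap δ (r f) = δ(r) f + r dmap δ f`. It vanishes on `sr` (`dmap_sr`) and on `Θ_l g`:
`dmap δ (Θ_l) = [l = m] z_v`, so `deg (dmap δ (Θ_l g)) = [l = m] deg (z_v g) + 0`, `deg (Θ_l g) = 0`, and
`T_m (z_v Θ_l g) = [l = m] deg (z_v g)`. So it vanishes on `J`, and for `f` homogeneous of degree 6,
`L f = deg f * L (xm σ)` by `dgt`; `dmap δ (xm σ) = 0` (`dmap_prod_zero`) and `δ 1 = 0`, so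
`L (xm σ) = - T_m (z_v xm σ)`. -/
def StDer (D : Dat V R) : Prop := ∀ m < 6, ∀ v ∈ D.VP, ∀ δ : Derivation ℤ R R,
  (∀ l < 6, ∀ u, δ (D.a l u) =
    if m = l then (if u = v then 1 else if u = D.α v then -1 else 0) else 0) →
  ∀ f : MvPolynomial V R, f.IsHomogeneous 6 →
  D.dg (dmap δ f) = δ (D.dg f) + D.T m (D.z v * f) - D.T m (D.z v * xm R D.σ) * D.dg f

/-- NonT. Proof. `δ` from `der`. `f = X_G X_H`, `deg f = 0` by `StNon`. `StDer`:
`T_m (z_v X_G X_H) = deg (dmap δ X_G * X_H) + deg (X_G * dmap δ X_H) =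
φ_H (dmap δ X_G) + φ_G (dmap δ X_H) = δ (φ_H X_G) + δ (φ_G X_H) = 2 δ (deg (X_G X_H)) = 0`
(`xh_dg`, `StPhA` (c), `dmap_mul`). -/
def StNonT (D : Dat V R) : Prop := ∀ G H, D.Full G → D.Full H → G.card + H.card = 6 →
  (G ∩ H).Nonempty → ∀ v ∈ D.VP, ∀ m < 6, D.T m (D.z v * D.XH G * D.XH H) = 0

/-- DisT. Proof. Put `t_m = T_m (z_v X_G X_H)`. By `StF3`, `∑_m a_(m p) t_m = 0` for the five elements
`p` of `G ∪ H` (`v ∉ G ∪ H`). With `c'` an enumeration of `G ∪ H`, the matrix `(a_(l, c' i))` has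
nonzero determinant (`ind6`: it is not even divisible by 2), so `t = 0`
(`Matrix.eq_zero_of_mulVec_eq_zero`). -/
def StDisT (D : Dat V R) : Prop := ∀ G H, D.Full G → D.Full H → G.Nonempty → H.Nonempty →
  G.card + H.card = 6 → Disjoint G H → ∀ v ∈ D.VP, v ∉ G ∪ H → ∀ m < 6,
  D.T m (D.z v * D.XH G * D.XH H) = 0

/-- ExA. Exactness of first and second order, with two free vertices (new in dimension 6).
Proof. Let `w y = ∑ Θ_l g_l` modulo `sr` (`mem_J_iff`). Four facts.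
(1) `y_v y^2 ∈ J` for all `v`: `dmap δ`, `δ = ∂/∂c_v` (`derc`), of `w y ∈ J` (`dmap_J`), times `y`
(for `v ∉ VP` use `y_v = y_(αv)`); see D5 `I_Ex1.lean`.
(2) For `v ∈ VP`: `μ_m X_v y^2 - z_v g_m y ∈ J`: `dmap δ`, `δ = ∂/∂a_(m,v)` (`der`), of the relation, times
`y`; see D5 `I_Ex2.lean`.
(3) `α g_l + ε g_l - ε μ_l y + w q_l ∈ J`, where `αy = ε y + ∑ Θ_l q_l` modulo `sr`: apply `α` to the
relation and use `syz`; see D5 `I_Ex2.lean`.
(4) For `v ∈ VP` let `E` be the derivation `X v ↦ X v`, all the other variables to `0`; it maps `sr` to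
`sr` (it multiplies monomials by the exponent of `v`). `E w = λ_v X_v`, `λ_v = c_v + ∑ μ_l a_(l v)`,
`E Θ_l = a_(l v) X_v`. Apply `E` to the relation and multiply by `y`:
`λ_v X_v y^2 - X_v (∑_l a_(l v) g_l) y ∈ J`.
Put `f(u,v) = deg (X_u X_v y^2)`, `h_m(u,v) = deg (X_u X_v g_m y)` (`g_m` may be taken homogeneous of
degree 2, or not, it does not matter); both are symmetric in `u, v ∈ V`.
By (1) `f(u,αv) = - f(u,v)`. By (2) times `X_u`: `h_m(u,v) - h_m(u,αv) = μ_m f(u,v)` for `v ∈ VP`, and for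
`v ∉ VP` too (exchange `v` and `αv`, `f(u,αv) = - f(u,v)`). By symmetry
`h_m(αu,v) = h_m(u,v) - μ_m f(u,v)`, and then `h_m(αu,αv) = h_m(αu,v) - μ_m f(αu,v) = h_m(u,v)`. By `dga`
and (3): `h_m(αu,αv) = deg (X_u X_v α(g_m) α(y)) = deg (X_u X_v (- ε g_m + ε μ_m y - w q_m) ε y) =
- h_m(u,v) + μ_m f(u,v)`. So `2 h_m(u,v) = μ_m f(u,v)`. By (4) times `X_u`:
`λ_v f(u,v) = ∑_l a_(l v) h_l(u,v)` for `v ∈ VP`, so `(2 λ_v - ∑ μ_l a_(l v)) f(u,v) = 0`, and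
`2 λ_v - ∑ μ_l a_(l v) = wt v` is not `0` (it is odd: `wt_odd`). So `f = 0` (for `v ∉ VP` by
`f(u,αv) = - f(u,v)`), and `h = 0`. Finally `T_m (X_u X_v w y^2) = T_m (w y * (X_u X_v y)) =
deg (g_m X_u X_v y) = h_m(u,v) = 0` (`StTx`). -/
def StExA (D : Dat V R) : Prop := ∀ (ε : R) (y : MvPolynomial V R), ε * ε = 1 →
  y.IsHomogeneous 2 → D.w * y ∈ D.J → rename D.α y - ε • y ∈ D.J → ∀ u v,
  D.dg (X u * X v * y ^ 2) = 0 ∧ ∀ m < 6, D.T m (X u * X v * D.w * y ^ 2) = 0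

/-- Red. Proof: as D5 `StRed` (`I_Red.lean`), with sets of four elements. `x G = deg (y * xm G)` if
`G ∈ FS 4` and this is odd, otherwise `0`. By `nd2` (`i = 2, k = 4`) it suffices that
`deg ((y - K) xm G')` is even for every face `G'` with 4 elements. `StExA` gives the hypotheses of
`relb`, so exchanging one `X_q` by `X_(αq)` in a product of four variables does not change
`deg (... y)` modulo 2. The rest is the same. -/
def StRed (D : Dat V R) : Prop := ∀ (ε : R) (y : MvPolynomial V R), ε * ε = 1 →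
  y.IsHomogeneous 2 → D.w * y ∈ D.J → rename D.α y - ε • y ∈ D.J →
  ∃ x : Finset V → R, (∀ G, x G ≠ 0 → G ∈ D.FS 4 ∧ ¬ (2 : R) ∣ x G) ∧
    ∃ u : MvPolynomial V R, u.IsHomogeneous 2 ∧ y - D.KK x - (2 : R) • u ∈ D.J

/-- Four. Proof. `y = K + 2 u` satisfies the hypotheses of `StExA`: `K` is homogeneous of
degree 2 (`xh_hom`). `X_v X_v' (K + 2u)^2 = X_v X_v' K^2 + 4 X_v X_v' (u K + u^2)`, the same with `w`. -/
def StFour (D : Dat V R) : Prop := ∀ (ε : R) (x : Finset V → R) (u : MvPolynomial V R), ε * ε = 1 →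
  u.IsHomogeneous 2 → D.w * (D.KK x + (2 : R) • u) ∈ D.J →
  rename D.α (D.KK x + (2 : R) • u) - ε • (D.KK x + (2 : R) • u) ∈ D.J →
  (∀ v v', (4 : R) ∣ D.dg (X v * X v' * D.KK x ^ 2)) ∧
  (∀ v v', ∀ m < 6, (4 : R) ∣ D.T m (X v * X v' * D.w * D.KK x ^ 2))

/-- XK. Proof as D5: `X_r X_G ∈ J` for `r ∉ G`, `X_r X_G - X_(G - r) ∈ J` for `r ∈ G` (`StP1`), and
`G ↦ G - r` is a bijection from `{G ∈ FS 4 : r ∈ G}` onto `{H ∈ FS 3 : r ∉ H, insert r H ∈ FS 4}`; the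
other `H` have `x (insert r H) = 0`. Same for `X_(αr)`, because `z_r X_G ∈ J`. -/
def StXK (D : Dat V R) : Prop := ∀ x : Finset V → R, (∀ G, x G ≠ 0 → G ∈ D.FS 4) → ∀ r ∈ D.VP,
  X r * D.KK x - ∑ H ∈ (D.FS 3).filter (fun H => r ∉ H), C (x (insert r H)) * D.XH H ∈ D.J ∧
  X (D.α r) * D.KK x - ∑ H ∈ (D.FS 3).filter (fun H => r ∉ H), C (x (insert r H)) * D.XH H ∈ D.J

/-- WK. Proof as D5. -/
def StWK (D : Dat V R) : Prop := ∀ x : Finset V → R, (∀ G, x G ≠ 0 → G ∈ D.FS 4) →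
  D.wo * D.KK x - (2 : R) • ∑ H ∈ D.FS 3, C (∑ r ∈ D.VP \ H, D.wt r * x (insert r H)) * D.XH H ∈ D.J ∧
  D.w * D.KK x - ∑ H ∈ D.FS 3, C (∑ r ∈ D.VP \ H, D.wt r * x (insert r H)) * D.XH H ∈ D.J ∧
  (2 : R) • D.w = D.wo + ∑ l ∈ range 6, C (D.μ l) * lin (D.a l)

/-- Rm. Proof as D5, with triples `H`: `0 = deg (w (K + 2u) xm H)`. -/
def StRm (D : Dat V R) : Prop := ∀ (x : Finset V → R) (u : MvPolynomial V R),
  (∀ G, x G ≠ 0 → G ∈ D.FS 4) → D.w * (D.KK x + (2 : R) • u) ∈ D.J →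
  ∀ H ⊆ D.VP, H.card = 3 → (2 : R) ∣ ∑ r ∈ D.VP \ H, D.wt r * x (insert r H)

/-- the part of `x` on the sets containing `s` -/
def xs (s : V) (x : Finset V → R) : Finset V → R := fun G => if s ∈ G then x G else 0

/-- the part of `x` on the sets not containing `s` -/
def xr (s : V) (x : Finset V → R) : Finset V → R := fun G => if s ∈ G then 0 else x G

/-- MI0. Proof as D5 (`I_MI0.lean`). -/
def StMI0 (D : Dat V R) : Prop := ∀ x ν : Finset V → R, (∀ G, x G ≠ 0 → G ∈ D.FS 4) →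
  (∀ H ∈ D.FS 3, 2 * ν H = - ∑ r ∈ D.VP \ H, D.wt r * x (insert r H)) →
  D.w * D.KK x + (2 : R) • D.NN ν ∈ D.J ∧
  D.wo * D.KK x + (4 : R) • D.NN ν ∈ D.J ∧
  (∀ s ∈ D.VP, D.KK x = D.KK (xs s x) + D.KK (xr s x) ∧ D.NN ν = D.NN (xs s ν) + D.NN (xr s ν) ∧
    D.wo * D.KK (xs s x) + (4 : R) • D.NN (xs s ν) - C (2 * D.wt s) * X s * D.KK (xs s x) ∈ D.J ∧
    D.wo * D.KK (xr s x) + (4 : R) • D.NN (xr s ν) + C (2 * D.wt s) * X s * D.KK (xs s x) ∈ D.J ∧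
    X s * D.KK (xr s x) ∈ D.J ∧ (∀ v, D.z v * D.KK x ∈ D.J) ∧ (∀ v, D.z v * D.NN ν ∈ D.J) ∧
    D.z s * D.KK (xs s x) ∈ D.J ∧ D.z s * D.KK (xr s x) ∈ D.J)

/-- MI2. `b` is an expansion of `αK - K`; two vertices `u ≠ s`.
Proof. `2 w = wo + ∑ μ_l Θ_l`: `2 T_m (X_u X_s w K^2) = T_m (X_u X_s wo K^2) + μ_m deg (X_u X_s K^2)`. By
`Ta`, `T_m (X_u X_s wo K^2) = - T_m (X_(αu) X_(αs) wo (αK)^2)`, and `αK = K + ∑ Θ_l b_l` modulo `sr`:
`= - T_m (X_(αu) X_(αs) wo K^2) - 2 deg (X_(αu) X_(αs) wo K b_m)`. Since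
`X_u X_s = X_(αu) X_(αs) + z_u X_s + X_(αu) z_s`,
`2 T_m (X_u X_s wo K^2) = T_m (z_u X_s wo K^2) + T_m (X_(αu) z_s wo K^2) - 2 deg (X_(αu) X_(αs) wo K b_m)`.
`z_u K, z_s K ∈ J` and `wo K + 4 N ∈ J`: the first two values are `- 4 T_m (z_u X_s N K)` and
`- 4 T_m (z_s X_(αu) N K)` (`StTx`), and `T_m (z_s X_(αu) N K) = T_m (z_s X_u N K)`, because
`z_s K ∈ J` and `z_u N ∈ J`. And `deg (X_(αu) X_(αs) wo K b_m) = - 4 deg (X_(αu) X_(αs) N b_m) =
- 4 ∑_H ν(H) φ_H (X_(αu) X_(αs) b_m) = - 4 ∑_q ν(u s q) φ_q (b_m)` over the `H = {u,s,q} ∈ FS 3`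
(`StPhX` twice). Divide by 2. -/
def StMI2 (D : Dat V R) : Prop := ∀ x ν : Finset V → R, (∀ G, x G ≠ 0 → G ∈ D.FS 4) →
  (∀ H ∈ D.FS 3, 2 * ν H = - ∑ r ∈ D.VP \ H, D.wt r * x (insert r H)) →
  ∀ b : ℕ → MvPolynomial V R,
  rename D.α (D.KK x) - D.KK x - ∑ l ∈ range 6, lin (D.a l) * b l ∈ srIdeal R D.Δ →
  ∀ u ∈ D.VP, ∀ s ∈ D.VP, u ≠ s → ∀ m < 6, 2 * D.T m (X u * X s * D.w * D.KK x ^ 2) =
    - (2 * (D.T m (D.z u * X s * D.NN ν * D.KK x) + D.T m (D.z s * X u * D.NN ν * D.KK x))) +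
    4 * ∑ q ∈ ((D.VP.erase s).erase u).filter (fun q => ({u, s, q} : Finset V) ∈ D.FS 3),
      ν {u, s, q} * D.ph {q} (b m) +
    D.μ m * D.dg (X u * X s * D.KK x ^ 2)

/-- MI3. Proof as D5 with the additional factor `X_u`. -/
def StMI3 (D : Dat V R) : Prop := ∀ x ν : Finset V → R, (∀ G, x G ≠ 0 → G ∈ D.FS 4) →
  (∀ H ∈ D.FS 3, 2 * ν H = - ∑ r ∈ D.VP \ H, D.wt r * x (insert r H)) →
  ∀ u ∈ D.VP, ∀ s ∈ D.VP, u ≠ s → ∀ m < 6,
  2 * (D.T m (D.z s * X u * D.NN (xs s ν) * D.KK (xr s x)) -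
    D.T m (D.z s * X u * D.NN (xr s ν) * D.KK (xs s x))) =
    D.wt s * D.T m (D.z s * X u * X s * D.KK (xs s x) ^ 2)

/-- MI4. Proof. Expand `N_s` in the `H ∋ s`. If `u ∉ H`, `X_u X_H ∈ J` and `z_s K_r ∈ J`, so the value is 0
(`StTx`). Let `H = {u,s,q} ∈ FS 3`. `X_s K_r = ∑ Θ_l h_l` modulo `sr`, so
`T_m (X_s K_r X_u X_H) = deg (h_m X_u X_H) = φ_H (X_u h_m)`. Apply `α` as in D5:
`X_(αs) K_r = - ∑ Θ_l (α h_l + X_(αs) b_l)` modulo `sr`, so
`T_m (X_(αs) K_r X_u X_H) = - φ_H (X_u α h_m) - φ_H (X_u X_(αs) b_m) = - φ_H (X_u h_m) - φ_q (b_m)`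
(`StPhX`, `StPhA`: `φ_H (X_u α h) = φ_(H - u) (α h) = φ_(H - u) h = φ_H (X_u h)`). Hence
`T_m (z_s X_u X_H K_r) = 2 φ_H (X_u h_m) + φ_q (b_m)`; sum with `ν(H)`. -/
def StMI4 (D : Dat V R) : Prop := ∀ x ν : Finset V → R, (∀ G, x G ≠ 0 → G ∈ D.FS 4) →
  ∀ u ∈ D.VP, ∀ s ∈ D.VP, u ≠ s → ∀ b : ℕ → MvPolynomial V R,
  rename D.α (D.KK (xr s x)) - D.KK (xr s x) - ∑ l ∈ range 6, lin (D.a l) * b l ∈ srIdeal R D.Δ →
  ∀ m < 6, ∃ ρ : R, D.T m (D.z s * X u * D.NN (xs s ν) * D.KK (xr s x)) =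
    ∑ q ∈ ((D.VP.erase s).erase u).filter (fun q => ({u, s, q} : Finset V) ∈ D.FS 3),
      ν {u, s, q} * D.ph {q} (b m) + 2 * ρ

/-- MI5. Proof. Expand in the pairs `G ∈ FS 4`, `H ∈ FS 3`. If `u ∉ H`: `X_u X_H ∈ J`, `z_s X_G ∈ J`, value 0.
If `u ∈ H`: `X_u X_H` may be replaced by `X_(H - u)` (`StP1`, `StTx`), and `|G| + |H - u| = 6`.
`N_s K_s`: `s ∈ G ∩ (H - u)` (as `s ≠ u`), `StNonT`. `N_r K_r`: `s ∉ G ∪ H`; if `G` meets `H - u`
`StNonT`, otherwise `StDisT` (with `v = s`). -/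
def StMI5 (D : Dat V R) : Prop := ∀ x ν : Finset V → R, ∀ u ∈ D.VP, ∀ s ∈ D.VP, u ≠ s → ∀ m < 6,
  D.T m (D.z s * X u * D.NN (xs s ν) * D.KK (xs s x)) = 0 ∧
  D.T m (D.z s * X u * D.NN (xr s ν) * D.KK (xr s x)) = 0

/-- Star. The main congruence; `b`, `bs`, `bu` are expansions for `K`, for the part of `K` without `s`,
for the part without `u`.
Proof. Multiply out with MI0, MI5: `T_m (z_s X_u N K) = A + B`, `A = T_m (z_s X_u N_s K_r)`,
`B = T_m (z_s X_u N_r K_s)` (parts with respect to `s`), `2 (A - B) = wt_s T_m (z_s X_u X_s K_s^2)` (MI3),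
so `2 T_m (z_s X_u N K) = 4 A - wt_s T_m (z_s X_u X_s K_s^2)`, and
`A = ∑_q ν(u s q) φ_q (bs_m) + 2 ρ` (MI4). The same with `u` and `s` exchanged (`{s,u,q} = {u,s,q}`; use
`MI3`, `MI4`, `MI5` for the pair `(s, u)`). Put both into MI2, whose left side is divisible by 8. -/
def StStar (D : Dat V R) : Prop := ∀ x ν : Finset V → R, (∀ G, x G ≠ 0 → G ∈ D.FS 4) →
  (∀ H ∈ D.FS 3, 2 * ν H = - ∑ r ∈ D.VP \ H, D.wt r * x (insert r H)) →
  (∀ v v', ∀ m < 6, (4 : R) ∣ D.T m (X v * X v' * D.w * D.KK x ^ 2)) →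
  ∀ u ∈ D.VP, ∀ s ∈ D.VP, u ≠ s → ∀ b bs bu : ℕ → MvPolynomial V R,
  rename D.α (D.KK x) - D.KK x - ∑ l ∈ range 6, lin (D.a l) * b l ∈ srIdeal R D.Δ →
  rename D.α (D.KK (xr s x)) - D.KK (xr s x) - ∑ l ∈ range 6, lin (D.a l) * bs l ∈
    srIdeal R D.Δ →
  rename D.α (D.KK (xr u x)) - D.KK (xr u x) - ∑ l ∈ range 6, lin (D.a l) * bu l ∈
    srIdeal R D.Δ →
  ∀ m < 6, (8 : R) ∣ D.wt s * D.T m (D.z s * X u * X s * D.KK (xs s x) ^ 2) +
    D.wt u * D.T m (D.z u * X s * X u * D.KK (xs u x) ^ 2) +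
    D.μ m * D.dg (X u * X s * D.KK x ^ 2) +
    4 * ∑ q ∈ ((D.VP.erase s).erase u).filter (fun q => ({u, s, q} : Finset V) ∈ D.FS 3),
      ν {u, s, q} * (D.ph {q} (b m) - D.ph {q} (bs m) - D.ph {q} (bu m))

end CSLef.D6
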