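import Mathlib
import Pool.Agent.Work.MP_38c61c_al.D6.Stmts
import Pool.Agent.Work.MP_38c61c_al.D5.Stmts2

/-!
Block D6, part 2: Tate classes, the congruence modulo 4, the final argument, for full sets with four
elements and two fixed vertices `u, s`. Port of `D5/Stmts2.lean`.
Notation as in `Stmts.lean`; `W_I` is the product of the `D.W i`, `i ∈ I`; `ω = D.om`; even means
divisible by `2` in `R`, and `2` is prime.
-/

namespace CSLef.D6

open MvPolynomial Finset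

variable {V : Type} [Fintype V] [DecidableEq V] {R : Type} [CommRing R] [IsDomain R]

/-- Wa. Port of D5 `I_Wa.lean`. -/
def StWa (D : Dat V R) : Prop :=
  (∀ l, rename D.α (D.W l) = D.W l - lin (D.a l)) ∧
  (∀ I : Finset ℕ, (∏ i ∈ I, D.W i).IsHomogeneous I.card) ∧
  (∀ I ⊆ range 6, rename D.α (∏ i ∈ I, D.W i) - ∏ i ∈ I, D.W i ∈ D.J)

/-- Sym. Port of D5 `I_Sym.lean`. -/
def StSym (D : Dat V R) : Prop := ∀ M : MvPolynomial V R, rename D.α M - M ∈ D.J → ∀ g,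
  D.dg ((g + rename D.α g) * M) = 2 * D.dg (g * M)

/-- WW. Port of D5 `I_WW.lean`. -/
def StWW (D : Dat V R) : Prop := ∀ I ⊆ range 6, ∀ K ⊆ range 6, (I ∩ K).Nonempty →
  (2 : R) ∣ D.dg ((∏ i ∈ I, D.W i) * ∏ i ∈ K, D.W i)

/-- Om. Port of D5 `I_Om.lean`. -/
def StOm (D : Dat V R) : Prop := ¬ (2 : R) ∣ D.om

/-- the sum over the ordered pairs of `I` of `a l r * a i q` -/
noncomputable def p2 (D : Dat V R) (q r : V) (I : Finset ℕ) : R :=
  ∑ l ∈ I, ∑ i ∈ I.erase l, D.a l r * D.a i q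

/-- the permanent of the rows `i, j, k` in the columns `g1, g2, g3` -/
def pm3 (a : ℕ → V → R) (g1 g2 g3 : V) (i j k : ℕ) : R :=
  a i g1 * a j g2 * a k g3 + a i g1 * a j g3 * a k g2 +
  a i g2 * a j g1 * a k g3 + a i g2 * a j g3 * a k g1 +
  a i g3 * a j g1 * a k g2 + a i g3 * a j g2 * a k g1

/-- the permanent of the rows `i, j, k, l` in the columns `g1, g2, g3, g4` -/
def pm4 (a : ℕ → V → R) (g1 g2 g3 g4 : V) (i j k l : ℕ) : R :=
  a i g1 * pm3 a g2 g3 g4 j k l + a i g2 * pm3 a g1 g3 g4 j k l +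
  a i g3 * pm3 a g1 g2 g4 j k l + a i g4 * pm3 a g1 g2 g3 j k l

/-- the permanent of the rows `i, j` in the columns `q, r` -/
def pm2 (a : ℕ → V → R) (q r : V) (i j : ℕ) : R := a i q * a j r + a i r * a j q

/-- PhW. Port of D5 `I_PhW.lean`; the last part is one more step with (a). -/
def StPhW (D : Dat V R) : Prop :=
  (∀ H ⊆ D.VP, ∀ l, ∀ f : MvPolynomial V R,
    D.ph H (D.W l * f) = ∑ p ∈ H, D.a l p * D.ph (H.erase p) f) ∧
  D.ph ∅ 1 = 1 ∧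
  (∀ q ∈ D.VP, ∀ i, D.ph {q} (D.W i) = D.a i q) ∧
  (∀ q ∈ D.VP, ∀ r ∈ D.VP, q ≠ r → ∀ I : Finset ℕ, I.card = 2 →
    D.ph {q, r} (∏ i ∈ I, D.W i) = p2 D q r I) ∧
  (∀ g1 ∈ D.VP, ∀ g2 ∈ D.VP, ∀ g3 ∈ D.VP, ∀ g4 ∈ D.VP, g1 ≠ g2 → g1 ≠ g3 → g1 ≠ g4 → g2 ≠ g3 →
    g2 ≠ g4 → g3 ≠ g4 → ∀ i j k l,
    D.ph {g1, g2, g3, g4} (D.W i * D.W j * D.W k * D.W l) = pm4 D.a g1 g2 g3 g4 i j k l)

/-- Lap. Laplace expansion modulo 2, 6 x 6.
Proof. Put the columns `q, r` first (this changes the determinant by a sign, irrelevant modulo 2) and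
expand twice along the first row with `Matrix.det_succ_row_zero` (`Fin.sum_univ_succ`,
`Fin.succAbove`): `det = ∑_l ± a_(l r) ∑_(i ≠ l) ± a_(i q) det (the rows g1..g4, the other four
columns)`; the 4 x 4 determinant agrees with `pm4` modulo 2 (24 products with signs; prove this once
as a lemma for four arbitrary indices and four arbitrary columns). Treat the fifteen `pm4` as atoms.
Do not expand everything (720 terms). -/
def StLap : Prop := ∀ {V : Type} {R : Type} [CommRing R] (a : ℕ → V → R) (g1 g2 g3 g4 q r : V),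
  (2 : R) ∣ (pm4 a g1 g2 g3 g4 2 3 4 5 * pm2 a q r 0 1 + pm4 a g1 g2 g3 g4 1 3 4 5 * pm2 a q r 0 2 +
    pm4 a g1 g2 g3 g4 1 2 4 5 * pm2 a q r 0 3 + pm4 a g1 g2 g3 g4 1 2 3 5 * pm2 a q r 0 4 +
    pm4 a g1 g2 g3 g4 1 2 3 4 * pm2 a q r 0 5 + pm4 a g1 g2 g3 g4 0 3 4 5 * pm2 a q r 1 2 +
    pm4 a g1 g2 g3 g4 0 2 4 5 * pm2 a q r 1 3 + pm4 a g1 g2 g3 g4 0 2 3 5 * pm2 a q r 1 4 +
    pm4 a g1 g2 g3 g4 0 2 3 4 * pm2 a q r 1 5 + pm4 a g1 g2 g3 g4 0 1 4 5 * pm2 a q r 2 3 +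
    pm4 a g1 g2 g3 g4 0 1 3 5 * pm2 a q r 2 4 + pm4 a g1 g2 g3 g4 0 1 3 4 * pm2 a q r 2 5 +
    pm4 a g1 g2 g3 g4 0 1 2 5 * pm2 a q r 3 4 + pm4 a g1 g2 g3 g4 0 1 2 4 * pm2 a q r 3 5 +
    pm4 a g1 g2 g3 g4 0 1 2 3 * pm2 a q r 4 5) -
    Matrix.det (fun i l : Fin 6 => a l ((![g1, g2, g3, g4, q, r] : Fin 6 → V) i))

/-- SumW. Port of D5 `I_SumW.lean` (the fifteen pairs). -/
def StSumW (D : Dat V R) : Prop := ∀ g1 ∈ D.VP, ∀ g2 ∈ D.VP, ∀ g3 ∈ D.VP, ∀ g4 ∈ D.VP,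
  g1 ≠ g2 → g1 ≠ g3 → g1 ≠ g4 → g2 ≠ g3 → g2 ≠ g4 → g3 ≠ g4 → ∀ q r,
  (2 : R) ∣ ∑ I ∈ (range 6).powersetCard 2,
    D.ph {g1, g2, g3, g4} (∏ i ∈ range 6 \ I, D.W i) * p2 D q r I - D.dt ![g1, g2, g3, g4, q, r]

/-- Beta. Port of D5 `I_Beta.lean` (`|G| = 4`, `X_G` of degree 2). -/
def StBeta (D : Dat V R) : Prop := ∀ G ∈ D.FS 4, ∃ (β : Finset ℕ → R) (g v : MvPolynomial V R),
  D.XH G - ∑ I ∈ (range 6).powersetCard 2, C (β I) * ∏ i ∈ I, D.W i -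
    (g + rename D.α g) - (2 : R) • v ∈ D.J ∧
  ∀ I ∈ (range 6).powersetCard 2, (2 : R) ∣ D.om * β I - D.ph G (∏ i ∈ range 6 \ I, D.W i)

/-- TA1. Port of D5 `I_TA1.lean`. -/
def StTA1 (D : Dat V R) : Prop := ∀ g1 g2 g3 g4 q r, g1 ≠ g2 → g1 ≠ g3 → g1 ≠ g4 → g2 ≠ g3 →
  g2 ≠ g4 → g3 ≠ g4 → q ≠ r →
  ({g1, g2, g3, g4} : Finset V) ∈ D.FS 4 → ({q, r} : Finset V) ∈ D.FS 2 →
  (2 : R) ∣ D.om * D.dg (D.XH {g1, g2, g3, g4} * D.XH {q, r}) - D.dt ![g1, g2, g3, g4, q, r]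

/-- TA2. Port of D5 `I_TA2.lean`. -/
def StTA2 (D : Dat V R) : Prop := ∀ g1 g2 g3 g4, g1 ≠ g2 → g1 ≠ g3 → g1 ≠ g4 → g2 ≠ g3 →
  g2 ≠ g4 → g3 ≠ g4 →
  ({g1, g2, g3, g4} : Finset V) ∈ D.FS 4 → ∀ b : ℕ → MvPolynomial V R,
  rename D.α (D.XH {g1, g2, g3, g4}) - D.XH {g1, g2, g3, g4} - ∑ l ∈ range 6, lin (D.a l) * b l ∈
    srIdeal R D.Δ → ∀ q, D.Full {q} → ∀ r,
  (2 : R) ∣ D.om * ∑ m ∈ range 6, D.a m r * D.ph {q} (b m) - D.dt ![g1, g2, g3, g4, q, r]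

/-- Int. Two full sets with four elements have at least two common elements.
Proof. Suppose `|G ∩ G'| ≤ 1`. `G' \ G` has at least three elements; take `H ⊆ G' \ G` with two elements;
`G' \ H = {h, h'}` and one of them, say `h`, is not in `G`. By `StP1`, modulo `J`:
`X_h X_(G') = X_(G' - h)`, `X_(h') X_(G' - h) = X_H`, so `X_H = X_h X_(h') X_(G')`, and `X_h X_G ∈ J`, so
`deg (X_G X_H) = 0`. `StTA1`: `dt` of the six distinct columns `G`, `H` is even, against `ind6`. -/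
def StInt (D : Dat V R) : Prop := ∀ G ∈ D.FS 4, ∀ G' ∈ D.FS 4, 2 ≤ (G ∩ G').card

/-- the coefficient functions in question -/
structure Gd (D : Dat V R) (x : Finset V → R) : Prop where
  supp : ∀ G, x G ≠ 0 → G ∈ D.FS 4 ∧ ¬ (2 : R) ∣ x G
  four : ∀ v v', (4 : R) ∣ D.dg (X v * X v' * D.KK x ^ 2)
  fourT : ∀ v v', ∀ m < 6, (4 : R) ∣ D.T m (X v * X v' * D.w * D.KK x ^ 2)
  rm : ∀ H ⊆ D.VP, H.card = 3 → (2 : R) ∣ ∑ r ∈ D.VP \ H, D.wt r * x (insert r H)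

/-- Clo. Port of D5 `I_Clo.lean`. -/
def StClo (D : Dat V R) : Prop := ∀ x, Gd D x → ∀ G, x G ≠ 0 → ∀ H ⊆ G, H.card = 3 →
  ∃ G', x G' ≠ 0 ∧ G' ≠ G ∧ H ⊆ G'

/-- `u, s` and four other vertices that contain the link of `{u, s}` -/
structure HQ (D : Dat V R) (x : Finset V → R) (u s : V) (q : Fin 4 → V) : Prop where
  u_mem : u ∈ D.VP
  s_mem : s ∈ D.VP
  us : u ≠ s
  q_mem : ∀ i, q i ∈ D.VP
  q_inj : Function.Injective q
  q_ne : ∀ i, q i ≠ s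
  q_ne' : ∀ i, q i ≠ u
  link : ∀ G, x G ≠ 0 → u ∈ G → s ∈ G → ∃ i j, i ≠ j ∧ G = {u, s, q i, q j}

/-- the value `x` at `{u, s, q i, q j}` -/
def xq (x : Finset V → R) (u s : V) (q : Fin 4 → V) (i j : Fin 4) : R := x {u, s, q i, q j}

/-- `deg (X_u X_s X_(u s i j) X_(u s k l))` -/
noncomputable def lam (D : Dat V R) (u s : V) (q : Fin 4 → V) (i j k l : Fin 4) : R :=
  D.dg (X u * X s * D.XH {u, s, q i, q j} * D.XH {u, s, q k, q l})

/-- half of `deg (X_u X_s K^2)` -/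
noncomputable def E4 (D : Dat V R) (x : Finset V → R) (u s : V) (q : Fin 4 → V) : R :=
  xq x u s q 0 1 * xq x u s q 2 3 * lam D u s q 0 1 2 3 +
  xq x u s q 0 2 * xq x u s q 1 3 * lam D u s q 0 2 1 3 +
  xq x u s q 0 3 * xq x u s q 1 2 * lam D u s q 0 3 1 2

/-- the sum over the three perfect matchings -/
def P4 (x : Finset V → R) (u s : V) (q : Fin 4 → V) : R :=
  xq x u s q 0 1 * xq x u s q 2 3 + xq x u s q 0 2 * xq x u s q 1 3 +
  xq x u s q 0 3 * xq x u s q 1 2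

/-- the weighted vertex sum at `q k` -/
noncomputable def S4 (D : Dat V R) (x : Finset V → R) (u s : V) (q : Fin 4 → V) (k : Fin 4) : R :=
  ∑ l ∈ Finset.univ.erase k, D.wt (q l) * xq x u s q k l

/-- the quadratic expression for the triangle `0, 1, 2` -/
noncomputable def C4 (D : Dat V R) (x : Finset V → R) (u s : V) (q : Fin 4 → V) : R :=
  D.wt (q 0) * xq x u s q 0 1 * xq x u s q 0 2 + D.wt (q 1) * xq x u s q 0 1 * xq x u s q 1 2 +
  D.wt (q 2) * xq x u s q 0 2 * xq x u s q 1 2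

/-- Pe. Port of D5 `I_Pe.lean`. -/
def StPe (D : Dat V R) : Prop :=
  (∀ (c' : Fin 6 → V) (p : Equiv.Perm (Fin 6)),
    D.dt (c' ∘ p) = D.dt c' ∨ D.dt (c' ∘ p) = - D.dt c') ∧
  (∀ c' : Fin 6 → V, ¬ Function.Injective c' → D.dt c' = 0)

/-- Ve. Port of D5 `I_Ve.lean`, with `{u, s, q i}` in the place of `{s, q i}`. -/
def StVe (D : Dat V R) : Prop := ∀ x u s q, Gd D x → HQ D x u s q →
  (∀ i, ∑ r ∈ D.VP \ {u, s, q i}, D.wt r * x (insert r {u, s, q i}) = S4 D x u s q i) ∧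
  (∀ i, (2 : R) ∣ S4 D x u s q i) ∧
  (∀ i, S4 D x u s q i ≠ 0 → ({u, s, q i} : Finset V) ∈ D.FS 3 ∧ D.Full {q i}) ∧
  (∀ q' ∈ D.VP, q' ≠ u → q' ≠ s → (∀ i, q' ≠ q i) →
    ∑ r ∈ D.VP \ {u, s, q'}, D.wt r * x (insert r {u, s, q'}) = 0)

/-- Es. Only the pairs of sets with intersection `{u, s}` contribute to `deg (X_u X_s K^2)`.
Proof. If `s ∉ G` then `X_s X_G ∈ J`, the same for `u`; for `u, s ∈ G'`:
`X_u X_s X_(G') = X_((G' - u) - s)` modulo `J` (`StP1` twice). So `deg (X_u X_s X_G X_(G'))` is `0` unless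
`u, s ∈ G ∩ G'`, and then it is `deg (X_G X_((G' - u) - s))`, which is `0` by `StNon` if `G` meets
`(G' - u) - s`. Expand the square. -/
def StEs (D : Dat V R) : Prop := ∀ x : Finset V → R, (∀ G, x G ≠ 0 → G ∈ D.FS 4) → ∀ u ∈ D.VP,
  ∀ s ∈ D.VP, u ≠ s →
  (∀ G ∈ D.FS 4, ∀ G' ∈ D.FS 4, u ∈ G → s ∈ G → u ∈ G' → s ∈ G' →
    D.dg (X u * X s * D.XH G * D.XH G') = D.dg (D.XH G * D.XH ((G'.erase u).erase s)) ∧
    (G ∩ G' ≠ {u, s} → D.dg (X u * X s * D.XH G * D.XH G') = 0)) ∧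
  D.dg (X u * X s * D.KK x ^ 2) =
    ∑ G ∈ (D.FS 4).filter (fun G => u ∈ G ∧ s ∈ G),
      ∑ G' ∈ (D.FS 4).filter (fun G' => u ∈ G' ∧ s ∈ G' ∧ G ∩ G' = {u, s}),
      x G * x G' * D.dg (X u * X s * D.XH G * D.XH G')

/-- E4. Port of D5 `I_E4.lean`. -/
def StE4 (D : Dat V R) : Prop := ∀ x u s q, Gd D x → HQ D x u s q →
  D.dg (X u * X s * D.KK x ^ 2) = 2 * E4 D x u s q ∧ (2 : R) ∣ E4 D x u s q

/-- T4. Proof. Expand: `T_m (z_s X_u X_s X_G X_(G'))`, `s ∈ G, G'`. If `u ∉ G'` then `X_u X_(G') ∈ J`, and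
`z_s X_G ∈ J`, so the value is 0 (`StTx`); by symmetry also if `u ∉ G` (use `z_s X_(G') ∈ J`). If
`u ∈ G ∩ G'`: replace `X_u X_s X_(G')` by `X_((G' - u) - s)`; if `G` meets this set the value is 0
(`StNonT`), otherwise the union is `{u, s, q 0, q 1, q 2, q 3}`, `p = q r` is in it, and `StF3` with
`v = s ≠ p` gives 0. The second part is the first with `u` and `s` exchanged. -/
def StT4 (D : Dat V R) : Prop := ∀ x u s q, Gd D x → HQ D x u s q → ∀ r : Fin 4,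
  ∑ m ∈ range 6, D.a m (q r) * D.T m (D.z s * X u * X s * D.KK (xs s x) ^ 2) = 0 ∧
  ∑ m ∈ range 6, D.a m (q r) * D.T m (D.z u * X s * X u * D.KK (xs u x) ^ 2) = 0

/-- Dag1. The main congruence contracted with the column `q 3`.
Proof. Choose `ν` by `Gd.rm`, and for every `G ∈ FS 4` an expansion `bG` of `αX_G - X_G` (`StP1`,
`mem_J_iff`). Use `StStar` with `b m = ∑_G C (x G) * bG G m`, `bs m = ∑_G C (xr s x G) * bG G m`,
`bu m = ∑_G C (xr u x G) * bG G m`. So the coefficient of `x(G) φ_(q') (bG G m)` in the last sum is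
`1 - [s ∉ G] - [u ∉ G]`: `1` if `u, s ∈ G`, `0` if exactly one is in `G`, `-1` if none is. Put
`Y i j k = ∑_m a_(m, q 3) φ_(q k) (bG {u, s, q i, q j} m)`; (1) is `StTA2`. (2): multiply the congruences
by `a_(m, q 3)` and add: `StT4` kills the first two terms, the third is
`(∑_m μ_m a_(m, q 3)) * 2 E4` (`StE4`), the fourth is `4 ∑_(q') ν(u s q') ∑_G ± x(G) Z(G, q')`,
`Z(G, q') = ∑_m a_(m, q 3) φ_(q') (bG G m)`. By `StVe`, `ν(u s q') = 0` unless `q'` is some `q k`, and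
`2 ν(u s q_k) = - S4 k`. The `G` with `u, s ∉ G`: if `S4 k ≠ 0` some `x {u, s, q k, q l} ≠ 0`, so `G` has two
common elements with `{u, s, q k, q l}` (`StInt`), hence `q k ∈ G`, and `Z(G, q k)` is even: `ω Z` is
`dt` with the column `q k` twice modulo 2 (`StTA2`, `StPe`), and `ω` is odd (`StOm`). As `S4 k` is even,
these `G` contribute `0` modulo 8. So `8 ∣ 2 (∑ μ a) E4 - 2 ∑_k S4 k ∑_(i<j) x_ij Y i j k`. -/
def StDag1 (D : Dat V R) : Prop := ∀ x u s q, Gd D x → HQ D x u s q →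
  ∃ Y : Fin 4 → Fin 4 → Fin 4 → R,
  (∀ i j k, i ≠ j → xq x u s q i j ≠ 0 → D.Full {q k} →
    (2 : R) ∣ D.om * Y i j k - D.dt ![u, s, q i, q j, q k, q 3]) ∧
  (4 : R) ∣ (∑ m ∈ range 6, D.μ m * D.a m (q 3)) * E4 D x u s q -
    ∑ k, S4 D x u s q k * ∑ i, ∑ j ∈ Finset.univ.filter (fun j => i < j),
      xq x u s q i j * Y i j k

/-- Dag2. Port of D5 `I_Dag2.lean`. -/
def StDag2 (D : Dat V R) : Prop := ∀ x u s q, Gd D x → HQ D x u s q →
  (4 : R) ∣ D.om * D.wt (q 3) * E4 D x u s q -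
    D.dt ![u, s, q 0, q 1, q 2, q 3] * (D.wt (q 3) * P4 x u s q + 2 * C4 D x u s q)

/-- Leq. Proof. Port of D5 `I_Leq.lean`. If all three products vanish, `P4 = E4 = 0`. Otherwise say
`x_ij x_kl ≠ 0` with complementary pairs: by `StClo` the triple `{u, q i, q j}` is in another set
`{u, q i, q j, t}` of the support, `t ≠ s`; it has two common elements with `{u, s, q k, q l}` (`StInt`), so
`t = q k` or `t = q l`: a full set `T = {u, q i', q j', q k'}`, omitting one index `m`. Put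
`L = deg (X_T X_(s, q m))`. For a complementary pair `{m, j}`, `{k, l}` with `x_mj x_kl ≠ 0`:
`lam = deg (X_(u s m j) X_(k l))` (`StEs`), `X_(k l) = X_u X_j X_T` modulo `J` (`T = {u, j, k, l}`, `StP1`
twice), and `X_u X_j X_(u s m j) = X_(s m)` modulo `J`, so `lam = deg (X_(s m) X_T) = L`. Hence
`E4 = P4 * L`, and `2 ∣ ω L - dt(T, s, q m)` by `StTA1`, `dt(T, s, q m) = ± dt0` (`StPe`). -/
def StLeq (D : Dat V R) : Prop := ∀ x u s q, Gd D x → HQ D x u s q →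
  ∃ L : R, E4 D x u s q = P4 x u s q * L ∧
    (P4 x u s q = 0 ∨ (2 : R) ∣ D.om * L - D.dt ![u, s, q 0, q 1, q 2, q 3])

/-- C4. Port of D5 `I_C4.lean`. -/
def StC4 (D : Dat V R) : Prop := ∀ x u s q, Gd D x → HQ D x u s q → (2 : R) ∣ C4 D x u s q

/-- L4. Port of D5 `I_L4.lean` (with `D5.StK4`). -/
def StL4 (D : Dat V R) : Prop := ∀ x u s q, Gd D x → HQ D x u s q →
  ∀ G, u ∈ G → s ∈ G → x G = 0

/-- Cr. Seven columns in dimension six, modulo 2.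
Proof. As D5 `I_Cr.lean`: the 7 x 7 determinant with columns `(a_(0 p), ..., a_(5 p), ∑_m μ_m a_(m p))`
for the seven `p = u, s, c 0, ..., c 4` vanishes; expand along the last row. -/
def StCr : Prop := ∀ {V : Type} {R : Type} [CommRing R] (a : ℕ → V → R) (μ : ℕ → R) (u s : V)
  (c : Fin 5 → V),
  (2 : R) ∣ ∑ k : Fin 5, (∑ m ∈ range 6, μ m * a m (c k)) *
    Matrix.det (fun i l : Fin 6 => a l ((![u, s, c (k + 1), c (k + 2), c (k + 3), c (k + 4)] :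
      Fin 6 → V) i)) -
    ((∑ m ∈ range 6, μ m * a m s) * Matrix.det (fun i l : Fin 6 => a l
      ((![u, c 0, c 1, c 2, c 3, c 4] : Fin 6 → V) i)) +
    (∑ m ∈ range 6, μ m * a m u) * Matrix.det (fun i l : Fin 6 => a l
      ((![s, c 0, c 1, c 2, c 3, c 4] : Fin 6 → V) i)))

/-- L5. Port of D5 `I_L5.lean`: the link of `{u, s}` is not a 5-cycle. The vertex sums are those of
`Gd.rm` for `{u, s, c i}`, the squares `Gd.four` for `u, s` and `StEs`; the contradiction at the end is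
to `ind7` instead of `wt_odd` and `ind5`. -/
def StL5 (D : Dat V R) : Prop := ∀ x, Gd D x → ∀ u s, u ≠ s → ∀ c : Fin 5 → V,
  Function.Injective c → (∀ i, c i ≠ s) → (∀ i, c i ≠ u) →
  (∀ G, (x G ≠ 0 ∧ u ∈ G ∧ s ∈ G) ↔ ∃ i : Fin 5, G = {u, s, c i, c (i + 1)}) → False

/-- VP6. Port of D5 `I_VP5.lean`. -/
def StVP6 (D : Dat V R) : Prop := 6 ≤ D.VP.card

/-- Fin. Proof. Suppose `x G1 ≠ 0`, take `u ∈ G1` and let `G0` be the set of the `G.erase u`, `x G ≠ 0`,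
`u ∈ G`: triples. `D5.StCL` applies: two of them meet, because two sets of the support have two common
elements (`StInt`); a pair `H` of such a triple `G.erase u`: `insert u H ⊆ G` has three elements, so
`StClo` gives `G' ≠ G` in the support, `insert u H ⊆ G'`, and `G'.erase u ≠ G.erase u` contains `H`
(`u ∉ H`). First case: `s` and `Q` with `|Q| ≤ 4`; `s ∈ VP`, `s ≠ u`; replace `Q` by `(Q ∩ VP).erase u` and
enlarge it to exactly 4 elements inside `(VP.erase s).erase u` (at least 4 elements by `StVP6`), enumerate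
it by `q`: `HQ D x u s q`, and `StL4` contradicts that `s` is covered. Second case: `StL5`
(`G.erase u = {s, c i, c (i+1)}` iff `G = {u, s, c i, c (i+1)}` for `u ∈ G`; `c i ≠ u` because `c i` is in
some `G.erase u`). -/
def StFin (D : Dat V R) : Prop := ∀ x, Gd D x → ∀ G, x G = 0

/-- Core. Port of D5 `I_Core.lean`. -/
def StCore (D : Dat V R) : Prop := ∀ (ε : R) (y : MvPolynomial V R), ε * ε = 1 →
  y.IsHomogeneous 2 → D.w * y ∈ D.J → rename D.α y - ε • y ∈ D.J →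
  ∃ u : MvPolynomial V R, u.IsHomogeneous 2 ∧ y - (2 : R) • u ∈ D.J

/-- Inj. Port of D5 `I_Inj.lean`. -/
def StInj (D : Dat V R) [IsLocalRing R] [IsNoetherianRing R] : Prop :=
  IsLocalRing.maximalIdeal R = Ideal.span {(2 : R)} →
  ∀ x : MvPolynomial V R, x.IsHomogeneous 2 → D.w * x ∈ D.J → x ∈ D.J

end CSLef.D6
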