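import Mathlib
import Pool.Agent.Work.MP_38c61c_al.D6.Stmts2

namespace CSLef.D6

open MvPolynomial Finset

theorem pr_Core {V : Type} [Fintype V] [DecidableEq V] {R : Type} [CommRing R] [IsDomain R]
    (D : Dat V R) (hC : Ctx D) (h1 : StRed D) (h2 : StFour D) (h3 : StRm D) (h4 : StFin D) :
    StCore D := by
  intro ε y hε hy hwy hα
  obtain ⟨x, hx, u, hu, hyu⟩ := h1 ε y hε hy hwy hα
  set K := D.KK x with hK
  have hw : D.w * (K + (2 : R) • u) ∈ D.J := by
    have h := D.J.sub_mem hwy (D.J.mul_mem_left D.w hyu)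
    have e : D.w * y - D.w * (y - K - (2 : R) • u) = D.w * (K + (2 : R) • u) := by ring
    rwa [e] at h
  have hr : rename D.α (y - K - (2 : R) • u) ∈ D.J := rename_J hC.cs hC.anti hyu
  have hα' : rename D.α (K + (2 : R) • u) - ε • (K + (2 : R) • u) ∈ D.J := by
    have h5 : ε • (y - K - (2 : R) • u) ∈ D.J := by
      rw [MvPolynomial.smul_eq_C_mul]
      exact D.J.mul_mem_left _ hyu
    have h := D.J.add_mem (D.J.sub_mem hα hr) h5
    have e : rename D.α y - ε • y - rename D.α (y - K - (2 : R) • u) +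
        ε • (y - K - (2 : R) • u) = rename D.α (K + (2 : R) • u) - ε • (K + (2 : R) • u) := by
      simp only [map_sub, map_add, smul_sub, smul_add]
      ring
    rwa [e] at h
  obtain ⟨f4, f4T⟩ := h2 ε x u hε hu hw hα'
  have rm := h3 x u (fun G hG => (hx G hG).1) hw
  have hx0 := h4 x ⟨hx, f4, f4T, rm⟩
  have hK0 : K = 0 := by
    rw [hK, Dat.KK]
    exact Finset.sum_eq_zero fun G _ => by rw [hx0 G, map_zero, zero_mul]
  refine ⟨u, hu, ?_⟩
  rwa [hK0, sub_zero] at hyu

end CSLef.D6
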