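import Mathlib
import Pool.Agent.Work.MP_38c61c_al.D6.Stmts2

set_option autoImplicit false

namespace CSLef.D6

open MvPolynomial Finset

namespace ICr

/-- the rotation of the last five indices -/
def rot (k : Fin 5) : Equiv.Perm (Fin 6) := Equiv.Perm.decomposeFin.symm (0, Equiv.addLeft k)

theorem sign_rot (k : Fin 5) : Equiv.Perm.sign (rot k) = 1 := by
  unfold rot
  rw [Equiv.Perm.decomposeFin.symm_sign]
  have hs : Equiv.Perm.sign (Equiv.addLeft k) = 1 := by
    revert k; decide
  rw [hs]
  simp

theorem rot_zero (k : Fin 5) : rot k 0 = 0 := by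
  unfold rot
  simp

theorem rot_succ (k i : Fin 5) : rot k i.succ = (k + i).succ := by
  unfold rot
  simp

/-- Cramer's rule, with the columns in cyclic order -/
theorem key {V : Type} {R : Type} [CommRing R] (a : ℕ → V → R) (u s : V) (c : Fin 5 → V)
    (m : Fin 6) :
    ∑ k : Fin 5, a m (c k) *
      Matrix.det (fun i l : Fin 6 => a l ((![u, s, c (k + 1), c (k + 2), c (k + 3), c (k + 4)] :
        Fin 6 → V) i)) =
    a m s * Matrix.det (fun i l : Fin 6 => a l ((![u, c 0, c 1, c 2, c 3, c 4] : Fin 6 → V) i)) -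
    a m u * Matrix.det (fun i l : Fin 6 => a l
      ((![s, c 0, c 1, c 2, c 3, c 4] : Fin 6 → V) i)) := by
  set A : Matrix (Fin 6) (Fin 6) R :=
    fun l i => a l ((![u, c 0, c 1, c 2, c 3, c 4] : Fin 6 → V) i) with hA
  set b : Fin 6 → R := fun l => a l s with hb
  have h := congrFun (Matrix.mulVec_cramer A b) m
  have hdet : Matrix.det (fun i l : Fin 6 => a l
      ((![u, c 0, c 1, c 2, c 3, c 4] : Fin 6 → V) i)) = A.det := by
    rw [← Matrix.det_transpose]
    rfl
  have hcol0 : Matrix.det (fun i l : Fin 6 => a l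
      ((![s, c 0, c 1, c 2, c 3, c 4] : Fin 6 → V) i)) = A.cramer b 0 := by
    rw [Matrix.cramer_apply, ← Matrix.det_transpose (A.updateCol 0 b)]
    congr 1
    funext i l
    fin_cases i <;> rfl
  have hcol : ∀ k : Fin 5,
      Matrix.det (fun i l : Fin 6 => a l ((![u, s, c (k + 1), c (k + 2), c (k + 3), c (k + 4)] :
        Fin 6 → V) i)) = A.cramer b k.succ := by
    intro k
    rw [Matrix.cramer_apply, ← Matrix.det_transpose (A.updateCol k.succ b)]
    have hp := Matrix.det_permute (rot k) (A.updateCol k.succ b).transpose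
    rw [sign_rot k] at hp
    simp only [Units.val_one, Int.cast_one, one_mul] at hp
    rw [← hp]
    congr 1
    funext i l
    refine Fin.cases ?_ (fun j => ?_) i
    · show _ = (A.updateCol k.succ b).transpose (rot k 0) l
      rw [rot_zero]
      fin_cases k <;> rfl
    · show _ = (A.updateCol k.succ b).transpose (rot k j.succ) l
      rw [rot_succ]
      fin_cases k <;> fin_cases j <;> rfl
  have hA0 : A m 0 = a m u := rfl
  have hAs : ∀ k : Fin 5, A m k.succ = a m (c k) := by
    intro k
    fin_cases k <;> rfl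
  have h2 : (A.mulVec (A.cramer b)) m = ∑ k, A m k * A.cramer b k := rfl
  rw [h2, Fin.sum_univ_succ, hA0] at h
  rw [hdet, hcol0]
  simp only [hcol]
  simp only [hAs] at h
  have h3 : (A.det • b) m = A.det * a m s := by
    simp [hb]
  rw [h3] at h
  linear_combination h

end ICr

theorem pr_Cr : StCr := by
  intro V R _ a μ u s c
  set D1 := Matrix.det (fun i l : Fin 6 => a l
      ((![u, c 0, c 1, c 2, c 3, c 4] : Fin 6 → V) i)) with hD1
  set D2 := Matrix.det (fun i l : Fin 6 => a l
      ((![s, c 0, c 1, c 2, c 3, c 4] : Fin 6 → V) i)) with hD2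
  have h : ∑ k : Fin 5, (∑ m ∈ range 6, μ m * a m (c k)) *
      Matrix.det (fun i l : Fin 6 => a l ((![u, s, c (k + 1), c (k + 2), c (k + 3), c (k + 4)] :
        Fin 6 → V) i)) =
      (∑ m ∈ range 6, μ m * a m s) * D1 - (∑ m ∈ range 6, μ m * a m u) * D2 := by
    simp only [Finset.sum_range]
    simp only [Finset.sum_mul]
    rw [Finset.sum_comm, ← Finset.sum_sub_distrib]
    refine Finset.sum_congr rfl fun m _ => ?_
    have hk := ICr.key a u s c m
    rw [mul_assoc, mul_assoc, ← mul_sub, ← hk, Finset.mul_sum]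
    refine Finset.sum_congr rfl fun k _ => ?_
    ring
  rw [h]
  refine ⟨-((∑ m ∈ range 6, μ m * a m u) * D2), ?_⟩
  ring

end CSLef.D6
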