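import Mathlib
import Pool.Agent.Work.MP_38c61c_al.D6.Stmts2

namespace CSLef.D6

open MvPolynomial Finset

namespace IDag1

/-- the sum over the sets that contain `u` and `s` -/
theorem sum_link {V : Type} [DecidableEq V] {R : Type} [CommRing R]
    (FS3 : Finset (Finset V)) (x : Finset V → R) (u s : V) (q : Fin 4 → V)
    (hsupp : ∀ G, x G ≠ 0 → G ∈ FS3) (hinj : Function.Injective q) (hne : ∀ i, q i ≠ s)
    (hneu : ∀ i, q i ≠ u)
    (hlink : ∀ G, x G ≠ 0 → u ∈ G → s ∈ G → ∃ i j, i ≠ j ∧ G = {u, s, q i, q j}) (F : Finset V → R) :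
    ∑ G ∈ FS3, (if u ∈ G ∧ s ∈ G then x G else 0) * F G =
      ∑ i, ∑ j ∈ Finset.univ.filter (fun j => i < j), x {u, s, q i, q j} * F {u, s, q i, q j} := by
  classical
  set P : Finset (Fin 4 × Fin 4) := Finset.univ.filter (fun p => p.1 < p.2) with hP
  set φ : Fin 4 × Fin 4 → Finset V := fun p => {u, s, q p.1, q p.2} with hφ
  set g : Finset V → R := fun G => (if u ∈ G ∧ s ∈ G then x G else 0) * F G with hg
  have h1 : ∑ G ∈ FS3, g G = ∑ G ∈ P.image φ, g G := by
    rw [← Finset.sum_filter_ne_zero FS3, ← Finset.sum_filter_ne_zero (P.image φ)]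
    refine Finset.sum_congr ?_ fun _ _ => rfl
    ext G
    rw [Finset.mem_filter, Finset.mem_filter]
    refine and_congr_left fun hG => ?_
    have hs : u ∈ G ∧ s ∈ G := by
      by_contra hs
      exact hG (by rw [hg]; simp [hs])
    have hx : x G ≠ 0 := by
      intro hx
      exact hG (by rw [hg]; simp [hx])
    refine ⟨fun _ => ?_, fun _ => hsupp G hx⟩
    obtain ⟨i, j, hij, hG'⟩ := hlink G hx hs.1 hs.2
    rw [Finset.mem_image]
    rcases lt_or_gt_of_ne hij with h | h
    · exact ⟨(i, j), by rw [hP, Finset.mem_filter]; exact ⟨Finset.mem_univ _, h⟩, hG'.symm⟩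
    · refine ⟨(j, i), by rw [hP, Finset.mem_filter]; exact ⟨Finset.mem_univ _, h⟩, ?_⟩
      show ({u, s, q j, q i} : Finset V) = G
      rw [hG', Finset.pair_comm (q j) (q i)]
  have h2 : ∑ G ∈ P.image φ, g G = ∑ p ∈ P, g (φ p) := by
    refine Finset.sum_image ?_
    rintro ⟨i, j⟩ hp ⟨i', j'⟩ hp' he
    have hij : i < j := by
      have := hp
      rw [hP, Finset.mem_coe, Finset.mem_filter] at this
      exact this.2
    have hij' : i' < j' := by
      have := hp'
      rw [hP, Finset.mem_coe, Finset.mem_filter] at this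
      exact this.2
    have he' : ({u, s, q i, q j} : Finset V) = {u, s, q i', q j'} := he
    have mem : ∀ k, q k ∈ ({u, s, q i, q j} : Finset V) ↔ k = i ∨ k = j := by
      intro k
      rw [Finset.mem_insert, Finset.mem_insert, Finset.mem_insert, Finset.mem_singleton, hinj.eq_iff,
        hinj.eq_iff]
      exact ⟨fun h => (h.resolve_left (hneu k)).resolve_left (hne k), fun h => Or.inr (Or.inr h)⟩
    have mem' : ∀ k, q k ∈ ({u, s, q i', q j'} : Finset V) ↔ k = i' ∨ k = j' := by
      intro k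
      rw [Finset.mem_insert, Finset.mem_insert, Finset.mem_insert, Finset.mem_singleton, hinj.eq_iff,
        hinj.eq_iff]
      exact ⟨fun h => (h.resolve_left (hneu k)).resolve_left (hne k), fun h => Or.inr (Or.inr h)⟩
    have k1 := (mem' i).1 (he' ▸ (mem i).2 (Or.inl rfl))
    have k2 := (mem' j).1 (he' ▸ (mem j).2 (Or.inr rfl))
    have k3 := (mem i').1 (he'.symm ▸ (mem' i').2 (Or.inl rfl))
    have k4 := (mem j').1 (he'.symm ▸ (mem' j').2 (Or.inr rfl))
    rw [Prod.mk.injEq]
    constructor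
    · rcases k1 with h | h
      · exact h
      · rcases k2 with h' | h' <;> rcases k3 with h'' | h'' <;> omega
    · rcases k2 with h | h
      · rcases k1 with h' | h' <;> rcases k4 with h'' | h'' <;> omega
      · exact h
  have h3 : ∑ p ∈ P, g (φ p) = ∑ i, ∑ j ∈ Finset.univ.filter (fun j => i < j),
      x {u, s, q i, q j} * F {u, s, q i, q j} := by
    rw [hP, Finset.sum_filter, Fintype.sum_prod_type]
    refine Finset.sum_congr rfl fun i _ => ?_
    rw [Finset.sum_filter]
    refine Finset.sum_congr rfl fun j _ => ?_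
    simp [hg, hφ]
  rw [h1, h2, h3]

end IDag1

theorem pr_Dag1 {V : Type} [Fintype V] [DecidableEq V] {R : Type} [CommRing R] [IsDomain R]
    (D : Dat V R) (hC : Ctx D) (h1 : StP1 D) (h2 : StStar D) (h3 : StTA2 D) (h4 : StVe D)
    (h5 : StE4 D) (h6 : StT4 D) (h7 : StInt D) (h8 : StPe D) (h9 : StOm D) : StDag1 D := by
  classical
  intro x u s q hG hQ
  have h20 : (2 : R) ≠ 0 := hC.two.ne_zero
  have hsupp : ∀ G, x G ≠ 0 → G ∈ D.FS 4 := fun G h => (hG.supp G h).1
  have hs : s ∈ D.VP := hQ.s_mem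
  have hu : u ∈ D.VP := hQ.u_mem
  have memFS : ∀ k H, H ∈ D.FS k → H ⊆ D.VP ∧ H.card = k ∧ D.Full H := by
    intro k H hH
    rw [Dat.FS, Finset.mem_filter, Finset.mem_powersetCard] at hH
    exact ⟨hH.1.1, hH.1.2, hH.2⟩
  -- the function `ν`
  have hν : ∃ ν : Finset V → R, ∀ H ⊆ D.VP, H.card = 3 →
      2 * ν H = - ∑ r ∈ D.VP \ H, D.wt r * x (insert r H) := by
    have h : ∀ H : Finset V, ∃ c : R, H ⊆ D.VP → H.card = 3 →
        2 * c = - ∑ r ∈ D.VP \ H, D.wt r * x (insert r H) := by
      intro H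
      by_cases hH : H ⊆ D.VP ∧ H.card = 3
      · obtain ⟨c, hc⟩ := hG.rm H hH.1 hH.2
        exact ⟨-c, fun _ _ => by rw [hc]; ring⟩
      · exact ⟨0, fun a b => absurd ⟨a, b⟩ hH⟩
    choose ν hν using h
    exact ⟨ν, hν⟩
  obtain ⟨ν, hν⟩ := hν
  -- the expansions
  have hb : ∃ bG : Finset V → ℕ → MvPolynomial V R, ∀ G ∈ D.FS 4,
      rename D.α (D.XH G) - D.XH G - ∑ l ∈ range 6, lin (D.a l) * bG G l ∈ srIdeal R D.Δ := by
    have h : ∀ G : Finset V, ∃ b : ℕ → MvPolynomial V R, G ∈ D.FS 4 →
        rename D.α (D.XH G) - D.XH G - ∑ l ∈ range 6, lin (D.a l) * b l ∈ srIdeal R D.Δ := by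
      intro G
      by_cases hGm : G ∈ D.FS 4
      · obtain ⟨_, hc, hF⟩ := memFS 4 G hGm
        have hne : G.Nonempty := by
          rw [← Finset.card_pos]
          omega
        have hJ : rename D.α (D.XH G) - D.XH G ∈ D.J := (h1 G hF hne).2.2.2
        obtain ⟨b, hb⟩ := (mem_J_iff (Δ := D.Δ) (a := D.a) 6 _).1 hJ
        exact ⟨b, fun _ => hb⟩
      · exact ⟨0, fun a => absurd a hGm⟩
    choose bG hbG using h
    exact ⟨bG, hbG⟩
  obtain ⟨bG, hbG⟩ := hb
  -- expansions of `αK - K` for a coefficient function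
  have hexp : ∀ y : Finset V → R,
      rename D.α (D.KK y) - D.KK y -
        ∑ l ∈ range 6, lin (D.a l) * ∑ G ∈ D.FS 4, C (y G) * bG G l ∈ srIdeal R D.Δ := by
    intro y
    have e : rename D.α (D.KK y) - D.KK y -
        ∑ l ∈ range 6, lin (D.a l) * ∑ G ∈ D.FS 4, C (y G) * bG G l =
        ∑ G ∈ D.FS 4, C (y G) *
          (rename D.α (D.XH G) - D.XH G - ∑ l ∈ range 6, lin (D.a l) * bG G l) := by
      have e1 : ∑ l ∈ range 6, lin (D.a l) * ∑ G ∈ D.FS 4, C (y G) * bG G l =
          ∑ G ∈ D.FS 4, C (y G) * ∑ l ∈ range 6, lin (D.a l) * bG G l := by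
        simp only [Finset.mul_sum]
        rw [Finset.sum_comm]
        refine Finset.sum_congr rfl fun G _ => Finset.sum_congr rfl fun l _ => ?_
        ring
      rw [e1, Dat.KK, map_sum, ← Finset.sum_sub_distrib, ← Finset.sum_sub_distrib]
      refine Finset.sum_congr rfl fun G _ => ?_
      rw [map_mul, rename_C]
      ring
    rw [e]
    exact Ideal.sum_mem _ fun G hGm => Ideal.mul_mem_left _ _ (hbG G hGm)
  have hphC : ∀ (y : Finset V → R) (m : ℕ) (p : V),
      D.ph {p} (∑ G ∈ D.FS 4, C (y G) * bG G m) = ∑ G ∈ D.FS 4, y G * D.ph {p} (bG G m) := by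
    intro y m p
    rw [map_sum]
    refine Finset.sum_congr rfl fun G _ => ?_
    rw [← MvPolynomial.smul_eq_C_mul, map_smul, smul_eq_mul]
  -- the values
  set Yt : Finset V → V → R := fun G p => ∑ m ∈ range 6, D.a m (q 3) * D.ph {p} (bG G m) with hYt
  refine ⟨fun i j k => Yt {u, s, q i, q j} (q k), ?_, ?_⟩
  · intro i j k hij hx hF
    have hGm : ({u, s, q i, q j} : Finset V) ∈ D.FS 4 := hsupp _ hx
    exact h3 u s (q i) (q j) hQ.us (hQ.q_ne' i).symm (hQ.q_ne' j).symm (hQ.q_ne i).symm
      (hQ.q_ne j).symm (fun h => hij (hQ.q_inj h)) hGm (bG {u, s, q i, q j}) (hbG _ hGm) (q k) hF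
      (q 3)
  · -- the congruence
    obtain ⟨v1, v2, v3, v4⟩ := h4 x u s q hG hQ
    obtain ⟨e1, e2⟩ := h5 x u s q hG hQ
    obtain ⟨e3, e3'⟩ := h6 x u s q hG hQ 3
    set b : ℕ → MvPolynomial V R := fun m => ∑ G ∈ D.FS 4, C (x G) * bG G m with hbdef
    set bs : ℕ → MvPolynomial V R := fun m => ∑ G ∈ D.FS 4, C (xr s x G) * bG G m with hbsdef
    set bu : ℕ → MvPolynomial V R := fun m => ∑ G ∈ D.FS 4, C (xr u x G) * bG G m with hbudef
    set Z : V → R := fun p => ∑ m ∈ range 6, D.a m (q 3) *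
      (D.ph {p} (b m) - D.ph {p} (bs m) - D.ph {p} (bu m)) with hZ
    set Rm : V → R := fun p => ∑ G ∈ D.FS 4, (if u ∉ G ∧ s ∉ G then x G else 0) * Yt G p with hRm
    have hZ1 : ∀ p, Z p = (∑ i, ∑ j ∈ Finset.univ.filter (fun j => i < j),
        xq x u s q i j * Yt {u, s, q i, q j} p) - Rm p := by
      intro p
      have e4 : Z p = (∑ G ∈ D.FS 4, (if u ∈ G ∧ s ∈ G then x G else 0) * Yt G p) - Rm p := by
        rw [hZ, hYt, hRm, ← Finset.sum_sub_distrib]
        simp only [hbdef, hbsdef, hbudef, hphC]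
        have e5 : ∀ m, D.a m (q 3) * (∑ G ∈ D.FS 4, x G * D.ph {p} (bG G m) -
            ∑ G ∈ D.FS 4, xr s x G * D.ph {p} (bG G m) -
            ∑ G ∈ D.FS 4, xr u x G * D.ph {p} (bG G m)) =
            ∑ G ∈ D.FS 4, (x G - xr s x G - xr u x G) * (D.a m (q 3) * D.ph {p} (bG G m)) := by
          intro m
          rw [← Finset.sum_sub_distrib, ← Finset.sum_sub_distrib, Finset.mul_sum]
          refine Finset.sum_congr rfl fun G _ => ?_
          ring
        rw [Finset.sum_congr rfl fun m _ => e5 m, Finset.sum_comm]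
        refine Finset.sum_congr rfl fun G _ => ?_
        rw [← Finset.mul_sum, ← sub_mul]
        congr 1
        rw [xr, xr]
        by_cases hu' : u ∈ G <;> by_cases hs' : s ∈ G <;> simp [hu', hs']
      rw [e4]
      congr 1
      exact IDag1.sum_link (D.FS 4) x u s q hsupp hQ.q_inj hQ.q_ne hQ.q_ne' hQ.link
        (fun G => Yt G p)
    -- the sets without `u, s`
    have hRk : ∀ k, (4 : R) ∣ S4 D x u s q k * Rm (q k) := by
      intro k
      by_cases h0 : S4 D x u s q k = 0
      · rw [h0, zero_mul]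
        exact dvd_zero _
      have hF : D.Full {q k} := (v3 k h0).2
      have hex : ∃ l ≠ k, xq x u s q k l ≠ 0 := by
        by_contra hno
        push Not at hno
        apply h0
        rw [S4]
        refine Finset.sum_eq_zero fun l hl => ?_
        rw [hno l (Finset.ne_of_mem_erase hl), mul_zero]
      obtain ⟨l, hl, hxl⟩ := hex
      have hGl : ({u, s, q k, q l} : Finset V) ∈ D.FS 4 := hsupp _ hxl
      have hR2 : (2 : R) ∣ Rm (q k) := by
        rw [hRm]
        refine Finset.dvd_sum fun G hGm => ?_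
        split_ifs with hcond
        · obtain ⟨hu', hs'⟩ := hcond
          refine Dvd.dvd.mul_left ?_ _
          -- `q k ∈ G`
          have hqk : q k ∈ G := by
            by_contra hqk
            have hcard := h7 G hGm _ hGl
            have hsub : G ∩ {u, s, q k, q l} ⊆ {q l} := by
              intro v hv
              rw [Finset.mem_inter, Finset.mem_insert, Finset.mem_insert, Finset.mem_insert,
                Finset.mem_singleton] at hv
              obtain ⟨hv1, hv2 | hv2 | hv2 | hv2⟩ := hv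
              · exact absurd (hv2 ▸ hv1) hu'
              · exact absurd (hv2 ▸ hv1) hs'
              · exact absurd (hv2 ▸ hv1) hqk
              · rw [hv2]
                exact Finset.mem_singleton_self _
            have := Finset.card_le_card hsub
            rw [Finset.card_singleton] at this
            omega
          obtain ⟨hGV, hGc, hGF⟩ := memFS 4 G hGm
          -- enumerate `G`
          obtain ⟨g1, g2, g3, g4, h12, h13, h14, h23, h24, h34, hGe⟩ :=
            Finset.card_eq_four.1 hGc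
          subst hGe
          have h := h3 g1 g2 g3 g4 h12 h13 h14 h23 h24 h34 hGm (bG {g1, g2, g3, g4}) (hbG _ hGm)
            (q k) hF (q 3)
          have hdt : D.dt ![g1, g2, g3, g4, q k, q 3] = 0 := by
            refine h8.2 _ fun hinj => ?_
            rw [Finset.mem_insert, Finset.mem_insert, Finset.mem_insert,
              Finset.mem_singleton] at hqk
            rcases hqk with h | h | h | h
            · exact absurd (@hinj 4 0 h) (by decide)
            · exact absurd (@hinj 4 1 h) (by decide)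
            · exact absurd (@hinj 4 2 h) (by decide)
            · exact absurd (@hinj 4 3 h) (by decide)
          rw [hdt, sub_zero] at h
          exact (hC.two.dvd_or_dvd h).resolve_left h9
        · rw [zero_mul]
          exact dvd_zero _
      have h4' : (4 : R) = 2 * 2 := by norm_num
      rw [h4']
      exact mul_dvd_mul (v2 k) hR2
    set Fq : Finset V := ((D.VP.erase s).erase u).filter
      (fun q' => ({u, s, q'} : Finset V) ∈ D.FS 3) with hFq
    have hst := h2 x ν hsupp (fun H hH => hν H (memFS 3 H hH).1 (memFS 3 H hH).2.1) hG.fourT u hu s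
      hs hQ.us b bs bu (hexp x) (hexp (xr s x)) (hexp (xr u x))
    -- the sum of the six congruences
    have hsum : (8 : R) ∣ ∑ m ∈ range 6, D.a m (q 3) *
        (D.wt s * D.T m (D.z s * X u * X s * D.KK (xs s x) ^ 2) +
          D.wt u * D.T m (D.z u * X s * X u * D.KK (xs u x) ^ 2) +
          D.μ m * D.dg (X u * X s * D.KK x ^ 2) +
          4 * ∑ q' ∈ Fq, ν {u, s, q'} *
            (D.ph {q'} (b m) - D.ph {q'} (bs m) - D.ph {q'} (bu m))) := by
      refine Finset.dvd_sum fun m hm => Dvd.dvd.mul_left ?_ _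
      exact hst m (Finset.mem_range.1 hm)
    have e5 : ∑ m ∈ range 6, D.a m (q 3) *
        (D.wt s * D.T m (D.z s * X u * X s * D.KK (xs s x) ^ 2) +
          D.wt u * D.T m (D.z u * X s * X u * D.KK (xs u x) ^ 2) +
          D.μ m * D.dg (X u * X s * D.KK x ^ 2) +
          4 * ∑ q' ∈ Fq, ν {u, s, q'} *
            (D.ph {q'} (b m) - D.ph {q'} (bs m) - D.ph {q'} (bu m))) =
        D.wt s * ∑ m ∈ range 6, D.a m (q 3) * D.T m (D.z s * X u * X s * D.KK (xs s x) ^ 2) +
        D.wt u * ∑ m ∈ range 6, D.a m (q 3) * D.T m (D.z u * X s * X u * D.KK (xs u x) ^ 2) +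
        (∑ m ∈ range 6, D.μ m * D.a m (q 3)) * D.dg (X u * X s * D.KK x ^ 2) +
        4 * ∑ q' ∈ Fq, ν {u, s, q'} * Z q' := by
      have e6 : ∑ q' ∈ Fq, ν {u, s, q'} * Z q' =
          ∑ m ∈ range 6, D.a m (q 3) * ∑ q' ∈ Fq, ν {u, s, q'} *
            (D.ph {q'} (b m) - D.ph {q'} (bs m) - D.ph {q'} (bu m)) := by
        rw [hZ]
        simp only [Finset.mul_sum]
        rw [Finset.sum_comm]
        refine Finset.sum_congr rfl fun m _ => Finset.sum_congr rfl fun p _ => ?_
        ring
      rw [e6, Finset.mul_sum, Finset.mul_sum, Finset.mul_sum, Finset.sum_mul,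
        ← Finset.sum_add_distrib, ← Finset.sum_add_distrib, ← Finset.sum_add_distrib]
      refine Finset.sum_congr rfl fun m _ => ?_
      ring
    -- twice the sum with `ν`
    have e7 : 2 * ∑ q' ∈ Fq, ν {u, s, q'} * Z q' = - ∑ k, S4 D x u s q k * Z (q k) := by
      have hcard : ∀ p, p ≠ u → p ≠ s → ({u, s, p} : Finset V).card = 3 := fun p hpu hps =>
        Finset.card_eq_three.2 ⟨u, s, p, hQ.us, hpu.symm, hps.symm, rfl⟩
      have hsub : ∀ p ∈ D.VP, ({u, s, p} : Finset V) ⊆ D.VP := by
        intro p hp y hy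
        rw [Finset.mem_insert, Finset.mem_insert, Finset.mem_singleton] at hy
        rcases hy with rfl | rfl | rfl
        · exact hu
        · exact hs
        · exact hp
      have hval : ∀ i, 2 * ν {u, s, q i} = - S4 D x u s q i := by
        intro i
        rw [hν _ (hsub _ (hQ.q_mem i)) (hcard _ (hQ.q_ne' i) (hQ.q_ne i)), v1 i]
      rw [Finset.mul_sum, ← Finset.sum_neg_distrib]
      have e8 : ∑ q' ∈ Fq, 2 * (ν {u, s, q'} * Z q') =
          ∑ p ∈ (Finset.univ : Finset (Fin 4)).image q,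
            (if p ∈ Fq then 2 * (ν {u, s, p} * Z p) else 0) := by
        rw [Finset.sum_ite_mem, ← Finset.sum_filter_ne_zero Fq,
          ← Finset.sum_filter_ne_zero (_ ∩ Fq)]
        refine Finset.sum_congr ?_ fun _ _ => rfl
        ext p
        rw [Finset.mem_filter (s := Fq), Finset.mem_filter (s := _ ∩ Fq), Finset.mem_inter]
        refine and_congr_left fun hp0 => ⟨fun hp => ⟨?_, hp⟩, fun hp => hp.2⟩
        by_contra hni
        apply hp0
        have hpF := hp
        rw [hFq, Finset.mem_filter, Finset.mem_erase, Finset.mem_erase] at hpF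
        obtain ⟨⟨hpu, hps, hpV⟩, _⟩ := hpF
        have hz : ∀ i, p ≠ q i := by
          intro i hi
          exact hni (Finset.mem_image.2 ⟨i, Finset.mem_univ _, hi.symm⟩)
        have h0 := hν {u, s, p} (hsub p hpV) (hcard p hpu hps)
        rw [v4 p hpV hpu hps hz, neg_zero] at h0
        rw [← mul_assoc, h0, zero_mul]
      rw [e8, Finset.sum_image (fun a _ b _ h => hQ.q_inj h)]
      refine Finset.sum_congr rfl fun k _ => ?_
      split_ifs with hk
      · rw [← mul_assoc, hval k]
        ring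
      · have h0 : S4 D x u s q k = 0 := by
          by_contra h0
          apply hk
          rw [hFq, Finset.mem_filter, Finset.mem_erase, Finset.mem_erase]
          exact ⟨⟨hQ.q_ne' k, hQ.q_ne k, hQ.q_mem k⟩, (v3 k h0).1⟩
        rw [h0]
        ring
    rw [e5, e3, e3', e1, mul_zero, mul_zero, zero_add, zero_add] at hsum
    have e9 : (∑ m ∈ range 6, D.μ m * D.a m (q 3)) * (2 * E4 D x u s q) +
        4 * ∑ q' ∈ Fq, ν {u, s, q'} * Z q' =
        2 * ((∑ m ∈ range 6, D.μ m * D.a m (q 3)) * E4 D x u s q -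
          ∑ k, S4 D x u s q k * Z (q k)) := by
      linear_combination 2 * e7
    rw [e9] at hsum
    have h8' : (8 : R) = 2 * 4 := by norm_num
    rw [h8'] at hsum
    have hfin := (mul_dvd_mul_iff_left h20).1 hsum
    have e10 : ∑ k, S4 D x u s q k * ∑ i, ∑ j ∈ Finset.univ.filter (fun j => i < j),
          xq x u s q i j * Yt {u, s, q i, q j} (q k) =
        ∑ k, S4 D x u s q k * Z (q k) + ∑ k, S4 D x u s q k * Rm (q k) := by
      rw [← Finset.sum_add_distrib]
      refine Finset.sum_congr rfl fun k _ => ?_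
      rw [hZ1 (q k)]
      ring
    rw [e10, ← sub_sub]
    exact dvd_sub hfin (Finset.dvd_sum fun k _ => hRk k)

end CSLef.D6
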