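import Mathlib
import Pool.Agent.Work.MP_38c61c_al.D6.Stmts2

/-!
Block D6: item Dag2
-/

namespace CSLef.D6

open MvPolynomial Finset

namespace IDag2

theorem sum_lt {R : Type} [CommRing R] (f : Fin 4 → Fin 4 → R) :
    ∑ i, ∑ j ∈ Finset.univ.filter (fun j => i < j), f i j =
      f 0 1 + f 0 2 + f 0 3 + f 1 2 + f 1 3 + f 2 3 := by
  have e0 : (Finset.univ.filter (fun j : Fin 4 => 0 < j)) = {1, 2, 3} := by decide
  have e1 : (Finset.univ.filter (fun j : Fin 4 => 1 < j)) = {2, 3} := by decide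
  have e2 : (Finset.univ.filter (fun j : Fin 4 => 2 < j)) = {3} := by decide
  have e3 : (Finset.univ.filter (fun j : Fin 4 => 3 < j)) = ∅ := by decide
  rw [Fin.sum_univ_four, e0, e1, e2, e3, Finset.sum_empty, Finset.sum_singleton,
    Finset.sum_pair (by decide), Finset.sum_insert (by decide), Finset.sum_pair (by decide)]
  ring

variable {V : Type} [Fintype V] [DecidableEq V] {R : Type} [CommRing R] [IsDomain R]

theorem xq_symm (x : Finset V → R) (u s : V) (q : Fin 4 → V) (i j : Fin 4) :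
    xq x u s q i j = xq x u s q j i := by
  unfold xq
  rw [Finset.pair_comm]

theorem S4_0 (D : Dat V R) (x : Finset V → R) (u s : V) (q : Fin 4 → V) :
    S4 D x u s q 0 = D.wt (q 1) * xq x u s q 0 1 + D.wt (q 2) * xq x u s q 0 2 +
      D.wt (q 3) * xq x u s q 0 3 := by
  have e : (Finset.univ.erase (0 : Fin 4)) = {1, 2, 3} := by decide
  unfold S4
  rw [e, Finset.sum_insert (by decide), Finset.sum_pair (by decide)]
  ring

theorem S4_1 (D : Dat V R) (x : Finset V → R) (u s : V) (q : Fin 4 → V) :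
    S4 D x u s q 1 = D.wt (q 0) * xq x u s q 0 1 + D.wt (q 2) * xq x u s q 1 2 +
      D.wt (q 3) * xq x u s q 1 3 := by
  have e : (Finset.univ.erase (1 : Fin 4)) = {0, 2, 3} := by decide
  unfold S4
  rw [e, Finset.sum_insert (by decide), Finset.sum_pair (by decide), xq_symm x u s q 1 0]
  ring

theorem S4_2 (D : Dat V R) (x : Finset V → R) (u s : V) (q : Fin 4 → V) :
    S4 D x u s q 2 = D.wt (q 0) * xq x u s q 0 2 + D.wt (q 1) * xq x u s q 1 2 +
      D.wt (q 3) * xq x u s q 2 3 := by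
  have e : (Finset.univ.erase (2 : Fin 4)) = {0, 1, 3} := by decide
  unfold S4
  rw [e, Finset.sum_insert (by decide), Finset.sum_pair (by decide), xq_symm x u s q 2 0,
    xq_symm x u s q 2 1]
  ring

theorem dt_rep (D : Dat V R) (h1 : StPe D) (c' : Fin 6 → V) (i j : Fin 6) (hij : i ≠ j)
    (e : c' i = c' j) : D.dt c' = 0 :=
  h1.2 c' fun h => hij (h e)

theorem dt_swap1 (D : Dat V R) (h1 : StPe D) (o a b c d e : V) :
    D.dt ![o, a, b, d, c, e] = D.dt ![o, a, b, c, d, e] ∨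
      D.dt ![o, a, b, d, c, e] = - D.dt ![o, a, b, c, d, e] := by
  have h := h1.1 ![o, a, b, c, d, e] (Equiv.swap 3 4)
  have e1 : (![o, a, b, c, d, e] : Fin 6 → V) ∘ (Equiv.swap 3 4 : Equiv.Perm (Fin 6)) =
      ![o, a, b, d, c, e] := by
    funext i
    fin_cases i <;> rfl
  rwa [e1] at h

theorem dt_swap2 (D : Dat V R) (h1 : StPe D) (o a b c d e : V) :
    D.dt ![o, a, c, d, b, e] = D.dt ![o, a, b, c, d, e] ∨
      D.dt ![o, a, c, d, b, e] = - D.dt ![o, a, b, c, d, e] := by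
  have h := h1.1 ![o, a, b, c, d, e] (Equiv.swap 2 3 * Equiv.swap 3 4)
  have e1 : (![o, a, b, c, d, e] : Fin 6 → V) ∘
      (Equiv.swap 2 3 * Equiv.swap 3 4 : Equiv.Perm (Fin 6)) = ![o, a, c, d, b, e] := by
    funext i
    fin_cases i <;> rfl
  rwa [e1] at h

/-- sign changes do not matter after multiplication with an even number -/
theorem sgn {R : Type} [CommRing R] (S σ y d d' : R) (hS : S = 2 * σ)
    (h : d' = d ∨ d' = - d) : ∃ r, S * (y * d') - S * (y * d) = 4 * r := by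
  rcases h with h | h
  · exact ⟨0, by rw [h]; ring⟩
  · exact ⟨-(σ * y * d), by rw [h, hS]; ring⟩

end IDag2

open IDag2 in
theorem pr_Dag2 {V : Type} [Fintype V] [DecidableEq V] {R : Type} [CommRing R] [IsDomain R]
    (D : Dat V R) (_hC : Ctx D) (h1 : StPe D) (h2 : StVe D) (h3 : StE4 D) (h4 : StDag1 D) :
    StDag2 D := by
  intro x u s q hG hQ
  obtain ⟨Y, hY1, y, hy⟩ := h4 x u s q hG hQ
  obtain ⟨-, hev, hfull, -⟩ := h2 x u s q hG hQ
  obtain ⟨-, e, he⟩ := h3 x u s q hG hQ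
  -- one term
  have hterm : ∀ k i j, i ≠ j → ∃ t, S4 D x u s q k * (xq x u s q i j *
      (D.om * Y i j k - D.dt ![u, s, q i, q j, q k, q 3])) = 4 * t := by
    intro k i j hij
    by_cases hS : S4 D x u s q k = 0
    · exact ⟨0, by rw [hS]; ring⟩
    · by_cases hx : xq x u s q i j = 0
      · exact ⟨0, by rw [hx]; ring⟩
      · obtain ⟨w, hw⟩ := hev k
        obtain ⟨v, hv⟩ := hY1 i j k hij hx (hfull k hS).2
        exact ⟨w * xq x u s q i j * v, by rw [hw, hv]; ring⟩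
  have hk : ∀ k, ∃ t, S4 D x u s q k * (D.om * (∑ i, ∑ j ∈ Finset.univ.filter (fun j => i < j),
      xq x u s q i j * Y i j k) - ∑ i, ∑ j ∈ Finset.univ.filter (fun j => i < j),
      xq x u s q i j * D.dt ![u, s, q i, q j, q k, q 3]) = 4 * t := by
    intro k
    obtain ⟨t1, ht1⟩ := hterm k 0 1 (by decide)
    obtain ⟨t2, ht2⟩ := hterm k 0 2 (by decide)
    obtain ⟨t3, ht3⟩ := hterm k 0 3 (by decide)
    obtain ⟨t4, ht4⟩ := hterm k 1 2 (by decide)
    obtain ⟨t5, ht5⟩ := hterm k 1 3 (by decide)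
    obtain ⟨t6, ht6⟩ := hterm k 2 3 (by decide)
    refine ⟨t1 + t2 + t3 + t4 + t5 + t6, ?_⟩
    rw [sum_lt, sum_lt]
    linear_combination ht1 + ht2 + ht3 + ht4 + ht5 + ht6
  obtain ⟨t0, ht0⟩ := hk 0
  obtain ⟨t1, ht1⟩ := hk 1
  obtain ⟨t2, ht2⟩ := hk 2
  obtain ⟨t3, ht3⟩ := hk 3
  -- the determinants
  have B0 : ∑ i, ∑ j ∈ Finset.univ.filter (fun j => i < j),
      xq x u s q i j * D.dt ![u, s, q i, q j, q 0, q 3] =
        xq x u s q 1 2 * D.dt ![u, s, q 1, q 2, q 0, q 3] := by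
    rw [sum_lt, dt_rep D h1 ![u, s, q 0, q 1, q 0, q 3] 2 4 (by decide) rfl,
      dt_rep D h1 ![u, s, q 0, q 2, q 0, q 3] 2 4 (by decide) rfl,
      dt_rep D h1 ![u, s, q 0, q 3, q 0, q 3] 2 4 (by decide) rfl,
      dt_rep D h1 ![u, s, q 1, q 3, q 0, q 3] 3 5 (by decide) rfl,
      dt_rep D h1 ![u, s, q 2, q 3, q 0, q 3] 3 5 (by decide) rfl]
    ring
  have B1 : ∑ i, ∑ j ∈ Finset.univ.filter (fun j => i < j),
      xq x u s q i j * D.dt ![u, s, q i, q j, q 1, q 3] =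
        xq x u s q 0 2 * D.dt ![u, s, q 0, q 2, q 1, q 3] := by
    rw [sum_lt, dt_rep D h1 ![u, s, q 0, q 1, q 1, q 3] 3 4 (by decide) rfl,
      dt_rep D h1 ![u, s, q 0, q 3, q 1, q 3] 3 5 (by decide) rfl,
      dt_rep D h1 ![u, s, q 1, q 2, q 1, q 3] 2 4 (by decide) rfl,
      dt_rep D h1 ![u, s, q 1, q 3, q 1, q 3] 2 4 (by decide) rfl,
      dt_rep D h1 ![u, s, q 2, q 3, q 1, q 3] 3 5 (by decide) rfl]
    ring
  have B2 : ∑ i, ∑ j ∈ Finset.univ.filter (fun j => i < j),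
      xq x u s q i j * D.dt ![u, s, q i, q j, q 2, q 3] =
        xq x u s q 0 1 * D.dt ![u, s, q 0, q 1, q 2, q 3] := by
    rw [sum_lt, dt_rep D h1 ![u, s, q 0, q 2, q 2, q 3] 3 4 (by decide) rfl,
      dt_rep D h1 ![u, s, q 0, q 3, q 2, q 3] 3 5 (by decide) rfl,
      dt_rep D h1 ![u, s, q 1, q 2, q 2, q 3] 3 4 (by decide) rfl,
      dt_rep D h1 ![u, s, q 1, q 3, q 2, q 3] 3 5 (by decide) rfl,
      dt_rep D h1 ![u, s, q 2, q 3, q 2, q 3] 2 4 (by decide) rfl]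
    ring
  have B3 : ∑ i, ∑ j ∈ Finset.univ.filter (fun j => i < j),
      xq x u s q i j * D.dt ![u, s, q i, q j, q 3, q 3] = 0 := by
    rw [sum_lt, dt_rep D h1 ![u, s, q 0, q 1, q 3, q 3] 4 5 (by decide) rfl,
      dt_rep D h1 ![u, s, q 0, q 2, q 3, q 3] 4 5 (by decide) rfl,
      dt_rep D h1 ![u, s, q 0, q 3, q 3, q 3] 4 5 (by decide) rfl,
      dt_rep D h1 ![u, s, q 1, q 2, q 3, q 3] 4 5 (by decide) rfl,
      dt_rep D h1 ![u, s, q 1, q 3, q 3, q 3] 4 5 (by decide) rfl,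
      dt_rep D h1 ![u, s, q 2, q 3, q 3, q 3] 4 5 (by decide) rfl]
    ring
  rw [B0] at ht0
  rw [B1] at ht1
  rw [B2] at ht2
  rw [B3] at ht3
  obtain ⟨u0, hu0⟩ := hev 0
  obtain ⟨u1, hu1⟩ := hev 1
  obtain ⟨r0, hr0⟩ := sgn (S4 D x u s q 0) u0 (xq x u s q 1 2) (D.dt ![u, s, q 0, q 1, q 2, q 3]) _ hu0
    (dt_swap2 D h1 u s (q 0) (q 1) (q 2) (q 3))
  obtain ⟨r1, hr1⟩ := sgn (S4 D x u s q 1) u1 (xq x u s q 0 2) (D.dt ![u, s, q 0, q 1, q 2, q 3]) _ hu1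
    (dt_swap1 D h1 u s (q 0) (q 1) (q 2) (q 3))
  rw [Fin.sum_univ_four] at hy
  have hwt : D.wt (q 3) = 2 * D.c (q 3) + ∑ l ∈ range 6, D.μ l * D.a l (q 3) := rfl
  have hbr : D.wt (q 3) * P4 x u s q + 2 * C4 D x u s q = S4 D x u s q 2 * xq x u s q 0 1 +
      S4 D x u s q 1 * xq x u s q 0 2 + S4 D x u s q 0 * xq x u s q 1 2 := by
    rw [S4_0, S4_1, S4_2]
    unfold P4 C4
    ring
  rw [hbr]
  refine ⟨D.om * D.c (q 3) * e + D.om * y + t0 + t1 + t2 + t3 + r0 + r1, ?_⟩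
  linear_combination (D.om * E4 D x u s q) * hwt + 2 * D.om * D.c (q 3) * he + D.om * hy +
    ht0 + ht1 + ht2 + ht3 + hr0 + hr1

end CSLef.D6
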