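import Mathlib
import Pool.Agent.Work.MP_38c61c_al.D6.Stmts

/-!
Block D6, item DisT: the functionals `T m` on products of duals of disjoint full sets.
-/

set_option autoImplicit false

namespace CSLef.D6

open MvPolynomial Finset

/-- **DisT.** -/
theorem pr_DisT {V : Type} [Fintype V] [DecidableEq V] {R : Type} [CommRing R] [IsDomain R]
    (D : Dat V R) (hC : Ctx D) (h1 : StF3 D) : StDisT D := by
  intro G H hG hH hGn hHn hcard hdisj v hv hvU m hm
  have hU : (G ∪ H).card = 6 := by rw [Finset.card_union_of_disjoint hdisj, hcard]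
  let e : Fin 6 ≃ (G ∪ H : Finset V) := (Finset.equivFinOfCardEq hU).symm
  let c' : Fin 6 → V := fun i => (e i : V)
  have hc'mem : ∀ i, c' i ∈ G ∪ H := fun i => (e i).2
  have hinj : Function.Injective c' := fun i j hij => e.injective (Subtype.ext hij)
  have hVP : ∀ i, c' i ∈ D.VP := by
    intro i
    rcases Finset.mem_union.1 (hc'mem i) with h | h
    · exact hG.1 h
    · exact hH.1 h
  have hdet : (Matrix.of fun i l : Fin 6 => D.a l (c' i)).det ≠ 0 := by
    intro h0
    apply hC.ind6 c' hinj hVP
    unfold Dat.dt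
    have h2 : Matrix.det (fun i l : Fin 6 => D.a l (c' i)) = 0 := h0
    rw [h2]
    exact dvd_zero _
  let t : Fin 6 → R := fun l => D.T l (D.z v * D.XH G * D.XH H)
  have hmul : (Matrix.of fun i l : Fin 6 => D.a l (c' i)).mulVec t = 0 := by
    funext i
    have h2 := h1 G H hG hH hGn hHn hcard (c' i) (hc'mem i) v hv
    have hne : v ≠ c' i := fun h => hvU (h ▸ hc'mem i)
    rw [if_neg hne, Finset.sum_range] at h2
    exact h2
  have h3 := Matrix.eq_zero_of_mulVec_eq_zero hdet hmul
  have h4 := congrFun h3 ⟨m, hm⟩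
  exact h4

end CSLef.D6
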