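import Mathlib
import Pool.Agent.Work.MP_38c61c_al.D6.Stmts2

/-!
Block D6, item Es: the square of `K` times `X_u X_s`.
-/

set_option autoImplicit false

namespace CSLef.D6

open MvPolynomial Finset

namespace IEs

variable {V : Type} [Fintype V] [DecidableEq V] {R : Type} [CommRing R]

theorem mem_FS (D : Dat V R) {k : ℕ} {G : Finset V} (h : G ∈ D.FS k) : D.Full G ∧ G.card = k := by
  unfold Dat.FS at h
  rw [Finset.mem_filter, Finset.mem_powersetCard] at h
  exact ⟨h.2, h.1.2⟩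

theorem expd (D : Dat V R) (x : Finset V → R) (u s : V) :
    D.dg (X u * X s * D.KK x ^ 2) =
      ∑ G ∈ D.FS 4, ∑ G' ∈ D.FS 4, x G * x G' * D.dg (X u * X s * D.XH G * D.XH G') := by
  have h1 : X u * X s * D.KK x ^ 2 =
      ∑ G ∈ D.FS 4, ∑ G' ∈ D.FS 4, (x G * x G') • (X u * X s * D.XH G * D.XH G') := by
    unfold Dat.KK
    rw [pow_two, Finset.sum_mul_sum, Finset.mul_sum]
    refine Finset.sum_congr rfl fun G _ => ?_
    rw [Finset.mul_sum]
    refine Finset.sum_congr rfl fun G' _ => ?_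
    rw [MvPolynomial.smul_eq_C_mul, map_mul]
    ring
  rw [h1, map_sum]
  refine Finset.sum_congr rfl fun G _ => ?_
  rw [map_sum]
  refine Finset.sum_congr rfl fun G' _ => ?_
  rw [map_smul, smul_eq_mul]

end IEs

open IEs

/-- item Es -/
theorem pr_Es {V : Type} [Fintype V] [DecidableEq V] {R : Type} [CommRing R] [IsDomain R]
    (D : Dat V R) (hC : Ctx D) (h1 : StP1 D) (h2 : StPhX D) (h3 : StNon D) : StEs D := by
  intro x _hx u hu s hs hus
  have hne : ∀ G ∈ D.FS 4, G.Nonempty := fun G hG =>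
    Finset.card_pos.1 (by rw [(mem_FS D hG).2]; norm_num)
  have hz : ∀ G ∈ D.FS 4, ∀ v ∈ D.VP, v ∉ G → ∀ f : MvPolynomial V R,
      D.dg (X v * D.XH G * f) = 0 := fun G hG v hv hvG f =>
    hC.dgJ _ (Ideal.mul_mem_right f D.J ((h1 G (mem_FS D hG).1 (hne G hG)).2.1 v hv hvG).1)
  have hz1 : ∀ G ∈ D.FS 4, ∀ G' ∈ D.FS 4, ¬ (u ∈ G ∧ s ∈ G) →
      D.dg (X u * X s * D.XH G * D.XH G') = 0 := by
    intro G hG G' _ hn
    by_cases huG : u ∈ G
    · have hsG : s ∉ G := fun h => hn ⟨huG, h⟩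
      rw [show X u * X s * D.XH G * D.XH G' = X s * D.XH G * (X u * D.XH G') by ring]
      exact hz G hG s hs hsG _
    · rw [show X u * X s * D.XH G * D.XH G' = X u * D.XH G * (X s * D.XH G') by ring]
      exact hz G hG u hu huG _
  have hz2 : ∀ G ∈ D.FS 4, ∀ G' ∈ D.FS 4, ¬ (u ∈ G' ∧ s ∈ G') →
      D.dg (X u * X s * D.XH G * D.XH G') = 0 := by
    intro G hG G' hG' hn
    rw [show X u * X s * D.XH G * D.XH G' = X u * X s * D.XH G' * D.XH G by ring]
    exact hz1 G' hG' G hG hn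
  have hA : ∀ G ∈ D.FS 4, ∀ G' ∈ D.FS 4, u ∈ G → s ∈ G → u ∈ G' → s ∈ G' →
      D.dg (X u * X s * D.XH G * D.XH G') = D.dg (D.XH G * D.XH ((G'.erase u).erase s)) ∧
      (G ∩ G' ≠ {u, s} → D.dg (X u * X s * D.XH G * D.XH G') = 0) := by
    intro G hG G' hG' huG hsG huG' hsG'
    have hsE : s ∈ G'.erase u := Finset.mem_erase.2 ⟨fun h => hus h.symm, hsG'⟩
    have hFE : D.Full (G'.erase u) := h2.2 G' (mem_FS D hG').1 _ (Finset.erase_subset _ _)
    have e1 : D.dg (X u * X s * D.XH G * D.XH G') =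
        D.dg (D.XH G * D.XH ((G'.erase u).erase s)) := by
      have e2 := hC.dgJ _ (Ideal.mul_mem_left D.J (D.XH G * X s)
        ((h1 G' (mem_FS D hG').1 (hne G' hG')).2.2.1 u huG'))
      have e3 := hC.dgJ _ (Ideal.mul_mem_left D.J (D.XH G)
        ((h1 (G'.erase u) hFE ⟨s, hsE⟩).2.2.1 s hsE))
      have e4 : X u * X s * D.XH G * D.XH G' =
          D.XH G * X s * (X u * D.XH G' - D.XH (G'.erase u)) +
          D.XH G * (X s * D.XH (G'.erase u) - D.XH ((G'.erase u).erase s)) +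
          D.XH G * D.XH ((G'.erase u).erase s) := by ring
      rw [e4, map_add, map_add, e2, e3, zero_add, zero_add]
    refine ⟨e1, fun hn => ?_⟩
    rw [e1]
    refine h3 G ((G'.erase u).erase s) (mem_FS D hG).1
      (h2.2 (G'.erase u) hFE _ (Finset.erase_subset _ _)) ?_ ?_
    · rw [Finset.card_erase_of_mem hsE, Finset.card_erase_of_mem huG', (mem_FS D hG).2,
        (mem_FS D hG').2]
    · by_contra hem
      rw [Finset.not_nonempty_iff_eq_empty] at hem
      apply hn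
      ext t
      rw [Finset.mem_insert, Finset.mem_singleton, Finset.mem_inter]
      constructor
      · rintro ⟨ht, ht'⟩
        by_contra hts
        push Not at hts
        have : t ∈ G ∩ (G'.erase u).erase s :=
          Finset.mem_inter.2 ⟨ht, Finset.mem_erase.2 ⟨hts.2, Finset.mem_erase.2 ⟨hts.1, ht'⟩⟩⟩
        rw [hem] at this
        exact absurd this (Finset.notMem_empty t)
      · rintro (rfl | rfl)
        · exact ⟨huG, huG'⟩
        · exact ⟨hsG, hsG'⟩
  refine ⟨hA, ?_⟩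
  rw [expd, Finset.sum_filter]
  refine Finset.sum_congr rfl fun G hG => ?_
  by_cases hG1 : u ∈ G ∧ s ∈ G
  · rw [if_pos hG1, Finset.sum_filter]
    refine Finset.sum_congr rfl fun G' hG' => ?_
    by_cases hG2 : u ∈ G' ∧ s ∈ G'
    · by_cases hi : G ∩ G' = {u, s}
      · rw [if_pos ⟨hG2.1, hG2.2, hi⟩]
      · rw [if_neg (fun h => hi h.2.2), (hA G hG G' hG' hG1.1 hG1.2 hG2.1 hG2.2).2 hi, mul_zero]
    · rw [if_neg (fun h => hG2 ⟨h.1, h.2.1⟩), hz2 G hG G' hG' hG2, mul_zero]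
  · rw [if_neg hG1]
    refine Finset.sum_eq_zero fun G' hG' => ?_
    rw [hz1 G hG G' hG' hG1, mul_zero]

end CSLef.D6
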