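import Mathlib
import Pool.Agent.Work.MP_38c61c_al.D6.Stmts

/-!
Block D6, item ExA: exactness of first and second order with two free vertices.
-/

namespace CSLef.D6

open MvPolynomial Finset

namespace IExA

variable {V : Type} [Fintype V] [DecidableEq V] {R : Type} [CommRing R]

omit [Fintype V] in
/-- the derivative of the Lefschetz element in the direction of `c_u` -/
theorem dmap_welA (α : Equiv.Perm V) (VP : Finset V) (a : ℕ → V → R) (μ : ℕ → R) (c : V → R)
    (δ : Derivation ℤ R R) (u : V) (hu : u ∈ VP) (δa : ∀ l v, δ (a l v) = 0)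
    (δμ : ∀ l, δ (μ l) = 0) (δc : ∀ v, δ (c v) = if u = v then 1 else 0) :
    dmap δ (welA 6 α VP a μ c) = yy R α u := by
  unfold welA
  rw [dmap_add, dmap_sum, dmap_sum]
  have h3 : ∀ l ∈ range 6, dmap δ (C (μ l) *
      (∑ v ∈ VP, C (a l v) * X v : MvPolynomial V R)) = 0 := by
    intro l _
    rw [dmap_mul, dmap_C, δμ, dmap_sum, map_zero, zero_mul, zero_add]
    rw [Finset.sum_eq_zero, mul_zero]
    intro v _
    rw [dmap_mul, dmap_C, δa, dmap_X, map_zero, zero_mul, mul_zero, add_zero]
  rw [Finset.sum_eq_zero h3, zero_add]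
  have h4 : ∀ v ∈ VP, dmap δ (C (c v) * yy R α v : MvPolynomial V R) =
      if u = v then yy R α v else 0 := by
    intro v _
    have h5 : dmap δ (yy R α v) = 0 := by
      unfold yy
      rw [dmap_add, dmap_X, dmap_X, add_zero]
    rw [dmap_mul, dmap_C, δc, h5, mul_zero, add_zero]
    split_ifs
    · rw [C_1, one_mul]
    · rw [C_0, zero_mul]
  rw [Finset.sum_congr rfl h4, Finset.sum_ite_eq VP u, if_pos hu]

/-- `y_v y^2 ∈ J` -/
theorem yysq [IsDomain R] (D : Dat V R) (hC : Ctx D) (y : MvPolynomial V R)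
    (hw : D.w * y ∈ D.J) (v : V) : yy R D.α v * y ^ 2 ∈ D.J := by
  have key : ∀ u ∈ D.VP, yy R D.α u * y ^ 2 ∈ D.J := by
    intro u hu
    obtain ⟨δ, δa, δμ, δc⟩ := hC.derc u hu
    have h1 : dmap δ (D.w * y) ∈ D.J := dmap_J hC.hs.down δ δa hw
    have h0 : dmap δ D.w = yy R D.α u := dmap_welA D.α D.VP D.a D.μ D.c δ u hu δa δμ δc
    rw [dmap_mul, h0] at h1
    have h2 := Ideal.mul_mem_left D.J y h1
    have h4 := Ideal.sub_mem D.J h2 (Ideal.mul_mem_right (dmap δ y) D.J hw)
    have h5 : y * (yy R D.α u * y + D.w * dmap δ y) - D.w * y * dmap δ y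
        = yy R D.α u * y ^ 2 := by ring
    rwa [h5] at h4
  by_cases hv : v ∈ D.VP
  · exact key v hv
  · have h1 : D.α v ∈ D.VP := by
      by_contra h'
      exact hv ((hC.vp v).mpr h')
    have h2 := key _ h1
    have h3 : yy R D.α (D.α v) = yy R D.α v := by
      unfold yy
      rw [hC.cs.invol]
      ring
    rwa [h3] at h2

omit [Fintype V] [DecidableEq V] in
theorem dmap_sub (δ : Derivation ℤ R R) (f g : MvPolynomial V R) :
    dmap δ (f - g) = dmap δ f - dmap δ g := by
  ext m
  simp only [coeff_dmap, coeff_sub, map_sub]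

/-- the derivation `X v ↦ X v`, the other variables to `0` -/
noncomputable def E1 (v : V) : Derivation R (MvPolynomial V R) (MvPolynomial V R) :=
  mkDerivation R (fun u => if u = v then (X u : MvPolynomial V R) else 0)

theorem E1_monomial (v : V) (m : V →₀ ℕ) (b : R) :
    E1 v (monomial m b) = ((m v : ℕ) : R) • monomial m b := by
  unfold E1
  rw [mkDerivation_monomial]
  have key : ∀ i : V, (monomial (m - Finsupp.single i 1) ((m i : ℕ) : R)) •
      (if i = v then (X i : MvPolynomial V R) else 0) =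
      (if i = v then ((m i : ℕ) : R) • monomial m (1 : R) else 0) := by
    intro i
    have h0 : (monomial (m - Finsupp.single i 1) ((m i : ℕ) : R)) •
        (X i : MvPolynomial V R) = ((m i : ℕ) : R) • monomial m (1 : R) := by
      by_cases hi : m i = 0
      · rw [hi, Nat.cast_zero, monomial_zero, zero_smul, zero_smul]
      · have hs : m - Finsupp.single i 1 + Finsupp.single i 1 = m := by
          ext u
          simp only [Finsupp.coe_add, Finsupp.coe_tsub, Pi.add_apply, Pi.sub_apply,
            Finsupp.single_apply]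
          split_ifs with h
          · subst h
            omega
          · omega
        rw [smul_eq_mul, X, monomial_mul, mul_one, hs, smul_monomial, smul_eq_mul, mul_one]
    by_cases h1 : i = v
    · rw [if_pos h1, if_pos h1]
      exact h0
    · rw [if_neg h1, if_neg h1, smul_zero]
  have h3 : (m.sum fun i k => (monomial (m - Finsupp.single i 1) ((k : ℕ) : R)) •
      (if i = v then (X i : MvPolynomial V R) else 0)) =
      ((m v : ℕ) : R) • monomial m (1 : R) := by
    rw [Finsupp.sum_fintype]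
    · rw [Finset.sum_congr rfl (fun i _ => key i),
        Finset.sum_ite_eq', if_pos (Finset.mem_univ _)]
    · intro i
      simp
  rw [h3, smul_smul, mul_comm, mul_smul, smul_monomial, smul_eq_mul, mul_one]

theorem coeff_E1 (v : V) (f : MvPolynomial V R) (m : V →₀ ℕ) :
    coeff m (E1 v f) = ((m v : ℕ) : R) * coeff m f := by
  induction f using MvPolynomial.induction_on' with
  | monomial u b =>
    rw [E1_monomial, coeff_smul, coeff_monomial, smul_eq_mul]
    split_ifs with h
    · rw [h]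
    · rw [mul_zero, mul_zero]
  | add p q hp hq => rw [map_add, coeff_add, coeff_add, hp, hq, mul_add]

theorem E1_sr {Δ : Finset (Finset V)} (hdown : ∀ F ∈ Δ, ∀ G, G ⊆ F → G ∈ Δ) (v : V)
    (f : MvPolynomial V R) (hf : f ∈ srIdeal R Δ) : E1 v f ∈ srIdeal R Δ := by
  rw [mem_sr_iff hdown] at hf ⊢
  intro m hm
  apply hf m
  intro h0
  apply hm
  rw [coeff_E1, h0, mul_zero]

omit [Fintype V] in
theorem E1_X (v u : V) : E1 v (X u : MvPolynomial V R) = if u = v then X u else 0 := by
  unfold E1
  rw [mkDerivation_X]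

theorem E1_sum (v : V) (S : Finset V) (b : V → R) : E1 v (∑ u ∈ S, C (b u) * X u : MvPolynomial V R) =
    if v ∈ S then C (b v) * X v else 0 := by
  rw [map_sum]
  have h1 : ∀ u ∈ S, E1 v (C (b u) * X u : MvPolynomial V R) =
      if u = v then C (b u) * X u else 0 := by
    intro u _
    rw [C_mul', Derivation.map_smul, E1_X]
    split_ifs
    · rfl
    · rw [smul_zero]
  rw [Finset.sum_congr rfl h1, Finset.sum_ite_eq']

theorem E1_lin (v : V) (b : V → R) : E1 v (lin b) = C (b v) * X v := by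
  unfold lin
  rw [E1_sum, if_pos (Finset.mem_univ _)]

variable [IsDomain R]

theorem E1_w (D : Dat V R) (hC : Ctx D) {v : V} (hv : v ∈ D.VP) :
    E1 v D.w = C (D.c v + ∑ l ∈ range 6, D.μ l * D.a l v) * X v := by
  unfold Dat.w welA
  rw [map_add, map_sum, map_sum]
  have h1 : ∀ l ∈ range 6, E1 v (C (D.μ l) * (∑ u ∈ D.VP, C (D.a l u) * X u) : MvPolynomial V R) =
      C (D.μ l * D.a l v) * X v := by
    intro l _
    rw [C_mul', Derivation.map_smul, E1_sum, if_pos hv, ← C_mul', C_mul, mul_assoc]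
  have h2 : ∀ u ∈ D.VP, E1 v (C (D.c u) * yy R D.α u : MvPolynomial V R) =
      if u = v then C (D.c u) * X u else 0 := by
    intro u hu
    unfold yy
    rw [C_mul', Derivation.map_smul, map_add, E1_X, E1_X]
    have hne : D.α u ≠ v := by
      rintro rfl
      exact (hC.vp u).1 hu hv
    rw [if_neg hne, add_zero]
    split_ifs
    · rw [C_mul']
    · rw [smul_zero]
  rw [Finset.sum_congr rfl h1, Finset.sum_congr rfl h2, Finset.sum_ite_eq', if_pos hv,
    ← Finset.sum_mul, ← map_sum, ← add_mul, ← C_add]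
  rw [add_comm]

/-- derivative of the Lefschetz element -/
theorem dw (D : Dat V R) (hC : Ctx D) {m : ℕ} (hm : m < 6) {v : V} (hv : v ∈ D.VP)
    (δ : Derivation ℤ R R) (δa : ∀ l < 6, ∀ u, δ (D.a l u) =
      if m = l then (if u = v then 1 else if u = D.α v then -1 else 0) else 0)
    (δμ : ∀ l, δ (D.μ l) = 0) (δc : ∀ u, δ (D.c u) = 0) :
    dmap δ D.w = C (D.μ m) * X v := by
  have hvpα : ∀ v ∈ D.VP, D.α v ∉ D.VP := fun v hv => (hC.vp v).mp hv
  unfold Dat.w welA
  rw [dmap_add, dmap_sum, dmap_sum]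
  have h4 : ∀ u ∈ D.VP, dmap δ (C (D.c u) * yy R D.α u : MvPolynomial V R) = 0 := by
    intro u _
    have h5 : dmap δ (yy R D.α u) = 0 := by
      unfold yy
      rw [dmap_add, dmap_X, dmap_X, add_zero]
    rw [dmap_mul, dmap_C, δc, h5, mul_zero, add_zero, map_zero, zero_mul]
  rw [Finset.sum_eq_zero h4, add_zero]
  have h3 : ∀ l' ∈ range 6, dmap δ (C (D.μ l') *
      (∑ u ∈ D.VP, C (D.a l' u) * X u : MvPolynomial V R)) =
      if m = l' then C (D.μ m) * X v else 0 := by
    intro l' hl'
    rw [dmap_mul, dmap_C, δμ, dmap_sum, map_zero, zero_mul, zero_add]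
    have h6 : ∀ u ∈ D.VP, dmap δ (C (D.a l' u) * X u : MvPolynomial V R) =
        if u = v then (if m = l' then X v else 0) else 0 := by
      intro u hu
      rw [dmap_mul, dmap_C, dmap_X, mul_zero, add_zero, δa l' (Finset.mem_range.mp hl')]
      have hne : u ≠ D.α v := fun h => hvpα v hv (h ▸ hu)
      by_cases hll : m = l'
      · by_cases huv : u = v
        · subst huv
          rw [if_pos hll, if_pos rfl, if_pos rfl, if_pos hll, map_one, one_mul]
        · rw [if_pos hll, if_neg huv, if_neg hne, if_neg huv, map_zero, zero_mul]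
      · by_cases huv : u = v
        · rw [if_neg hll, if_pos huv, if_neg hll, map_zero, zero_mul]
        · rw [if_neg hll, if_neg huv, map_zero, zero_mul]
    rw [Finset.sum_congr rfl h6, Finset.sum_ite_eq' D.VP v, if_pos hv]
    by_cases hll : m = l'
    · subst hll
      rw [if_pos rfl, if_pos rfl]
    · rw [if_neg hll, if_neg hll, mul_zero]
  rw [Finset.sum_congr rfl h3, Finset.sum_ite_eq (range 6) m, if_pos (Finset.mem_range.mpr hm)]

/-- derivative of the linear forms -/
theorem dlin (D : Dat V R) (hC : Ctx D) {m : ℕ} {v : V}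
    (δ : Derivation ℤ R R) (δa : ∀ l < 6, ∀ u, δ (D.a l u) =
      if m = l then (if u = v then 1 else if u = D.α v then -1 else 0) else 0)
    {l' : ℕ} (hl' : l' < 6) :
    dmap δ (lin (D.a l')) = if m = l' then X v - X (D.α v) else 0 := by
  unfold lin
  rw [dmap_sum]
  have h6 : ∀ u ∈ Finset.univ, dmap δ (C (D.a l' u) * X u : MvPolynomial V R) =
      (if u = v then (if m = l' then X v else 0) else 0) -
      (if u = D.α v then (if m = l' then X (D.α v) else 0) else 0) := by
    intro u _
    rw [dmap_mul, dmap_C, dmap_X, mul_zero, add_zero, δa l' hl']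
    have hne : D.α v ≠ v := hC.cs.fpf v
    by_cases hll : m = l'
    · by_cases huv : u = v
      · subst huv
        rw [if_pos hll, if_pos rfl, if_pos rfl, if_pos hll, if_neg (Ne.symm hne), map_one,
          one_mul, sub_zero]
      · by_cases huv' : u = D.α v
        · subst huv'
          rw [if_pos hll, if_neg huv, if_pos rfl, if_neg huv, if_pos rfl, if_pos hll, map_neg,
            map_one]
          ring
        · rw [if_pos hll, if_neg huv, if_neg huv', if_neg huv, if_neg huv', map_zero, zero_mul,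
            sub_zero]
    · rw [if_neg hll, if_neg hll, if_neg hll, map_zero, zero_mul]
      simp
  rw [Finset.sum_congr rfl h6, Finset.sum_sub_distrib, Finset.sum_ite_eq', Finset.sum_ite_eq',
    if_pos (Finset.mem_univ _), if_pos (Finset.mem_univ _)]
  by_cases hll : m = l'
  · rw [if_pos hll, if_pos hll, if_pos hll]
  · rw [if_neg hll, if_neg hll, if_neg hll, sub_zero]

/-- relations from the derivations of the entries of the rows -/
theorem relz (D : Dat V R) (hC : Ctx D) (y : MvPolynomial V R) (hwy : D.w * y ∈ D.J)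
    (g : ℕ → MvPolynomial V R)
    (hg : D.w * y - ∑ l ∈ range 6, lin (D.a l) * g l ∈ srIdeal R D.Δ) {m : ℕ} (hm : m < 6)
    (u : V) (hu : u ∈ D.VP) :
    (X u - X (D.α u)) * g m * y - C (D.μ m) * X u * y ^ 2 ∈ D.J := by
  have hΘJ : ∀ l < 6, lin (D.a l) ∈ D.J := fun l hl => lin_mem_J hl
  have hsrJ : ∀ f ∈ srIdeal R D.Δ, f ∈ D.J := fun f hf => sr_le_J 6 hf
  obtain ⟨δ, δa, δμ, δc⟩ := hC.der m hm u hu
  have k1 := hsrJ _ (dmap_sr hC.hs.down δ hg)
  have k2 : dmap δ (D.w * y - ∑ l ∈ range 6, lin (D.a l) * g l) =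
      C (D.μ m) * X u * y + D.w * dmap δ y -
        ((X u - X (D.α u)) * g m + ∑ l ∈ range 6, lin (D.a l) * dmap δ (g l)) := by
    rw [dmap_sub, dmap_mul, dw D hC hm hu δ δa δμ δc, dmap_sum]
    congr 1
    have h6 : ∀ l' ∈ range 6, dmap δ (lin (D.a l') * g l') =
        (if m = l' then (X u - X (D.α u)) * g l' else 0) + lin (D.a l') * dmap δ (g l') := by
      intro l' hl'
      rw [dmap_mul, dlin D hC δ δa (Finset.mem_range.mp hl')]
      by_cases hll : m = l'
      · rw [if_pos hll, if_pos hll]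
      · rw [if_neg hll, if_neg hll, zero_mul]
    rw [Finset.sum_congr rfl h6, Finset.sum_add_distrib, Finset.sum_ite_eq (range 6) m,
      if_pos (Finset.mem_range.mpr hm)]
  rw [k2] at k1
  have k3 := Ideal.mul_mem_left _ y k1
  have k4 : ∑ l ∈ range 6, lin (D.a l) * dmap δ (g l) ∈ D.J :=
    Ideal.sum_mem _ (fun l' hl' => Ideal.mul_mem_right _ _ (hΘJ l' (Finset.mem_range.mp hl')))
  have k5 := Ideal.mul_mem_left D.J (dmap δ y) hwy
  have k6 := Ideal.sub_mem _ k5 (Ideal.add_mem _ k3 (Ideal.mul_mem_left _ y k4))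
  have e : (X u - X (D.α u)) * g m * y - C (D.μ m) * X u * y ^ 2 =
      dmap δ y * (D.w * y) - (y * (C (D.μ m) * X u * y + D.w * dmap δ y -
        ((X u - X (D.α u)) * g m + ∑ l ∈ range 6, lin (D.a l) * dmap δ (g l))) +
        y * ∑ l ∈ range 6, lin (D.a l) * dmap δ (g l)) := by
    ring
  rw [e]
  exact k6

/-- relations from the Euler derivations -/
theorem relE (D : Dat V R) (hC : Ctx D) (y : MvPolynomial V R) (hwy : D.w * y ∈ D.J)
    (g : ℕ → MvPolynomial V R)
    (hg : D.w * y - ∑ l ∈ range 6, lin (D.a l) * g l ∈ srIdeal R D.Δ) (v : V) (hv : v ∈ D.VP) :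
    C (D.c v + ∑ l ∈ range 6, D.μ l * D.a l v) * X v * y ^ 2 -
      ∑ l ∈ range 6, C (D.a l v) * (X v * g l * y) ∈ D.J := by
  have hΘJ : ∀ l < 6, lin (D.a l) ∈ D.J := fun l hl => lin_mem_J hl
  have hsrJ : ∀ f ∈ srIdeal R D.Δ, f ∈ D.J := fun f hf => sr_le_J 6 hf
  have k1 := hsrJ _ (E1_sr hC.hs.down v _ hg)
  have k2 : E1 v (D.w * y - ∑ l ∈ range 6, lin (D.a l) * g l) =
      D.w * E1 v y + y * (C (D.c v + ∑ l ∈ range 6, D.μ l * D.a l v) * X v) -
        (∑ l ∈ range 6, lin (D.a l) * E1 v (g l) + ∑ l ∈ range 6, C (D.a l v) * (X v * g l)) := by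
    rw [map_sub, Derivation.leibniz, E1_w D hC hv, map_sum, smul_eq_mul, smul_eq_mul]
    congr 1
    rw [← Finset.sum_add_distrib]
    apply Finset.sum_congr rfl
    intro l _
    rw [Derivation.leibniz, E1_lin, smul_eq_mul, smul_eq_mul]
    ring
  rw [k2] at k1
  have k4 : ∑ l ∈ range 6, lin (D.a l) * E1 v (g l) ∈ D.J :=
    Ideal.sum_mem _ (fun l' hl' => Ideal.mul_mem_right _ _ (hΘJ l' (Finset.mem_range.mp hl')))
  have k3 := Ideal.mul_mem_left _ y k1
  have k5 := Ideal.mul_mem_left D.J (E1 v y) hwy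
  have k6 := Ideal.sub_mem _ (Ideal.add_mem _ k3 (Ideal.mul_mem_left _ y k4)) k5
  have e0 : ∑ l ∈ range 6, C (D.a l v) * (X v * g l * y) =
      y * ∑ l ∈ range 6, C (D.a l v) * (X v * g l) := by
    rw [Finset.mul_sum]
    apply Finset.sum_congr rfl
    intro l _
    ring
  rw [e0]
  generalize (∑ l ∈ range 6, C (D.a l v) * (X v * g l)) = S at *
  generalize (∑ l ∈ range 6, lin (D.a l) * E1 v (g l)) = S' at *
  generalize (C (D.c v + ∑ l ∈ range 6, D.μ l * D.a l v) : MvPolynomial V R) = L at *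
  have e : L * X v * y ^ 2 - y * S =
      y * (D.w * E1 v y + y * (L * X v) - (S' + S)) + y * S' - E1 v y * (D.w * y) := by ring
  rw [e]
  exact k6

/-- relations from the involution -/
theorem relA (D : Dat V R) (hC : Ctx D) (ε : R) (y : MvPolynomial V R)
    (hαy : rename D.α y - ε • y ∈ D.J)
    (g : ℕ → MvPolynomial V R)
    (hg : D.w * y - ∑ l ∈ range 6, lin (D.a l) * g l ∈ srIdeal R D.Δ) (q : ℕ → MvPolynomial V R)
    (hq : rename D.α y - ε • y - ∑ l ∈ range 6, lin (D.a l) * q l ∈ srIdeal R D.Δ)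
    {m : ℕ} (hm : m < 6) :
    rename D.α (g m) + C ε * g m - C ε * C (D.μ m) * y + D.w * q m ∈ D.J := by
  have hαw : rename D.α D.w = D.w + - ∑ l ∈ range 6, C (D.μ l) * lin (D.a l) :=
    rename_welA_eq hC.cs.invol hC.vp hC.anti D.μ D.c
  have k1 := rename_sr hC.cs hg
  have k2 : ∑ l ∈ range 6, rename D.α (lin (D.a l) * g l) =
      - ∑ l ∈ range 6, lin (D.a l) * rename D.α (g l) := by
    rw [← Finset.sum_neg_distrib]
    apply Finset.sum_congr rfl
    intro l _
    rw [map_mul, rename_lin_neg hC.cs.invol hC.anti]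
    ring
  rw [map_sub, map_mul, map_sum, hαw, k2] at k1
  have k3 := Ideal.sub_mem _ (Ideal.sub_mem _ k1 (Ideal.mul_mem_left _ (C ε) hg))
    (Ideal.mul_mem_left _ D.w hq)
  have k4 : ∑ l ∈ range 6, lin (D.a l) * ((rename D.α (g l) + C ε * g l -
      C ε * C (D.μ l) * y + D.w * q l) - C (D.μ l) * (rename D.α y - ε • y)) ∈
      srIdeal R D.Δ := by
    have e : ∑ l ∈ range 6, lin (D.a l) * ((rename D.α (g l) + C ε * g l -
        C ε * C (D.μ l) * y + D.w * q l) - C (D.μ l) * (rename D.α y - ε • y)) =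
        (D.w + - ∑ l ∈ range 6, C (D.μ l) * lin (D.a l)) * rename D.α y -
          - ∑ l ∈ range 6, lin (D.a l) * rename D.α (g l) -
        C ε * (D.w * y - ∑ l ∈ range 6, lin (D.a l) * g l) -
        D.w * (rename D.α y - ε • y - ∑ l ∈ range 6, lin (D.a l) * q l) := by
      have e1 : ∑ l ∈ range 6, lin (D.a l) * ((rename D.α (g l) + C ε * g l -
          C ε * C (D.μ l) * y + D.w * q l) - C (D.μ l) * (rename D.α y - ε • y)) =
          ∑ l ∈ range 6, lin (D.a l) * rename D.α (g l) +
          C ε * ∑ l ∈ range 6, lin (D.a l) * g l -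
          (∑ l ∈ range 6, C (D.μ l) * lin (D.a l)) * (C ε * y) +
          D.w * ∑ l ∈ range 6, lin (D.a l) * q l -
          (∑ l ∈ range 6, C (D.μ l) * lin (D.a l)) * (rename D.α y - ε • y) := by
        simp only [Finset.mul_sum, Finset.sum_mul]
        rw [← Finset.sum_add_distrib, ← Finset.sum_sub_distrib, ← Finset.sum_add_distrib,
          ← Finset.sum_sub_distrib]
        apply Finset.sum_congr rfl
        intro l _
        ring
      rw [e1, smul_eq_C_mul]
      ring
    rw [e]
    exact k3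
  have k5 := hC.syz _ k4 m hm
  have k6 := Ideal.add_mem _ k5 (Ideal.mul_mem_left D.J (C (D.μ m)) hαy)
  rwa [sub_add_cancel] at k6

end IExA

open IExA in
theorem pr_ExA {V : Type} [Fintype V] [DecidableEq V] {R : Type} [CommRing R] [IsDomain R]
    (D : Dat V R) (hC : Ctx D) (h1 : StTx D) : StExA D := by
  intro ε y hε _ hwy hαy
  obtain ⟨g, hg⟩ := (mem_J_iff 6 _).mp hwy
  obtain ⟨q, hq⟩ := (mem_J_iff 6 _).mp hαy
  -- symmetry
  have fs : ∀ u v, D.dg (X u * X v * y ^ 2) = D.dg (X v * X u * y ^ 2) := by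
    intro u v
    rw [mul_comm (X u : MvPolynomial V R) (X v)]
  have hs : ∀ m, ∀ u v, D.dg (X u * X v * g m * y) = D.dg (X v * X u * g m * y) := by
    intro m u v
    rw [mul_comm (X u : MvPolynomial V R) (X v)]
  -- fact 1
  have f1 : ∀ u v, D.dg (X u * X (D.α v) * y ^ 2) = - D.dg (X u * X v * y ^ 2) := by
    intro u v
    have k1 := hC.dgJ _ (Ideal.mul_mem_left D.J (X u) (yysq D hC y hwy v))
    have k2 : X u * (yy R D.α v * y ^ 2) = X u * X v * y ^ 2 + X u * X (D.α v) * y ^ 2 := by
      unfold yy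
      ring
    rw [k2, map_add] at k1
    exact (neg_eq_of_add_eq_zero_right k1).symm
  have f1' : ∀ u v, D.dg (X (D.α u) * X v * y ^ 2) = - D.dg (X u * X v * y ^ 2) := by
    intro u v
    rw [fs (D.α u) v, f1 v u, fs v u]
  -- fact 2
  have f2a : ∀ m < 6, ∀ u, ∀ v ∈ D.VP, D.dg (X u * X (D.α v) * g m * y) =
      D.dg (X u * X v * g m * y) - D.μ m * D.dg (X u * X v * y ^ 2) := by
    intro m hm u v hv
    have k1 := hC.dgJ _ (Ideal.mul_mem_left D.J (X u) (relz D hC y hwy g hg hm v hv))
    have e : X u * ((X v - X (D.α v)) * g m * y - C (D.μ m) * X v * y ^ 2) =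
        X u * X v * g m * y - X u * X (D.α v) * g m * y - D.μ m • (X u * X v * y ^ 2) := by
      rw [smul_eq_C_mul]
      ring
    rw [e, map_sub, map_sub, map_smul, smul_eq_mul] at k1
    linear_combination -k1
  have f2 : ∀ m < 6, ∀ u v, D.dg (X u * X (D.α v) * g m * y) =
      D.dg (X u * X v * g m * y) - D.μ m * D.dg (X u * X v * y ^ 2) := by
    intro m hm u v
    by_cases hv : v ∈ D.VP
    · exact f2a m hm u v hv
    · have hv' : D.α v ∈ D.VP := by
        by_contra h'
        exact hv ((hC.vp v).mpr h')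
      have k1 := f2a m hm u (D.α v) hv'
      rw [hC.cs.invol, f1 u v] at k1
      linear_combination -k1
  have f2' : ∀ m < 6, ∀ u v, D.dg (X (D.α u) * X (D.α v) * g m * y) =
      D.dg (X u * X v * g m * y) := by
    intro m hm u v
    rw [f2 m hm (D.α u) v, f1' u v, hs m (D.α u) v, f2 m hm v u, hs m v u, fs v u]
    ring
  -- fact 3
  have f3 : ∀ m < 6, ∀ u v, 2 * D.dg (X u * X v * g m * y) = D.μ m * D.dg (X u * X v * y ^ 2) := by
    intro m hm u v
    have hinv := relA D hC ε y hαy g hg q hq hm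
    have k1 : X u * X v * rename D.α (g m) * rename D.α y + X u * X v * g m * y -
        C (D.μ m) * (X u * X v * y ^ 2) ∈ D.J := by
      have e2 : (1 - C ε * C ε : MvPolynomial V R) = 0 := by
        rw [← map_mul, hε, map_one, sub_self]
      have e1 : X u * X v * rename D.α (g m) * rename D.α y + X u * X v * g m * y -
          C (D.μ m) * (X u * X v * y ^ 2) =
          X u * X v * C ε * y * (rename D.α (g m) + C ε * g m - C ε * C (D.μ m) * y +
            D.w * q m) + X u * X v * rename D.α (g m) * (rename D.α y - ε • y) -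
          X u * X v * C ε * q m * (D.w * y) +
          (1 - C ε * C ε) * (X u * X v * g m * y - C (D.μ m) * (X u * X v * y ^ 2)) := by
        rw [smul_eq_C_mul]
        ring
      rw [e1, e2, zero_mul, add_zero]
      exact Ideal.sub_mem _ (Ideal.add_mem _ (Ideal.mul_mem_left _ _ hinv)
        (Ideal.mul_mem_left _ _ hαy)) (Ideal.mul_mem_left _ _ hwy)
    have k2 := hC.dgJ _ k1
    have k3 := hC.dga (X (D.α u) * X (D.α v) * g m * y)
    have k4 : rename D.α (X (D.α u) * X (D.α v) * g m * y) =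
        X u * X v * rename D.α (g m) * rename D.α y := by
      rw [map_mul, map_mul, map_mul, rename_X, rename_X, hC.cs.invol, hC.cs.invol]
    rw [k4, f2' m hm u v] at k3
    rw [← smul_eq_C_mul, map_sub, map_add, map_smul, smul_eq_mul, k3] at k2
    linear_combination k2
  -- fact 4
  have f4 : ∀ u, ∀ v ∈ D.VP, D.dg (X u * X v * y ^ 2) = 0 := by
    intro u v hv
    have k1 := hC.dgJ _ (Ideal.mul_mem_left D.J (X u) (relE D hC y hwy g hg v hv))
    have e : X u * (C (D.c v + ∑ l ∈ range 6, D.μ l * D.a l v) * X v * y ^ 2 -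
        ∑ l ∈ range 6, C (D.a l v) * (X v * g l * y)) =
        (D.c v + ∑ l ∈ range 6, D.μ l * D.a l v) • (X u * X v * y ^ 2) -
        ∑ l ∈ range 6, D.a l v • (X u * X v * g l * y) := by
      rw [mul_sub, smul_eq_C_mul, Finset.mul_sum]
      congr 1
      · ring
      · apply Finset.sum_congr rfl
        intro l _
        rw [smul_eq_C_mul]
        ring
    rw [e, map_sub, map_smul, smul_eq_mul, map_sum] at k1
    have k2 : ∑ l ∈ range 6, D.dg (D.a l v • (X u * X v * g l * y)) * 2 =
        (∑ l ∈ range 6, D.μ l * D.a l v) * D.dg (X u * X v * y ^ 2) := by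
      rw [Finset.sum_mul]
      apply Finset.sum_congr rfl
      intro l hl
      rw [map_smul, smul_eq_mul]
      have := f3 l (Finset.mem_range.mp hl) u v
      linear_combination (D.a l v) * this
    rw [← Finset.sum_mul] at k2
    have k3 : D.wt v * D.dg (X u * X v * y ^ 2) = 0 := by
      unfold Dat.wt
      linear_combination 2 * k1 + k2
    rcases mul_eq_zero.mp k3 with h | h
    · exfalso
      apply hC.wt_odd v hv
      unfold Dat.wt at h
      exact ⟨- D.c v, by linear_combination h⟩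
    · exact h
  have f5 : ∀ u v, D.dg (X u * X v * y ^ 2) = 0 := by
    intro u v
    by_cases hv : v ∈ D.VP
    · exact f4 u v hv
    · have hv' : D.α v ∈ D.VP := by
        by_contra h'
        exact hv ((hC.vp v).mpr h')
      have k1 := f4 u (D.α v) hv'
      rw [f1 u v] at k1
      exact neg_eq_zero.mp k1
  intro u v
  refine ⟨f5 u v, ?_⟩
  intro m hm
  have k1 := f3 m hm u v
  rw [f5 u v, mul_zero] at k1
  have k2 := (mul_eq_zero.mp k1).resolve_left hC.two.ne_zero
  have hfin := h1.1 (D.w * y) g hg m hm (X u * X v * y)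
  have e1 : X u * X v * D.w * y ^ 2 = D.w * y * (X u * X v * y) := by ring
  have e2 : g m * (X u * X v * y) = X u * X v * g m * y := by ring
  rw [e1, hfin, e2]
  exact k2

end CSLef.D6
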