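import Mathlib
import Pool.Agent.Work.MP_38c61c_al.D6.Stmts

/-!
Block D6, item F3: the values `T_m (z_v X_G X_H)`.
-/

namespace CSLef.D6

open MvPolynomial Finset

namespace IF3

variable {V : Type} [Fintype V] [DecidableEq V] {R : Type} [CommRing R] [IsDomain R]

theorem core (D : Dat V R) (hC : Ctx D) (h1 : StPs D) (h2 : StP1 D) (h3 : StTx D)
    (G H : Finset V) (hG : D.Full G) (hH : D.Full H) (hGn : G.Nonempty) (p : V) (hp : p ∈ H)
    (v : V) (hv : v ∈ D.VP) :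
    ∑ m ∈ range 6, D.a m p * D.T m (D.z v * D.XH G * D.XH H) =
      if v = p then D.dg (D.XH G * D.XH H) else 0 := by
  have hJ : D.z v * D.XH G ∈ D.J := (h2 G hG hGn).1 v
  obtain ⟨g, hg⟩ := (mem_J_iff (Δ := D.Δ) (a := D.a) 6 (D.z v * D.XH G)).1 hJ
  obtain ⟨hs, hz, hl⟩ := h1 H hH p hp
  have hT : ∀ m < 6, D.T m (D.z v * D.XH G * D.XH H) = D.ph H (g m) := by
    intro m hm
    rw [h3.1 (D.z v * D.XH G) g hg m hm (D.XH H), mul_comm (g m), hC.xh_dg H hH]
  have e0 := hs _ hg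
  rw [map_sub, map_sum, hz v hv, sub_eq_zero] at e0
  have e1 : D.ph H (D.XH G) = D.dg (D.XH G * D.XH H) := by
    rw [← hC.xh_dg H hH, mul_comm]
  rw [e1] at e0
  rw [e0]
  apply Finset.sum_congr rfl
  intro m hm
  rw [hT m (Finset.mem_range.1 hm), hl]

end IF3

theorem pr_F3 {V : Type} [Fintype V] [DecidableEq V] {R : Type} [CommRing R] [IsDomain R]
    (D : Dat V R) (hC : Ctx D) (h1 : StPs D) (h2 : StP1 D) (h3 : StTx D) : StF3 D := by
  intro G H hG hH hGn hHn _ p hp v hv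
  rcases Finset.mem_union.1 hp with hp | hp
  · have h := IF3.core D hC h1 h2 h3 H G hH hG hHn p hp v hv
    have e : D.z v * D.XH G * D.XH H = D.z v * D.XH H * D.XH G := by ring
    rw [e, mul_comm (D.XH G) (D.XH H)]
    exact h
  · exact IF3.core D hC h1 h2 h3 G H hG hH hGn p hp v hv

end CSLef.D6
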