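import Mathlib
import Pool.Agent.Work.MP_38c61c_al.D6.Stmts2

/-!
Block D6, item Fin: good coefficient functions vanish (helper65).
-/

namespace CSLef.D6

open MvPolynomial Finset

namespace IFin

/-- a set of four elements is enumerated by an injective function on `Fin 4` -/
theorem enum4 {V : Type} [DecidableEq V] (Q : Finset V) (h : Q.card = 4) :
    ∃ q : Fin 4 → V, Function.Injective q ∧ (∀ i, q i ∈ Q) ∧ ∀ v ∈ Q, ∃ i, q i = v := by
  let e := Q.equivFinOfCardEq h
  refine ⟨fun i => (e.symm i : V), ?_, ?_, ?_⟩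
  · intro i j hij
    exact e.symm.injective (Subtype.ext hij)
  · intro i
    exact (e.symm i).2
  · intro v hv
    refine ⟨e ⟨v, hv⟩, ?_⟩
    simp

end IFin

theorem pr_Fin {V : Type} [Fintype V] [DecidableEq V] {R : Type} [CommRing R] [IsDomain R]
    (D : Dat V R) (h1 : StInt D) (h2 : StClo D) (h3 : StL4 D) (h4 : StL5 D) (h5 : StVP6 D)
    (h6 : D5.StCL) : StFin D := by
  classical
  intro x hx G
  by_contra hG
  have hF : ∀ G, x G ≠ 0 → G ⊆ D.VP ∧ G.card = 4 := by
    intro G h
    have h' := (hx.supp G h).1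
    simp only [Dat.FS, mem_filter, mem_powersetCard] at h'
    exact h'.1
  obtain ⟨u, hu⟩ : G.Nonempty := by
    rw [← card_pos, (hF G hG).2]
    norm_num
  have huV : u ∈ D.VP := (hF G hG).1 hu
  let G0 : Finset (Finset V) := Finset.univ.filter (fun T => u ∉ T ∧ x (insert u T) ≠ 0)
  have hm : ∀ T, T ∈ G0 ↔ u ∉ T ∧ x (insert u T) ≠ 0 := by
    intro T
    simp only [G0, mem_filter, mem_univ, true_and]
  have hm' : ∀ G, x G ≠ 0 → u ∈ G → G.erase u ∈ G0 := by
    intro G h h'
    rw [hm, insert_erase h']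
    exact ⟨notMem_erase _ _, h⟩
  have hc3 : ∀ T ∈ G0, T.card = 3 := by
    intro T hT
    have h := (hF _ ((hm T).1 hT).2).2
    rw [card_insert_of_notMem ((hm T).1 hT).1] at h
    omega
  have hcl := h6 G0 ⟨G.erase u, hm' G hG hu⟩ hc3
    (fun T hT T' hT' => by
      have h := h1 _ (hx.supp _ ((hm T).1 hT).2).1 _ (hx.supp _ ((hm T').1 hT').2).1
      rw [← insert_inter_distrib] at h
      have h7 := card_insert_le u (T ∩ T')
      rw [← card_pos]
      omega)
    (fun T hT H hH hc => by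
      have huT := ((hm T).1 hT).1
      have huH : u ∉ H := fun h => huT (hH h)
      obtain ⟨G', a, b, c⟩ := h2 x hx (insert u T) ((hm T).1 hT).2 (insert u H)
        (insert_subset_insert u hH) (by rw [card_insert_of_notMem huH, hc])
      have huG' : u ∈ G' := c (mem_insert_self _ _)
      refine ⟨G'.erase u, hm' G' a huG', ?_, ?_⟩
      · intro h
        exact b (by rw [← h, insert_erase huG'])
      · intro v hv
        rw [mem_erase]
        exact ⟨fun h => huH (h ▸ hv), c (mem_insert_of_mem hv)⟩)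
  rcases hcl with ⟨s, ⟨T1, hT1, hs1⟩, Q, hQc, hsQ, hQ⟩ | ⟨s, c, hc, hcs, hlink⟩
  · have hT1' := (hm T1).1 hT1
    have hsV : s ∈ D.VP := (hF _ hT1'.2).1 (mem_insert_of_mem hs1)
    have hus : u ≠ s := fun h => hT1'.1 (h ▸ hs1)
    have hsub : (Q ∩ D.VP).erase u ⊆ (D.VP.erase s).erase u := by
      intro v hv
      rw [mem_erase, mem_inter] at hv
      rw [mem_erase, mem_erase]
      exact ⟨hv.1, fun h => hsQ (h ▸ hv.2.1), hv.2.2⟩
    have hle : ((Q ∩ D.VP).erase u).card ≤ 4 :=
      ((card_le_card (erase_subset _ _)).trans (card_le_card inter_subset_left)).trans hQc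
    have hge : 4 ≤ ((D.VP.erase s).erase u).card := by
      rw [card_erase_of_mem (mem_erase.2 ⟨hus, huV⟩), card_erase_of_mem hsV]
      have h5' : 6 ≤ D.VP.card := h5
      omega
    obtain ⟨Q', hQ1, hQ2, hQ3⟩ := exists_subsuperset_card_eq hsub hle hge
    obtain ⟨q, hqi, hqm, hqs⟩ := IFin.enum4 Q' hQ3
    have hHQ : HQ D x u s q := by
      refine ⟨huV, hsV, hus, ?_, hqi, ?_, ?_, ?_⟩
      · intro i
        exact (mem_erase.1 (mem_erase.1 (hQ2 (hqm i))).2).2
      · intro i
        exact (mem_erase.1 (mem_erase.1 (hQ2 (hqm i))).2).1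
      · intro i
        exact (mem_erase.1 (hQ2 (hqm i))).1
      · intro G2 hG2 huG2 hsG2
        have hsT : s ∈ G2.erase u := mem_erase.2 ⟨fun h => hus h.symm, hsG2⟩
        have hT2 := hm' G2 hG2 huG2
        have hc2 : ((G2.erase u).erase s).card = 2 := by
          rw [card_erase_of_mem hsT, hc3 _ hT2]
        obtain ⟨v, v', hvv, he⟩ := card_eq_two.1 hc2
        have hv : v ∈ (G2.erase u).erase s := by rw [he]; simp
        have hv' : v' ∈ (G2.erase u).erase s := by rw [he]; simp
        have hin : ∀ t ∈ (G2.erase u).erase s, t ∈ Q' := by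
          intro t ht
          apply hQ1
          have ht2 := (mem_erase.1 ht).2
          rw [mem_erase, mem_inter]
          exact ⟨(mem_erase.1 ht2).1, hQ _ hT2 hsT ht, (hF G2 hG2).1 (mem_erase.1 ht2).2⟩
        obtain ⟨i, hi⟩ := hqs v (hin v hv)
        obtain ⟨j, hj⟩ := hqs v' (hin v' hv')
        refine ⟨i, j, ?_, ?_⟩
        · rintro rfl
          exact hvv (hi.symm.trans hj)
        · rw [hi, hj, ← he, insert_erase hsT, insert_erase huG2]
    exact hT1'.2 (h3 x u s q hx hHQ _ (mem_insert_self _ _) (mem_insert_of_mem hs1))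
  · have hT : ∀ i, ({s, c i, c (i + 1)} : Finset V) ∈ G0 := fun i => ((hlink _).2 ⟨i, rfl⟩).1
    have hus : u ≠ s := by
      rintro rfl
      exact ((hm _).1 (hT 0)).1 (mem_insert_self _ _)
    have hcu : ∀ i, c i ≠ u := by
      intro i h
      exact ((hm _).1 (hT i)).1 (by rw [← h]; simp)
    refine h4 x hx u s hus c hc hcs hcu ?_
    intro G2
    constructor
    · rintro ⟨hG2, huG2, hsG2⟩
      have hsT : s ∈ G2.erase u := mem_erase.2 ⟨fun h => hus h.symm, hsG2⟩
      obtain ⟨i, hi⟩ := (hlink _).1 ⟨hm' G2 hG2 huG2, hsT⟩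
      exact ⟨i, by rw [← hi, insert_erase huG2]⟩
    · rintro ⟨i, rfl⟩
      exact ⟨((hm _).1 (hT i)).2, mem_insert_self _ _, mem_insert_of_mem (mem_insert_self _ _)⟩

end CSLef.D6
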