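import Mathlib
import Pool.Agent.Work.MP_38c61c_al.D6.StmtsX

/-!
Block D6, item Gen: generic weak Lefschetz property from injectivity over the generic ring in
degree 2, in a form that specializes to every field.
-/

namespace CSLef.D6

open MvPolynomial Finset

universe u

namespace IGen

variable {V : Type} [Fintype V] [DecidableEq V] {Δ : Finset (Finset V)} {α : Equiv.Perm V}
  {VP : Finset V}

/-- injectivity over the generic ring in the degrees at most 2 -/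
theorem injR (hG : HG Δ α VP)
    (hinj : ∀ x : MvPolynomial V (RR 6 V), x.IsHomogeneous 2 →
      welA 6 α VP (ga α VP) (gm V) gc * x ∈ Jid Δ (ga α VP) 6 → x ∈ Jid Δ (ga α VP) 6)
    {i : ℕ} (hi : i ≤ 2) {x : MvPolynomial V (RR 6 V)} (hx : x.IsHomogeneous i)
    (hw : welA 6 α VP (ga α VP) (gm V) gc * x ∈ Jid Δ (ga α VP) 6) :
    x ∈ Jid Δ (ga α VP) 6 := by
  have H := locHyp hG.hs hG.cs hG.vp
  have key : ∀ m : ℕ, ∀ g : MvPolynomial V (RR 6 V), g.IsHomogeneous (2 - i + m) →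
      g * x ∈ Jid Δ (ga α VP) 6 := by
    intro m
    induction m with
    | zero =>
      intro g hg
      apply hinj
      · have h1 := hg.mul hx
        have h2 : 2 - i + 0 + i = 2 := by omega
        rwa [h2] at h1
      · rw [mul_left_comm]
        exact Ideal.mul_mem_left _ _ hw
    | succ m ih =>
      intro g hg
      obtain ⟨g', hg'1, hg'2⟩ := hom_split (show g.IsHomogeneous (2 - i + m + 1) from hg)
      rw [hg'2, Finset.sum_mul]
      apply Ideal.sum_mem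
      intro v _
      rw [mul_assoc]
      exact Ideal.mul_mem_left _ _ (ih _ (hg'1 v))
  apply nondeg_R (red 6 V) H (i := i) (k := 2 - i + 4) (by omega) hx
  intro g hg
  exact key 4 g hg

theorem hwKmap : MvPolynomial.map (phiP 6 V) (wP 6 α VP) =
    MvPolynomial.map (algebraMap (RR 6 V) (KK 6 V)) (welA 6 α VP (ga α VP) (gm V) gc) := by
  rw [map_welA]
  unfold wP
  rw [map_welA]
  rfl

theorem injK (hG : HG Δ α VP)
    (hinj : ∀ x : MvPolynomial V (RR 6 V), x.IsHomogeneous 2 →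
      welA 6 α VP (ga α VP) (gm V) gc * x ∈ Jid Δ (ga α VP) 6 → x ∈ Jid Δ (ga α VP) 6)
    {i : ℕ} (hi : i ≤ 2) {x : MvPolynomial V (KK 6 V)} (hx : x.IsHomogeneous i)
    (hw : (MvPolynomial.map (phiP 6 V) (wP 6 α VP)) ^ 1 * x ∈
      Jid Δ (fun l v => phiP 6 V (aP 6 α VP l v)) 6) :
    x ∈ Jid Δ (fun l v => phiP 6 V (aP 6 α VP l v)) 6 := by
  have H := locHyp hG.hs hG.cs hG.vp
  have htors : ∀ s : RR 6 V, s ≠ 0 → ∀ f : MvPolynomial V (RR 6 V), s • f ∈ Jid Δ (ga α VP) 6 →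
      f ∈ Jid Δ (ga α VP) 6 := fun s hs f hf => tors (red 6 V) H hs hf
  rw [hwKmap] at hw
  exact k_inj (den_R 6 V) hG.hs.down htors
    (fun x hx hw => injR hG hinj hi hx (by rwa [pow_one] at hw)) hx hw

/-- nondegeneracy over the fraction field -/
theorem ndK (hG : HG Δ α VP) {i k : ℕ} (hik : i + k = 6) {y : MvPolynomial V (KK 6 V)}
    (hy : y.IsHomogeneous i)
    (h0 : ∀ g : MvPolynomial V (KK 6 V), g.IsHomogeneous k →
      g * y ∈ Jid Δ (fun l v => phiP 6 V (aP 6 α VP l v)) 6) :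
    y ∈ Jid Δ (fun l v => phiP 6 V (aP 6 α VP l v)) 6 := by
  have H := locHyp hG.hs hG.cs hG.vp
  have htors : ∀ s : RR 6 V, s ≠ 0 → ∀ f : MvPolynomial V (RR 6 V), s • f ∈ Jid Δ (ga α VP) 6 →
      f ∈ Jid Δ (ga α VP) 6 := fun s hs f hf => tors (red 6 V) H hs hf
  exact k_nondeg (den_R 6 V) hG.hs.down htors
    (fun f hf hg => nondeg_R (red 6 V) H hik hf hg) hy h0

/-- surjectivity over the fraction field from degree 3 to degree 4 -/
theorem surjK (hG : HG Δ α VP) (h3 : StXeK Δ α VP) (h4 : StSurjF)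
    (hinj : ∀ x : MvPolynomial V (RR 6 V), x.IsHomogeneous 2 →
      welA 6 α VP (ga α VP) (gm V) gc * x ∈ Jid Δ (ga α VP) 6 → x ∈ Jid Δ (ga α VP) 6)
    (y : MvPolynomial V (KK 6 V)) (hy : y.IsHomogeneous (3 + 1)) :
    ∃ x : MvPolynomial V (KK 6 V), x.IsHomogeneous 3 ∧
      MvPolynomial.map (phiP 6 V) (wP 6 α VP) * x - y ∈
        Jid Δ (fun l v => phiP 6 V (aP 6 α VP l v)) 6 := by
  obtain ⟨e, he1, he2⟩ := h3
  have hw1 : (MvPolynomial.map (phiP 6 V) (wP 6 α VP)).IsHomogeneous 1 :=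
    (welA_hom (d := 6) (α := α) VP (aP 6 α VP) muP cP).map (phiP 6 V)
  have hJ : ∀ g ∈ Jid Δ (fun l v => phiP 6 V (aP 6 α VP l v)) 6, e g = 0 := he1
  have htop : ∀ h : MvPolynomial V (KK 6 V), h.IsHomogeneous 6 → e h = 0 →
      h ∈ Jid Δ (fun l v => phiP 6 V (aP 6 α VP l v)) 6 := he2
  refine h4 (Jid Δ (fun l v => phiP 6 V (aP 6 α VP l v)) 6) e
    (MvPolynomial.map (phiP 6 V) (wP 6 α VP)) 2 3 hw1 hJ ?_ ?_ ?_ y hy
  · intro g hg h0
    apply ndK hG (i := 3) (k := 3) (by norm_num) hg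
    intro f hf
    exact htop _ (hf.mul hg) (h0 f hf)
  · intro g hg h0
    exact injK hG hinj le_rfl hg (by rwa [pow_one])
  · intro z hz h0
    apply ndK hG (i := 4) (k := 2) (by norm_num) hz
    intro f hf
    apply htop _ (hf.mul hz)
    rw [mul_comm]
    exact h0 f hf

end IGen

open IGen

theorem pr_Gen {V : Type} [Fintype V] [DecidableEq V] (Δ : Finset (Finset V)) (α : Equiv.Perm V)
    (VP : Finset V) (hG : HG Δ α VP) (h1 : D5.StHCmap.{u}) (h2 : D5.StHCex) (h3 : StXeK Δ α VP)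
    (h4 : StSurjF) (h5 : StSCex.{u}) :
    StGen.{u} Δ α VP := by
  classical
  intro hinj
  obtain ⟨gS, hgS, hLS⟩ := h5 (phiP 6 V) (den_P 6 V) Δ hG.hs.down (aP 6 α VP) 6 (wP 6 α VP) 3
    (welA_hom _ _ _ _) (fun y hy => surjK hG h3 h4 hinj y hy)
  have hcert : ∀ i, ∃ g : PR 6 V, g ≠ 0 ∧ (i ≤ 2 →
      ∃ L : (V →₀ ℕ) → MvPolynomial V (PR 6 V),
        D5.HCert Δ (aP 6 α VP) 6 (wP 6 α VP) i 1 g L) := by
    intro i
    by_cases h : i ≤ 2
    · obtain ⟨g, hg, L, hL⟩ := h2 (phiP 6 V) (den_P 6 V) Δ hG.hs.down (aP 6 α VP) 6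
        (wP 6 α VP) i 1 (by omega) (welA_hom _ _ _ _) (fun x hx hw => injK hG hinj h hx hw)
      exact ⟨g, hg, fun _ => ⟨L, hL⟩⟩
    · exact ⟨1, one_ne_zero, fun h' => absurd h' h⟩
  choose g hg hL using hcert
  obtain ⟨s, hs, hlarge⟩ := descend_finset (den_P 6 V) hG.hs.down (a := aP 6 α VP) (j := 6)
    (Mon V (6 + 1)) (fun n => monomial n 1) (by
      intro n hn
      apply k_large (den_R 6 V) hG.hs.down (a := fun l v =>
        algebraMap (PR 6 V) (RR 6 V) (aP 6 α VP l v)) (n := 6 + 1)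
      · intro f hf
        exact large_R (red 6 V) (locHyp hG.hs hG.cs hG.vp) (Nat.lt_succ_self 6) hf
      · exact (monomial_hom hn 1).map _)
  refine ⟨(∏ i ∈ range 3, g i) * s * gS, mul_ne_zero
    (mul_ne_zero (Finset.prod_ne_zero_iff.mpr (fun i _ => hg i)) hs) hgS, ?_⟩
  intro k _ ψ hψ
  rw [map_mul, map_mul, map_prod] at hψ
  have hψS : ψ gS ≠ 0 := right_ne_zero_of_mul hψ
  have hψs : ψ s ≠ 0 := right_ne_zero_of_mul (left_ne_zero_of_mul hψ)
  have hψg : ∀ i ∈ range 3, ψ (g i) ≠ 0 :=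
    Finset.prod_ne_zero_iff.mp (left_ne_zero_of_mul (left_ne_zero_of_mul hψ))
  refine ⟨?_, ?_, ?_⟩
  · intro i hi x hx hw
    obtain ⟨L, hLc⟩ := hL i hi
    exact h1 ψ Δ hG.hs.down (aP 6 α VP) 6 (wP 6 α VP) i 1 (g i) L hLc (by omega)
      (welA_hom _ _ _ _) (hψg i (Finset.mem_range.mpr (by omega))) x hx (by rwa [pow_one])
  · intro y hy
    exact hLS ψ hψS y hy
  · have hbase : ∀ f : MvPolynomial V k, f.IsHomogeneous (6 + 1) →
        f ∈ Jid Δ (fun l v => ψ (aP 6 α VP l v)) 6 := by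
      intro f hf
      rw [hom_sum_Mon hf]
      apply Ideal.sum_mem
      intro m hm
      apply Ideal.mul_mem_left
      have h1 := map_J ψ hG.hs.down (hlarge m hm)
      rw [map_mul, map_C, map_mon_one] at h1
      have h2 := Ideal.mul_mem_left _ (C (ψ s)⁻¹) h1
      rw [← mul_assoc, ← map_mul, inv_mul_cancel₀ hψs, map_one, one_mul] at h2
      exact h2
    intro n hn
    obtain ⟨m, rfl⟩ : ∃ m, n = 6 + 1 + m := ⟨n - (6 + 1), by omega⟩
    clear hn
    induction m with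
    | zero => intro f hf; exact hbase f hf
    | succ m ih =>
      intro f hf
      obtain ⟨f', hf'1, hf'2⟩ := hom_split (show f.IsHomogeneous (6 + 1 + m + 1) from hf)
      rw [hf'2]
      apply Ideal.sum_mem
      intro v _
      exact Ideal.mul_mem_left _ _ (ih _ (hf'1 v))

end CSLef.D6
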