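import Mathlib
import Pool.Agent.Work.MP_38c61c_al.D6.Stmts2

/-! Block D6, item Int: full sets with four elements have two common elements. -/

namespace CSLef.D6

open MvPolynomial Finset

namespace IInt

theorem inj6 {V : Type} {a b c d e f : V} (hab : a ≠ b) (hac : a ≠ c) (had : a ≠ d) (hae : a ≠ e)
    (haf : a ≠ f) (hbc : b ≠ c) (hbd : b ≠ d) (hbe : b ≠ e) (hbf : b ≠ f) (hcd : c ≠ d) (hce : c ≠ e)
    (hcf : c ≠ f) (hde : d ≠ e) (hdf : d ≠ f) (hef : e ≠ f) :
    Function.Injective (![a, b, c, d, e, f] : Fin 6 → V) := by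
  intro i j h
  fin_cases i <;> fin_cases j <;>
    first
      | rfl
      | (exfalso; first
          | exact hab h | exact hac h | exact had h | exact hae h | exact haf h
          | exact hbc h | exact hbd h | exact hbe h | exact hbf h | exact hcd h | exact hce h
          | exact hcf h | exact hde h | exact hdf h | exact hef h
          | exact hab h.symm | exact hac h.symm | exact had h.symm | exact hae h.symm
          | exact haf h.symm | exact hbc h.symm | exact hbd h.symm | exact hbe h.symm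
          | exact hbf h.symm | exact hcd h.symm | exact hce h.symm | exact hcf h.symm
          | exact hde h.symm | exact hdf h.symm | exact hef h.symm)

end IInt

theorem pr_Int {V : Type} [Fintype V] [DecidableEq V] {R : Type} [CommRing R] [IsDomain R]
    (D : Dat V R) (hC : Ctx D) (h1 : StP1 D) (h2 : StPhX D) (h3 : StTA1 D) : StInt D := by
  intro G hG G' hG'
  by_contra hne
  obtain ⟨hG1, hGF⟩ := Finset.mem_filter.mp hG
  obtain ⟨hG'1, hGF'⟩ := Finset.mem_filter.mp hG'
  obtain ⟨hGs, hGc⟩ := Finset.mem_powersetCard.mp hG1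
  obtain ⟨hGs', hGc'⟩ := Finset.mem_powersetCard.mp hG'1
  have hGn : G.Nonempty := Finset.card_pos.mp (by omega)
  have hD : 3 ≤ (G' \ G).card := by
    have e1 := Finset.card_sdiff_add_card_inter G' G
    rw [Finset.inter_comm] at e1
    omega
  obtain ⟨H, hHs, hHc⟩ := Finset.exists_subset_card_eq (show 2 ≤ (G' \ G).card by omega)
  have hex : ((G' \ G) \ H).Nonempty := by
    apply Finset.card_pos.mp
    have e1 := Finset.card_sdiff_add_card_eq_card hHs
    omega
  obtain ⟨h, hh⟩ := hex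
  obtain ⟨hh1, hhH⟩ := Finset.mem_sdiff.mp hh
  obtain ⟨hhG', hhG⟩ := Finset.mem_sdiff.mp hh1
  have hHG' : H ⊆ G' := hHs.trans Finset.sdiff_subset
  have hHG : ∀ u ∈ H, u ∉ G := fun u hu => (Finset.mem_sdiff.mp (hHs hu)).2
  -- the other element
  have hHe : H ⊆ G'.erase h := by
    intro u hu
    refine Finset.mem_erase.mpr ⟨?_, hHG' hu⟩
    intro huh
    exact hhH (huh ▸ hu)
  have hc1 : (G'.erase h).card = 3 := by
    rw [Finset.card_erase_of_mem hhG']
    omega
  have hex2 : ∃ h', (G'.erase h) \ H = {h'} := by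
    rw [← Finset.card_eq_one]
    have e1 := Finset.card_sdiff_add_card_eq_card hHe
    omega
  obtain ⟨h', hh'⟩ := hex2
  have hh'm : h' ∈ G'.erase h := by
    have : h' ∈ (G'.erase h) \ H := by rw [hh']; exact Finset.mem_singleton_self _
    exact (Finset.mem_sdiff.mp this).1
  have hHeq : (G'.erase h).erase h' = H := by
    rw [Finset.erase_eq, ← hh', Finset.sdiff_sdiff_eq_self hHe]
  have hF1 : D.Full (G'.erase h) := h2.2 G' hGF' _ (Finset.erase_subset _ _)
  have hHF : D.Full H := h2.2 G' hGF' _ hHG'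
  -- the degree vanishes
  have hz : D.dg (D.XH G * D.XH H) = 0 := by
    have e1 := (h1 G' hGF' ⟨h, hhG'⟩).2.2.1 h hhG'
    have e2 := ((h1 G hGF hGn).2.1 h (hGs' hhG') hhG).1
    have e3 := (h1 (G'.erase h) hF1 ⟨h', hh'm⟩).2.2.1 h' hh'm
    rw [hHeq] at e3
    have e4 : D.XH G * D.XH H ∈ D.J := by
      have e5 := Ideal.sub_mem D.J (Ideal.sub_mem D.J (Ideal.mul_mem_right (X h' * D.XH G') D.J e2)
        (Ideal.mul_mem_left D.J (D.XH G * X h') e1)) (Ideal.mul_mem_left D.J (D.XH G) e3)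
      have e6 : X h * D.XH G * (X h' * D.XH G') -
          D.XH G * X h' * (X h * D.XH G' - D.XH (G'.erase h)) -
          D.XH G * (X h' * D.XH (G'.erase h) - D.XH H) = D.XH G * D.XH H := by ring
      rwa [e6] at e5
    exact hC.dgJ _ e4
  obtain ⟨g1, g2, g3, g4, h12, h13, h14, h23, h24, h34, hGe⟩ := Finset.card_eq_four.mp hGc
  obtain ⟨q, r, hqr, hHe'⟩ := Finset.card_eq_two.mp hHc
  have hHm : ({q, r} : Finset V) ∈ D.FS 2 := by
    rw [← hHe']
    exact Finset.mem_filter.mpr ⟨Finset.mem_powersetCard.mpr ⟨hHG'.trans hGs', hHc⟩, hHF⟩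
  have hGm : ({g1, g2, g3, g4} : Finset V) ∈ D.FS 4 := by
    rw [← hGe]
    exact hG
  have hta := h3 g1 g2 g3 g4 q r h12 h13 h14 h23 h24 h34 hqr hGm hHm
  rw [← hGe, ← hHe', hz, mul_zero, zero_sub, dvd_neg] at hta
  have m1 : g1 ∈ G := by rw [hGe]; simp
  have m2 : g2 ∈ G := by rw [hGe]; simp
  have m3 : g3 ∈ G := by rw [hGe]; simp
  have m4 : g4 ∈ G := by rw [hGe]; simp
  have mq : q ∈ H := by rw [hHe']; simp
  have mr : r ∈ H := by rw [hHe']; simp
  have hne' : ∀ u w, u ∈ G → w ∈ H → u ≠ w := by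
    intro u w hu hw huw
    rw [huw] at hu
    exact hHG w hw hu
  refine hC.ind6 ![g1, g2, g3, g4, q, r]
    (IInt.inj6 h12 h13 h14 (hne' _ _ m1 mq) (hne' _ _ m1 mr) h23 h24 (hne' _ _ m2 mq)
      (hne' _ _ m2 mr) h34 (hne' _ _ m3 mq) (hne' _ _ m3 mr) (hne' _ _ m4 mq) (hne' _ _ m4 mr)
      hqr) ?_ hta
  intro i
  fin_cases i
  · exact hGs m1
  · exact hGs m2
  · exact hGs m3
  · exact hGs m4
  · exact hGs' (hHG' mq)
  · exact hGs' (hHG' mr)

end CSLef.D6
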