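import Mathlib
import Pool.Agent.Work.MP_38c61c_al.D6.Stmts2

/-!
Block D6, item L5: no pair of vertices of the support has a 5-cycle as link.
-/

namespace CSLef.D6

open MvPolynomial Finset

namespace IL5

/-- the pure algebra: in a domain of characteristic two -/
theorem alg {Q : Type} [CommRing Q] [IsDomain Q] (h2 : (2 : Q) = 0) (W X T : Fin 5 → Q)
    (hW : ∀ i, W i ≠ 0) (hX : ∀ i, X i ≠ 0)
    (hv : ∀ i, W (i + 1) * X i + W (i + 4) * X (i + 4) = 0)
    (hs : ∑ k, X (k + 1) * X (k + 3) * T k = 0) : ∑ k, W k * T k = 0 := by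
  have hneg : ∀ a b : Q, a + b = 0 → a = b := by
    intro a b hab
    have h3 : a - b = (a + b) - 2 * b := by ring
    rw [hab, h2] at h3
    have h4 : a - b = 0 := by rw [h3]; ring
    exact sub_eq_zero.mp h4
  set ξ : Fin 5 → Q := fun i => W i * W (i + 1) * X i with hξ
  have h1 : ∀ i : Fin 5, ξ i = ξ (i + 4) := by
    intro i
    have h5 : i + 4 + 1 = i := by
      fin_cases i <;> rfl
    have h6 : W i * (W (i + 1) * X i + W (i + 4) * X (i + 4)) = 0 := by rw [hv i, mul_zero]
    apply hneg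
    simp only [hξ]
    rw [h5]
    rw [← h6]
    ring
  have h10 : ξ 1 = ξ 0 := h1 1
  have h20 : ξ 2 = ξ 0 := (h1 2).trans h10
  have h30 : ξ 3 = ξ 0 := (h1 3).trans h20
  have h40 : ξ 4 = ξ 0 := (h1 4).trans h30
  have hall : ∀ i, ξ i = ξ 0 := by
    intro i
    fin_cases i
    · rfl
    · exact h10
    · exact h20
    · exact h30
    · exact h40
  have hz : ξ 0 ≠ 0 := by
    simp only [hξ]
    exact mul_ne_zero (mul_ne_zero (hW _) (hW _)) (hX _)
  have hk : ∀ k : Fin 5, (∏ i, W i) * (X (k + 1) * X (k + 3) * T k) =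
      W k * T k * (ξ (k + 1) * ξ (k + 3)) := by
    intro k
    have hp : (∏ i, W i) = W k * W (k + 1) * W (k + 2) * W (k + 3) * W (k + 4) := by
      rw [Fin.prod_univ_five]
      fin_cases k <;> simp <;> ring
    have e1 : k + 1 + 1 = k + 2 := by fin_cases k <;> rfl
    have e2 : k + 3 + 1 = k + 4 := by fin_cases k <;> rfl
    rw [hp]
    simp only [hξ]
    rw [e1, e2]
    ring
  have hsum : (∑ k, W k * T k) * (ξ 0 * ξ 0) = 0 := by
    have h7 : (∏ i, W i) * ∑ k, X (k + 1) * X (k + 3) * T k = 0 := by rw [hs, mul_zero]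
    rw [Finset.mul_sum] at h7
    rw [Finset.sum_mul, ← h7]
    refine Finset.sum_congr rfl fun k _ => ?_
    rw [hk k, hall (k + 1), hall (k + 3)]
  rcases mul_eq_zero.mp hsum with h | h
  · exact h
  · exact absurd h (mul_ne_zero hz hz)

/-- the algebra for divisibility by the prime two -/
theorem alg2 {R : Type} [CommRing R] [IsDomain R] (hp : Prime (2 : R)) (W X T : Fin 5 → R)
    (hW : ∀ i, ¬ (2 : R) ∣ W i) (hX : ∀ i, ¬ (2 : R) ∣ X i)
    (hv : ∀ i, (2 : R) ∣ W (i + 1) * X i + W (i + 4) * X (i + 4))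
    (hs : (2 : R) ∣ ∑ k, X (k + 1) * X (k + 3) * T k) : (2 : R) ∣ ∑ k, W k * T k := by
  have hI : (Ideal.span {(2 : R)}).IsPrime := (Ideal.span_singleton_prime hp.ne_zero).mpr hp
  have hm : ∀ r : R, Ideal.Quotient.mk (Ideal.span {(2 : R)}) r = 0 ↔ (2 : R) ∣ r := by
    intro r
    rw [Ideal.Quotient.eq_zero_iff_mem, Ideal.mem_span_singleton]
  have h2 : (2 : R ⧸ Ideal.span {(2 : R)}) = 0 := by
    have := (hm 2).mpr dvd_rfl
    rwa [map_ofNat] at this
  set π := Ideal.Quotient.mk (Ideal.span {(2 : R)}) with hπ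
  have hs' := (hm _).mpr hs
  rw [map_sum] at hs'
  simp only [map_mul] at hs'
  have hv' : ∀ i, π (W (i + 1)) * π (X i) + π (W (i + 4)) * π (X (i + 4)) = 0 := by
    intro i
    have := (hm _).mpr (hv i)
    simpa only [map_add, map_mul] using this
  have := alg h2 (fun i => π (W i)) (fun i => π (X i)) (fun i => π (T i))
    (fun i h => hW i ((hm _).mp h)) (fun i h => hX i ((hm _).mp h)) hv' hs'
  rw [← hm, map_sum]
  simpa only [map_mul] using this

section comb

variable {V : Type} [DecidableEq V]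

/-- the quadruples of the 5-cycle -/
def qd (u s : V) (c : Fin 5 → V) (i : Fin 5) : Finset V := {u, s, c i, c (i + 1)}

theorem mem_qd {u s : V} {c : Fin 5 → V} (hc : Function.Injective c) (hs : ∀ i, c i ≠ s)
    (hu : ∀ i, c i ≠ u) (i j : Fin 5) : c j ∈ qd u s c i ↔ j = i ∨ j = i + 1 := by
  simp only [qd, mem_insert, mem_singleton, hc.eq_iff]
  constructor
  · rintro (h | h | h | h)
    · exact absurd h (hu j)
    · exact absurd h (hs j)
    · exact Or.inl h
    · exact Or.inr h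
  · rintro (h | h)
    · exact Or.inr (Or.inr (Or.inl h))
    · exact Or.inr (Or.inr (Or.inr h))

theorem dec1 : ∀ i j : Fin 5, (∀ k : Fin 5, (k = i ∨ k = i + 1) ↔ (k = j ∨ k = j + 1)) → i = j := by
  decide

theorem dec2 : ∀ i j : Fin 5, (∀ k : Fin 5, ¬ ((k = i ∨ k = i + 1) ∧ (k = j ∨ k = j + 1))) ↔
    (j = i + 2 ∨ j = i + 3) := by
  decide

theorem qd_inj {u s : V} {c : Fin 5 → V} (hc : Function.Injective c) (hs : ∀ i, c i ≠ s)
    (hu : ∀ i, c i ≠ u) : Function.Injective (qd u s c) := by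
  intro i j hij
  apply dec1
  intro k
  rw [← mem_qd hc hs hu, ← mem_qd hc hs hu, hij]

theorem u_mem_qd (u s : V) (c : Fin 5 → V) (i : Fin 5) : u ∈ qd u s c i := by
  simp [qd]

theorem s_mem_qd (u s : V) (c : Fin 5 → V) (i : Fin 5) : s ∈ qd u s c i := by
  simp [qd]

theorem qd_inter {u s : V} {c : Fin 5 → V} (hc : Function.Injective c) (hs : ∀ i, c i ≠ s)
    (hu : ∀ i, c i ≠ u) (i j : Fin 5) :
    qd u s c i ∩ qd u s c j = {u, s} ↔ (j = i + 2 ∨ j = i + 3) := by
  rw [← dec2]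
  constructor
  · intro h k hk
    have h1 : c k ∈ qd u s c i ∩ qd u s c j := by
      rw [mem_inter, mem_qd hc hs hu, mem_qd hc hs hu]
      exact hk
    rw [h, mem_insert, mem_singleton] at h1
    rcases h1 with h1 | h1
    · exact hu k h1
    · exact hs k h1
  · intro h
    ext v
    rw [mem_inter, mem_insert, mem_singleton]
    constructor
    · rintro ⟨h1, h2⟩
      by_contra hv
      have h3 : ∃ k, v = c k := by
        simp only [qd, mem_insert, mem_singleton] at h1
        rcases h1 with h1 | h1 | h1 | h1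
        · exact absurd (Or.inl h1) hv
        · exact absurd (Or.inr h1) hv
        · exact ⟨_, h1⟩
        · exact ⟨_, h1⟩
      obtain ⟨k, rfl⟩ := h3
      rw [mem_qd hc hs hu] at h1 h2
      exact h k ⟨h1, h2⟩
    · rintro (rfl | rfl)
      · exact ⟨u_mem_qd _ _ _ _, u_mem_qd _ _ _ _⟩
      · exact ⟨s_mem_qd _ _ _ _, s_mem_qd _ _ _ _⟩

theorem qd_erase {u s : V} {c : Fin 5 → V} (hs : ∀ i, c i ≠ s) (hu : ∀ i, c i ≠ u) (i : Fin 5) :
    ((qd u s c i).erase u).erase s = {c i, c (i + 1)} := by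
  ext v
  simp only [qd, mem_erase, mem_insert, mem_singleton]
  constructor
  · rintro ⟨h1, h0, h2 | h2 | h2⟩
    · exact absurd h2 h0
    · exact absurd h2 h1
    · exact h2
  · rintro (h | h)
    · exact ⟨h ▸ hs _, h ▸ hu _, Or.inr (Or.inr (Or.inl h))⟩
    · exact ⟨h ▸ hs _, h ▸ hu _, Or.inr (Or.inr (Or.inr h))⟩

/-- a double sum over the quadruples at `u`, `s` -/
theorem dbl {R : Type} [CommRing R] {u s : V} {c : Fin 5 → V} (hc : Function.Injective c)
    (hs : ∀ i, c i ≠ s) (hu : ∀ i, c i ≠ u) (F : Finset (Finset V)) (x : Finset V → R)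
    (hF : ∀ G, x G ≠ 0 → G ∈ F)
    (hl : ∀ G, (x G ≠ 0 ∧ u ∈ G ∧ s ∈ G) ↔ ∃ i : Fin 5, G = qd u s c i)
    (d : Finset V → Finset V → R) (hd : ∀ G G', d G G' = d G' G) :
    ∑ G ∈ F.filter (fun G => u ∈ G ∧ s ∈ G),
      ∑ G' ∈ F.filter (fun G' => u ∈ G' ∧ s ∈ G' ∧ G ∩ G' = {u, s}),
      x G * x G' * d G G' =
    2 * ∑ i, x (qd u s c i) * x (qd u s c (i + 2)) * d (qd u s c i) (qd u s c (i + 2)) := by
  have hx : ∀ i, x (qd u s c i) ≠ 0 := fun i => ((hl _).mpr ⟨i, rfl⟩).1
  have h1 : ∀ i, ∑ G' ∈ F.filter (fun G' => u ∈ G' ∧ s ∈ G' ∧ qd u s c i ∩ G' = {u, s}),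
      x (qd u s c i) * x G' * d (qd u s c i) G' =
      x (qd u s c i) * x (qd u s c (i + 2)) * d (qd u s c i) (qd u s c (i + 2)) +
      x (qd u s c i) * x (qd u s c (i + 3)) * d (qd u s c i) (qd u s c (i + 3)) := by
    intro i
    have hne : qd u s c (i + 2) ≠ qd u s c (i + 3) := by
      intro h
      have h8 := qd_inj hc hs hu h
      have h9 : ∀ i : Fin 5, i + 2 ≠ i + 3 := by decide
      exact h9 i h8
    rw [← Finset.sum_pair (f := fun G' => x (qd u s c i) * x G' * d (qd u s c i) G') hne]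
    symm
    apply Finset.sum_subset
    · intro G' hG'
      rw [mem_insert, mem_singleton] at hG'
      rcases hG' with rfl | rfl
      · rw [mem_filter]
        exact ⟨hF _ (hx _), u_mem_qd _ _ _ _, s_mem_qd _ _ _ _,
          (qd_inter hc hs hu _ _).mpr (Or.inl rfl)⟩
      · rw [mem_filter]
        exact ⟨hF _ (hx _), u_mem_qd _ _ _ _, s_mem_qd _ _ _ _,
          (qd_inter hc hs hu _ _).mpr (Or.inr rfl)⟩
    · intro G' h2 h3
      rw [mem_filter] at h2
      have h4 : x G' = 0 := by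
        by_contra h5
        obtain ⟨j, rfl⟩ := (hl G').mp ⟨h5, h2.2.1, h2.2.2.1⟩
        apply h3
        rw [mem_insert, mem_singleton]
        rcases (qd_inter hc hs hu i j).mp h2.2.2.2 with h | h
        · left; rw [h]
        · right; rw [h]
      rw [h4, mul_zero, zero_mul]
  have h2 : ∑ G ∈ F.filter (fun G => u ∈ G ∧ s ∈ G),
      ∑ G' ∈ F.filter (fun G' => u ∈ G' ∧ s ∈ G' ∧ G ∩ G' = {u, s}),
      x G * x G' * d G G' =
      ∑ i, (x (qd u s c i) * x (qd u s c (i + 2)) * d (qd u s c i) (qd u s c (i + 2)) +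
      x (qd u s c i) * x (qd u s c (i + 3)) * d (qd u s c i) (qd u s c (i + 3))) := by
    rw [← Finset.sum_congr rfl fun i _ => h1 i]
    rw [← Finset.sum_image (f := fun G => ∑ G' ∈ F.filter
      (fun G' => u ∈ G' ∧ s ∈ G' ∧ G ∩ G' = {u, s}),
      x G * x G' * d G G') (g := qd u s c) (s := univ) (fun i _ j _ h => qd_inj hc hs hu h)]
    symm
    apply Finset.sum_subset
    · intro G hG
      rw [mem_image] at hG
      obtain ⟨i, _, rfl⟩ := hG
      rw [mem_filter]
      exact ⟨hF _ (hx _), u_mem_qd _ _ _ _, s_mem_qd _ _ _ _⟩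
    · intro G h2 h3
      rw [mem_filter] at h2
      have h4 : x G = 0 := by
        by_contra h5
        obtain ⟨j, rfl⟩ := (hl G).mp ⟨h5, h2.2⟩
        apply h3
        rw [mem_image]
        exact ⟨j, mem_univ _, rfl⟩
      apply Finset.sum_eq_zero
      intro G' _
      rw [h4, zero_mul, zero_mul]
  rw [h2, Finset.sum_add_distrib, two_mul]
  congr 1
  rw [← Equiv.sum_comp (Equiv.addRight (2 : Fin 5))]
  refine Finset.sum_congr rfl fun i _ => ?_
  have h3 : (Equiv.addRight (2 : Fin 5)) i + 3 = i := by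
    rw [Equiv.coe_addRight]
    revert i
    decide
  rw [h3, Equiv.coe_addRight, hd]
  ring

/-- the vertex sum -/
theorem vsum {R : Type} [CommRing R] {u s : V} {c : Fin 5 → V} (hc : Function.Injective c)
    (hs : ∀ i, c i ≠ s) (hu : ∀ i, c i ≠ u) (VP : Finset V) (hcV : ∀ i, c i ∈ VP)
    (x : Finset V → R)
    (hl : ∀ G, (x G ≠ 0 ∧ u ∈ G ∧ s ∈ G) ↔ ∃ i : Fin 5, G = qd u s c i) (w : V → R)
    (i : Fin 5) :
    ∑ r ∈ VP \ {u, s, c i}, w r * x (insert r {u, s, c i}) =
      w (c (i + 1)) * x (qd u s c i) + w (c (i + 4)) * x (qd u s c (i + 4)) := by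
  have e1 : insert (c (i + 1)) {u, s, c i} = qd u s c i := by
    ext v
    simp only [qd, mem_insert, mem_singleton]
    tauto
  have e2 : insert (c (i + 4)) {u, s, c i} = qd u s c (i + 4) := by
    have h5 : i + 4 + 1 = i := by
      fin_cases i <;> rfl
    ext v
    simp only [qd, mem_insert, mem_singleton, h5]
    tauto
  have h9 : ∀ i : Fin 5, i + 1 ≠ i + 4 := by decide
  have hne : c (i + 1) ≠ c (i + 4) := fun h => h9 i (hc h)
  have h7 : ∀ i : Fin 5, i + 1 ≠ i := by decide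
  have h8 : ∀ i : Fin 5, i + 4 ≠ i := by decide
  rw [← e1, ← e2, ← Finset.sum_pair (f := fun r => w r * x (insert r {u, s, c i})) hne]
  symm
  apply Finset.sum_subset
  · intro r hr
    rw [mem_insert, mem_singleton] at hr
    rw [mem_sdiff, mem_insert, mem_insert, mem_singleton]
    rcases hr with rfl | rfl
    · refine ⟨hcV _, ?_⟩
      rintro (h | h | h)
      · exact hu _ h
      · exact hs _ h
      · exact h7 i (hc h)
    · refine ⟨hcV _, ?_⟩
      rintro (h | h | h)
      · exact hu _ h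
      · exact hs _ h
      · exact h8 i (hc h)
  · intro r hr h3
    have h4 : x (insert r {u, s, c i}) = 0 := by
      by_contra h5
      obtain ⟨j, hj⟩ := (hl _).mp ⟨h5, by simp, by simp⟩
      have h6 : c i ∈ qd u s c j := by rw [← hj]; simp
      have h10 : c j ∈ (insert r {u, s, c i} : Finset V) := by
        rw [hj, mem_qd hc hs hu]
        exact Or.inl rfl
      have h11 : c (j + 1) ∈ (insert r {u, s, c i} : Finset V) := by
        rw [hj, mem_qd hc hs hu]
        exact Or.inr rfl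
      apply h3
      rw [mem_insert, mem_singleton]
      rw [mem_qd hc hs hu] at h6
      simp only [mem_insert, mem_singleton] at h10 h11
      rcases h6 with h6 | h6
      · rw [← h6] at h11
        rcases h11 with h11 | h11 | h11 | h11
        · left; exact h11.symm
        · exact absurd h11 (hu _)
        · exact absurd h11 (hs _)
        · exact absurd (hc h11) (h7 i)
      · have h12 : j = i + 4 := by
          have : ∀ j : Fin 5, j = j + 1 + 4 := by decide
          rw [h6]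
          exact this j
        rw [h12] at h10
        rcases h10 with h10 | h10 | h10 | h10
        · right; exact h10.symm
        · exact absurd h10 (hu _)
        · exact absurd h10 (hs _)
        · exact absurd (hc h10) (h8 i)
    rw [h4, mul_zero]

end comb

end IL5

open IL5 in
/-- L5 -/
theorem pr_L5 {V : Type} [Fintype V] [DecidableEq V] {R : Type} [CommRing R] [IsDomain R]
    (D : Dat V R) (hC : Ctx D) (h2 : StPhX D) (h3 : StTA1 D) (h4 : StEs D) (h5 : StCr) :
    StL5 D := by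
  intro x hx u s hus c hc hs hu hl
  have hl' : ∀ G, (x G ≠ 0 ∧ u ∈ G ∧ s ∈ G) ↔ ∃ i : Fin 5, G = qd u s c i := hl
  have hx0 : ∀ i, x (qd u s c i) ≠ 0 := fun i => ((hl' _).mpr ⟨i, rfl⟩).1
  have hF : ∀ i, qd u s c i ∈ D.FS 4 := fun i => (hx.supp _ (hx0 i)).1
  have hFull : ∀ i, D.Full (qd u s c i) := fun i => (mem_filter.mp (hF i)).2
  have huV : u ∈ D.VP := (hFull 0).1 (u_mem_qd _ _ _ _)
  have hsV : s ∈ D.VP := (hFull 0).1 (s_mem_qd _ _ _ _)
  have hcV : ∀ i, c i ∈ D.VP := fun i =>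
    (hFull i).1 ((mem_qd hc hs hu i i).mpr (Or.inl rfl))
  -- the vertex sums
  have hv : ∀ i, (2 : R) ∣ D.wt (c (i + 1)) * x (qd u s c i) +
      D.wt (c (i + 4)) * x (qd u s c (i + 4)) := by
    intro i
    rw [← vsum hc hs hu D.VP hcV x hl' D.wt i]
    apply hx.rm
    · intro v hv
      rw [mem_insert, mem_insert, mem_singleton] at hv
      rcases hv with rfl | rfl | rfl
      · exact huV
      · exact hsV
      · exact hcV i
    · exact card_eq_three.mpr ⟨u, s, c i, hus, Ne.symm (hu i), Ne.symm (hs i), rfl⟩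
  -- the square
  obtain ⟨hE1, hE2⟩ := h4 x (fun G h => (hx.supp G h).1) u huV s hsV hus
  have hsq := hx.four u s
  rw [hE2, dbl hc hs hu (D.FS 4) x (fun G h => (hx.supp G h).1) hl'
    (fun G G' => D.dg (X u * X s * D.XH G * D.XH G')) (fun G G' => by
      show D.dg _ = D.dg _
      congr 1
      ring)] at hsq
  have h20 : (2 : R) ≠ 0 := hC.two.ne_zero
  have h44 : (4 : R) = 2 * 2 := by norm_num
  rw [h44] at hsq
  have hE := (mul_dvd_mul_iff_left h20).mp hsq
  have hT : (2 : R) ∣ ∑ k : Fin 5, x (qd u s c (k + 1)) * x (qd u s c (k + 3)) *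
      D.dt ![u, s, c (k + 1), c (k + 2), c (k + 3), c (k + 4)] := by
    have h6 : (2 : R) ∣ D.om * ∑ k : Fin 5, x (qd u s c (k + 1)) * x (qd u s c (k + 3)) *
        D.dg (X u * X s * D.XH (qd u s c (k + 1)) * D.XH (qd u s c (k + 3))) := by
      refine Dvd.dvd.mul_left ?_ _
      rw [← Equiv.sum_comp (Equiv.addRight (1 : Fin 5))] at hE
      refine (dvd_iff_dvd_of_dvd_sub ?_).mp hE
      rw [← Finset.sum_sub_distrib]
      refine Finset.dvd_sum fun k _ => ?_
      have h7 : (Equiv.addRight (1 : Fin 5)) k + 2 = k + 3 := by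
        rw [Equiv.coe_addRight]
        revert k
        decide
      rw [h7, Equiv.coe_addRight, sub_self]
      exact dvd_zero _
    rw [Finset.mul_sum] at h6
    refine (dvd_iff_dvd_of_dvd_sub ?_).mp h6
    rw [← Finset.sum_sub_distrib]
    refine Finset.dvd_sum fun k _ => ?_
    have h8 := (hE1 _ (hF (k + 1)) _ (hF (k + 3)) (u_mem_qd _ _ _ _) (s_mem_qd _ _ _ _)
      (u_mem_qd _ _ _ _) (s_mem_qd _ _ _ _)).1
    rw [h8, qd_erase hs hu]
    have e1 : k + 1 + 1 = k + 2 := by fin_cases k <;> rfl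
    have e2 : k + 3 + 1 = k + 4 := by fin_cases k <;> rfl
    have hne1 : c (k + 1) ≠ c (k + 2) := by
      have : ∀ k : Fin 5, k + 1 ≠ k + 2 := by decide
      exact fun h => this k (hc h)
    have hne2 : c (k + 3) ≠ c (k + 4) := by
      have : ∀ k : Fin 5, k + 3 ≠ k + 4 := by decide
      exact fun h => this k (hc h)
    have hF2 : ({c (k + 3), c (k + 4)} : Finset V) ∈ D.FS 2 := by
      have h9 : ({c (k + 3), c (k + 4)} : Finset V) ⊆ qd u s c (k + 3) := by
        have h91 := erase_subset s ((qd u s c (k + 3)).erase u)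
        have h92 := erase_subset u (qd u s c (k + 3))
        have h93 := h91.trans h92
        rwa [qd_erase hs hu, e2] at h93
      have h10 := h2.2 _ (hFull (k + 3)) _ h9
      exact mem_filter.mpr ⟨mem_powersetCard.mpr ⟨h10.1, card_pair hne2⟩, h10⟩
    have h11 := h3 u s (c (k + 1)) (c (k + 2)) (c (k + 3)) (c (k + 4)) hus (Ne.symm (hu _))
      (Ne.symm (hu _)) (Ne.symm (hs _)) (Ne.symm (hs _)) hne1 hne2 (by
        have := hF (k + 1)
        rwa [qd, e1] at this) hF2
    rw [e2]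
    have e3 : qd u s c (k + 1) = {u, s, c (k + 1), c (k + 2)} := by rw [qd, e1]
    rw [← e3] at h11
    have h12 : D.om * (x (qd u s c (k + 1)) * x (qd u s c (k + 3)) *
        D.dg (D.XH (qd u s c (k + 1)) * D.XH {c (k + 3), c (k + 4)})) -
        x (qd u s c (k + 1)) * x (qd u s c (k + 3)) *
        D.dt ![u, s, c (k + 1), c (k + 2), c (k + 3), c (k + 4)] =
        x (qd u s c (k + 1)) * x (qd u s c (k + 3)) * (D.om *
        D.dg (D.XH (qd u s c (k + 1)) * D.XH {c (k + 3), c (k + 4)}) -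
        D.dt ![u, s, c (k + 1), c (k + 2), c (k + 3), c (k + 4)]) := by ring
    rw [h12]
    exact Dvd.dvd.mul_left h11 _
  -- the weights are odd
  have hwt : ∀ i, ¬ (2 : R) ∣ D.wt (c i) := by
    intro i h
    apply hC.wt_odd (c i) (hcV i)
    rw [Dat.wt] at h
    exact (dvd_add_right (dvd_mul_right _ _)).mp h
  have hfin := alg2 hC.two (fun i => D.wt (c i)) (fun i => x (qd u s c i))
    (fun k => D.dt ![u, s, c (k + 1), c (k + 2), c (k + 3), c (k + 4)]) hwt
    (fun i => (hx.supp _ (hx0 i)).2) hv hT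
  have hcr := h5 D.a D.μ u s c
  have h13 : (2 : R) ∣ ∑ k : Fin 5, (∑ m ∈ range 6, D.μ m * D.a m (c k)) *
      D.dt ![u, s, c (k + 1), c (k + 2), c (k + 3), c (k + 4)] := by
    refine (dvd_iff_dvd_of_dvd_sub ?_).mp hfin
    rw [← Finset.sum_sub_distrib]
    refine Finset.dvd_sum fun k _ => ?_
    rw [Dat.wt]
    have h14 : (2 * D.c (c k) + ∑ l ∈ range 6, D.μ l * D.a l (c k)) *
        D.dt ![u, s, c (k + 1), c (k + 2), c (k + 3), c (k + 4)] -
        (∑ m ∈ range 6, D.μ m * D.a m (c k)) *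
        D.dt ![u, s, c (k + 1), c (k + 2), c (k + 3), c (k + 4)] =
        2 * (D.c (c k) * D.dt ![u, s, c (k + 1), c (k + 2), c (k + 3), c (k + 4)]) := by ring
    rw [h14]
    exact dvd_mul_right _ _
  have h15 : (2 : R) ∣ (∑ m ∈ range 6, D.μ m * D.a m s) * D.dt ![u, c 0, c 1, c 2, c 3, c 4] +
      (∑ m ∈ range 6, D.μ m * D.a m u) * D.dt ![s, c 0, c 1, c 2, c 3, c 4] :=
    (dvd_sub_right h13).mp hcr
  exact hC.ind7 u s c hc hcV huV hsV hus hu hs h15

end CSLef.D6
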