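import Mathlib
import Pool.Agent.Work.MP_38c61c_al.D6.Stmts2

/-!
Block D6, item Lap (helper16; the 5 x 5 part is the item of helper64 for D5): Laplace expansion modulo 2.
-/

namespace CSLef.D6

open MvPolynomial Finset

namespace ILap

/-- the determinant of a 3 x 3 minor, rows `1, 2, 3`, columns `i, j, k` -/
def m3 {R : Type} [CommRing R] (N : Matrix (Fin 4) (Fin 4) R) (i j k : Fin 4) : R :=
  N 1 i * N 2 j * N 3 k - N 1 i * N 2 k * N 3 j - N 1 j * N 2 i * N 3 k +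
    N 1 j * N 2 k * N 3 i + N 1 k * N 2 i * N 3 j - N 1 k * N 2 j * N 3 i

theorem det4 {R : Type} [CommRing R] (N : Matrix (Fin 4) (Fin 4) R) : N.det =
    N 0 0 * m3 N 1 2 3 - N 0 1 * m3 N 0 2 3 + N 0 2 * m3 N 0 1 3 - N 0 3 * m3 N 0 1 2 := by
  rw [Matrix.det_succ_row_zero, Fin.sum_univ_four]
  rw [Matrix.det_fin_three, Matrix.det_fin_three, Matrix.det_fin_three, Matrix.det_fin_three]
  simp only [Matrix.submatrix_apply]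
  have e00 : (Fin.succAbove (0 : Fin 4) (0 : Fin 3)) = 1 := rfl
  have e01 : (Fin.succAbove (0 : Fin 4) (1 : Fin 3)) = 2 := rfl
  have e02 : (Fin.succAbove (0 : Fin 4) (2 : Fin 3)) = 3 := rfl
  have e10 : (Fin.succAbove (1 : Fin 4) (0 : Fin 3)) = 0 := rfl
  have e11 : (Fin.succAbove (1 : Fin 4) (1 : Fin 3)) = 2 := rfl
  have e12 : (Fin.succAbove (1 : Fin 4) (2 : Fin 3)) = 3 := rfl
  have e20 : (Fin.succAbove (2 : Fin 4) (0 : Fin 3)) = 0 := rfl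
  have e21 : (Fin.succAbove (2 : Fin 4) (1 : Fin 3)) = 1 := rfl
  have e22 : (Fin.succAbove (2 : Fin 4) (2 : Fin 3)) = 3 := rfl
  have e30 : (Fin.succAbove (3 : Fin 4) (0 : Fin 3)) = 0 := rfl
  have e31 : (Fin.succAbove (3 : Fin 4) (1 : Fin 3)) = 1 := rfl
  have e32 : (Fin.succAbove (3 : Fin 4) (2 : Fin 3)) = 2 := rfl
  have s0 : Fin.succ (0 : Fin 3) = 1 := rfl
  have s1 : Fin.succ (1 : Fin 3) = 2 := rfl
  have s2 : Fin.succ (2 : Fin 3) = 3 := rfl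
  have v0 : ((0 : Fin 4) : ℕ) = 0 := rfl
  have v1 : ((1 : Fin 4) : ℕ) = 1 := rfl
  have v2 : ((2 : Fin 4) : ℕ) = 2 := rfl
  have v3 : ((3 : Fin 4) : ℕ) = 3 := rfl
  rw [e00, e01, e02, e10, e11, e12, e20, e21, e22, e30, e31, e32, s0, s1, s2, v0, v1, v2, v3]
  unfold m3
  ring

/-- the determinant of the 4 x 4 minor, rows `1, .., 4`, columns `c 0, .., c 3` -/
def m4 {R : Type} [CommRing R] (N : Matrix (Fin 5) (Fin 5) R) (i j k l : Fin 5) : R :=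
  N 1 i * (N 2 j * N 3 k * N 4 l - N 2 j * N 3 l * N 4 k - N 2 k * N 3 j * N 4 l +
    N 2 k * N 3 l * N 4 j + N 2 l * N 3 j * N 4 k - N 2 l * N 3 k * N 4 j) -
  N 1 j * (N 2 i * N 3 k * N 4 l - N 2 i * N 3 l * N 4 k - N 2 k * N 3 i * N 4 l +
    N 2 k * N 3 l * N 4 i + N 2 l * N 3 i * N 4 k - N 2 l * N 3 k * N 4 i) +
  N 1 k * (N 2 i * N 3 j * N 4 l - N 2 i * N 3 l * N 4 j - N 2 j * N 3 i * N 4 l +
    N 2 j * N 3 l * N 4 i + N 2 l * N 3 i * N 4 j - N 2 l * N 3 j * N 4 i) -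
  N 1 l * (N 2 i * N 3 j * N 4 k - N 2 i * N 3 k * N 4 j - N 2 j * N 3 i * N 4 k +
    N 2 j * N 3 k * N 4 i + N 2 k * N 3 i * N 4 j - N 2 k * N 3 j * N 4 i)

theorem det5 {R : Type} [CommRing R] (N : Matrix (Fin 5) (Fin 5) R) : N.det =
    N 0 0 * m4 N 1 2 3 4 - N 0 1 * m4 N 0 2 3 4 + N 0 2 * m4 N 0 1 3 4 -
      N 0 3 * m4 N 0 1 2 4 + N 0 4 * m4 N 0 1 2 3 := by
  rw [Matrix.det_succ_row_zero, Fin.sum_univ_five]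
  rw [det4, det4, det4, det4, det4]
  simp only [m3, Matrix.submatrix_apply]
  have e00 : (Fin.succAbove (0 : Fin 5) (0 : Fin 4)) = 1 := rfl
  have e01 : (Fin.succAbove (0 : Fin 5) (1 : Fin 4)) = 2 := rfl
  have e02 : (Fin.succAbove (0 : Fin 5) (2 : Fin 4)) = 3 := rfl
  have e03 : (Fin.succAbove (0 : Fin 5) (3 : Fin 4)) = 4 := rfl
  have e10 : (Fin.succAbove (1 : Fin 5) (0 : Fin 4)) = 0 := rfl
  have e11 : (Fin.succAbove (1 : Fin 5) (1 : Fin 4)) = 2 := rfl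
  have e12 : (Fin.succAbove (1 : Fin 5) (2 : Fin 4)) = 3 := rfl
  have e13 : (Fin.succAbove (1 : Fin 5) (3 : Fin 4)) = 4 := rfl
  have e20 : (Fin.succAbove (2 : Fin 5) (0 : Fin 4)) = 0 := rfl
  have e21 : (Fin.succAbove (2 : Fin 5) (1 : Fin 4)) = 1 := rfl
  have e22 : (Fin.succAbove (2 : Fin 5) (2 : Fin 4)) = 3 := rfl
  have e23 : (Fin.succAbove (2 : Fin 5) (3 : Fin 4)) = 4 := rfl
  have e30 : (Fin.succAbove (3 : Fin 5) (0 : Fin 4)) = 0 := rfl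
  have e31 : (Fin.succAbove (3 : Fin 5) (1 : Fin 4)) = 1 := rfl
  have e32 : (Fin.succAbove (3 : Fin 5) (2 : Fin 4)) = 2 := rfl
  have e33 : (Fin.succAbove (3 : Fin 5) (3 : Fin 4)) = 4 := rfl
  have e40 : (Fin.succAbove (4 : Fin 5) (0 : Fin 4)) = 0 := rfl
  have e41 : (Fin.succAbove (4 : Fin 5) (1 : Fin 4)) = 1 := rfl
  have e42 : (Fin.succAbove (4 : Fin 5) (2 : Fin 4)) = 2 := rfl
  have e43 : (Fin.succAbove (4 : Fin 5) (3 : Fin 4)) = 3 := rfl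
  have s0 : Fin.succ (0 : Fin 4) = 1 := rfl
  have s1 : Fin.succ (1 : Fin 4) = 2 := rfl
  have s2 : Fin.succ (2 : Fin 4) = 3 := rfl
  have s3 : Fin.succ (3 : Fin 4) = 4 := rfl
  have v0 : ((0 : Fin 5) : ℕ) = 0 := rfl
  have v1 : ((1 : Fin 5) : ℕ) = 1 := rfl
  have v2 : ((2 : Fin 5) : ℕ) = 2 := rfl
  have v3 : ((3 : Fin 5) : ℕ) = 3 := rfl
  have v4 : ((4 : Fin 5) : ℕ) = 4 := rfl
  rw [e00, e01, e02, e03, e10, e11, e12, e13, e20, e21, e22, e23, e30, e31, e32, e33, e40, e41, e42, e43, s0, s1, s2, s3, v0, v1, v2, v3, v4]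
  unfold m4
  ring

/-- the determinant of the 4 x 4 minor, rows `2, .., 5`, columns `i, j, k, l` -/
def M4 {R : Type} [CommRing R] (N : Matrix (Fin 6) (Fin 6) R) (i j k l : Fin 6) : R :=
  N 2 i * (N 3 j * N 4 k * N 5 l - N 3 j * N 4 l * N 5 k - N 3 k * N 4 j * N 5 l +
      N 3 k * N 4 l * N 5 j + N 3 l * N 4 j * N 5 k - N 3 l * N 4 k * N 5 j) -
  N 2 j * (N 3 i * N 4 k * N 5 l - N 3 i * N 4 l * N 5 k - N 3 k * N 4 i * N 5 l +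
      N 3 k * N 4 l * N 5 i + N 3 l * N 4 i * N 5 k - N 3 l * N 4 k * N 5 i) +
  N 2 k * (N 3 i * N 4 j * N 5 l - N 3 i * N 4 l * N 5 j - N 3 j * N 4 i * N 5 l +
      N 3 j * N 4 l * N 5 i + N 3 l * N 4 i * N 5 j - N 3 l * N 4 j * N 5 i) -
  N 2 l * (N 3 i * N 4 j * N 5 k - N 3 i * N 4 k * N 5 j - N 3 j * N 4 i * N 5 k +
      N 3 j * N 4 k * N 5 i + N 3 k * N 4 i * N 5 j - N 3 k * N 4 j * N 5 i)

theorem mi0 {R : Type} [CommRing R] (N : Matrix (Fin 6) (Fin 6) R) :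
    (N.submatrix Fin.succ (Fin.succAbove 0)).det =
      N 1 1 * M4 N 2 3 4 5 - N 1 2 * M4 N 1 3 4 5 + N 1 3 * M4 N 1 2 4 5
      - N 1 4 * M4 N 1 2 3 5 + N 1 5 * M4 N 1 2 3 4 := by
  rw [det5]
  rfl

theorem mi1 {R : Type} [CommRing R] (N : Matrix (Fin 6) (Fin 6) R) :
    (N.submatrix Fin.succ (Fin.succAbove 1)).det =
      N 1 0 * M4 N 2 3 4 5 - N 1 2 * M4 N 0 3 4 5 + N 1 3 * M4 N 0 2 4 5
      - N 1 4 * M4 N 0 2 3 5 + N 1 5 * M4 N 0 2 3 4 := by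
  rw [det5]
  rfl

theorem mi2 {R : Type} [CommRing R] (N : Matrix (Fin 6) (Fin 6) R) :
    (N.submatrix Fin.succ (Fin.succAbove 2)).det =
      N 1 0 * M4 N 1 3 4 5 - N 1 1 * M4 N 0 3 4 5 + N 1 3 * M4 N 0 1 4 5
      - N 1 4 * M4 N 0 1 3 5 + N 1 5 * M4 N 0 1 3 4 := by
  rw [det5]
  rfl

theorem mi3 {R : Type} [CommRing R] (N : Matrix (Fin 6) (Fin 6) R) :
    (N.submatrix Fin.succ (Fin.succAbove 3)).det =
      N 1 0 * M4 N 1 2 4 5 - N 1 1 * M4 N 0 2 4 5 + N 1 2 * M4 N 0 1 4 5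
      - N 1 4 * M4 N 0 1 2 5 + N 1 5 * M4 N 0 1 2 4 := by
  rw [det5]
  rfl

theorem mi4 {R : Type} [CommRing R] (N : Matrix (Fin 6) (Fin 6) R) :
    (N.submatrix Fin.succ (Fin.succAbove 4)).det =
      N 1 0 * M4 N 1 2 3 5 - N 1 1 * M4 N 0 2 3 5 + N 1 2 * M4 N 0 1 3 5
      - N 1 3 * M4 N 0 1 2 5 + N 1 5 * M4 N 0 1 2 3 := by
  rw [det5]
  rfl

theorem mi5 {R : Type} [CommRing R] (N : Matrix (Fin 6) (Fin 6) R) :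
    (N.submatrix Fin.succ (Fin.succAbove 5)).det =
      N 1 0 * M4 N 1 2 3 4 - N 1 1 * M4 N 0 2 3 4 + N 1 2 * M4 N 0 1 3 4
      - N 1 3 * M4 N 0 1 2 4 + N 1 4 * M4 N 0 1 2 3 := by
  rw [det5]
  rfl

theorem det6 {R : Type} [CommRing R] (N : Matrix (Fin 6) (Fin 6) R) : N.det =
    N 0 0 * (N 1 1 * M4 N 2 3 4 5 - N 1 2 * M4 N 1 3 4 5 + N 1 3 * M4 N 1 2 4 5
      - N 1 4 * M4 N 1 2 3 5 + N 1 5 * M4 N 1 2 3 4) -
    N 0 1 * (N 1 0 * M4 N 2 3 4 5 - N 1 2 * M4 N 0 3 4 5 + N 1 3 * M4 N 0 2 4 5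
      - N 1 4 * M4 N 0 2 3 5 + N 1 5 * M4 N 0 2 3 4) +
    N 0 2 * (N 1 0 * M4 N 1 3 4 5 - N 1 1 * M4 N 0 3 4 5 + N 1 3 * M4 N 0 1 4 5
      - N 1 4 * M4 N 0 1 3 5 + N 1 5 * M4 N 0 1 3 4) -
    N 0 3 * (N 1 0 * M4 N 1 2 4 5 - N 1 1 * M4 N 0 2 4 5 + N 1 2 * M4 N 0 1 4 5
      - N 1 4 * M4 N 0 1 2 5 + N 1 5 * M4 N 0 1 2 4) +
    N 0 4 * (N 1 0 * M4 N 1 2 3 5 - N 1 1 * M4 N 0 2 3 5 + N 1 2 * M4 N 0 1 3 5
      - N 1 3 * M4 N 0 1 2 5 + N 1 5 * M4 N 0 1 2 3) -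
    N 0 5 * (N 1 0 * M4 N 1 2 3 4 - N 1 1 * M4 N 0 2 3 4 + N 1 2 * M4 N 0 1 3 4
      - N 1 3 * M4 N 0 1 2 4 + N 1 4 * M4 N 0 1 2 3) := by
  rw [Matrix.det_succ_row_zero, Fin.sum_univ_six, mi0, mi1, mi2, mi3, mi4, mi5]
  have v0 : ((0 : Fin 6) : ℕ) = 0 := rfl
  have v1 : ((1 : Fin 6) : ℕ) = 1 := rfl
  have v2 : ((2 : Fin 6) : ℕ) = 2 := rfl
  have v3 : ((3 : Fin 6) : ℕ) = 3 := rfl
  have v4 : ((4 : Fin 6) : ℕ) = 4 := rfl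
  have v5 : ((5 : Fin 6) : ℕ) = 5 := rfl
  rw [v0, v1, v2, v3, v4, v5]
  ring

variable {V : Type} {R : Type} [CommRing R]

/-- the determinant of the columns `g1, .., g4`, rows `i, j, k, l` -/
def dd4 (a : ℕ → V → R) (g1 g2 g3 g4 : V) (i j k l : ℕ) : R :=
  a i g1 * (a j g2 * a k g3 * a l g4 - a j g2 * a l g3 * a k g4 - a k g2 * a j g3 * a l g4 +
      a k g2 * a l g3 * a j g4 + a l g2 * a j g3 * a k g4 - a l g2 * a k g3 * a j g4) -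
  a j g1 * (a i g2 * a k g3 * a l g4 - a i g2 * a l g3 * a k g4 - a k g2 * a i g3 * a l g4 +
      a k g2 * a l g3 * a i g4 + a l g2 * a i g3 * a k g4 - a l g2 * a k g3 * a i g4) +
  a k g1 * (a i g2 * a j g3 * a l g4 - a i g2 * a l g3 * a j g4 - a j g2 * a i g3 * a l g4 +
      a j g2 * a l g3 * a i g4 + a l g2 * a i g3 * a j g4 - a l g2 * a j g3 * a i g4) -
  a l g1 * (a i g2 * a j g3 * a k g4 - a i g2 * a k g3 * a j g4 - a j g2 * a i g3 * a k g4 +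
      a j g2 * a k g3 * a i g4 + a k g2 * a i g3 * a j g4 - a k g2 * a j g3 * a i g4)

/-- the odd part -/
def od4 (a : ℕ → V → R) (g1 g2 g3 g4 : V) (i j k l : ℕ) : R :=
  a i g1 * a j g2 * a l g3 * a k g4 + a i g1 * a k g2 * a j g3 * a l g4 +
  a i g1 * a l g2 * a k g3 * a j g4 + a j g1 * a i g2 * a k g3 * a l g4 +
  a j g1 * a k g2 * a l g3 * a i g4 + a j g1 * a l g2 * a i g3 * a k g4 +
  a k g1 * a i g2 * a l g3 * a j g4 + a k g1 * a j g2 * a i g3 * a l g4 +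
  a k g1 * a l g2 * a j g3 * a i g4 + a l g1 * a i g2 * a j g3 * a k g4 +
  a l g1 * a j g2 * a k g3 * a i g4 + a l g1 * a k g2 * a i g3 * a j g4

theorem dd4_eq (a : ℕ → V → R) (g1 g2 g3 g4 : V) (i j k l : ℕ) :
    dd4 a g1 g2 g3 g4 i j k l = pm4 a g1 g2 g3 g4 i j k l - 2 * od4 a g1 g2 g3 g4 i j k l := by
  unfold dd4 od4 pm4 pm3
  ring

/-- the rotation by four -/
def rot : Equiv.Perm (Fin 6) := finRotate 6 ^ 4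

theorem sign_rot : Equiv.Perm.sign rot = 1 := by
  unfold rot
  rw [map_pow, sign_finRotate]
  rfl

theorem M4_eq (a : ℕ → V → R) (g1 g2 g3 g4 q r : V) (i j k l : Fin 6) :
    M4 (fun i l : Fin 6 => a l ((![q, r, g1, g2, g3, g4] : Fin 6 → V) i)) i j k l =
      dd4 a g1 g2 g3 g4 i j k l := rfl

theorem rot_det (a : ℕ → V → R) (g1 g2 g3 g4 q r : V) :
    Matrix.det (fun i l : Fin 6 => a l ((![g1, g2, g3, g4, q, r] : Fin 6 → V) i)) =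
      Matrix.det (fun i l : Fin 6 => a l ((![q, r, g1, g2, g3, g4] : Fin 6 → V) i)) := by
  have h := Matrix.det_permute rot
    (fun i l : Fin 6 => a l ((![g1, g2, g3, g4, q, r] : Fin 6 → V) i))
  rw [sign_rot, Units.val_one, Int.cast_one, one_mul] at h
  rw [← h]
  congr 1
  funext i l
  fin_cases i <;> rfl

end ILap

open ILap in
theorem pr_Lap : StLap := by
  intro V R _ a g1 g2 g3 g4 q r
  rw [rot_det, det6]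
  simp only [M4_eq, dd4_eq]
  have c0 : ((0 : Fin 6) : ℕ) = 0 := rfl
  have c1 : ((1 : Fin 6) : ℕ) = 1 := rfl
  have c2 : ((2 : Fin 6) : ℕ) = 2 := rfl
  have c3 : ((3 : Fin 6) : ℕ) = 3 := rfl
  have c4 : ((4 : Fin 6) : ℕ) = 4 := rfl
  have c5 : ((5 : Fin 6) : ℕ) = 5 := rfl
  have r0 : (![q, r, g1, g2, g3, g4] : Fin 6 → V) 0 = q := rfl
  have r1 : (![q, r, g1, g2, g3, g4] : Fin 6 → V) 1 = r := rfl
  rw [c0, c1, c2, c3, c4, c5, r0, r1]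
  simp only [pm2]
  refine ⟨(pm4 a g1 g2 g3 g4 2 3 4 5 * (a 0 r * a 1 q) + od4 a g1 g2 g3 g4 2 3 4 5 * ((a 0 q * a 1 r) - (a 0 r * a 1 q))) +
    (pm4 a g1 g2 g3 g4 1 3 4 5 * (a 0 q * a 2 r) - od4 a g1 g2 g3 g4 1 3 4 5 * ((a 0 q * a 2 r) - (a 0 r * a 2 q))) +
    (pm4 a g1 g2 g3 g4 1 2 4 5 * (a 0 r * a 3 q) + od4 a g1 g2 g3 g4 1 2 4 5 * ((a 0 q * a 3 r) - (a 0 r * a 3 q))) +
    (pm4 a g1 g2 g3 g4 1 2 3 5 * (a 0 q * a 4 r) - od4 a g1 g2 g3 g4 1 2 3 5 * ((a 0 q * a 4 r) - (a 0 r * a 4 q))) +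
    (pm4 a g1 g2 g3 g4 1 2 3 4 * (a 0 r * a 5 q) + od4 a g1 g2 g3 g4 1 2 3 4 * ((a 0 q * a 5 r) - (a 0 r * a 5 q))) +
    (pm4 a g1 g2 g3 g4 0 3 4 5 * (a 1 r * a 2 q) + od4 a g1 g2 g3 g4 0 3 4 5 * ((a 1 q * a 2 r) - (a 1 r * a 2 q))) +
    (pm4 a g1 g2 g3 g4 0 2 4 5 * (a 1 q * a 3 r) - od4 a g1 g2 g3 g4 0 2 4 5 * ((a 1 q * a 3 r) - (a 1 r * a 3 q))) +
    (pm4 a g1 g2 g3 g4 0 2 3 5 * (a 1 r * a 4 q) + od4 a g1 g2 g3 g4 0 2 3 5 * ((a 1 q * a 4 r) - (a 1 r * a 4 q))) +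
    (pm4 a g1 g2 g3 g4 0 2 3 4 * (a 1 q * a 5 r) - od4 a g1 g2 g3 g4 0 2 3 4 * ((a 1 q * a 5 r) - (a 1 r * a 5 q))) +
    (pm4 a g1 g2 g3 g4 0 1 4 5 * (a 2 r * a 3 q) + od4 a g1 g2 g3 g4 0 1 4 5 * ((a 2 q * a 3 r) - (a 2 r * a 3 q))) +
    (pm4 a g1 g2 g3 g4 0 1 3 5 * (a 2 q * a 4 r) - od4 a g1 g2 g3 g4 0 1 3 5 * ((a 2 q * a 4 r) - (a 2 r * a 4 q))) +
    (pm4 a g1 g2 g3 g4 0 1 3 4 * (a 2 r * a 5 q) + od4 a g1 g2 g3 g4 0 1 3 4 * ((a 2 q * a 5 r) - (a 2 r * a 5 q))) +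
    (pm4 a g1 g2 g3 g4 0 1 2 5 * (a 3 r * a 4 q) + od4 a g1 g2 g3 g4 0 1 2 5 * ((a 3 q * a 4 r) - (a 3 r * a 4 q))) +
    (pm4 a g1 g2 g3 g4 0 1 2 4 * (a 3 q * a 5 r) - od4 a g1 g2 g3 g4 0 1 2 4 * ((a 3 q * a 5 r) - (a 3 r * a 5 q))) +
    (pm4 a g1 g2 g3 g4 0 1 2 3 * (a 4 r * a 5 q) + od4 a g1 g2 g3 g4 0 1 2 3 * ((a 4 q * a 5 r) - (a 4 r * a 5 q))), ?_⟩
  ring

end CSLef.D6
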