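import Mathlib
import Pool.Agent.Work.MP_38c61c_al.D6.Stmts2

/-!
Block D6, part 2, item Leq: the three values `lam` agree.
-/

namespace CSLef.D6

open MvPolynomial Finset

namespace ILeq

variable {V : Type} [Fintype V] [DecidableEq V] {R : Type} [CommRing R] [IsDomain R]
  {D : Dat V R} {x : Finset V → R} {u s : V} {q : Fin 4 → V}

omit [IsDomain R] in
theorem fs_iff {k : ℕ} {G : Finset V} : G ∈ D.FS k ↔ G.card = k ∧ D.Full G := by
  unfold Dat.FS
  rw [mem_filter, mem_powersetCard]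
  constructor
  · rintro ⟨⟨_, h2⟩, h3⟩; exact ⟨h2, h3⟩
  · rintro ⟨h2, h3⟩; exact ⟨⟨h3.1, h2⟩, h3⟩

omit [Fintype V] [IsDomain R] [CommRing R] in
theorem quad_comm (a b c d : V) : ({a, b, c, d} : Finset V) = {a, b, d, c} := by
  ext v; simp only [mem_insert, mem_singleton]; tauto

omit [Fintype V] [IsDomain R] in
theorem xq_comm (i j : Fin 4) : xq x u s q i j = xq x u s q j i := by
  unfold xq; rw [quad_comm]

omit [IsDomain R] in
theorem lam_c12 (i j k l : Fin 4) : lam D u s q i j k l = lam D u s q j i k l := by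
  unfold lam; rw [quad_comm u s (q i)]

omit [IsDomain R] in
theorem lam_cp (i j k l : Fin 4) : lam D u s q i j k l = lam D u s q k l i j := by
  unfold lam; congr 1; ring

/-- the set omitting the index `m` -/
def T (u : V) (q : Fin 4 → V) (m : Fin 4) : Finset V := insert u ((Finset.univ.erase m).image q)

omit [Fintype V] in
theorem T_eq {m j k l : Fin 4} (h : (Finset.univ.erase m : Finset (Fin 4)) = {j, k, l}) :
    T u q m = {u, q j, q k, q l} := by
  unfold T; rw [h, image_insert, image_insert, image_singleton]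

theorem er {m j k l : Fin 4} (h1 : m ≠ j) (h2 : m ≠ k) (h3 : m ≠ l) (h4 : j ≠ k) (h5 : j ≠ l)
    (h6 : k ≠ l) : (Finset.univ.erase m : Finset (Fin 4)) = {j, k, l} := by
  revert m j k l; decide

theorem cov {i j k l : Fin 4} (h1 : i ≠ j) (h2 : i ≠ k) (h3 : i ≠ l) (h4 : j ≠ k) (h5 : j ≠ l)
    (h6 : k ≠ l) (m : Fin 4) : m = i ∨ m = j ∨ m = k ∨ m = l := by
  revert m i j k l; decide

/-- the common value -/
noncomputable def LL (D : Dat V R) (u s : V) (q : Fin 4 → V) (m : Fin 4) : R :=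
  D.dg (D.XH (T u q m) * D.XH {s, q m})

theorem dg_sub (hC : Ctx D) {f g : MvPolynomial V R} (h : f - g ∈ D.J) : D.dg f = D.dg g := by
  have := hC.dgJ _ h
  rw [map_sub, sub_eq_zero] at this
  exact this

theorem key (hC : Ctx D) (h1 : StP1 D) (h2 : StPhX D) (h7 : StEs D) (hx : Gd D x)
    (hq : HQ D x u s q)
    {m j k l : Fin 4} (a1 : m ≠ j) (a2 : m ≠ k) (a3 : m ≠ l) (a4 : j ≠ k) (a5 : j ≠ l)
    (a6 : k ≠ l) (hT : T u q m ∈ D.FS 4) (hmj : xq x u s q m j ≠ 0) (hkl : xq x u s q k l ≠ 0) :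
    lam D u s q m j k l = LL D u s q m := by
  have hG := (hx.supp _ hmj).1
  have hG' := (hx.supp _ hkl).1
  have hj : q j ≠ q k := fun h => a4 (hq.q_inj h)
  have hjl : q j ≠ q l := fun h => a5 (hq.q_inj h)
  have hkl' : q k ≠ q l := fun h => a6 (hq.q_inj h)
  have hmj' : q m ≠ q j := fun h => a1 (hq.q_inj h)
  have hTe : T u q m = {u, q j, q k, q l} := T_eq (er a1 a2 a3 a4 a5 a6)
  have e1 : lam D u s q m j k l = D.dg (D.XH {u, s, q m, q j} * D.XH {q k, q l}) := by
    have h := ((h7 x (fun G hG => (hx.supp G hG).1) u hq.u_mem s hq.s_mem hq.us).1 _ hG _ hG'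
      (by simp) (by simp) (by simp) (by simp)).1
    have h2 : (({u, s, q k, q l} : Finset V).erase u).erase s = {q k, q l} := by
      ext v
      simp only [mem_erase, mem_insert, mem_singleton]
      constructor
      · rintro ⟨b1, b2, b3 | b3 | b3 | b3⟩
        · exact absurd b3 b2
        · exact absurd b3 b1
        · exact Or.inl b3
        · exact Or.inr b3
      · rintro (b | b)
        · exact ⟨by rw [b]; exact hq.q_ne k, by rw [b]; exact hq.q_ne' k, Or.inr (Or.inr (Or.inl b))⟩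
        · exact ⟨by rw [b]; exact hq.q_ne l, by rw [b]; exact hq.q_ne' l, Or.inr (Or.inr (Or.inr b))⟩
    rw [h2] at h
    exact h
  have hTne : (T u q m).Nonempty := by rw [hTe]; exact insert_nonempty _ _
  have er1 : (T u q m).erase u = {q j, q k, q l} := by
    rw [hTe, erase_insert]
    simp only [mem_insert, mem_singleton, not_or]
    exact ⟨(hq.q_ne' j).symm, (hq.q_ne' k).symm, (hq.q_ne' l).symm⟩
  have hT3 : D.Full {q j, q k, q l} := by
    refine h2.2 _ (fs_iff.mp hT).2 _ ?_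
    rw [← er1]
    exact erase_subset _ _
  have e2a : X u * D.XH (T u q m) - D.XH {q j, q k, q l} ∈ D.J := by
    have h := (h1 _ (fs_iff.mp hT).2 hTne).2.2.1 u (by rw [hTe]; exact mem_insert_self _ _)
    rw [er1] at h
    exact h
  have e2b : X (q j) * D.XH {q j, q k, q l} - D.XH {q k, q l} ∈ D.J := by
    have h := (h1 _ hT3 (insert_nonempty _ _)).2.2.1 (q j) (mem_insert_self _ _)
    have h2 : ({q j, q k, q l} : Finset V).erase (q j) = {q k, q l} := by
      rw [erase_insert]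
      simp only [mem_insert, mem_singleton, not_or]
      exact ⟨hj, hjl⟩
    rw [h2] at h
    exact h
  have er2 : ({u, s, q m, q j} : Finset V).erase u = {s, q m, q j} := by
    rw [erase_insert]
    simp only [mem_insert, mem_singleton, not_or]
    exact ⟨hq.us, (hq.q_ne' m).symm, (hq.q_ne' j).symm⟩
  have hG3 : D.Full {s, q m, q j} := by
    refine h2.2 _ (fs_iff.mp hG).2 _ ?_
    exact subset_insert _ _
  have e3a : X u * D.XH {u, s, q m, q j} - D.XH {s, q m, q j} ∈ D.J := by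
    have h := (h1 _ (fs_iff.mp hG).2 (insert_nonempty _ _)).2.2.1 u (mem_insert_self _ _)
    rw [er2] at h
    exact h
  have e3b : X (q j) * D.XH {s, q m, q j} - D.XH {s, q m} ∈ D.J := by
    have h := (h1 _ hG3 (insert_nonempty _ _)).2.2.1 (q j) (by simp)
    have h2 : ({s, q m, q j} : Finset V).erase (q j) = {s, q m} := by
      ext v
      simp only [mem_erase, mem_insert, mem_singleton]
      constructor
      · rintro ⟨b1, b2 | b2 | b2⟩
        · exact Or.inl b2
        · exact Or.inr b2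
        · exact absurd b2 b1
      · rintro (b | b)
        · exact ⟨by rw [b]; exact (hq.q_ne j).symm, Or.inl b⟩
        · exact ⟨by rw [b]; exact hmj', Or.inr (Or.inl b)⟩
    rw [h2] at h
    exact h
  rw [e1, LL]
  have e4a : D.dg (D.XH {u, s, q m, q j} * (X (q j) * D.XH {q j, q k, q l})) =
      D.dg (D.XH {u, s, q m, q j} * D.XH {q k, q l}) := by
    apply dg_sub hC
    rw [← mul_sub]
    exact Ideal.mul_mem_left _ _ e2b
  have e4b : D.dg (D.XH {u, s, q m, q j} * X (q j) * (X u * D.XH (T u q m))) =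
      D.dg (D.XH {u, s, q m, q j} * X (q j) * D.XH {q j, q k, q l}) := by
    apply dg_sub hC
    rw [← mul_sub]
    exact Ideal.mul_mem_left _ _ e2a
  have e5a : D.dg (D.XH (T u q m) * X (q j) * (X u * D.XH {u, s, q m, q j})) =
      D.dg (D.XH (T u q m) * X (q j) * D.XH {s, q m, q j}) := by
    apply dg_sub hC
    rw [← mul_sub]
    exact Ideal.mul_mem_left _ _ e3a
  have e5b : D.dg (D.XH (T u q m) * (X (q j) * D.XH {s, q m, q j})) =
      D.dg (D.XH (T u q m) * D.XH {s, q m}) := by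
    apply dg_sub hC
    rw [← mul_sub]
    exact Ideal.mul_mem_left _ _ e3b
  rw [← mul_assoc] at e4a e5b
  rw [← e4a, ← e5b, ← e4b, ← e5a]
  congr 1
  ring

theorem lam_all (hC : Ctx D) (h1 : StP1 D) (h2 : StPhX D) (h7 : StEs D) (hx : Gd D x) (hq : HQ D x u s q)
    {m i j k l : Fin 4} (a1 : i ≠ j) (a2 : i ≠ k) (a3 : i ≠ l) (a4 : j ≠ k) (a5 : j ≠ l)
    (a6 : k ≠ l) (hT : T u q m ∈ D.FS 4) (hij : xq x u s q i j ≠ 0) (hkl : xq x u s q k l ≠ 0) :
    lam D u s q i j k l = LL D u s q m := by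
  rcases cov a1 a2 a3 a4 a5 a6 m with h | h | h | h
  · subst h
    exact key hC h1 h2 h7 hx hq a1 a2 a3 a4 a5 a6 hT hij hkl
  · subst h
    rw [lam_c12]
    rw [xq_comm] at hij
    exact key hC h1 h2 h7 hx hq a1.symm a4 a5 a2 a3 a6 hT hij hkl
  · subst h
    rw [lam_cp]
    exact key hC h1 h2 h7 hx hq a6 a2.symm a4.symm a3.symm a5.symm a1 hT hkl hij
  · subst h
    rw [lam_cp, lam_c12]
    rw [xq_comm] at hkl
    exact key hC h1 h2 h7 hx hq a6.symm a3.symm a5.symm a2.symm a4.symm a1 hT hkl hij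

theorem term (hC : Ctx D) (h1 : StP1 D) (h2 : StPhX D) (h7 : StEs D) (hx : Gd D x) (hq : HQ D x u s q)
    {m i j k l : Fin 4} (a1 : i ≠ j) (a2 : i ≠ k) (a3 : i ≠ l) (a4 : j ≠ k) (a5 : j ≠ l)
    (a6 : k ≠ l) (hT : T u q m ∈ D.FS 4) :
    xq x u s q i j * xq x u s q k l * lam D u s q i j k l =
      xq x u s q i j * xq x u s q k l * LL D u s q m := by
  by_cases hij : xq x u s q i j = 0
  · rw [hij]; ring
  by_cases hkl : xq x u s q k l = 0
  · rw [hkl]; ring
  rw [lam_all hC h1 h2 h7 hx hq a1 a2 a3 a4 a5 a6 hT hij hkl]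

theorem E4_eq (hC : Ctx D) (h1 : StP1 D) (h2 : StPhX D) (h7 : StEs D) (hx : Gd D x) (hq : HQ D x u s q)
    {m : Fin 4} (hT : T u q m ∈ D.FS 4) : E4 D x u s q = P4 x u s q * LL D u s q m := by
  unfold E4 P4
  rw [term hC h1 h2 h7 hx hq (i := 0) (j := 1) (k := 2) (l := 3) (by decide) (by decide) (by decide)
      (by decide) (by decide) (by decide) hT,
    term hC h1 h2 h7 hx hq (i := 0) (j := 2) (k := 1) (l := 3) (by decide) (by decide) (by decide)
      (by decide) (by decide) (by decide) hT,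
    term hC h1 h2 h7 hx hq (i := 0) (j := 3) (k := 1) (l := 2) (by decide) (by decide) (by decide)
      (by decide) (by decide) (by decide) hT]
  ring

/-- existence of a full set omitting `s` -/
theorem exT (h4 : StInt D) (h5 : StClo D) (hx : Gd D x) (hq : HQ D x u s q)
    {i j k l : Fin 4} (a1 : i ≠ j) (a2 : i ≠ k) (a3 : i ≠ l) (a4 : j ≠ k) (a5 : j ≠ l)
    (a6 : k ≠ l) (hij : xq x u s q i j ≠ 0) (hkl : xq x u s q k l ≠ 0) :
    ∃ m, T u q m ∈ D.FS 4 := by
  have hqij : q i ≠ q j := fun h => a1 (hq.q_inj h)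
  have hqik : q i ≠ q k := fun h => a2 (hq.q_inj h)
  have hqil : q i ≠ q l := fun h => a3 (hq.q_inj h)
  have hqjk : q j ≠ q k := fun h => a4 (hq.q_inj h)
  have hqjl : q j ≠ q l := fun h => a5 (hq.q_inj h)
  have hsub : ({u, q i, q j} : Finset V) ⊆ {u, s, q i, q j} := by
    intro v hv
    simp only [mem_insert, mem_singleton] at hv ⊢
    tauto
  have hc3 : ({u, q i, q j} : Finset V).card = 3 :=
    card_eq_three.mpr ⟨u, q i, q j, (hq.q_ne' i).symm, (hq.q_ne' j).symm, hqij, rfl⟩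
  obtain ⟨G', hG'0, hG'ne, hG'sub⟩ := h5 x hx {u, s, q i, q j} hij {u, q i, q j} hsub hc3
  have hG'3 := (hx.supp _ hG'0).1
  have hcard := (fs_iff.mp hG'3).1
  have hG2 := (hx.supp _ hkl).1
  -- the fourth element
  have hd : (G' \ {u, q i, q j}).card = 1 := by
    rw [card_sdiff_of_subset hG'sub, hcard, hc3]
  obtain ⟨t, ht⟩ := card_eq_one.mp hd
  have htn : t ∈ G' \ {u, q i, q j} := by rw [ht]; exact mem_singleton_self t
  have htu : t ≠ u := by
    rintro rfl
    exact (mem_sdiff.mp htn).2 (mem_insert_self _ _)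
  have hG'eq : G' = {u, q i, q j, t} := by
    rw [← sdiff_union_of_subset hG'sub, ht]
    ext v; simp only [mem_union, mem_singleton, mem_insert]; tauto
  have hts : t ≠ s := by
    rintro rfl
    apply hG'ne
    rw [hG'eq]
    ext v; simp only [mem_singleton, mem_insert]; tauto
  have hint := h4 _ hG'3 _ hG2
  have htkl : t = q k ∨ t = q l := by
    by_contra hcon
    rw [not_or] at hcon
    have hsb : G' ∩ ({u, s, q k, q l} : Finset V) ⊆ {u} := by
      intro v hv
      rw [mem_inter, hG'eq] at hv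
      simp only [mem_insert, mem_singleton] at hv ⊢
      obtain ⟨hv1, hv2⟩ := hv
      rcases hv1 with h | h | h | h
      · exact h
      · rcases hv2 with h' | h' | h' | h'
        · exact h'
        · exact absurd (h.symm.trans h') (hq.q_ne i)
        · exact absurd (h.symm.trans h') hqik
        · exact absurd (h.symm.trans h') hqil
      · rcases hv2 with h' | h' | h' | h'
        · exact h'
        · exact absurd (h.symm.trans h') (hq.q_ne j)
        · exact absurd (h.symm.trans h') hqjk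
        · exact absurd (h.symm.trans h') hqjl
      · rcases hv2 with h' | h' | h' | h'
        · exact h'
        · exact absurd (h.symm.trans h') hts
        · exact absurd (h.symm.trans h') hcon.1
        · exact absurd (h.symm.trans h') hcon.2
    have := card_le_card hsb
    rw [card_singleton] at this
    unfold xq at *
    omega
  rcases htkl with h | h
  · refine ⟨l, ?_⟩
    rw [T_eq (er a3.symm a5.symm a6.symm a1 a2 a4), ← h, ← hG'eq]
    exact hG'3
  · refine ⟨k, ?_⟩
    rw [T_eq (er a2.symm a4.symm a6 a1 a3 a5), ← h, ← hG'eq]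
    exact hG'3

omit [IsDomain R] in
theorem full_pair (h2 : StPhX D) (hx : Gd D x) (hq : HQ D x u s q)
    {i j k l : Fin 4} (a1 : i ≠ j) (a2 : i ≠ k) (a3 : i ≠ l) (a4 : j ≠ k) (a5 : j ≠ l)
    (a6 : k ≠ l) (hij : xq x u s q i j ≠ 0) (hkl : xq x u s q k l ≠ 0) (m : Fin 4) :
    ({s, q m} : Finset V) ∈ D.FS 2 := by
  have key : ∀ a b : Fin 4, xq x u s q a b ≠ 0 → D.Full {s, q a} := by
    intro a b hab
    refine h2.2 {u, s, q a, q b} (fs_iff.mp (hx.supp _ hab).1).2 _ ?_
    intro v hv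
    simp only [mem_insert, mem_singleton] at hv ⊢
    tauto
  rw [fs_iff]
  refine ⟨card_pair (hq.q_ne m).symm, ?_⟩
  rcases cov a1 a2 a3 a4 a5 a6 m with h | h | h | h
  · subst h; exact key _ _ hij
  · subst h; rw [xq_comm] at hij; exact key _ _ hij
  · subst h; exact key _ _ hkl
  · subst h; rw [xq_comm] at hkl; exact key _ _ hkl

omit [IsDomain R] in
theorem dt_fin (h6 : StPe D) {c0 c1 : Fin 6 → V} (p : Equiv.Perm (Fin 6)) (hp : c1 = c0 ∘ p)
    {y : R} (h : (2 : R) ∣ y - D.dt c1) : (2 : R) ∣ y - D.dt c0 := by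
  rcases h6.1 c0 p with h' | h'
  · rw [hp, h'] at h; exact h
  · rw [hp, h'] at h
    have e : y - D.dt c0 = (y - -D.dt c0) - 2 * D.dt c0 := by ring
    rw [e]
    exact dvd_sub h (dvd_mul_right _ _)

theorem cong (h3 : StTA1 D) (h6 : StPe D) (hq : HQ D x u s q) (m : Fin 4)
    (hT : T u q m ∈ D.FS 4) (hm : ({s, q m} : Finset V) ∈ D.FS 2) :
    (2 : R) ∣ D.om * LL D u s q m - D.dt ![u, s, q 0, q 1, q 2, q 3] := by
  have hne : ∀ i j : Fin 4, i ≠ j → q i ≠ q j := fun i j h h' => h (hq.q_inj h')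
  have gen : ∀ j k l : Fin 4, m ≠ j → m ≠ k → m ≠ l → j ≠ k → j ≠ l → k ≠ l →
      (2 : R) ∣ D.om * LL D u s q m - D.dt ![u, q j, q k, q l, s, q m] := by
    intro j k l b1 b2 b3 b4 b5 b6
    have e := T_eq (u := u) (q := q) (er b1 b2 b3 b4 b5 b6)
    unfold LL
    rw [e] at hT ⊢
    exact h3 _ _ _ _ _ _ (hq.q_ne' j).symm (hq.q_ne' k).symm (hq.q_ne' l).symm (hne _ _ b4)
      (hne _ _ b5) (hne _ _ b6) (hq.q_ne m).symm hT hm
  fin_cases m
  · refine dt_fin h6 ⟨![0, 3, 4, 5, 1, 2], ![0, 4, 5, 1, 2, 3], by decide, by decide⟩ ?_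
      (gen 1 2 3 (by decide) (by decide) (by decide) (by decide) (by decide) (by decide))
    funext i; fin_cases i <;> rfl
  · refine dt_fin h6 ⟨![0, 2, 4, 5, 1, 3], ![0, 4, 1, 5, 2, 3], by decide, by decide⟩ ?_
      (gen 0 2 3 (by decide) (by decide) (by decide) (by decide) (by decide) (by decide))
    funext i; fin_cases i <;> rfl
  · refine dt_fin h6 ⟨![0, 2, 3, 5, 1, 4], ![0, 4, 1, 2, 5, 3], by decide, by decide⟩ ?_
      (gen 0 1 3 (by decide) (by decide) (by decide) (by decide) (by decide) (by decide))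
    funext i; fin_cases i <;> rfl
  · refine dt_fin h6 ⟨![0, 2, 3, 4, 1, 5], ![0, 4, 1, 2, 3, 5], by decide, by decide⟩ ?_
      (gen 0 1 2 (by decide) (by decide) (by decide) (by decide) (by decide) (by decide))
    funext i; fin_cases i <;> rfl

/-- the case of a nonzero product -/
theorem main (hC : Ctx D) (h1 : StP1 D) (h2 : StPhX D) (h3 : StTA1 D) (h4 : StInt D)
    (h5 : StClo D) (h6 : StPe D) (h7 : StEs D) (hx : Gd D x) (hq : HQ D x u s q)
    {i j k l : Fin 4} (a1 : i ≠ j) (a2 : i ≠ k) (a3 : i ≠ l) (a4 : j ≠ k) (a5 : j ≠ l)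
    (a6 : k ≠ l) (h : xq x u s q i j * xq x u s q k l ≠ 0) :
    ∃ L : R, E4 D x u s q = P4 x u s q * L ∧
      (P4 x u s q = 0 ∨ (2 : R) ∣ D.om * L - D.dt ![u, s, q 0, q 1, q 2, q 3]) := by
  have hij := left_ne_zero_of_mul h
  have hkl := right_ne_zero_of_mul h
  obtain ⟨m, hT⟩ := exT h4 h5 hx hq a1 a2 a3 a4 a5 a6 hij hkl
  exact ⟨LL D u s q m, E4_eq hC h1 h2 h7 hx hq hT,
    Or.inr (cong h3 h6 hq m hT (full_pair h2 hx hq a1 a2 a3 a4 a5 a6 hij hkl m))⟩

end ILeq

theorem pr_Leq {V : Type} [Fintype V] [DecidableEq V] {R : Type} [CommRing R] [IsDomain R]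
    (D : Dat V R) (hC : Ctx D) (h1 : StP1 D) (h2 : StPhX D) (h3 : StTA1 D) (h4 : StInt D)
    (h5 : StClo D) (h6 : StPe D) (h7 : StEs D) : StLeq D := by
  intro x u s q hx hq
  by_cases c1 : xq x u s q 0 1 * xq x u s q 2 3 = 0
  · by_cases c2 : xq x u s q 0 2 * xq x u s q 1 3 = 0
    · by_cases c3 : xq x u s q 0 3 * xq x u s q 1 2 = 0
      · refine ⟨0, ?_, Or.inl ?_⟩
        · unfold E4 P4; rw [c1, c2, c3]; ring
        · unfold P4; rw [c1, c2, c3]; ring
      · exact ILeq.main hC h1 h2 h3 h4 h5 h6 h7 hx hq (by decide) (by decide) (by decide)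
          (by decide) (by decide) (by decide) c3
    · exact ILeq.main hC h1 h2 h3 h4 h5 h6 h7 hx hq (by decide) (by decide) (by decide)
        (by decide) (by decide) (by decide) c2
  · exact ILeq.main hC h1 h2 h3 h4 h5 h6 h7 hx hq (by decide) (by decide) (by decide)
      (by decide) (by decide) (by decide) c1

end CSLef.D6
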