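import Mathlib
import Pool.Agent.Work.MP_38c61c_al.D6.Stmts

/-!
Block D6, item MI2 (helper65, after helper92's D5 item).
-/

namespace CSLef.D6

open MvPolynomial Finset

namespace IMI2

variable {V : Type} [Fintype V] [DecidableEq V] {R : Type} [CommRing R] [IsDomain R]

theorem C_two : (C (2 : R) : MvPolynomial V R) = 2 := map_ofNat C 2

/-- `2 w = wo + ∑ μ_l Θ_l` -/
theorem two_w (D : Dat V R) (hC : Ctx D) :
    (2 : R) • D.w = D.wo + ∑ l ∈ range 6, C (D.μ l) * lin (D.a l) := by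
  have hl : ∀ l, lin (D.a l) = ∑ v ∈ D.VP, C (D.a l v) * (X v - X (D.α v)) := fun l =>
    lin_eq_VP hC.cs.invol hC.vp (hC.anti l)
  have e1 : ∑ l ∈ range 6, C (D.μ l) * lin (D.a l) =
      ∑ v ∈ D.VP, (∑ l ∈ range 6, C (D.μ l) * C (D.a l v)) * (X v - X (D.α v)) := by
    simp only [hl, Finset.mul_sum]
    rw [Finset.sum_comm]
    refine Finset.sum_congr rfl fun v _ => ?_
    rw [Finset.sum_mul]
    exact Finset.sum_congr rfl fun l _ => by ring
  have e2 : D.wo = ∑ v ∈ D.VP, (2 * C (D.c v) + ∑ l ∈ range 6, C (D.μ l) * C (D.a l v)) *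
      (X v + X (D.α v)) := by
    unfold Dat.wo Dat.wt yy
    refine Finset.sum_congr rfl fun v _ => ?_
    congr 1
    rw [map_add, map_mul, map_sum, C_two]
    refine congrArg₂ _ rfl ?_
    exact Finset.sum_congr rfl fun l _ => by rw [map_mul]
  have e3 : D.w = ∑ v ∈ D.VP, ((∑ l ∈ range 6, C (D.μ l) * C (D.a l v)) * X v +
      C (D.c v) * (X v + X (D.α v))) := by
    unfold Dat.w welA yy
    rw [Finset.sum_add_distrib]
    congr 1
    simp only [Finset.mul_sum]
    rw [Finset.sum_comm]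
    refine Finset.sum_congr rfl fun v _ => ?_
    rw [Finset.sum_mul]
    exact Finset.sum_congr rfl fun l _ => by ring
  rw [e1, e2, e3, smul_eq_C_mul, Finset.mul_sum, ← Finset.sum_add_distrib]
  refine Finset.sum_congr rfl fun v _ => ?_
  rw [C_two]
  ring

theorem ren_wo (D : Dat V R) (hC : Ctx D) : rename D.α D.wo = D.wo := by
  unfold Dat.wo
  rw [map_sum]
  refine Finset.sum_congr rfl fun p _ => ?_
  rw [map_mul, rename_C]
  congr 1
  unfold yy
  rw [map_add, rename_X, rename_X, hC.cs.invol]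
  exact add_comm _ _

/-- `T m` of a combination of the linear forms -/
theorem T_sum (D : Dat V R) (hC : Ctx D) (m : ℕ) (hm : m < 6) (g : ℕ → MvPolynomial V R) :
    D.T m (∑ l ∈ range 6, lin (D.a l) * g l) = D.dg (g m) := by
  rw [map_sum, Finset.sum_congr rfl
    (fun l hl => hC.Tlin m hm l (Finset.mem_range.1 hl) (g l)), Finset.sum_ite_eq',
    if_pos (Finset.mem_range.2 hm)]

theorem T_two (D : Dat V R) (m : ℕ) (f : MvPolynomial V R) : D.T m (2 * f) = 2 * D.T m f := by
  have : (2 : MvPolynomial V R) * f = (2 : R) • f := by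
    rw [smul_eq_C_mul, C_two]
  rw [this, map_smul, smul_eq_mul]

theorem dg_two (D : Dat V R) (f : MvPolynomial V R) : D.dg (2 * f) = 2 * D.dg f := by
  have : (2 : MvPolynomial V R) * f = (2 : R) • f := by
    rw [smul_eq_C_mul, C_two]
  rw [this, map_smul, smul_eq_mul]

theorem step3 (D : Dat V R) (hC : Ctx D) (m : ℕ) (hm : m < 6) (K K' q : MvPolynomial V R)
    (b : ℕ → MvPolynomial V R)
    (hb : K' - K - ∑ l ∈ range 6, lin (D.a l) * b l ∈ srIdeal R D.Δ) :
    D.T m (q * K' ^ 2) = D.T m (q * K ^ 2) + 2 * D.dg (q * K * b m) := by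
  have hPJ : ∑ l ∈ range 6, lin (D.a l) * b l ∈ D.J :=
    Ideal.sum_mem _ fun l hl => Ideal.mul_mem_right _ _ (lin_mem_J (Finset.mem_range.1 hl))
  have e2 : ∑ l ∈ range 6, lin (D.a l) * (2 * (q * K * b l)) =
      2 * q * K * ∑ l ∈ range 6, lin (D.a l) * b l := by
    rw [Finset.mul_sum]
    exact Finset.sum_congr rfl fun l _ => by ring
  have e3 : ∀ P : MvPolynomial V R, ∑ l ∈ range 6, lin (D.a l) * (q * P * b l) =
      q * P * ∑ l ∈ range 6, lin (D.a l) * b l := by
    intro P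
    rw [Finset.mul_sum]
    exact Finset.sum_congr rfl fun l _ => by ring
  have t2 := T_sum D hC m hm fun l => 2 * (q * K * b l)
  obtain ⟨P, hP⟩ : ∃ P, P = ∑ l ∈ range 6, lin (D.a l) * b l := ⟨_, rfl⟩
  have t3 := T_sum D hC m hm fun l => q * P * b l
  rw [e2] at t2
  rw [e3 P] at t3
  rw [← hP] at hb hPJ t2 t3
  obtain ⟨s₀, hs₀⟩ : ∃ s₀, s₀ = K' - K - P := ⟨_, rfl⟩
  rw [← hs₀] at hb
  have hK' : K' = K + P + s₀ := by rw [hs₀]; ring
  have e1 : q * K' ^ 2 = q * K ^ 2 + 2 * q * K * P + q * P * P +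
      s₀ * (q * (2 * K + 2 * P + s₀)) := by
    rw [hK']; ring
  have t4 : D.T m (s₀ * (q * (2 * K + 2 * P + s₀))) = 0 :=
    hC.Tsr m _ (Ideal.mul_mem_right _ _ hb)
  have t5 : D.dg (q * P * b m) = 0 := by
    refine hC.dgJ _ ?_
    have : q * P * b m = (q * b m) * P := by ring
    rw [this]
    exact Ideal.mul_mem_left _ _ hPJ
  rw [e1, map_add, map_add, map_add, t2, t3, t4, t5, dg_two]
  ring

theorem step5 (D : Dat V R) (hC : Ctx D) (h1 : StPhX D) (ν : Finset V → R) (u s : V)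
    (hu : u ∈ D.VP) (hs : s ∈ D.VP) (hus : u ≠ s) (f : MvPolynomial V R) :
    D.dg (X (D.α u) * X (D.α s) * D.NN ν * f) =
      ∑ q ∈ ((D.VP.erase s).erase u).filter (fun q => ({u, s, q} : Finset V) ∈ D.FS 3),
        ν {u, s, q} * D.ph {q} f := by
  have hmem : ∀ H ∈ D.FS 3, H ⊆ D.VP ∧ H.card = 3 ∧ D.Full H := by
    intro H hH
    unfold Dat.FS at hH
    rw [mem_filter, mem_powersetCard] at hH
    exact ⟨hH.1.1, hH.1.2, hH.2⟩
  have e1 : X (D.α u) * X (D.α s) * D.NN ν * f =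
      ∑ H ∈ D.FS 3, C (ν H) * (D.XH H * (X (D.α u) * (X (D.α s) * f))) := by
    unfold Dat.NN
    rw [Finset.mul_sum, Finset.sum_mul]
    exact Finset.sum_congr rfl fun H _ => by ring
  have e2 : D.dg (X (D.α u) * X (D.α s) * D.NN ν * f) =
      ∑ H ∈ D.FS 3, if u ∈ H ∧ s ∈ H then ν H * D.ph ((H.erase u).erase s) f else 0 := by
    rw [e1, map_sum]
    refine Finset.sum_congr rfl fun H hH => ?_
    obtain ⟨a1, _, a3⟩ := hmem H hH
    rw [← smul_eq_C_mul, map_smul, hC.xh_dg H a3]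
    obtain ⟨b1, b2⟩ := h1.1 H a1 u hu (X (D.α s) * f)
    by_cases hu' : u ∈ H
    · obtain ⟨c1, c2⟩ := h1.1 (H.erase u) ((Finset.erase_subset _ _).trans a1) s hs f
      rw [(b1 hu').2]
      by_cases hs' : s ∈ H
      · rw [if_pos ⟨hu', hs'⟩, (c1 (Finset.mem_erase.2 ⟨fun h => hus h.symm, hs'⟩)).2, smul_eq_mul]
      · rw [if_neg (fun h => hs' h.2), (c2 (fun h => hs' (Finset.mem_of_mem_erase h))).2, smul_zero]
    · rw [if_neg (fun h => hu' h.1), (b2 hu').2, smul_zero]
  rw [e2, ← Finset.sum_filter]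
  symm
  refine Finset.sum_bij (fun q _ => ({u, s, q} : Finset V)) ?_ ?_ ?_ ?_
  · intro q hq
    rw [mem_filter] at hq ⊢
    exact ⟨hq.2, mem_insert_self _ _, mem_insert_of_mem (mem_insert_self _ _)⟩
  · intro q hq q' _ h
    have hqa := (mem_filter.1 hq).1
    have hq1 : q ≠ u := Finset.ne_of_mem_erase hqa
    have hq2 : q ≠ s := Finset.ne_of_mem_erase (Finset.mem_of_mem_erase hqa)
    have h2 : q ∈ ({u, s, q'} : Finset V) := by
      have h3 : q ∈ ({u, s, q} : Finset V) := by simp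
      have h4 : ({u, s, q} : Finset V) = {u, s, q'} := h
      rwa [h4] at h3
    rw [mem_insert, mem_insert, mem_singleton] at h2
    exact (h2.resolve_left hq1).resolve_left hq2
  · intro H hH
    rw [mem_filter] at hH
    obtain ⟨hHF, hu', hs'⟩ := hH
    obtain ⟨a1, a2, _⟩ := hmem H hHF
    have hs'' : s ∈ H.erase u := Finset.mem_erase.2 ⟨fun h => hus h.symm, hs'⟩
    have hc : ((H.erase u).erase s).card = 1 := by
      rw [Finset.card_erase_of_mem hs'', Finset.card_erase_of_mem hu', a2]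
    obtain ⟨q, hq⟩ := Finset.card_eq_one.1 hc
    have hHq : ({u, s, q} : Finset V) = H := by
      have h5 : ({s, q} : Finset V) = H.erase u := by rw [← Finset.insert_erase hs'', hq]
      rw [← Finset.insert_erase hu', ← h5]
    have hqH : q ∈ (H.erase u).erase s := by rw [hq]; exact mem_singleton_self q
    have hq1 : q ≠ s := Finset.ne_of_mem_erase hqH
    have hq2 : q ≠ u := Finset.ne_of_mem_erase (Finset.mem_of_mem_erase hqH)
    have hq3 : q ∈ D.VP := a1 (Finset.mem_of_mem_erase (Finset.mem_of_mem_erase hqH))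
    refine ⟨q, ?_, hHq⟩
    rw [mem_filter, hHq]
    exact ⟨Finset.mem_erase.2 ⟨hq2, Finset.mem_erase.2 ⟨hq1, hq3⟩⟩, hHF⟩
  · intro q hq
    have hqa := (mem_filter.1 hq).1
    have hq1 : q ≠ u := Finset.ne_of_mem_erase hqa
    have hq2 : q ≠ s := Finset.ne_of_mem_erase (Finset.mem_of_mem_erase hqa)
    have h2 : ({u, s, q} : Finset V).erase u = {s, q} := by
      apply Finset.erase_insert
      rw [mem_insert, mem_singleton]
      rintro (h | h)
      · exact hus h
      · exact hq1 h.symm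
    have h3 : ({s, q} : Finset V).erase s = {q} := by
      apply Finset.erase_insert
      rw [mem_singleton]
      exact fun h => hq2 h.symm
    rw [h2, h3]

end IMI2

open IMI2 in
/-- Item MI2. -/
theorem pr_MI2 {V : Type} [Fintype V] [DecidableEq V] {R : Type} [CommRing R] [IsDomain R]
    (D : Dat V R) (hC : Ctx D) (h1 : StPhX D) (h2 : StTx D) (h3 : StMI0 D) : StMI2 D := by
  intro x ν hx hν b hb u hu s hs hus m hm
  obtain ⟨_, hb4, hall⟩ := h3 x ν hx hν
  obtain ⟨_, _, _, _, _, hz, hzN, _, _⟩ := hall s hs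
  have hzs : D.z s * D.KK x ∈ D.J := hz s
  have hzu : D.z u * D.KK x ∈ D.J := hz u
  have hzuN : D.z u * D.NN ν ∈ D.J := hzN u
  set K := D.KK x with hK
  set N := D.NN ν with hN
  have two0 : (2 : R) ≠ 0 := hC.two.ne_zero
  -- the value with `wo`
  have t1 : D.T m (X u * X s * D.wo * K ^ 2) =
      - D.T m (X (D.α u) * X (D.α s) * D.wo * (rename D.α K) ^ 2) := by
    have h4 := hC.Ta m hm (X u * X s * D.wo * K ^ 2)
    have h5 : rename D.α (X u * X s * D.wo * K ^ 2) =
        X (D.α u) * X (D.α s) * D.wo * (rename D.α K) ^ 2 := by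
      rw [map_mul, map_mul, map_mul, map_pow, rename_X, rename_X, ren_wo D hC]
    rw [h5] at h4
    rw [h4, neg_neg]
  have t2 := step3 D hC m hm K (rename D.α K) (X (D.α u) * X (D.α s) * D.wo) b hb
  have t3 : D.dg (X (D.α u) * X (D.α s) * D.wo * K * b m) =
      - (4 * D.dg (X (D.α u) * X (D.α s) * N * b m)) := by
    have h4 : D.dg ((X (D.α u) * X (D.α s) * b m) * (D.wo * K + (4 : R) • N)) = 0 :=
      hC.dgJ _ (Ideal.mul_mem_left _ _ hb4)
    have h5 : (X (D.α u) * X (D.α s) * b m) * (D.wo * K + (4 : R) • N) =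
        X (D.α u) * X (D.α s) * D.wo * K * b m +
          (4 : R) • (X (D.α u) * X (D.α s) * N * b m) := by
      rw [smul_eq_C_mul, smul_eq_C_mul]; ring
    rw [h5, map_add, map_smul, smul_eq_mul] at h4
    linear_combination h4
  have t4 := step5 D hC h1 ν u s hu hs hus (b m)
  rw [← hN] at t4
  have t5 : ∀ z q : MvPolynomial V R, z * K ∈ D.J →
      D.T m (z * q * D.wo * K ^ 2) = - (4 * D.T m (z * q * N * K)) := by
    intro z q hzK
    have h4 : D.T m ((z * K) * (q * (D.wo * K + (4 : R) • N))) = 0 :=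
      h2.2 _ hzK _ (Ideal.mul_mem_left _ _ hb4) m hm
    have h5 : (z * K) * (q * (D.wo * K + (4 : R) • N)) =
        z * q * D.wo * K ^ 2 + (4 : R) • (z * q * N * K) := by
      rw [smul_eq_C_mul, smul_eq_C_mul]; ring
    rw [h5, map_add, map_smul, smul_eq_mul] at h4
    linear_combination h4
  have t5a := t5 (D.z u) (X s) hzu
  have t5b := t5 (D.z s) (X (D.α u)) hzs
  have t5c : D.T m (D.z s * X (D.α u) * N * K) = D.T m (D.z s * X u * N * K) := by
    have h4 : D.T m ((D.z s * K) * (D.z u * N)) = 0 := h2.2 _ hzs _ hzuN m hm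
    have h5 : (D.z s * K) * (D.z u * N) = D.z s * X u * N * K - D.z s * X (D.α u) * N * K := by
      have h6 : D.z u = X u - X (D.α u) := rfl
      rw [h6]; ring
    rw [h5, map_sub] at h4
    linear_combination - h4
  have t6 : D.T m (X u * X s * D.wo * K ^ 2) =
      D.T m (X (D.α u) * X (D.α s) * D.wo * K ^ 2) + D.T m (D.z u * X s * D.wo * K ^ 2) +
        D.T m (D.z s * X (D.α u) * D.wo * K ^ 2) := by
    rw [← map_add, ← map_add]
    congr 1
    unfold Dat.z
    ring
  set S := ∑ q ∈ ((D.VP.erase s).erase u).filter (fun q => ({u, s, q} : Finset V) ∈ D.FS 3),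
      ν {u, s, q} * D.ph {q} (b m) with hS
  have t7 : D.T m (X u * X s * D.wo * K ^ 2) =
      - (2 * (D.T m (D.z u * X s * N * K) + D.T m (D.z s * X u * N * K))) + 4 * S := by
    apply mul_left_cancel₀ two0
    linear_combination t1 - t2 - 2 * t3 + 8 * t4 + t5a + t5b + t6 - 4 * t5c
  -- from `wo` to `w`
  have t8 : 2 * D.T m (X u * X s * D.w * K ^ 2) =
      D.T m (X u * X s * D.wo * K ^ 2) + D.μ m * D.dg (X u * X s * K ^ 2) := by
    have h4 : (2 : R) • (X u * X s * D.w * K ^ 2) = X u * X s * D.wo * K ^ 2 +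
        ∑ l ∈ range 6, lin (D.a l) * (C (D.μ l) * (X u * X s * K ^ 2)) := by
      have h5 : (2 : R) • (X u * X s * D.w * K ^ 2) = X u * X s * ((2 : R) • D.w) * K ^ 2 := by
        rw [smul_eq_C_mul, smul_eq_C_mul]; ring
      rw [h5, two_w D hC]
      have h6 : ∑ l ∈ range 6, lin (D.a l) * (C (D.μ l) * (X u * X s * K ^ 2)) =
          (X u * X s * K ^ 2) * ∑ l ∈ range 6, C (D.μ l) * lin (D.a l) := by
        rw [Finset.mul_sum]
        exact Finset.sum_congr rfl fun l _ => by ring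
      rw [h6]
      ring
    have h7 := congrArg (D.T m) h4
    rw [map_smul, map_add, T_sum D hC m hm, ← smul_eq_C_mul, map_smul, smul_eq_mul,
      smul_eq_mul] at h7
    exact h7
  rw [t8, t7]

end CSLef.D6
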