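import Mathlib
import Pool.Agent.Work.MP_38c61c_al.D6.Stmts

/-!
Block D6, item MI3.
-/

namespace CSLef.D6

open MvPolynomial Finset

theorem pr_MI3 {V : Type} [Fintype V] [DecidableEq V] {R : Type} [CommRing R] [IsDomain R]
    (D : Dat V R) (hC : Ctx D) (h1 : StTx D) (h2 : StMI0 D) : StMI3 D := by
  intro x ν hx hν u hu s hs hus m hm
  obtain ⟨-, -, h3⟩ := h2 x ν hx hν
  obtain ⟨-, -, ha, hb, hc, -, -, hd, he⟩ := h3 s hs
  have hT := h1.2
  set Ks := D.KK (xs s x)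
  set Kr := D.KK (xr s x)
  set Ns := D.NN (xs s ν)
  set Nr := D.NN (xr s ν)
  have e1 := hT _ (Ideal.mul_mem_right (X u) _ he) _ ha m hm
  have e2 := hT _ (Ideal.mul_mem_right (X u) _ hd) _ hb m hm
  have e3 := hT _ (Ideal.mul_mem_right (X u) _ hc) _ hd m hm
  have k1 : D.z s * Kr * X u * (D.wo * Ks + (4 : R) • Ns - C (2 * D.wt s) * X s * Ks) =
      D.z s * X u * D.wo * Ks * Kr + (4 : R) • (D.z s * X u * Ns * Kr) -
        (2 * D.wt s) • (X s * Kr * X u * (D.z s * Ks)) := by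
    rw [smul_eq_C_mul, smul_eq_C_mul, smul_eq_C_mul]
    ring
  have k2 : D.z s * Ks * X u * (D.wo * Kr + (4 : R) • Nr + C (2 * D.wt s) * X s * Ks) =
      D.z s * X u * D.wo * Ks * Kr + (4 : R) • (D.z s * X u * Nr * Ks) +
        (2 * D.wt s) • (D.z s * X u * X s * Ks ^ 2) := by
    rw [smul_eq_C_mul, smul_eq_C_mul, smul_eq_C_mul]
    ring
  rw [k1, map_sub, map_add, map_smul, map_smul, e3, smul_zero, sub_zero, smul_eq_mul] at e1
  rw [k2, map_add, map_add, map_smul, map_smul, smul_eq_mul, smul_eq_mul] at e2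
  have h20 : (2 : R) ≠ 0 := hC.two.ne_zero
  apply mul_left_cancel₀ h20
  linear_combination e1 - e2

end CSLef.D6
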