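import Mathlib
import Pool.Agent.Work.MP_38c61c_al.D6.Stmts

/-!
Block D6, item MI5.
-/

set_option autoImplicit false

namespace CSLef.D6

open MvPolynomial Finset

namespace IMI5

variable {V : Type} [Fintype V] [DecidableEq V] {R : Type} [CommRing R]

theorem expd (D : Dat V R) (x ν : Finset V → R) (s u : V) (m : ℕ) :
    D.T m (D.z s * X u * D.NN ν * D.KK x) =
      ∑ G ∈ D.FS 4, ∑ H ∈ D.FS 3, x G * ν H * D.T m (D.z s * D.XH G * (X u * D.XH H)) := by
  unfold Dat.KK Dat.NN
  rw [Finset.mul_sum, map_sum]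
  refine Finset.sum_congr rfl fun G _ => ?_
  have h1 : D.z s * X u * (∑ H ∈ D.FS 3, C (ν H) * D.XH H) * (C (x G) * D.XH G) =
      ∑ H ∈ D.FS 3, (x G * ν H) • (D.z s * D.XH G * (X u * D.XH H)) := by
    rw [Finset.mul_sum, Finset.sum_mul]
    refine Finset.sum_congr rfl fun H _ => ?_
    rw [MvPolynomial.smul_eq_C_mul, map_mul]
    ring
  rw [h1, map_sum]
  refine Finset.sum_congr rfl fun H _ => ?_
  rw [map_smul, smul_eq_mul]

theorem mem_FS (D : Dat V R) {k : ℕ} {G : Finset V} (h : G ∈ D.FS k) : D.Full G ∧ G.card = k := by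
  unfold Dat.FS at h
  rw [Finset.mem_filter, Finset.mem_powersetCard] at h
  exact ⟨h.2, h.1.2⟩



/-- a pair with `u ∉ H` -/
theorem out (D : Dat V R) (h0 : StP1 D) (h00 : StTx D) {G H : Finset V} (hG : D.Full G)
    (hGn : G.Nonempty) (hH : D.Full H) (hHn : H.Nonempty) {s u : V} (hu : u ∈ D.VP) (huH : u ∉ H)
    {m : ℕ} (hm : m < 6) : D.T m (D.z s * D.XH G * (X u * D.XH H)) = 0 :=
  h00.2 _ ((h0 G hG hGn).1 s) _ ((h0 H hH hHn).2.1 u hu huH).1 m hm

/-- a pair with `u ∈ H` -/
theorem inn (D : Dat V R) (h0 : StP1 D) (h00 : StTx D) {G H : Finset V} (hG : D.Full G)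
    (hGn : G.Nonempty) (hH : D.Full H) (hHn : H.Nonempty) {s u : V} (huH : u ∈ H)
    {m : ℕ} (hm : m < 6) :
    D.T m (D.z s * D.XH G * (X u * D.XH H)) = D.T m (D.z s * D.XH G * D.XH (H.erase u)) := by
  have h := h00.2 _ ((h0 G hG hGn).1 s) _ ((h0 H hH hHn).2.2.1 u huH) m hm
  rw [mul_sub, map_sub, sub_eq_zero] at h
  exact h

end IMI5

open IMI5

/-- item MI5 -/
theorem pr_MI5 {V : Type} [Fintype V] [DecidableEq V] {R : Type} [CommRing R] [IsDomain R]
    (D : Dat V R) (_hC : Ctx D) (h0 : StP1 D) (h0' : StPhX D) (h00 : StTx D) (h1 : StNonT D)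
    (h2 : StDisT D) : StMI5 D := by
  intro x ν u hu s hs hus m hm
  constructor
  · rw [expd]
    refine Finset.sum_eq_zero fun G hG => Finset.sum_eq_zero fun H hH => ?_
    obtain ⟨hG1, hG2⟩ := mem_FS D hG
    obtain ⟨hH1, hH2⟩ := mem_FS D hH
    have hGn : G.Nonempty := Finset.card_pos.1 (by omega)
    have hHn : H.Nonempty := Finset.card_pos.1 (by omega)
    unfold xs
    by_cases hsG : s ∈ G
    · by_cases hsH : s ∈ H
      · by_cases huH : u ∈ H
        · have hc : (H.erase u).card = 2 := by rw [Finset.card_erase_of_mem huH]; omega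
          rw [inn D h0 h00 hG1 hGn hH1 hHn huH hm,
            h1 G (H.erase u) hG1 (h0'.2 H hH1 _ (Finset.erase_subset _ _)) (by omega)
              ⟨s, Finset.mem_inter.2 ⟨hsG, Finset.mem_erase.2 ⟨fun e => hus e.symm, hsH⟩⟩⟩
              s hs m hm, mul_zero]
        · rw [out D h0 h00 hG1 hGn hH1 hHn hu huH hm, mul_zero]
      · rw [if_neg hsH, mul_zero, zero_mul]
    · rw [if_neg hsG, zero_mul, zero_mul]
  · rw [expd]
    refine Finset.sum_eq_zero fun G hG => Finset.sum_eq_zero fun H hH => ?_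
    obtain ⟨hG1, hG2⟩ := mem_FS D hG
    obtain ⟨hH1, hH2⟩ := mem_FS D hH
    have hGn : G.Nonempty := Finset.card_pos.1 (by omega)
    have hHn : H.Nonempty := Finset.card_pos.1 (by omega)
    unfold xr
    by_cases hsG : s ∈ G
    · rw [if_pos hsG, zero_mul, zero_mul]
    · by_cases hsH : s ∈ H
      · rw [if_pos hsH, mul_zero, zero_mul]
      · by_cases huH : u ∈ H
        · have hc : (H.erase u).card = 2 := by rw [Finset.card_erase_of_mem huH]; omega
          have hF : D.Full (H.erase u) := h0'.2 H hH1 _ (Finset.erase_subset _ _)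
          have h3 : D.T m (D.z s * D.XH G * D.XH (H.erase u)) = 0 := by
            by_cases hd : Disjoint G (H.erase u)
            · refine h2 G (H.erase u) hG1 hF hGn (Finset.card_pos.1 (by omega))
                (by omega) hd s hs ?_ m hm
              rw [Finset.mem_union]
              rintro (h | h)
              · exact hsG h
              · exact hsH (Finset.mem_of_mem_erase h)
            · exact h1 G (H.erase u) hG1 hF (by omega)
                (Finset.not_disjoint_iff_nonempty_inter.1 hd) s hs m hm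
          rw [inn D h0 h00 hG1 hGn hH1 hHn huH hm, h3, mul_zero]
        · rw [out D h0 h00 hG1 hGn hH1 hHn hu huH hm, mul_zero]

end CSLef.D6
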