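import Mathlib
import Pool.Agent.Work.MP_38c61c_al.D6.Stmts2

/-!
Block D6, item Om: the top product of the half forms has odd degree.
-/

namespace CSLef.D6

open MvPolynomial Finset

/-- [Om] -/
theorem pr_Om {V : Type} [Fintype V] [DecidableEq V] {R : Type} [CommRing R] [IsDomain R]
    (D : Dat V R) (hC : Ctx D) : StOm D := by
  intro h2
  have hf : (xm R D.σ).IsHomogeneous 6 := by
    have h := xm_hom (F := R) D.σ
    rw [hC.sgc] at h
    exact h
  have h1 : rename D.α (xm R D.σ) - xm R D.σ ∈ D.J := by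
    have h := hC.dgt _ (hf.rename_isHomogeneous (f := D.α))
    rw [hC.dga, hC.dgs, map_one, one_mul] at h
    exact h
  obtain ⟨β, g, v, -, -, h3⟩ := hC.tate 6 _ hf h1
  have h4 := hC.dgJ _ h3
  have h5 : (range 6).powersetCard 6 = {range 6} := by
    have h := Finset.powersetCard_self (range 6)
    rw [Finset.card_range] at h
    exact h
  rw [h5, Finset.sum_singleton, map_sub, map_sub, map_sub, map_add, hC.dga, hC.dgs, map_smul,
    ← smul_eq_C_mul, map_smul, smul_eq_mul, smul_eq_mul] at h4
  have h6 : (2 : R) ∣ 1 := by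
    obtain ⟨c, hc⟩ := h2
    refine ⟨β (range 6) * c + D.dg g + D.dg v, ?_⟩
    have hc' : D.dg (∏ i ∈ range 6, D.W i) = 2 * c := hc
    rw [hc'] at h4
    linear_combination h4
  exact hC.two.not_isUnit (isUnit_of_dvd_one h6)

end CSLef.D6
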