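import Mathlib
import Pool.Agent.Work.MP_38c61c_al.D6.Stmts

/-!
Block D6, item PhA (helper37): invariance, homogeneity, derivations and values of `φ_H`.
-/

namespace CSLef.D6

open MvPolynomial Finset

namespace IPhA

variable {V : Type} [Fintype V] [DecidableEq V] {R : Type} [CommRing R]

theorem ex_apply (S : Finset V) (u : V) : (ex S) u = if u ∈ S then 1 else 0 := by
  unfold ex
  rw [Finsupp.finset_sum_apply]
  simp only [Finsupp.single_apply]
  rw [Finset.sum_ite_eq' S u]

theorem ex_inj {S S' : Finset V} (h : ex S = ex S') : S = S' := by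
  ext u
  have h1 : (ex S) u = (ex S') u := by rw [h]
  rw [ex_apply, ex_apply] at h1
  by_cases hu : u ∈ S <;> by_cases hu' : u ∈ S' <;> simp [hu, hu'] at h1 ⊢

theorem xm_eq (S : Finset V) : xm R S = monomial (ex S) (1 : R) := by
  unfold xm ex
  rw [monomial_sum_one]
  rfl

theorem ex_degree (S : Finset V) : (ex S).degree = S.card := by
  rw [Finsupp.degree_eq_sum]
  simp only [ex_apply]
  rw [Finset.sum_ite_mem, Finset.univ_inter, Finset.sum_const, smul_eq_mul, mul_one]

theorem ex_map (α : Equiv.Perm V) (S : Finset V) :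
    (ex S).mapDomain α = ex (S.image α) := by
  unfold ex
  rw [Finset.sum_image (fun a _ b _ h => α.injective h), Finsupp.mapDomain_finset_sum]
  refine Finset.sum_congr rfl fun v _ => ?_
  rw [Finsupp.mapDomain_single]

theorem ph_apply (D : Dat V R) (H : Finset V) (f : MvPolynomial V R) :
    D.ph H f = ∑ T ∈ H.powerset, coeff (ex (flip D.α H T)) f := by
  unfold Dat.ph
  rw [LinearMap.sum_apply]
  rfl

theorem image_flip {α : Equiv.Perm V} (hi : ∀ v, α (α v) = v) {H T : Finset V} (hT : T ⊆ H) :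
    (flip α H T).image α = flip α H (H \ T) := by
  unfold flip
  rw [Finset.image_union, Finset.image_image, Finset.sdiff_sdiff_eq_self hT, Finset.union_comm]
  congr 1
  have : (⇑α ∘ ⇑α) = id := by
    funext v
    exact hi v
  rw [this, Finset.image_id]

/-- the part of a flip in the half `VP` -/
theorem mem_flip_iff {α : Equiv.Perm V} {VP : Finset V} (vp : ∀ v, v ∈ VP ↔ α v ∉ VP)
    {H T : Finset V} (hH : H ⊆ VP) (hT : T ⊆ H) {v : V} (hv : v ∈ VP) :
    v ∈ flip α H T ↔ v ∈ H ∧ v ∉ T := by
  unfold flip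
  rw [Finset.mem_union, Finset.mem_sdiff, Finset.mem_image]
  constructor
  · rintro (h | ⟨t, ht, rfl⟩)
    · exact h
    · exact absurd hv ((vp t).1 (hH (hT ht)))
  · intro h
    exact Or.inl h

theorem flip_inj {α : Equiv.Perm V} {VP : Finset V} (vp : ∀ v, v ∈ VP ↔ α v ∉ VP)
    {H T T' : Finset V} (hH : H ⊆ VP) (hT : T ⊆ H) (hT' : T' ⊆ H)
    (h : flip α H T = flip α H T') : T = T' := by
  ext v
  constructor
  · intro hv
    by_contra hv'
    have h1 := (mem_flip_iff vp hH hT' (hH (hT hv))).2 ⟨hT hv, hv'⟩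
    rw [← h] at h1
    exact ((mem_flip_iff vp hH hT (hH (hT hv))).1 h1).2 hv
  · intro hv
    by_contra hv'
    have h1 := (mem_flip_iff vp hH hT (hH (hT' hv))).2 ⟨hT' hv, hv'⟩
    rw [h] at h1
    exact ((mem_flip_iff vp hH hT' (hH (hT' hv))).1 h1).2 hv

theorem card_flip {α : Equiv.Perm V} {VP : Finset V} (vp : ∀ v, v ∈ VP ↔ α v ∉ VP)
    {H T : Finset V} (hH : H ⊆ VP) (hT : T ⊆ H) : (flip α H T).card = H.card := by
  unfold flip
  rw [Finset.card_union_of_disjoint, Finset.card_image_of_injective _ α.injective,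
    Finset.card_sdiff_add_card_eq_card hT]
  rw [Finset.disjoint_left]
  intro v hv hv'
  obtain ⟨t, ht, rfl⟩ := Finset.mem_image.1 hv'
  exact (vp t).1 (hH (hT ht)) (hH (Finset.mem_sdiff.1 hv).1)

end IPhA

open IPhA

/-- Item PhA. -/
theorem pr_PhA {V : Type} [Fintype V] [DecidableEq V] {R : Type} [CommRing R] [IsDomain R]
    (D : Dat V R) (hC : Ctx D) : StPhA D := by
  rintro H ⟨hH, hF⟩
  refine ⟨?_, ?_, ?_, ?_, ?_, ?_⟩
  · intro f
    rw [ph_apply, ph_apply]
    refine Finset.sum_bij' (fun T _ => H \ T) (fun T _ => H \ T) ?_ ?_ ?_ ?_ ?_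
    · intro T _
      exact Finset.mem_powerset.2 Finset.sdiff_subset
    · intro T _
      exact Finset.mem_powerset.2 Finset.sdiff_subset
    · intro T hT
      exact Finset.sdiff_sdiff_eq_self (Finset.mem_powerset.1 hT)
    · intro T hT
      exact Finset.sdiff_sdiff_eq_self (Finset.mem_powerset.1 hT)
    · intro T hT
      rw [coeff_rename_inv hC.cs.invol, ex_map,
        image_flip hC.cs.invol (Finset.mem_powerset.1 hT)]
  · intro n hn f hf
    rw [ph_apply]
    refine Finset.sum_eq_zero fun T hT => ?_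
    apply hf.coeff_eq_zero
    rw [ex_degree, card_flip hC.vp hH (Finset.mem_powerset.1 hT)]
    exact hn.symm
  · intro δ f
    rw [ph_apply, ph_apply, map_sum]
    refine Finset.sum_congr rfl fun T _ => ?_
    rw [coeff_dmap]
  · intro T hT
    rw [ph_apply, Finset.sum_eq_single T]
    · rw [xm_eq, coeff_monomial, if_pos rfl]
    · intro T' hT' hne
      rw [xm_eq, coeff_monomial, if_neg]
      intro h
      exact hne (flip_inj hC.vp hH (Finset.mem_powerset.1 hT') hT (ex_inj h).symm)
    · intro h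
      exact absurd (Finset.mem_powerset.2 hT) h
  · intro S hS
    rw [ph_apply]
    refine Finset.sum_eq_zero fun T hT => ?_
    rw [xm_eq, coeff_monomial, if_neg]
    intro h
    exact hS T (Finset.mem_powerset.1 hT) (ex_inj h)
  · have h1 := hF ∅ (Finset.empty_mem_powerset H)
    have h2 := hC.hs.card_le _ h1
    rwa [card_flip hC.vp hH (Finset.empty_subset H)] at h2

end CSLef.D6
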