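import Mathlib
import Pool.Agent.Work.MP_38c61c_al.D6.Stmts

/-!
Block D6, item Ps (helper4): the functionals `ψ_(p,H)`.
-/

namespace CSLef.D6

open MvPolynomial Finset

namespace IPs

variable {V : Type} [Fintype V] [DecidableEq V] {R : Type} [CommRing R]

/-- the vertex of the flip over `q` -/
def fl (α : Equiv.Perm V) (T : Finset V) (q : V) : V := if q ∈ T then α q else q

omit [Fintype V] in
theorem ex_flip (α : Equiv.Perm V) (VP : Finset V) (hvp : ∀ v, v ∈ VP ↔ α v ∉ VP)
    (H T : Finset V) (hH : H ⊆ VP) (hT : T ⊆ H) :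
    ex (flip α H T) = ∑ q ∈ H, Finsupp.single (fl α T q) 1 := by
  have h1 : flip α H T = H.image (fl α T) := by
    ext u
    simp only [flip, mem_union, mem_sdiff, mem_image, fl]
    constructor
    · rintro (⟨h1, h2⟩ | ⟨q, hq, rfl⟩)
      · exact ⟨u, h1, by rw [if_neg h2]⟩
      · exact ⟨q, hT hq, by rw [if_pos hq]⟩
    · rintro ⟨q, hq, hqu⟩
      split_ifs at hqu with h
      · exact Or.inr ⟨q, h, hqu⟩
      · subst hqu
        exact Or.inl ⟨hq, h⟩
  rw [ex, h1, sum_image]
  intro q hq q' hq' hqq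
  have hq1 := hH hq
  have hq1' := hH hq'
  simp only [fl] at hqq
  split_ifs at hqq with h2 h3 h3
  · exact α.injective hqq
  · exfalso
    rw [← hqq] at hq1'
    exact (hvp q).1 hq1 hq1'
  · exfalso
    rw [hqq] at hq1
    exact (hvp q').1 hq1' hq1
  · exact hqq

/-- the exponent -/
noncomputable def eT (α : Equiv.Perm V) (p : V) (H T : Finset V) : V →₀ ℕ :=
  ∑ q ∈ H, Finsupp.single (fl α T q) 1 + Finsupp.single (fl α T p) 1

theorem ps_eq (D : Dat V R) (hvp : ∀ v, v ∈ D.VP ↔ D.α v ∉ D.VP) (H : Finset V)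
    (hH : H ⊆ D.VP) (p : V) (f : MvPolynomial V R) :
    D.ps p H f = ∑ T ∈ H.powerset, (if p ∈ T then (-1 : R) else 1) *
      coeff (eT D.α p H T) f := by
  unfold Dat.ps
  rw [LinearMap.sum_apply]
  refine sum_congr rfl fun T hT => ?_
  rw [mem_powerset] at hT
  rw [LinearMap.smul_apply, lcoeff_apply, smul_eq_mul, ex_flip D.α D.VP hvp H T hH hT]
  rfl

theorem ph_eq (D : Dat V R) (hvp : ∀ v, v ∈ D.VP ↔ D.α v ∉ D.VP) (H : Finset V)
    (hH : H ⊆ D.VP) (f : MvPolynomial V R) :
    D.ph H f = ∑ T ∈ H.powerset, coeff (∑ q ∈ H, Finsupp.single (fl D.α T q) 1) f := by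
  unfold Dat.ph
  rw [LinearMap.sum_apply]
  refine sum_congr rfl fun T hT => ?_
  rw [mem_powerset] at hT
  rw [lcoeff_apply, ex_flip D.α D.VP hvp H T hH hT]

omit [Fintype V] in
theorem coeff_zero_of (α : Equiv.Perm V) (p : V) (H T : Finset V) (hp : p ∈ H) (u : V)
    (hu : ∀ q ∈ H, fl α T q ≠ u) (f : MvPolynomial V R) : coeff (eT α p H T) (X u * f) = 0 := by
  rw [coeff_X_mul', if_neg]
  rw [Finsupp.mem_support_iff, not_not, eT, Finsupp.add_apply, Finsupp.finsetSum_apply,
    sum_eq_zero (fun q hq => Finsupp.single_eq_of_ne (hu q hq).symm),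
    Finsupp.single_eq_of_ne (hu p hp).symm, add_zero]

omit [Fintype V] in
theorem eT_split (α : Equiv.Perm V) (p : V) (H T : Finset V) (v : V) (hv : v ∈ H) :
    eT α p H T = Finsupp.single (fl α T v) 1 +
      (∑ q ∈ H.erase v, Finsupp.single (fl α T q) 1 + Finsupp.single (fl α T p) 1) := by
  rw [eT, ← add_sum_erase H _ hv, add_assoc]

omit [Fintype V] in
theorem fl_insert (α : Equiv.Perm V) (T : Finset V) (v q : V) (h : q ≠ v) :
    fl α (insert v T) q = fl α T q := by
  unfold fl
  simp [h]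

theorem z_part (D : Dat V R) (hvp : ∀ v, v ∈ D.VP ↔ D.α v ∉ D.VP) (H : Finset V)
    (hH : H ⊆ D.VP) (p : V) (hp : p ∈ H) (v : V) (hv : v ∈ D.VP) (f : MvPolynomial V R) :
    D.ps p H (D.z v * f) = if v = p then D.ph H f else 0 := by
  have hz : D.z v * f = X v * f - X (D.α v) * f := by rw [Dat.z, sub_mul]
  rw [ps_eq D hvp H hH p, hz]
  simp only [coeff_sub]
  by_cases hvH : v ∈ H
  · have hins : insert v (H.erase v) = H := insert_erase hvH
    have hs : ∀ F : Finset V → R, ∑ T ∈ H.powerset, F T =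
        ∑ T ∈ (H.erase v).powerset, (F T + F (insert v T)) := by
      intro F
      rw [sum_add_distrib, ← sum_powerset_insert (notMem_erase v H), hins]
    have key : ∀ T ∈ (H.erase v).powerset,
        coeff (eT D.α p H T) (X v * f) = coeff (∑ q ∈ H.erase v, Finsupp.single (fl D.α T q) 1 +
          Finsupp.single (fl D.α T p) 1) f ∧ coeff (eT D.α p H T) (X (D.α v) * f) = 0 ∧
        coeff (eT D.α p H (insert v T)) (X v * f) = 0 ∧
        coeff (eT D.α p H (insert v T)) (X (D.α v) * f) =
          coeff (∑ q ∈ H.erase v, Finsupp.single (fl D.α T q) 1 +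
          Finsupp.single (fl D.α (insert v T) p) 1) f := by
      intro T hT
      rw [mem_powerset] at hT
      have hvT : v ∉ T := fun h => notMem_erase v H (hT h)
      have hTH : T ⊆ H := hT.trans (erase_subset v H)
      have f1 : fl D.α T v = v := by rw [fl, if_neg hvT]
      have f2 : fl D.α (insert v T) v = D.α v := by rw [fl, if_pos (mem_insert_self v T)]
      refine ⟨?_, ?_, ?_, ?_⟩
      · rw [eT_split D.α p H T v hvH, f1, coeff_X_mul]
      · refine coeff_zero_of D.α p H T hp _ ?_ f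
        intro q hq h
        unfold fl at h
        split_ifs at h with h1
        · exact hvT ((D.α.injective h) ▸ h1)
        · exact (hvp v).1 hv (h ▸ hH hq)
      · refine coeff_zero_of D.α p H _ hp _ ?_ f
        intro q hq h
        unfold fl at h
        split_ifs at h with h1
        · exact (hvp q).1 (hH hq) (h ▸ hv)
        · exact h1 (h ▸ mem_insert_self v T)
      · rw [eT_split D.α p H _ v hvH, f2, coeff_X_mul]
        congr 2
        refine sum_congr rfl fun q hq => ?_
        rw [fl_insert D.α T v q (mem_erase.1 hq).1]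
    rw [hs]
    split_ifs with hvpq
    · subst hvpq
      rw [ph_eq D hvp H hH]
      have hs2 : ∀ F : Finset V → R, ∑ T ∈ H.powerset, F T =
          ∑ T ∈ (H.erase v).powerset, (F T + F (insert v T)) := hs
      rw [hs2]
      refine sum_congr rfl fun T hT => ?_
      obtain ⟨k1, k2, k3, k4⟩ := key T hT
      rw [mem_powerset] at hT
      have hvT : v ∉ T := fun h => notMem_erase v H (hT h)
      rw [k1, k2, k3, k4, if_neg hvT, if_pos (mem_insert_self v T)]
      have e1 : ∑ q ∈ H, Finsupp.single (fl D.α T q) 1 =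
          ∑ q ∈ H.erase v, Finsupp.single (fl D.α T q) 1 + Finsupp.single (fl D.α T v) 1 := by
        rw [← add_sum_erase H _ hvH, add_comm]
      have e2 : ∑ q ∈ H, Finsupp.single (fl D.α (insert v T) q) 1 =
          ∑ q ∈ H.erase v, Finsupp.single (fl D.α T q) 1 +
            Finsupp.single (fl D.α (insert v T) v) 1 := by
        rw [← add_sum_erase H _ hvH, add_comm]
        congr 1
        refine sum_congr rfl fun q hq => ?_
        rw [fl_insert D.α T v q (mem_erase.1 hq).1]
      rw [e1, e2]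
      ring
    · refine sum_eq_zero fun T hT => ?_
      obtain ⟨k1, k2, k3, k4⟩ := key T hT
      rw [mem_powerset] at hT
      have hpv : p ≠ v := fun h => hvpq h.symm
      have h5 : p ∈ insert v T ↔ p ∈ T := by
        rw [mem_insert]
        simp [hpv]
      rw [k1, k2, k3, k4, fl_insert D.α T v p hpv]
      simp only [h5]
      ring
  · have hvpne : v ≠ p := fun h => hvH (h ▸ hp)
    rw [if_neg hvpne]
    refine sum_eq_zero fun T hT => ?_
    rw [mem_powerset] at hT
    have h1 : coeff (eT D.α p H T) (X v * f) = 0 := by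
      refine coeff_zero_of D.α p H T hp _ ?_ f
      intro q hq h
      unfold fl at h
      split_ifs at h with h1
      · exact (hvp q).1 (hH hq) (h ▸ hv)
      · exact hvH (h ▸ hq)
    have h2 : coeff (eT D.α p H T) (X (D.α v) * f) = 0 := by
      refine coeff_zero_of D.α p H T hp _ ?_ f
      intro q hq h
      unfold fl at h
      split_ifs at h with h1
      · exact hvH ((D.α.injective h) ▸ hq)
      · exact (hvp v).1 hv (h ▸ hH hq)
    rw [h1, h2, sub_zero, mul_zero]

omit [Fintype V] in
theorem supp_eT (α : Equiv.Perm V) (p : V) (H T : Finset V) (hT : T ⊆ H) (hp : p ∈ H) :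
    (eT α p H T).support = flip α H T := by
  ext u
  rw [Finsupp.mem_support_iff, eT, Finsupp.add_apply, Finsupp.finsetSum_apply]
  have h0 : u ∈ flip α H T ↔ ∃ q ∈ H, fl α T q = u := by
    simp only [flip, mem_union, mem_sdiff, mem_image, fl]
    constructor
    · rintro (⟨h1, h2⟩ | ⟨q, hq, rfl⟩)
      · exact ⟨u, h1, by rw [if_neg h2]⟩
      · exact ⟨q, hT hq, by rw [if_pos hq]⟩
    · rintro ⟨q, hq, hqu⟩
      split_ifs at hqu with h
      · exact Or.inr ⟨q, h, hqu⟩
      · subst hqu
        exact Or.inl ⟨hq, h⟩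
  rw [h0]
  constructor
  · intro h
    by_contra hc
    push Not at hc
    apply h
    rw [sum_eq_zero (fun q hq => Finsupp.single_eq_of_ne (hc q hq).symm),
      Finsupp.single_eq_of_ne (hc p hp).symm, add_zero]
  · rintro ⟨q, hq, hqu⟩ h
    have h1 : (Finsupp.single (fl α T q) 1 : V →₀ ℕ) u ≤
        ∑ q ∈ H, (Finsupp.single (fl α T q) 1 : V →₀ ℕ) u :=
      single_le_sum (f := fun q => (Finsupp.single (fl α T q) 1 : V →₀ ℕ) u)
        (fun _ _ => Nat.zero_le _) hq
    rw [hqu, Finsupp.single_eq_same] at h1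
    omega

end IPs

open IPs in
theorem pr_Ps {V : Type} [Fintype V] [DecidableEq V] {R : Type} [CommRing R] [IsDomain R]
    (D : Dat V R) (hC : Ctx D) : StPs D := by
  intro H hF p hp
  have hz : ∀ v ∈ D.VP, ∀ f : MvPolynomial V R,
      D.ps p H (D.z v * f) = if v = p then D.ph H f else 0 :=
    fun v hv f => z_part D hC.vp H hF.1 p hp v hv f
  refine ⟨?_, hz, ?_⟩
  · intro f hf
    rw [ps_eq D hC.vp H hF.1 p]
    refine sum_eq_zero fun T hT => ?_
    have h1 := (mem_sr_iff hC.hs.down f).1 hf (eT D.α p H T)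
    have h2 : coeff (eT D.α p H T) f = 0 := by
      by_contra hc
      apply h1 hc
      rw [supp_eT D.α p H T (mem_powerset.1 hT) hp]
      exact hF.2 T hT
    rw [h2, mul_zero]
  · intro l f
    rw [lin_eq_VP hC.cs.invol hC.vp (hC.anti l), sum_mul, map_sum]
    have h1 : ∀ v ∈ D.VP, D.ps p H (C (D.a l v) * (X v - X (D.α v)) * f) =
        if v = p then D.a l p * D.ph H f else 0 := by
      intro v hv
      have h2 : C (D.a l v) * (X v - X (D.α v)) * f = D.a l v • (D.z v * f) := by
        rw [Dat.z, smul_eq_C_mul, mul_assoc]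
      rw [h2, map_smul, hz v hv, smul_eq_mul]
      split_ifs with h
      · rw [h]
      · rw [mul_zero]
    rw [sum_congr rfl h1, sum_ite_eq' D.VP p, if_pos (hF.1 hp)]

end CSLef.D6
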