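import Mathlib
import Pool.Agent.Work.MP_38c61c_al.D6.Stmts

/-!
Block D6, item Red: every solution is a combination of the duals of the full sets with four elements
modulo 2.  Port of `D5/I_Red.lean` (author: helper5).
-/

namespace CSLef.D6

open MvPolynomial Finset

namespace IRed

variable {V : Type} [Fintype V] [DecidableEq V]

/-- the part of `VP` under a set -/
def half (VP : Finset V) (α : Equiv.Perm V) (S : Finset V) : Finset V :=
  VP.filter (fun v => v ∈ S ∨ α v ∈ S)

/-- the flip of a vertex -/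
def fl (α : Equiv.Perm V) (T : Finset V) (i : V) : V := if i ∈ T then α i else i

omit [Fintype V] in
theorem mem_flip (α : Equiv.Perm V) (G T : Finset V) (x : V) :
    x ∈ flip α G T ↔ (x ∈ G ∧ x ∉ T) ∨ ∃ t ∈ T, α t = x := by
  simp [flip]

omit [Fintype V] in
theorem flip_empty (α : Equiv.Perm V) (G : Finset V) : flip α G ∅ = G := by
  simp [flip]

omit [Fintype V] in
theorem flip_eq_image (α : Equiv.Perm V) {G T : Finset V} (hT : T ⊆ G) :
    flip α G T = G.image (fl α T) := by
  ext x
  rw [mem_flip, mem_image]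
  constructor
  · rintro (⟨h1, h2⟩ | ⟨t, ht, rfl⟩)
    · exact ⟨x, h1, if_neg h2⟩
    · exact ⟨t, hT ht, if_pos ht⟩
  · rintro ⟨i, hi, rfl⟩
    unfold fl
    split_ifs with h
    · exact Or.inr ⟨i, h, rfl⟩
    · exact Or.inl ⟨hi, h⟩

section

variable {VP : Finset V} {α : Equiv.Perm V} (vp : ∀ v, v ∈ VP ↔ α v ∉ VP)

include vp

omit [Fintype V] in
theorem fl_injOn {G : Finset V} (T : Finset V) (hG : G ⊆ VP) : Set.InjOn (fl α T) G := by
  intro i hi j hj hij
  have hi' := hG hi
  have hj' := hG hj
  unfold fl at hij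
  split_ifs at hij with h1 h2 h2
  · exact α.injective hij
  · exact absurd (hij ▸ hj') ((vp i).1 hi')
  · exact absurd (hij ▸ hi') ((vp j).1 hj')
  · exact hij

omit [Fintype V] in
theorem half_flip {G T : Finset V} (hG : G ⊆ VP) (hT : T ⊆ G) :
    half VP α (flip α G T) = G := by
  ext v
  simp only [half, mem_filter, mem_flip]
  constructor
  · rintro ⟨hv, (⟨h1, -⟩ | ⟨t, ht, h⟩) | (⟨h1, -⟩ | ⟨t, ht, h⟩)⟩
    · exact h1
    · exact absurd (h ▸ hv) ((vp t).1 (hG (hT ht)))
    · exact absurd (hG h1) ((vp v).1 hv)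
    · exact hT (α.injective h ▸ ht)
  · intro hv
    refine ⟨hG hv, ?_⟩
    by_cases h : v ∈ T
    · exact Or.inr (Or.inr ⟨v, h, rfl⟩)
    · exact Or.inl (Or.inl ⟨hv, h⟩)

omit [Fintype V] in
theorem flip_half {S : Finset V} (inv : ∀ v, α (α v) = v) (np : ∀ v ∈ S, α v ∉ S) :
    flip α (half VP α S) ((half VP α S).filter (fun v => α v ∈ S)) = S := by
  ext x
  rw [mem_flip]
  constructor
  · rintro (⟨h1, h2⟩ | ⟨t, ht, rfl⟩)
    · rw [mem_filter] at h2
      have h3 := (mem_filter.1 h1).2
      rcases h3 with h3 | h3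
      · exact h3
      · exact absurd ⟨h1, h3⟩ h2
    · exact (mem_filter.1 ht).2
  · intro hx
    by_cases hv : x ∈ VP
    · left
      refine ⟨mem_filter.2 ⟨hv, Or.inl hx⟩, ?_⟩
      rw [mem_filter]
      rintro ⟨-, h⟩
      exact np x hx h
    · right
      have h1 : α x ∈ VP := by
        by_contra h
        exact hv ((vp x).2 h)
      refine ⟨α x, mem_filter.2 ⟨mem_filter.2 ⟨h1, Or.inr ?_⟩, ?_⟩, inv x⟩
      · rw [inv]
        exact hx
      · rw [inv]
        exact hx

omit [Fintype V] in
theorem card_flip {G T : Finset V} (hG : G ⊆ VP) (hT : T ⊆ G) : (flip α G T).card = G.card := by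
  rw [flip_eq_image α hT]
  exact card_image_of_injOn (fl_injOn vp T hG)

omit [Fintype V] in
theorem xm_flip {R : Type} [CommRing R] {G T : Finset V} (hG : G ⊆ VP) (hT : T ⊆ G) :
    xm R (flip α G T) = ∏ i ∈ G, X (fl α T i) := by
  unfold xm
  rw [flip_eq_image α hT]
  exact prod_image (fl_injOn vp T hG)

end

section

variable {R : Type} [CommRing R] [IsDomain R] (D : Dat V R) (hC : Ctx D)

include hC

/-- exchange of one vertex -/
theorem exch (y : MvPolynomial V R)
    (hb : ∀ u v p q, (2 : R) ∣ D.dg (X u * X v * X p * yy R D.α q * y)) (T : Finset V)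
    (u v p q : V) :
    (2 : R) ∣ D.dg (X u * X v * X p * X (fl D.α T q) * y) -
      D.dg (X u * X v * X p * X q * y) := by
  unfold fl
  split_ifs with h
  · have h1 := hb u v p q
    have h2 : X u * X v * X p * yy R D.α q * y =
        X u * X v * X p * X q * y + X u * X v * X p * X (D.α q) * y := by
      unfold yy
      ring
    rw [h2, map_add] at h1
    have h3 : D.dg (X u * X v * X p * X (D.α q) * y) - D.dg (X u * X v * X p * X q * y) =
        (D.dg (X u * X v * X p * X q * y) + D.dg (X u * X v * X p * X (D.α q) * y)) -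
          2 * D.dg (X u * X v * X p * X q * y) := by ring
    rw [h3]
    exact dvd_sub h1 (dvd_mul_right _ _)
  · rw [sub_self]
    exact dvd_zero _

/-- all flips of a set with four elements give the same value modulo 2 -/
theorem flips (y : MvPolynomial V R)
    (hb : ∀ u v p q, (2 : R) ∣ D.dg (X u * X v * X p * yy R D.α q * y)) {G : Finset V}
    (hG : G ⊆ D.VP) (h4 : G.card = 4) {T : Finset V} (hT : T ⊆ G) :
    (2 : R) ∣ D.dg (y * xm R (flip D.α G T)) - D.dg (y * xm R G) := by
  obtain ⟨a, G', ha, rfl, hG'⟩ := card_eq_succ.1 h4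
  obtain ⟨b, c, d, hbc, hbd, hcd, rfl⟩ := card_eq_three.1 hG'
  have e1 : y * xm R (flip D.α (insert a {b, c, d}) T) =
      X (fl D.α T a) * X (fl D.α T b) * X (fl D.α T c) * X (fl D.α T d) * y := by
    rw [xm_flip hC.vp hG hT, prod_insert ha, prod_insert (by simp [hbc, hbd]), prod_pair hcd]
    ring
  have e2 : y * xm R (insert a {b, c, d} : Finset V) = X a * X b * X c * X d * y := by
    unfold xm
    rw [prod_insert ha, prod_insert (by simp [hbc, hbd]), prod_pair hcd]
    ring
  rw [e1, e2]
  have k1 := exch D hC y hb T (fl D.α T a) (fl D.α T b) (fl D.α T c) d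
  have k2 := exch D hC y hb T (fl D.α T a) (fl D.α T b) d c
  have k3 := exch D hC y hb T (fl D.α T a) c d b
  have k4 := exch D hC y hb T b c d a
  have r1 : (X (fl D.α T a) * X (fl D.α T b) * X d * X (fl D.α T c) * y : MvPolynomial V R) =
      X (fl D.α T a) * X (fl D.α T b) * X (fl D.α T c) * X d * y := by ring
  have r2 : (X (fl D.α T a) * X (fl D.α T b) * X d * X c * y : MvPolynomial V R) =
      X (fl D.α T a) * X c * X d * X (fl D.α T b) * y := by ring
  have r3 : (X (fl D.α T a) * X c * X d * X b * y : MvPolynomial V R) =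
      X b * X c * X d * X (fl D.α T a) * y := by ring
  have r4 : (X b * X c * X d * X a * y : MvPolynomial V R) = X a * X b * X c * X d * y := by ring
  rw [r1, r2] at k2
  rw [r3] at k3
  rw [r4] at k4
  have e := dvd_add (dvd_add (dvd_add k1 k2) k3) k4
  have e' : ∀ A B C D' E : R, (A - B) + (B - C) + (C - D') + (D' - E) = A - E := by
    intro A B C D' E
    ring
  rw [e'] at e
  exact e

end

end IRed

theorem pr_Red {V : Type} [Fintype V] [DecidableEq V] {R : Type} [CommRing R] [IsDomain R]
    (D : Dat V R) (hC : Ctx D) (h1 : StPhA D) (h2 : StExA D) : StRed D := by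
  classical
  intro ε y hε hy hw hα
  have hex := h2 ε y hε hy hw hα
  have hb := hC.relb y hy (fun u v => by rw [(hex u v).1]; exact dvd_zero _)
    (fun u v m hm => by rw [(hex u v).2 m hm]; exact dvd_zero _)
  obtain ⟨x, hx⟩ : ∃ x : Finset V → R, ∀ G, x G =
      if G ∈ D.FS 4 ∧ ¬ (2 : R) ∣ D.dg (y * xm R G) then D.dg (y * xm R G) else 0 :=
    ⟨_, fun _ => rfl⟩
  have hFS : ∀ G, G ∈ D.FS 4 ↔ (G ⊆ D.VP ∧ G.card = 4) ∧ D.Full G := by
    intro G
    rw [Dat.FS, mem_filter, mem_powersetCard]
  refine ⟨x, ?_, ?_⟩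
  · intro G hG
    rw [hx] at hG ⊢
    split_ifs at hG ⊢ with h
    · exact h
    · exact absurd rfl hG
  · apply hC.nd2 2 4 rfl
    · refine hy.sub ?_
      unfold Dat.KK
      apply IsHomogeneous.sum
      intro G hG
      have h2 := (hFS G).1 hG
      have h3 := hC.xh_hom G h2.2
      rw [h2.1.2] at h3
      have h4 := (isHomogeneous_C V (x G)).mul h3
      rwa [zero_add] at h4
    · intro S hS hS4
      obtain ⟨G, hG⟩ : ∃ G, G = IRed.half D.VP D.α S := ⟨_, rfl⟩
      obtain ⟨T, hT⟩ : ∃ T, T = G.filter (fun v => D.α v ∈ S) := ⟨_, rfl⟩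
      have hGV : G ⊆ D.VP := by
        rw [hG]
        exact filter_subset _ _
      have hTG : T ⊆ G := by
        rw [hT]
        exact filter_subset _ _
      have hST : flip D.α G T = S := by
        rw [hT, hG]
        exact IRed.flip_half hC.vp hC.cs.invol (hC.cs.no_pair S hS)
      have hGc : G.card = 4 := by
        rw [← IRed.card_flip hC.vp hGV hTG, hST, hS4]
      have key := IRed.flips D hC y hb hGV hGc hTG
      rw [hST] at key
      -- the value of the combination
      have hK : D.dg (D.KK x * xm R S) = ∑ H ∈ D.FS 4, x H * D.ph H (xm R S) := by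
        unfold Dat.KK
        rw [sum_mul, map_sum]
        apply sum_congr rfl
        intro H hH
        rw [mul_assoc, ← smul_eq_C_mul, map_smul, smul_eq_mul, hC.xh_dg H ((hFS H).1 hH).2]
      have hne : ∀ H ∈ D.FS 4, H ≠ G → x H * D.ph H (xm R S) = 0 := by
        intro H hH hHG
        have h2 := (hFS H).1 hH
        rw [(h1 H h2.2).2.2.2.2.1 S, mul_zero]
        intro T' hT' hS'
        apply hHG
        rw [hG, hS', IRed.half_flip hC.vp h2.1.1 hT']
      rw [sub_mul, map_sub, hK]
      by_cases hF : G ∈ D.FS 4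
      · rw [sum_eq_single G hne (fun h => absurd hF h)]
        have h2 := (h1 G ((hFS G).1 hF).2).2.2.2.1 T hTG
        rw [hST] at h2
        rw [h2, mul_one, hx]
        split_ifs with h
        · exact key
        · have h3 : (2 : R) ∣ D.dg (y * xm R G) := by
            by_contra h4
            exact h ⟨hF, h4⟩
          rw [sub_zero]
          exact (dvd_iff_dvd_of_dvd_sub key).2 h3
      · rw [sum_eq_zero (fun H hH => hne H hH (fun h => hF (h ▸ hH))), sub_zero]
        have hnF : ¬ D.Full G := fun h => hF ((hFS G).2 ⟨⟨hGV, hGc⟩, h⟩)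
        have h2 : ∃ T' ∈ G.powerset, flip D.α G T' ∉ D.Δ := by
          by_contra h3
          push Not at h3
          exact hnF ⟨hGV, h3⟩
        obtain ⟨T', hT', h3⟩ := h2
        have key2 := IRed.flips D hC y hb hGV hGc (mem_powerset.1 hT')
        have h4 : D.dg (y * xm R (flip D.α G T')) = 0 := by
          apply hC.dgJ
          apply Ideal.mul_mem_left
          exact sr_le_J 6 (xm_mem_sr h3)
        rw [h4, zero_sub, dvd_neg] at key2
        exact (dvd_iff_dvd_of_dvd_sub key).2 key2

end CSLef.D6
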