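import Mathlib
import Pool.Agent.Work.MP_38c61c_al.D6.Stmts

/-!
Block D6, item Rm: the weighted sums are even.
-/

namespace CSLef.D6

open MvPolynomial Finset

namespace IRm

variable {V : Type} [Fintype V] [DecidableEq V] {R : Type} [CommRing R]

lemma mem_FS (D : Dat V R) {k : ℕ} {H : Finset V} :
    H ∈ D.FS k ↔ (H ⊆ D.VP ∧ H.card = k) ∧ D.Full H := by
  rw [Dat.FS, Finset.mem_filter, Finset.mem_powersetCard]

lemma flip_ne (D : Dat V R) (hvp : ∀ v, v ∈ D.VP ↔ D.α v ∉ D.VP) {H H' T : Finset V}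
    (hH : H ⊆ D.VP) (hH' : H' ⊆ D.VP) (hne : H' ≠ H) (hT : T ⊆ H') : H ≠ flip D.α H' T := by
  rcases T.eq_empty_or_nonempty with rfl | ⟨p, hp⟩
  · have h0 : flip D.α H' ∅ = H' := by simp [flip]
    rw [h0]
    exact hne.symm
  · intro h
    have h1 : D.α p ∈ H := by
      rw [h]
      exact Finset.mem_union_right _ (Finset.mem_image_of_mem _ hp)
    exact (hvp p).1 (hH' (hT hp)) (hH h1)

end IRm

theorem pr_Rm {V : Type} [Fintype V] [DecidableEq V] {R : Type} [CommRing R] [IsDomain R]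
    (D : Dat V R) (hC : Ctx D) (h1 : StPhX D) (h2 : StPhA D) (h3 : StWK D) : StRm D := by
  intro x u hx hw H hHV hHc
  by_cases hF : D.Full H
  · have hdg1 : D.dg (D.w * (D.KK x + (2 : R) • u) * xm R H) = 0 :=
      hC.dgJ _ (Ideal.mul_mem_right _ _ hw)
    obtain ⟨-, hWK, -⟩ := h3 x hx
    have hdg2 := hC.dgJ _ (Ideal.mul_mem_right (xm R H) _ hWK)
    rw [sub_mul, map_sub, sub_eq_zero, Finset.sum_mul, map_sum] at hdg2
    have hval : ∀ H' ∈ D.FS 3,
        D.dg (C (∑ r ∈ D.VP \ H', D.wt r * x (insert r H')) * D.XH H' * xm R H) =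
          if H' = H then ∑ r ∈ D.VP \ H, D.wt r * x (insert r H) else 0 := by
      intro H' hH'
      obtain ⟨⟨hV', -⟩, hF'⟩ := (IRm.mem_FS D).1 hH'
      rw [mul_assoc, ← MvPolynomial.smul_eq_C_mul, map_smul, hC.xh_dg H' hF', smul_eq_mul]
      by_cases he : H' = H
      · subst he
        have h4 := (h2 H' hF').2.2.2.1 ∅ (Finset.empty_subset _)
        have h0 : flip D.α H' ∅ = H' := by simp [flip]
        rw [h0] at h4
        rw [h4, mul_one, if_pos rfl]
      · rw [(h2 H' hF').2.2.2.2.1 H (fun T hT => IRm.flip_ne D hC.vp hHV hV' he hT), mul_zero,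
          if_neg he]
    rw [Finset.sum_congr rfl hval, Finset.sum_ite_eq',
      if_pos ((IRm.mem_FS D).2 ⟨⟨hHV, hHc⟩, hF⟩)] at hdg2
    rw [mul_add, add_mul, map_add, mul_smul_comm, smul_mul_assoc, map_smul, smul_eq_mul,
      hdg2] at hdg1
    exact ⟨-(D.dg (D.w * u * xm R H)), by linear_combination hdg1⟩
  · rw [Finset.sum_eq_zero]
    · exact dvd_zero _
    · intro r _
      by_cases h0 : x (insert r H) = 0
      · rw [h0, mul_zero]
      · exact absurd (h1.2 _ ((IRm.mem_FS D).1 (hx _ h0)).2 H (Finset.subset_insert r H)) hF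

end CSLef.D6
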