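import Mathlib
import Pool.Agent.Work.MP_38c61c_al.D6.Stmts

/-!
Block D6, item Star: the main congruence.
-/

set_option autoImplicit false

namespace CSLef.D6

open MvPolynomial Finset

variable {V : Type} [Fintype V] [DecidableEq V] {R : Type} [CommRing R] [IsDomain R]

namespace IStar

/-- the product splits into the two mixed terms -/
theorem split {D : Dat V R} (h1 : StMI0 D) (h5 : StMI5 D) (x ν : Finset V → R)
    (hx : ∀ G, x G ≠ 0 → G ∈ D.FS 4)
    (hν : ∀ H ∈ D.FS 3, 2 * ν H = - ∑ r ∈ D.VP \ H, D.wt r * x (insert r H))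
    (u : V) (hu : u ∈ D.VP) (s : V) (hs : s ∈ D.VP) (hus : u ≠ s) (m : ℕ) (hm : m < 6) :
    D.T m (D.z s * X u * D.NN ν * D.KK x) =
      D.T m (D.z s * X u * D.NN (xs s ν) * D.KK (xr s x)) +
      D.T m (D.z s * X u * D.NN (xr s ν) * D.KK (xs s x)) := by
  obtain ⟨-, -, hs3⟩ := h1 x ν hx hν
  obtain ⟨hK, hN, -, -, -, -, -, -⟩ := hs3 s hs
  obtain ⟨g1, g2⟩ := h5 x ν u hu s hs hus m hm
  rw [hK, hN, show D.z s * X u * (D.NN (xs s ν) + D.NN (xr s ν)) *
    (D.KK (xs s x) + D.KK (xr s x)) =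
    D.z s * X u * D.NN (xs s ν) * D.KK (xs s x) + D.z s * X u * D.NN (xs s ν) * D.KK (xr s x) +
    (D.z s * X u * D.NN (xr s ν) * D.KK (xs s x) + D.z s * X u * D.NN (xr s ν) * D.KK (xr s x))
    by ring, map_add, map_add, map_add, g1, g2]
  ring

end IStar

theorem pr_Star {V : Type} [Fintype V] [DecidableEq V] {R : Type} [CommRing R] [IsDomain R]
    (D : Dat V R) (h1 : StMI0 D) (h2 : StMI2 D) (h3 : StMI3 D)
    (h4 : StMI4 D) (h5 : StMI5 D) : StStar D := by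
  intro x ν hx hν hdiv u hu s hs hus b bs bu hb hbs hbu m hm
  obtain ⟨ρ, hρ⟩ := h4 x ν hx u hu s hs hus bs hbs m hm
  obtain ⟨ρ', hρ'⟩ := h4 x ν hx s hs u hu hus.symm bu hbu m hm
  have e1 := IStar.split h1 h5 x ν hx hν u hu s hs hus m hm
  have e2 := IStar.split h1 h5 x ν hx hν s hs u hu hus.symm m hm
  have g3 := h3 x ν hx hν u hu s hs hus m hm
  have g3' := h3 x ν hx hν s hs u hu hus.symm m hm
  have g4 := h2 x ν hx hν b hb u hu s hs hus m hm
  obtain ⟨c, hc⟩ := hdiv u s m hm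
  have e3 : ∑ q ∈ ((D.VP.erase u).erase s).filter (fun q => ({s, u, q} : Finset V) ∈ D.FS 3),
      ν {s, u, q} * D.ph {q} (bu m) =
      ∑ q ∈ ((D.VP.erase s).erase u).filter (fun q => ({u, s, q} : Finset V) ∈ D.FS 3),
      ν {u, s, q} * D.ph {q} (bu m) := by
    rw [Finset.erase_right_comm]
    simp only [Finset.insert_comm s u]
  have e4 : ∑ q ∈ ((D.VP.erase s).erase u).filter (fun q => ({u, s, q} : Finset V) ∈ D.FS 3),
      ν {u, s, q} * (D.ph {q} (b m) - D.ph {q} (bs m) - D.ph {q} (bu m)) =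
      ∑ q ∈ ((D.VP.erase s).erase u).filter (fun q => ({u, s, q} : Finset V) ∈ D.FS 3),
        ν {u, s, q} * D.ph {q} (b m) -
      ∑ q ∈ ((D.VP.erase s).erase u).filter (fun q => ({u, s, q} : Finset V) ∈ D.FS 3),
        ν {u, s, q} * D.ph {q} (bs m) -
      ∑ q ∈ ((D.VP.erase s).erase u).filter (fun q => ({u, s, q} : Finset V) ∈ D.FS 3),
        ν {u, s, q} * D.ph {q} (bu m) := by
    rw [← Finset.sum_sub_distrib, ← Finset.sum_sub_distrib]
    exact Finset.sum_congr rfl fun q _ => by ring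
  rw [e1, e2, hc] at g4
  rw [e3] at hρ'
  rw [e4]
  refine ⟨c + ρ + ρ', ?_⟩
  linear_combination (-1 : R) * g4 - g3 - g3' + 4 * hρ + 4 * hρ'

end CSLef.D6
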