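import Mathlib
import Pool.Agent.Work.MP_38c61c_al.D6.Stmts2

/-!
Block D6, item Sym: the degree of a symmetrised product.
-/

set_option autoImplicit false

namespace CSLef.D6

open MvPolynomial Finset

/-- Sym. -/
theorem pr_Sym {V : Type} [Fintype V] [DecidableEq V] {R : Type} [CommRing R] [IsDomain R]
    (D : Dat V R) (hC : Ctx D) : StSym D := by
  intro M hM g
  have h1 : D.dg (rename D.α g * (rename D.α M - M)) = 0 :=
    hC.dgJ _ (Ideal.mul_mem_left _ _ hM)
  have h2 : D.dg (rename D.α g * rename D.α M) = D.dg (g * M) := by
    rw [← map_mul]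
    exact hC.dga _
  have e : (g + rename D.α g) * M =
      g * M + (rename D.α g * rename D.α M - rename D.α g * (rename D.α M - M)) := by
    ring
  rw [e, map_add, map_sub, h1, h2, sub_zero, two_mul]

end CSLef.D6
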