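import Mathlib
import Pool.Agent.Work.MP_38c61c_al.D6.Stmts2

/-!
Block D6, item T4.
-/

set_option autoImplicit false

namespace CSLef.D6

open MvPolynomial Finset

namespace IT4

variable {V : Type} [Fintype V] [DecidableEq V] {R : Type} [CommRing R]

theorem expd (D : Dat V R) (y : Finset V → R) (u s : V) (m : ℕ) :
    D.T m (D.z s * X u * X s * D.KK y ^ 2) =
      ∑ G ∈ D.FS 4, ∑ G' ∈ D.FS 4, y G * y G' * D.T m (D.z s * X u * X s * D.XH G * D.XH G') := by
  have h0 : D.z s * X u * X s * D.KK y ^ 2 =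
      ∑ G ∈ D.FS 4, ∑ G' ∈ D.FS 4, (y G * y G') • (D.z s * X u * X s * D.XH G * D.XH G') := by
    rw [pow_two]
    unfold Dat.KK
    rw [Finset.sum_mul_sum, Finset.mul_sum]
    refine Finset.sum_congr rfl fun G _ => ?_
    rw [Finset.mul_sum]
    refine Finset.sum_congr rfl fun G' _ => ?_
    rw [MvPolynomial.smul_eq_C_mul, map_mul]
    ring
  rw [h0, map_sum]
  refine Finset.sum_congr rfl fun G _ => ?_
  rw [map_sum]
  refine Finset.sum_congr rfl fun G' _ => ?_
  rw [map_smul, smul_eq_mul]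

theorem mem_FS (D : Dat V R) {k : ℕ} {G : Finset V} (h : G ∈ D.FS k) : D.Full G ∧ G.card = k := by
  unfold Dat.FS at h
  rw [Finset.mem_filter, Finset.mem_powersetCard] at h
  exact ⟨h.2, h.1.2⟩

theorem four : ∀ i j k l r : Fin 4, i ≠ j → k ≠ l → i ≠ k → i ≠ l → j ≠ k → j ≠ l →
    (r = i ∨ r = j) ∨ (r = k ∨ r = l) := by
  intro i j k l r h1 h2 h3 h4 h5 h6
  omega

/-- the inner sums vanish -/
theorem inner [IsDomain R] (D : Dat V R) (h1 : StP1 D) (h2 : StPhX D) (h3 : StTx D) (h4 : StF3 D)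
    (h5 : StNonT D) (x : Finset V → R) (u s : V) (q : Fin 4 → V) (hQ : HQ D x u s q) (r : Fin 4)
    (G G' : Finset V) (hG : G ∈ D.FS 4) (hG' : G' ∈ D.FS 4) (hx : x G ≠ 0) (hx' : x G' ≠ 0)
    (hs : s ∈ G) (hs' : s ∈ G') :
    ∑ m ∈ range 6, D.a m (q r) * D.T m (D.z s * X u * X s * D.XH G * D.XH G') = 0 := by
  obtain ⟨fG, cG⟩ := mem_FS D hG
  obtain ⟨fG', cG'⟩ := mem_FS D hG'
  have nG : G.Nonempty := ⟨s, hs⟩
  have nG' : G'.Nonempty := ⟨s, hs'⟩
  by_cases hu : u ∈ G
  swap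
  · refine Finset.sum_eq_zero fun m hm => ?_
    have e1 := (h1 G' fG' nG').1 s
    have e2 := ((h1 G fG nG).2.1 u hQ.u_mem hu).1
    have e3 := h3.2 _ e1 _ (D.J.mul_mem_left (X s) e2) m (Finset.mem_range.1 hm)
    have e4 : D.z s * D.XH G' * (X s * (X u * D.XH G)) =
        D.z s * X u * X s * D.XH G * D.XH G' := by ring
    rw [e4] at e3
    rw [e3, mul_zero]
  by_cases hu' : u ∈ G'
  swap
  · refine Finset.sum_eq_zero fun m hm => ?_
    have e1 := (h1 G fG nG).1 s
    have e2 := ((h1 G' fG' nG').2.1 u hQ.u_mem hu').1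
    have e3 := h3.2 _ e1 _ (D.J.mul_mem_left (X s) e2) m (Finset.mem_range.1 hm)
    have e4 : D.z s * D.XH G * (X s * (X u * D.XH G')) =
        D.z s * X u * X s * D.XH G * D.XH G' := by ring
    rw [e4] at e3
    rw [e3, mul_zero]
  have fE1 : D.Full (G'.erase s) := h2.2 G' fG' _ (Finset.erase_subset _ _)
  have hu1 : u ∈ G'.erase s := Finset.mem_erase.2 ⟨hQ.us, hu'⟩
  have fE : D.Full ((G'.erase s).erase u) :=
    h2.2 G' fG' _ ((Finset.erase_subset _ _).trans (Finset.erase_subset _ _))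
  have cE : ((G'.erase s).erase u).card = 2 := by
    rw [Finset.card_erase_of_mem hu1, Finset.card_erase_of_mem hs', cG']
  have hrep : ∀ m < 6, D.T m (D.z s * X u * X s * D.XH G * D.XH G') =
      D.T m (D.z s * D.XH G * D.XH ((G'.erase s).erase u)) := by
    intro m hm
    have e1 := (h1 G fG nG).1 s
    have e2 := (h1 G' fG' nG').2.2.1 s hs'
    have e2' := (h1 (G'.erase s) fE1 ⟨u, hu1⟩).2.2.1 u hu1
    have e5 := D.J.add_mem (D.J.mul_mem_left (X u) e2) e2'
    have e3 := h3.2 _ e1 _ e5 m hm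
    have e4 : D.z s * D.XH G * (X u * (X s * D.XH G' - D.XH (G'.erase s)) +
        (X u * D.XH (G'.erase s) - D.XH ((G'.erase s).erase u))) =
        D.z s * X u * X s * D.XH G * D.XH G' -
          D.z s * D.XH G * D.XH ((G'.erase s).erase u) := by ring
    rw [e4, map_sub] at e3
    exact sub_eq_zero.1 e3
  have hsum : ∑ m ∈ range 6, D.a m (q r) * D.T m (D.z s * X u * X s * D.XH G * D.XH G') =
      ∑ m ∈ range 6, D.a m (q r) * D.T m (D.z s * D.XH G * D.XH ((G'.erase s).erase u)) :=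
    Finset.sum_congr rfl fun m hm => by rw [hrep m (Finset.mem_range.1 hm)]
  rw [hsum]
  by_cases hI : (G ∩ (G'.erase s).erase u).Nonempty
  · refine Finset.sum_eq_zero fun m hm => ?_
    rw [h5 G ((G'.erase s).erase u) fG fE (by omega) hI s hQ.s_mem m (Finset.mem_range.1 hm),
      mul_zero]
  · have hd : ∀ v, v ∈ G → v ∉ (G'.erase s).erase u := fun v hv hv' =>
      hI ⟨v, Finset.mem_inter.2 ⟨hv, hv'⟩⟩
    obtain ⟨i, j, hij, eG⟩ := hQ.link G hx hu hs
    obtain ⟨k, l, hkl, eG'⟩ := hQ.link G' hx' hu' hs'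
    have mi : q i ∈ G := by rw [eG]; simp
    have mj : q j ∈ G := by rw [eG]; simp
    have mk : q k ∈ (G'.erase s).erase u := by
      rw [Finset.mem_erase, Finset.mem_erase]
      exact ⟨hQ.q_ne' k, hQ.q_ne k, by rw [eG']; simp⟩
    have ml : q l ∈ (G'.erase s).erase u := by
      rw [Finset.mem_erase, Finset.mem_erase]
      exact ⟨hQ.q_ne' l, hQ.q_ne l, by rw [eG']; simp⟩
    have hik : i ≠ k := fun h => hd _ mi (h ▸ mk)
    have hil : i ≠ l := fun h => hd _ mi (h ▸ ml)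
    have hjk : j ≠ k := fun h => hd _ mj (h ▸ mk)
    have hjl : j ≠ l := fun h => hd _ mj (h ▸ ml)
    have hp : q r ∈ G ∪ (G'.erase s).erase u := by
      rw [Finset.mem_union]
      rcases four i j k l r hij hkl hik hil hjk hjl with (h | h) | (h | h)
      · exact Or.inl (h ▸ mi)
      · exact Or.inl (h ▸ mj)
      · exact Or.inr (h ▸ mk)
      · exact Or.inr (h ▸ ml)
    rw [h4 G ((G'.erase s).erase u) fG fE nG ⟨_, mk⟩ (by omega) (q r) hp s hQ.s_mem,
      if_neg (hQ.q_ne r).symm]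

theorem side [IsDomain R] (D : Dat V R) (h1 : StP1 D) (h2 : StPhX D) (h3 : StTx D) (h4 : StF3 D)
    (h5 : StNonT D) (x : Finset V → R) (u s : V) (q : Fin 4 → V) (hQ : HQ D x u s q)
    (r : Fin 4) :
    ∑ m ∈ range 6, D.a m (q r) * D.T m (D.z s * X u * X s * D.KK (xs s x) ^ 2) = 0 := by
  have h : ∀ m ∈ range 6, D.a m (q r) * D.T m (D.z s * X u * X s * D.KK (xs s x) ^ 2) =
      ∑ G ∈ D.FS 4, ∑ G' ∈ D.FS 4, xs s x G * xs s x G' *
        (D.a m (q r) * D.T m (D.z s * X u * X s * D.XH G * D.XH G')) := by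
    intro m _
    rw [expd, Finset.mul_sum]
    refine Finset.sum_congr rfl fun G _ => ?_
    rw [Finset.mul_sum]
    exact Finset.sum_congr rfl fun G' _ => by ring
  rw [Finset.sum_congr rfl h, Finset.sum_comm]
  refine Finset.sum_eq_zero fun G hG => ?_
  rw [Finset.sum_comm]
  refine Finset.sum_eq_zero fun G' hG' => ?_
  rw [← Finset.mul_sum]
  by_cases hs : s ∈ G
  · by_cases hs' : s ∈ G'
    · by_cases hx : x G = 0
      · unfold xs
        rw [if_pos hs, hx, zero_mul, zero_mul]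
      · by_cases hx' : x G' = 0
        · unfold xs
          rw [if_pos hs', hx', mul_zero, zero_mul]
        · rw [inner D h1 h2 h3 h4 h5 x u s q hQ r G G' hG hG' hx hx' hs hs', mul_zero]
    · unfold xs
      rw [if_neg hs', mul_zero, zero_mul]
  · unfold xs
    rw [if_neg hs, zero_mul, zero_mul]

theorem hq_symm (D : Dat V R) (x : Finset V → R) (u s : V) (q : Fin 4 → V)
    (hQ : HQ D x u s q) : HQ D x s u q :=
  { u_mem := hQ.s_mem
    s_mem := hQ.u_mem
    us := hQ.us.symm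
    q_mem := hQ.q_mem
    q_inj := hQ.q_inj
    q_ne := hQ.q_ne'
    q_ne' := hQ.q_ne
    link := fun G hx hs hu => by
      obtain ⟨i, j, hij, e⟩ := hQ.link G hx hu hs
      refine ⟨i, j, hij, ?_⟩
      rw [e]
      exact Finset.insert_comm u s _ }

end IT4

open IT4

/-- item T4 -/
theorem pr_T4 {V : Type} [Fintype V] [DecidableEq V] {R : Type} [CommRing R] [IsDomain R]
    (D : Dat V R) (_hC : Ctx D) (h1 : StP1 D) (h2 : StPhX D) (h3 : StTx D) (h4 : StF3 D)
    (h5 : StNonT D) : StT4 D := by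
  intro x u s q _ hQ r
  exact ⟨side D h1 h2 h3 h4 h5 x u s q hQ r,
    side D h1 h2 h3 h4 h5 x s u q (hq_symm D x u s q hQ) r⟩

end CSLef.D6
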