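import Mathlib
import Pool.Agent.Work.MP_38c61c_al.D6.StmtsX

/-!
Block D6, item Trans: transfer to generic antisymmetric parameters and the sum of all variables.
-/

namespace CSLef.D6

open MvPolynomial Finset

universe u

namespace ITrans

variable {V : Type} [Fintype V] [DecidableEq V] {k : Type*} [Field k]

/-- surjectivity from degree 3 to degree 4 gives surjectivity in all higher degrees -/
theorem surj_up {J : Ideal (MvPolynomial V k)} {w : MvPolynomial V k}
    (h : ∀ y : MvPolynomial V k, y.IsHomogeneous 4 → ∃ x : MvPolynomial V k,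
      x.IsHomogeneous 3 ∧ w * x - y ∈ J) (n : ℕ) :
    ∀ y : MvPolynomial V k, y.IsHomogeneous (n + 3 + 1) → ∃ x : MvPolynomial V k,
      x.IsHomogeneous (n + 3) ∧ w * x - y ∈ J := by
  induction n with
  | zero => exact h
  | succ n ih =>
    intro y hy
    obtain ⟨g, hg, hyg⟩ := hom_split hy
    have hch : ∀ v, ∃ x : MvPolynomial V k, x.IsHomogeneous (n + 3) ∧ w * x - g v ∈ J :=
      fun v => ih (g v) (by
        have h1 := hg v
        have h2 : n + 1 + 3 = n + 3 + 1 := by omega
        rwa [h2] at h1)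
    choose x hx hxg using hch
    refine ⟨∑ v, X v * x v, ?_, ?_⟩
    · apply IsHomogeneous.sum
      intro v _
      have h1 := (isHomogeneous_X k v).mul (hx v)
      have h2 : 1 + (n + 3) = n + 1 + 3 := by omega
      rwa [h2] at h1
    · have e1 : w * ∑ v, X v * x v - y = ∑ v, X v * (w * x v - g v) := by
        rw [hyg, Finset.mul_sum, ← Finset.sum_sub_distrib]
        apply Finset.sum_congr rfl
        intro v _
        ring
      rw [e1]
      apply Ideal.sum_mem
      intro v _
      exact Ideal.mul_mem_left _ _ (hxg v)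

/-- the weak Lefschetz property from injectivity up to degree 2 and surjectivity `3 → 4` -/
theorem wlp {J : Ideal (MvPolynomial V k)} {w : MvPolynomial V k}
    (hinj : ∀ i ≤ 2, ∀ x : MvPolynomial V k, x.IsHomogeneous i → w * x ∈ J → x ∈ J)
    (hsurj : ∀ y : MvPolynomial V k, y.IsHomogeneous 4 → ∃ x : MvPolynomial V k,
      x.IsHomogeneous 3 ∧ w * x - y ∈ J) (i : ℕ) :
    (∀ x ∈ gr J i, Ideal.Quotient.mk J w * x = 0 → x = 0) ∨
    (∀ y ∈ gr J (i + 1), ∃ x ∈ gr J i, Ideal.Quotient.mk J w * x = y) := by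
  by_cases h1 : i ≤ 2
  · left
    intro x hx h
    obtain ⟨f, hf, rfl⟩ := mem_gr.mp hx
    rw [← map_mul, Ideal.Quotient.eq_zero_iff_mem] at h
    rw [Ideal.Quotient.eq_zero_iff_mem]
    exact hinj i h1 f hf h
  · right
    intro y hy
    obtain ⟨g, hg, rfl⟩ := mem_gr.mp hy
    obtain ⟨n, rfl⟩ : ∃ n, i = n + 3 := ⟨i - 3, by omega⟩
    obtain ⟨x, hx1, hx2⟩ := surj_up hsurj n g hg
    refine ⟨Ideal.Quotient.mk J x, mem_gr.mpr ⟨x, hx1, rfl⟩, ?_⟩
    rw [← map_mul, Ideal.Quotient.mk_eq_mk_iff_sub_mem]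
    exact hx2

end ITrans

theorem pr_Trans {V : Type} [Fintype V] [DecidableEq V] (Δ : Finset (Finset V))
    (α : Equiv.Perm V) (VP : Finset V) (hG : HG Δ α VP) : StTrans.{u} Δ α VP := by
  intro k _ _ g hg H
  have hinv := hG.cs.invol
  have hvp := hG.vp
  obtain ⟨p, hpg, hps⟩ := exists_param (k := k) VP hg
  have hs0 : ∀ v, s0 α VP p v ≠ 0 := by
    intro v
    unfold s0
    split_ifs with hv
    · exact hps v hv
    · apply hps
      by_contra h
      exact hv ((hvp v).mpr h)
  refine ⟨PsiP VP p g, ⟨A0 α VP p, A0_anti hinv hvp p, ?_⟩, ?_⟩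
  · have h1 := psiA_A0 (α := α) p hps
    have h2 := RingHom.congr_fun h1 g
    unfold psiA at h2
    rw [RingHom.comp_apply] at h2
    rw [h2]
    exact hpg
  · intro A hA hne
    have h1 := H (psiA VP p A) hne
    have hJ : Jid Δ (fun l v => psiA VP p A (aP 6 α VP l v)) 6 =
        Jid Δ (fun l v => rowN A l v * s0 α VP p v) 6 := by
      congr 1
      funext l v
      exact psiA_aP hvp p hA l v
    rw [hJ] at h1
    obtain ⟨hin, hsu, h2⟩ := h1
    have hbig : ∀ n, 6 < n → ∀ f : MvPolynomial V k, f.IsHomogeneous n →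
        f ∈ Jid Δ (rowN A) 6 := by
      intro n hn f hf
      rw [← scale_J_iff (s0 α VP p) hs0]
      exact h2 n hn _ (scale_hom _ hf)
    refine ⟨?_, hbig⟩
    set J' := Jid Δ (fun l v => rowN A l v * s0 α VP p v) 6 with hJ'
    set w' := MvPolynomial.map (psiA VP p A) (wP 6 α VP) with hw'
    have hcmp : ∀ x : MvPolynomial V k,
        C 2 * (w' * x) - (scale (s0 α VP p) (wsum V k)) * x ∈ J' := by
      intro x
      rw [← mul_assoc, ← sub_mul]
      exact Ideal.mul_mem_right _ _ (two_wP hinv hvp p hA)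
    have hC2 : (C 2 : MvPolynomial V k) * C (2⁻¹) = 1 := by
      rw [← map_mul, mul_inv_cancel₀ two_ne_zero, map_one]
    apply ITrans.wlp
    · intro i hi x hx hw
      rw [← scale_J_iff (s0 α VP p) hs0] at hw ⊢
      apply hin i hi _ (scale_hom _ hx)
      rw [map_mul] at hw
      have h3 := Ideal.add_mem _ (hcmp (scale (s0 α VP p) x)) hw
      rw [sub_add_cancel] at h3
      have h4 := Ideal.mul_mem_left _ (C (2⁻¹)) h3
      rw [← mul_assoc, mul_comm (C (2⁻¹)), hC2, one_mul] at h4
      exact h4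
    · intro y hy
      obtain ⟨x', hx'1, hx'2⟩ := hsu _ (scale_hom (s0 α VP p) hy)
      have hssi : ∀ f : MvPolynomial V k,
          scale (s0 α VP p) (scale (fun v => (s0 α VP p v)⁻¹) f) = f :=
        scale_scale _ _ (fun v => mul_inv_cancel₀ (hs0 v))
      refine ⟨scale (fun v => (s0 α VP p v)⁻¹) (C (2⁻¹) * x'), ?_, ?_⟩
      · apply scale_hom
        have := (isHomogeneous_C V (2⁻¹ : k)).mul hx'1
        rwa [zero_add] at this
      · rw [← scale_J_iff (s0 α VP p) hs0, map_sub, map_mul, hssi]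
        have h3 := Ideal.add_mem _ hx'2
          ((Ideal.neg_mem_iff _).mpr (hcmp (C (2⁻¹) * x')))
        have h4 : C 2 * (w' * (C (2⁻¹) * x')) = w' * x' := by
          have h5 : C 2 * (w' * (C (2⁻¹) * x')) = (C 2 * C (2⁻¹)) * (w' * x') := by ring
          rw [h5, hC2, one_mul]
        rw [h4] at h3
        have h6 : w' * x' - scale (s0 α VP p) y +
            -(w' * x' - scale (s0 α VP p) (wsum V k) * (C (2⁻¹) * x')) =
            scale (s0 α VP p) (wsum V k) * (C (2⁻¹) * x') - scale (s0 α VP p) y := by ring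
        rw [h6] at h3
        exact h3

end CSLef.D6
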