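import Mathlib
import Pool.Agent.Work.MP_38c61c_al.D6.StmtsX

/-!
Block D6, item Xdual: duality over the generic ring.
-/

namespace CSLef.D6

open MvPolynomial Finset

namespace IXdual

variable {V : Type} [Fintype V] [DecidableEq V]

theorem expand {A : Type} [CommRing A] {h : ℕ} (L : MvPolynomial V A →ₗ[A] A)
    {g : MvPolynomial V A} (hg : g.IsHomogeneous h) :
    L g = ∑ m : {m // m ∈ Mon V h}, coeff m.1 g * L (monomial m.1 1) := by
  conv_lhs => rw [hom_sum_Mon hg]
  rw [map_sum, Finset.sum_coe_sort (Mon V h) (fun m => coeff m g * L (monomial m 1))]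
  apply Finset.sum_congr rfl
  intro m _
  rw [C_mul', map_smul, smul_eq_mul]

/-- a homogeneous lift -/
theorem lift_hom {A B : Type} [CommRing A] [CommRing B] (π : A →+* B)
    (hπ : Function.Surjective π) {n : ℕ} {f : MvPolynomial V B} (hf : f.IsHomogeneous n) :
    ∃ g : MvPolynomial V A, g.IsHomogeneous n ∧ MvPolynomial.map π g = f := by
  classical
  choose s hs using hπ
  refine ⟨∑ m ∈ Mon V n, monomial m (s (coeff m f)), ?_, ?_⟩
  · apply IsHomogeneous.sum
    intro m hm
    exact monomial_hom hm _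
  · rw [map_sum]
    conv_rhs => rw [hom_sum_Mon hf]
    apply Finset.sum_congr rfl
    intro m _
    rw [map_monomial, hs, C_mul_monomial, mul_one]

/-- the functional with given values on the monomials -/
noncomputable def fn {A : Type} [CommRing A] {h : ℕ} (cc : {m // m ∈ Mon V h} → A) :
    MvPolynomial V A →ₗ[A] A := ∑ m : {m // m ∈ Mon V h}, cc m • lcoeff A m.1

theorem fn_apply {A : Type} [CommRing A] {h : ℕ} (cc : {m // m ∈ Mon V h} → A)
    (g : MvPolynomial V A) : fn cc g = ∑ m : {m // m ∈ Mon V h}, cc m * coeff m.1 g := by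
  unfold fn
  rw [LinearMap.sum_apply]
  rfl

theorem fn_monomial {A : Type} [CommRing A] {h : ℕ} (cc : {m // m ∈ Mon V h} → A)
    (m : {m // m ∈ Mon V h}) : fn cc (monomial m.1 1) = cc m := by
  rw [fn_apply, Finset.sum_eq_single m]
  · rw [coeff_monomial, if_pos rfl, mul_one]
  · intro b _ hb
    rw [coeff_monomial, if_neg, mul_zero]
    intro h
    exact hb (Subtype.ext h.symm)
  · intro h
    exact absurd (Finset.mem_univ m) h

theorem main (Δ : Finset (Finset V)) (α : Equiv.Perm V) (VP : Finset V)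
    (hG : HG Δ α VP) (h1 : StXpi Δ α VP) (h2 : D5.StXdualF) (σ : Finset V) (hσ : σ ∈ Δ)
    (hσ6 : σ.card = 6) (dg : MvPolynomial V (RR 6 V) →ₗ[RR 6 V] RR 6 V)
    (hdg : IsDg Δ α VP σ dg) (h : ℕ) (hh : h ≤ 6) (cc : {m // m ∈ Mon V h} → RR 6 V)
    (hcc : ∀ g ∈ Jid Δ (ga α VP) 6, g.IsHomogeneous h → fn cc g = 0) :
    ∃ f : MvPolynomial V (RR 6 V), f.IsHomogeneous (6 - h) ∧
      ∀ m : {m // m ∈ Mon V h}, cc m = dg (f * monomial m.1 1) := by
  classical
  obtain ⟨hγ, hpi, -⟩ := h1 σ hσ hσ6 dg hdg
  obtain ⟨γ, hγdef⟩ : ∃ γ, γ = gpi Δ α VP (xm (FF 6 V) σ) := ⟨_, rfl⟩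
  rw [← hγdef] at hγ hpi
  let M : Submodule (RR 6 V) ({m // m ∈ Mon V h} → RR 6 V) :=
    { carrier := {cc | ∀ g ∈ Jid Δ (ga α VP) 6, g.IsHomogeneous h → fn cc g = 0}
      add_mem' := by
        intro a b ha hb g hg hgh
        have e1 := ha g hg hgh
        have e2 := hb g hg hgh
        rw [fn_apply] at e1 e2 ⊢
        simp only [Pi.add_apply, add_mul, Finset.sum_add_distrib]
        rw [e1, e2, add_zero]
      zero_mem' := by
        intro g _ _
        rw [fn_apply]
        simp
      smul_mem' := by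
        intro r a ha g hg hgh
        have e1 := ha g hg hgh
        rw [fn_apply] at e1 ⊢
        simp only [Pi.smul_apply, smul_eq_mul, mul_assoc]
        rw [← Finset.mul_sum, e1, mul_zero] }
  let U : Submodule (RR 6 V) ({m // m ∈ Mon V h} → RR 6 V) :=
    { carrier := {cc | ∃ f : MvPolynomial V (RR 6 V), f.IsHomogeneous (6 - h) ∧
        ∀ m : {m // m ∈ Mon V h}, cc m = dg (f * monomial m.1 1)}
      add_mem' := by
        rintro a b ⟨f, hf, hfa⟩ ⟨f', hf', hfb⟩
        refine ⟨f + f', hf.add hf', fun m => ?_⟩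
        rw [Pi.add_apply, hfa, hfb, add_mul, map_add]
      zero_mem' := ⟨0, isHomogeneous_zero _ _ _, fun m => by simp⟩
      smul_mem' := by
        rintro r a ⟨f, hf, hfa⟩
        refine ⟨r • f, ?_, fun m => ?_⟩
        · rw [smul_eq_C_mul]
          have := (isHomogeneous_C V r).mul hf
          rwa [zero_add] at this
        · rw [Pi.smul_apply, hfa, smul_mul_assoc, map_smul] }
  have key : M ≤ U := by
    apply Submodule.le_of_le_smul_of_le_jacobson_bot (I := Ideal.span {(2 : RR 6 V)})
      (IsNoetherian.noetherian M)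
    · rw [← max_eq]
      exact IsLocalRing.maximalIdeal_le_jacobson ⊥
    · intro a ha
      have ha' : ∀ g ∈ Jid Δ (ga α VP) 6, g.IsHomogeneous h → fn a g = 0 := ha
      -- the reduced functional
      obtain ⟨ab, hab⟩ : ∃ ab : {m // m ∈ Mon V h} → FF 6 V, ab = fun m => red 6 V (a m) :=
        ⟨_, rfl⟩
      have hred : ∀ g : MvPolynomial V (RR 6 V),
          fn ab (MvPolynomial.map (red 6 V) g) = red 6 V (fn a g) := by
        intro g
        rw [fn_apply, fn_apply, map_sum, hab]
        apply Finset.sum_congr rfl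
        intro m _
        rw [coeff_map, map_mul]
      have hkill : ∀ g ∈ Jid Δ (fun l v => red 6 V (ga α VP l v)) 6, g.IsHomogeneous h →
          fn ab g = 0 := by
        intro g hg hgh
        obtain ⟨G, hG1, hG2⟩ := lift_hom (red 6 V) (red_surj 6 V) hgh
        rw [← hG2] at hg
        obtain ⟨e, he, heh, G', hG', hGe⟩ := lift_J_hom (red 6 V) hG.hs.down (red_surj 6 V)
          (red_ker 6 V) (a := ga α VP) hG1 hg
        rw [← hG2, hred, hGe, map_add, ha' e he heh, zero_add, map_smul, smul_eq_mul, map_mul,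
          red_two, zero_mul]
      obtain ⟨fb, hfb1, hfb2⟩ := h2 (Jid Δ (fun l v => red 6 V (ga α VP l v)) 6) (gpi Δ α VP)
        (fn ab) h (6 - h) (by
          intro g hg hz
          exact nondeg_pi (setupF hG.hs hG.cs hG.vp) (by norm_num) (by omega : h + (6 - h) = 6) hg
            (fun G hG hGc => hz _ (hGc ▸ xm_hom G))) hkill
      obtain ⟨f, hf1, hf2⟩ := lift_hom (red 6 V) (red_surj 6 V) (f := C γ * fb) (n := 6 - h) (by
        have := (isHomogeneous_C V γ).mul hfb1
        rwa [zero_add] at this)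
      have hval : ∀ m : {m // m ∈ Mon V h}, red 6 V (dg (f * monomial m.1 1)) = red 6 V (a m) := by
        intro m
        have hm : (monomial m.1 (1 : RR 6 V)).IsHomogeneous h := monomial_hom m.2 1
        have hm' : (monomial m.1 (1 : FF 6 V)).IsHomogeneous h := monomial_hom m.2 1
        have e1 := hpi (f * monomial m.1 1) (by
          have := hf1.mul hm
          rwa [show 6 - h + h = 6 by omega] at this)
        rw [map_mul, hf2, map_mon_one, mul_assoc, C_mul', map_smul, smul_eq_mul, hfb2 _ hm',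
          fn_monomial, mul_comm] at e1
        have e2 := mul_right_cancel₀ hγ e1
        rw [← e2, hab]
      have hex : ∀ m : {m // m ∈ Mon V h}, ∃ s, a m - dg (f * monomial m.1 1) = 2 * s := by
        intro m
        apply red_ker 6 V
        rw [map_sub, hval, sub_self]
      choose a' ha2 using hex
      obtain ⟨u, hu⟩ : ∃ u : {m // m ∈ Mon V h} → RR 6 V,
        u = fun m => dg (f * monomial m.1 1) := ⟨_, rfl⟩
      have huU : u ∈ U := ⟨f, hf1, fun m => by rw [hu]⟩
      have hadec : a = u + (2 : RR 6 V) • a' := by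
        funext m
        rw [Pi.add_apply, Pi.smul_apply, smul_eq_mul, ← ha2 m, hu]
        ring
      have hfu : ∀ g : MvPolynomial V (RR 6 V), g.IsHomogeneous h → fn u g = dg (f * g) := by
        intro g hg
        have e1 := expand (dg.comp (LinearMap.mulLeft (RR 6 V) f)) hg
        rw [LinearMap.comp_apply, LinearMap.mulLeft_apply] at e1
        rw [e1, fn_apply, hu]
        apply Finset.sum_congr rfl
        intro m _
        rw [LinearMap.comp_apply, LinearMap.mulLeft_apply, mul_comm]
      have ha'M : a' ∈ M := by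
        intro g hg hgh
        have e1 := ha' g hg hgh
        have e2 := hfu g hgh
        rw [hdg.J _ (Ideal.mul_mem_left _ f hg)] at e2
        have e3 : fn a g = fn u g + 2 * fn a' g := by
          rw [fn_apply, fn_apply, fn_apply, hadec, Finset.mul_sum, ← Finset.sum_add_distrib]
          apply Finset.sum_congr rfl
          intro m _
          rw [Pi.add_apply, Pi.smul_apply, smul_eq_mul]
          ring
        rw [e1, e2, zero_add] at e3
        have h20 : (2 : RR 6 V) ≠ 0 := (locHyp hG.hs hG.cs hG.vp).two_ne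
        exact (mul_eq_zero.1 e3.symm).resolve_left h20
      rw [hadec]
      exact Submodule.add_mem_sup huU
        (Submodule.smul_mem_smul (Ideal.mem_span_singleton_self 2) ha'M)
  exact key hcc

end IXdual

theorem pr_Xdual {V : Type} [Fintype V] [DecidableEq V] (Δ : Finset (Finset V))
    (α : Equiv.Perm V) (VP : Finset V) (hG : HG Δ α VP) (h1 : StXpi Δ α VP) (h2 : D5.StXdualF) :
    StXdual Δ α VP := by
  intro σ hσ hσ6 dg hdg h hh lam hlam
  obtain ⟨f, hf, hfm⟩ := IXdual.main Δ α VP hG h1 h2 σ hσ hσ6 dg hdg h hh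
    (fun m => lam (monomial m.1 1)) (by
      intro g hg hgh
      rw [IXdual.fn_apply]
      have e1 := IXdual.expand lam hgh
      rw [hlam g hg hgh] at e1
      rw [e1]
      exact Finset.sum_congr rfl fun m _ => mul_comm _ _)
  refine ⟨f, hf, fun g hg => ?_⟩
  have e1 := IXdual.expand (dg.comp (LinearMap.mulLeft (RR 6 V) f)) hg
  rw [LinearMap.comp_apply, LinearMap.mulLeft_apply] at e1
  rw [e1, IXdual.expand lam hg]
  apply Finset.sum_congr rfl
  intro m _
  rw [LinearMap.comp_apply, LinearMap.mulLeft_apply, ← hfm m]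

end CSLef.D6
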