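import Mathlib
import Pool.Agent.Work.MP_38c61c_al.D6.StmtsX

/-!
Block D6, item Xind: six distinct columns are independent modulo 2, the weights are odd, and one
more condition.
-/

namespace CSLef.D6

open MvPolynomial Finset

namespace IXind

theorem dvd_eval {V : Type} [Fintype V] [DecidableEq V] (P : PR 6 V)
    (h : (2 : RR 6 V) ∣ algebraMap (PR 6 V) (RR 6 V) P) (φ : Om 6 V → ℤ) :
    (2 : ℤ) ∣ MvPolynomial.eval φ P := by
  have h1 : algebraMap (PR 6 V) (RR 6 V) P ∈ IsLocalRing.maximalIdeal (RR 6 V) := by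
    rw [max_eq, Ideal.mem_span_singleton]
    exact h
  rw [IsLocalization.AtPrime.to_map_mem_maximal_iff (RR 6 V) (Ideal.span {(2 : PR 6 V)}),
    Ideal.mem_span_singleton] at h1
  obtain ⟨Q, rfl⟩ := h1
  refine ⟨MvPolynomial.eval φ Q, ?_⟩
  rw [map_mul, map_ofNat]

theorem eval_aP {V : Type} [Fintype V] [DecidableEq V] (α : Equiv.Perm V) (VP : Finset V)
    (φ : Om 6 V → ℤ) (l : Fin 6) (v : V) (hv : v ∈ VP) :
    MvPolynomial.eval φ (aP 6 α VP (l : ℕ) v) = φ (Sum.inl (l, Sum.inl v)) := by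
  unfold aP pP
  rw [dif_pos l.2]
  simp only [hv, if_true, MvPolynomial.eval_X]

/-- the weights as images of polynomials -/
theorem wt_eq {V : Type} [Fintype V] [DecidableEq V] (α : Equiv.Perm V) (VP : Finset V) (v : V) :
    ∑ l ∈ range 6, gm V l * ga α VP l v =
      algebraMap (PR 6 V) (RR 6 V) (∑ l ∈ range 6, muP l * aP 6 α VP l v) := by
  rw [map_sum]
  refine Finset.sum_congr rfl fun l _ => ?_
  rw [map_mul]
  rfl

/-- the determinants as images of polynomials -/
theorem det_eq {V : Type} [Fintype V] [DecidableEq V] (α : Equiv.Perm V) (VP : Finset V)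
    (r : Fin 6 → V) :
    Matrix.det (fun i l : Fin 6 => ga α VP l (r i)) =
      algebraMap (PR 6 V) (RR 6 V) (Matrix.det (fun i l : Fin 6 => aP 6 α VP l (r i))) := by
  rw [RingHom.map_det]
  rfl

/-- value of a weight -/
theorem wt_eval {V : Type} [Fintype V] [DecidableEq V] (α : Equiv.Perm V) (VP : Finset V)
    (φ : Om 6 V → ℤ) (hφ : ∀ l : Fin 6, φ (Sum.inr (Sum.inl l)) = if l = 0 then 1 else 0)
    (v : V) (hv : v ∈ VP) :
    MvPolynomial.eval φ (∑ l ∈ range 6, muP l * aP 6 α VP l v) = φ (Sum.inl (0, Sum.inl v)) := by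
  rw [map_sum, ← Fin.sum_univ_eq_sum_range
    (fun l => MvPolynomial.eval φ (muP l * aP 6 α VP l v)) 6]
  have h4 : ∀ l : Fin 6, MvPolynomial.eval φ (muP (l : ℕ) * aP 6 α VP (l : ℕ) v) =
      if l = 0 then φ (Sum.inl (0, Sum.inl v)) else 0 := by
    intro l
    rw [map_mul, eval_aP α VP φ l v hv]
    unfold muP
    rw [dif_pos l.2, MvPolynomial.eval_X]
    show φ (Sum.inr (Sum.inl l)) * _ = _
    rw [hφ]
    by_cases hl : l = 0
    · simp [hl]
    · simp [hl]
  simp only [h4]
  simp

/-- value of a determinant -/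
theorem det_eval {V : Type} [Fintype V] [DecidableEq V] (α : Equiv.Perm V) (VP : Finset V)
    (φ : Om 6 V → ℤ) (r : Fin 6 → V) (hr : ∀ i, r i ∈ VP) :
    MvPolynomial.eval φ (Matrix.det (fun i l : Fin 6 => aP 6 α VP l (r i))) =
      Matrix.det (fun i l : Fin 6 => φ (Sum.inl (l, Sum.inl (r i)))) := by
  rw [RingHom.map_det]
  congr 1
  ext i l
  show MvPolynomial.eval φ (aP 6 α VP (l : ℕ) (r i)) = _
  rw [eval_aP α VP φ l (r i) (hr i)]

/-- the assignment of the columns -/
def col {V : Type} [DecidableEq V] (u s : V) (c : Fin 5 → V) (v : V) : Option (Fin 6) :=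
  if v = s then some 0 else if v = u then some 1 else if v = c 0 then some 0 else
  if v = c 1 then some 2 else if v = c 2 then some 3 else if v = c 3 then some 4 else
  if v = c 4 then some 5 else none

theorem col_row {V : Type} [DecidableEq V] {u s : V} {c : Fin 5 → V}
    (hc : Function.Injective c) (hus : u ≠ s) (hcu : ∀ i, c i ≠ u) (hcs : ∀ i, c i ≠ s)
    (i : Fin 6) :
    col u s c ((![u, c 0, c 1, c 2, c 3, c 4] : Fin 6 → V) i) = some (Equiv.swap 0 1 i) := by
  have hne : ∀ i j : Fin 5, i ≠ j → c i ≠ c j := fun i j h h' => h (hc h')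
  fin_cases i
  · show col u s c u = some (Equiv.swap (0 : Fin 6) 1 0)
    rw [Equiv.swap_apply_left]
    unfold col
    rw [if_neg hus, if_pos rfl]
  · show col u s c (c 0) = some (Equiv.swap (0 : Fin 6) 1 1)
    rw [Equiv.swap_apply_right]
    unfold col
    rw [if_neg (hcs 0), if_neg (hcu 0), if_pos rfl]
  · show col u s c (c 1) = some (Equiv.swap (0 : Fin 6) 1 2)
    rw [Equiv.swap_apply_of_ne_of_ne (by decide) (by decide)]
    unfold col
    rw [if_neg (hcs 1), if_neg (hcu 1), if_neg (hne 1 0 (by decide)), if_pos rfl]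
  · show col u s c (c 2) = some (Equiv.swap (0 : Fin 6) 1 3)
    rw [Equiv.swap_apply_of_ne_of_ne (by decide) (by decide)]
    unfold col
    rw [if_neg (hcs 2), if_neg (hcu 2), if_neg (hne 2 0 (by decide)), if_neg (hne 2 1 (by decide)),
      if_pos rfl]
  · show col u s c (c 3) = some (Equiv.swap (0 : Fin 6) 1 4)
    rw [Equiv.swap_apply_of_ne_of_ne (by decide) (by decide)]
    unfold col
    rw [if_neg (hcs 3), if_neg (hcu 3), if_neg (hne 3 0 (by decide)), if_neg (hne 3 1 (by decide)),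
      if_neg (hne 3 2 (by decide)), if_pos rfl]
  · show col u s c (c 4) = some (Equiv.swap (0 : Fin 6) 1 5)
    rw [Equiv.swap_apply_of_ne_of_ne (by decide) (by decide)]
    unfold col
    rw [if_neg (hcs 4), if_neg (hcu 4), if_neg (hne 4 0 (by decide)), if_neg (hne 4 1 (by decide)),
      if_neg (hne 4 2 (by decide)), if_neg (hne 4 3 (by decide)), if_pos rfl]

/-- the evaluation of the third part -/
def ev3 {V : Type} [DecidableEq V] (u s : V) (c : Fin 5 → V) : Om 6 V → ℤ := fun x => match x with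
  | Sum.inl (l, Sum.inl v) => if col u s c v = some l then 1 else 0
  | Sum.inr (Sum.inl l) => if l = 0 then 1 else 0
  | _ => 0

theorem det_row {V : Type} [DecidableEq V] {u s : V} {c : Fin 5 → V}
    (hc : Function.Injective c) (hus : u ≠ s) (hcu : ∀ i, c i ≠ u) (hcs : ∀ i, c i ≠ s) :
    Matrix.det (fun i l : Fin 6 => ev3 u s c (Sum.inl (l, Sum.inl
      ((![u, c 0, c 1, c 2, c 3, c 4] : Fin 6 → V) i)))) = -1 := by
  have h1 : (fun i l : Fin 6 => ev3 u s c (Sum.inl (l, Sum.inl
      ((![u, c 0, c 1, c 2, c 3, c 4] : Fin 6 → V) i)))) =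
      (1 : Matrix (Fin 6) (Fin 6) ℤ).submatrix (Equiv.swap 0 1) id := by
    ext i l
    show (if col u s c ((![u, c 0, c 1, c 2, c 3, c 4] : Fin 6 → V) i) = some l then (1 : ℤ)
      else 0) = (1 : Matrix (Fin 6) (Fin 6) ℤ) (Equiv.swap 0 1 i) l
    rw [col_row hc hus hcu hcs i, Matrix.one_apply]
    simp only [Option.some.injEq]
  rw [h1]
  rw [Matrix.det_permute, Equiv.Perm.sign_swap (by decide), Matrix.det_one]
  simp

end IXind

open IXind in
theorem pr_Xind {V : Type} [Fintype V] [DecidableEq V] (α : Equiv.Perm V) (VP : Finset V) :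
    StXind α VP := by
  refine ⟨?_, ?_, ?_⟩
  · intro c' hc hVP hdvd
    let φ : Om 6 V → ℤ := fun s => match s with
      | Sum.inl (l, Sum.inl v) => if v = c' l then 1 else 0
      | _ => 0
    rw [det_eq] at hdvd
    have h2 := dvd_eval _ hdvd φ
    rw [det_eval α VP φ c' hVP] at h2
    have h3 : (fun i l : Fin 6 => φ (Sum.inl (l, Sum.inl (c' i)))) =
        (1 : Matrix (Fin 6) (Fin 6) ℤ) := by
      ext i l
      rw [Matrix.one_apply]
      show (if c' i = c' l then (1 : ℤ) else 0) = _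
      simp only [hc.eq_iff]
    rw [h3, Matrix.det_one] at h2
    omega
  · intro v hv hdvd
    let φ : Om 6 V → ℤ := fun s => match s with
      | Sum.inl (l, Sum.inl u) => if l = 0 ∧ u = v then 1 else 0
      | Sum.inr (Sum.inl l) => if l = 0 then 1 else 0
      | _ => 0
    rw [wt_eq] at hdvd
    have h2 := dvd_eval _ hdvd φ
    rw [wt_eval α VP φ (fun l => rfl) v hv] at h2
    have h3 : φ (Sum.inl (0, Sum.inl v)) = 1 := if_pos ⟨rfl, rfl⟩
    rw [h3] at h2
    omega
  · intro u s c' hc hVP hu hs hus hcu hcs hdvd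
    rw [wt_eq, wt_eq, det_eq, det_eq, ← map_mul, ← map_mul, ← map_add] at hdvd
    have h2 := dvd_eval _ hdvd (ev3 u s c')
    have hr1 : ∀ i, (![u, c' 0, c' 1, c' 2, c' 3, c' 4] : Fin 6 → V) i ∈ VP := by
      intro i
      fin_cases i
      · exact hu
      · exact hVP 0
      · exact hVP 1
      · exact hVP 2
      · exact hVP 3
      · exact hVP 4
    have hs1 : ev3 u s c' (Sum.inl (0, Sum.inl s)) = 1 := by
      show (if col u s c' s = some 0 then (1 : ℤ) else 0) = 1
      unfold col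
      rw [if_pos rfl, if_pos rfl]
    have hu1 : ev3 u s c' (Sum.inl (0, Sum.inl u)) = 0 := by
      show (if col u s c' u = some 0 then (1 : ℤ) else 0) = 0
      unfold col
      rw [if_neg hus, if_pos rfl, if_neg (by decide)]
    rw [map_add, map_mul, map_mul, wt_eval α VP (ev3 u s c') (fun l => rfl) s hs,
      wt_eval α VP (ev3 u s c') (fun l => rfl) u hu, hs1, hu1, zero_mul, add_zero,
      det_eval α VP (ev3 u s c') _ hr1, det_row hc hus hcu hcs] at h2
    omega

end CSLef.D6
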