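import Mathlib
import Pool.Agent.Work.MP_38c61c_al.D6.StmtsX

/-!
Block D6, part X, item Xnd: nondegeneracy over the generic ring, and nondegeneracy modulo 2.
-/

namespace CSLef.D6

open MvPolynomial Finset

namespace IXnd

variable {V : Type} [Fintype V] [DecidableEq V]

/-- the hypotheses of the local lemmas for the generic rows -/
theorem loc {Δ : Finset (Finset V)} {α : Equiv.Perm V} {VP : Finset V} (hG : HG Δ α VP) :
    LocHyp (red 6 V) Δ 6 (ga α VP) :=
  locHyp hG.hs hG.cs hG.vp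

theorem part1 {Δ : Finset (Finset V)} {α : Equiv.Perm V} {VP : Finset V} (hG : HG Δ α VP)
    {σ : Finset V} {dg : MvPolynomial V (RR 6 V) →ₗ[RR 6 V] RR 6 V} (hd : IsDg Δ α VP σ dg)
    {i k : ℕ} (hik : i + k = 6) {f : MvPolynomial V (RR 6 V)} (hf : f.IsHomogeneous i)
    (h : ∀ g : MvPolynomial V (RR 6 V), g.IsHomogeneous k → dg (f * g) = 0) :
    f ∈ Jid Δ (ga α VP) 6 := by
  apply nondeg_R (red 6 V) (loc hG) hik hf
  intro g hg
  have h1 : (f * g).IsHomogeneous 6 := by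
    have := hf.mul hg
    rwa [hik] at this
  have h2 := hd.t _ h1
  rw [h g hg, C_0, zero_mul, sub_zero] at h2
  rw [mul_comm]
  exact h2

theorem part2 {Δ : Finset (Finset V)} {α : Equiv.Perm V} {VP : Finset V} (hG : HG Δ α VP)
    (hpi : StXpi Δ α VP)
    {σ : Finset V} (hσ : σ ∈ Δ) (hσ6 : σ.card = 6)
    {dg : MvPolynomial V (RR 6 V) →ₗ[RR 6 V] RR 6 V} (hd : IsDg Δ α VP σ dg)
    {i k : ℕ} (hik : i + k = 6) {f : MvPolynomial V (RR 6 V)} (hf : f.IsHomogeneous i)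
    (h : ∀ G ∈ Δ, G.card = k → (2 : RR 6 V) ∣ dg (f * xm (RR 6 V) G)) :
    ∃ u : MvPolynomial V (RR 6 V), u.IsHomogeneous i ∧ f - (2 : RR 6 V) • u ∈ Jid Δ (ga α VP) 6 := by
  have H := loc hG
  have S := setupF hG.hs hG.cs hG.vp
  have hmap : MvPolynomial.map (red 6 V) f ∈
      Jid Δ (fun l v => red 6 V (ga α VP l v)) 6 := by
    refine nondeg_pi S (by norm_num) hik (hf.map (red 6 V)) ?_
    intro G hGD hGk
    have h1 : (f * xm (RR 6 V) G).IsHomogeneous 6 := by
      have h0 : (xm (RR 6 V) G).IsHomogeneous G.card := xm_hom G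
      have := hf.mul h0
      rwa [hGk, hik] at this
    have h2 := ((hpi σ hσ hσ6 dg hd).2.2 _ h1).mpr (h G hGD hGk)
    have h3 : MvPolynomial.map (red 6 V) (f * xm (RR 6 V) G) =
        xm (FF 6 V) G * MvPolynomial.map (red 6 V) f := by
      rw [map_mul, mul_comm]
      congr 1
      simp [xm, map_prod]
    rw [h3] at h2
    exact h2
  obtain ⟨e, he, _, u, hu, hfu⟩ := lift_J_hom (red 6 V) H.hs.down H.surj H.ker hf hmap
  refine ⟨u, hu, ?_⟩
  rw [hfu, add_sub_cancel_right]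
  exact he

end IXnd

theorem pr_Xnd {V : Type} [Fintype V] [DecidableEq V] (Δ : Finset (Finset V)) (α : Equiv.Perm V)
    (VP : Finset V) (hG : HG Δ α VP) (h1 : StXpi Δ α VP) : StXnd Δ α VP := by
  intro σ hσ hσ6 dg hd
  exact ⟨fun i k hik f hf h => IXnd.part1 hG hd hik hf h,
    fun i k hik f hf h => IXnd.part2 hG h1 hσ hσ6 hd hik hf h⟩

end CSLef.D6
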