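import Mathlib
import Pool.Agent.Work.MP_38c61c_al.D6.StmtsX

/-!
Block D6, item Xpi (helper92).
-/

namespace CSLef.D6

open MvPolynomial Finset

namespace IXpi

variable {V : Type} [Fintype V] [DecidableEq V]

theorem map_xm {A B : Type*} [CommRing A] [CommRing B] (φ : A →+* B) (σ : Finset V) :
    MvPolynomial.map φ (xm A σ) = xm B σ := by
  unfold xm
  rw [map_prod]
  exact Finset.prod_congr rfl fun v _ => map_X φ v

theorem red_iff (r : RR 6 V) : red 6 V r = 0 ↔ (2 : RR 6 V) ∣ r := by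
  constructor
  · intro h
    obtain ⟨s, hs⟩ := red_ker 6 V r h
    exact ⟨s, hs⟩
  · rintro ⟨s, rfl⟩
    rw [map_mul, red_two, zero_mul]

theorem key (Δ : Finset (Finset V)) (α : Equiv.Perm V) (VP : Finset V) (hG : HG Δ α VP)
    {σ : Finset V} (hσd : σ.card = 6)
    {dg : MvPolynomial V (RR 6 V) →ₗ[RR 6 V] RR 6 V} (hdg : IsDg Δ α VP σ dg)
    {f : MvPolynomial V (RR 6 V)} (hf : f.IsHomogeneous 6) :
    gpi Δ α VP (MvPolynomial.map (red 6 V) f) =
      red 6 V (dg f) * gpi Δ α VP (xm (FF 6 V) σ) := by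
  have S := setupF hG.hs hG.cs hG.vp
  have h1 := hdg.t f hf
  have h2 := map_J (red 6 V) hG.hs.down h1
  have hx : (C (dg f) * xm (RR 6 V) σ).IsHomogeneous 6 := by
    have h := (isHomogeneous_C V (dg f)).mul (xm_hom (F := RR 6 V) σ)
    rwa [zero_add, hσd] at h
  have hh : (MvPolynomial.map (red 6 V) (f - C (dg f) * xm (RR 6 V) σ)).IsHomogeneous 6 :=
    (hf.sub hx).map _
  have h3 : gpi Δ α VP (MvPolynomial.map (red 6 V) (f - C (dg f) * xm (RR 6 V) σ)) = 0 :=
    piF_J S (by norm_num) h2 hh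
  have h4 : MvPolynomial.map (red 6 V) (f - C (dg f) * xm (RR 6 V) σ) =
      MvPolynomial.map (red 6 V) f - (red 6 V (dg f)) • xm (FF 6 V) σ := by
    rw [map_sub, map_mul, map_C, map_xm, smul_eq_C_mul]
  rw [h4, map_sub, map_smul, smul_eq_mul] at h3
  exact sub_eq_zero.1 h3

end IXpi

open IXpi in
/-- Item Xpi. -/
theorem pr_Xpi {V : Type} [Fintype V] [DecidableEq V] (Δ : Finset (Finset V))
    (α : Equiv.Perm V) (VP : Finset V) (hG : HG Δ α VP) : StXpi Δ α VP := by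
  intro σ hσ hσd dg hdg
  have S := setupF hG.hs hG.cs hG.vp
  have hne : gpi Δ α VP (xm (FF 6 V) σ) ≠ 0 := piF_facet_ne S.cols S.cs hσ hσd
  refine ⟨hne, fun f hf => key Δ α VP hG hσd hdg hf, fun f hf => ?_⟩
  rw [key Δ α VP hG hσd hdg hf, mul_eq_zero, or_iff_left hne, red_iff]

end CSLef.D6
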