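import Mathlib
import Pool.Agent.Work.MP_38c61c_al.D6.StmtsX

/-!
Block D6, item XpiT: elements of degree 7 with even `T`-values are killed by the functional over the
residue field.
-/

namespace CSLef.D6

open MvPolynomial Finset

theorem pr_XpiT {V : Type} [Fintype V] [DecidableEq V] (Δ : Finset (Finset V))
    (α : Equiv.Perm V) (VP : Finset V) (hG : HG Δ α VP) (h1 : StXpi Δ α VP) :
    StXpiT Δ α VP := by
  intro σ hσ hσd dg hdg T hT f hf hTf
  have S := setupF (d := 6) hG.hs hG.cs hG.vp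
  have hJ : f ∈ Jid Δ (ga α VP) 6 := large_R (red 6 V) (locHyp hG.hs hG.cs hG.vp) (by norm_num) hf
  obtain ⟨g, hgh, hg⟩ := mem_J_hom hG.hs.down (n := 6) hJ hf
  have e : f = (f - ∑ l ∈ range 6, lin (ga α VP l) * g l) +
      ∑ l ∈ range 6, lin (ga α VP l) * g l := by ring
  have hTm : ∀ m < 6, T m f = dg (g m) := by
    intro m hm
    rw [e, map_add, hT.sr m _ hg, zero_add, map_sum,
      Finset.sum_congr rfl (fun l hl => hT.lin m hm l (mem_range.1 hl) (g l)),
      Finset.sum_ite_eq' (range 6) m (fun l => dg (g l)), if_pos (mem_range.2 hm)]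
  have hz : ∀ l < 6, gpi Δ α VP (MvPolynomial.map (red 6 V) (g l)) = 0 := by
    intro l hl
    rw [(h1 σ hσ hσd dg hdg).2.2 (g l) (hgh l), ← hTm l hl]
    exact hTf l hl
  rw [e, map_add, map_add]
  have hs : gpi Δ α VP (MvPolynomial.map (red 6 V)
      (f - ∑ l ∈ range 6, lin (ga α VP l) * g l)) = 0 :=
    piF_sr S.cols S.cs hG.hs.down (map_sr (red 6 V) hG.hs.down hg)
  rw [hs, zero_add, map_sum, map_sum]
  refine Finset.sum_eq_zero fun l hl => ?_
  rw [map_mul, map_lin]
  have h := piF_lin_mul S.cols S.cs (l := l) (mem_range.1 hl) (MvPolynomial.map (red 6 V) (g l))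
  have h' : piF Δ 6 (fun l w => toF (pP α VP l w)) (fun l w => FD (DP α VP l w))
      (MvPolynomial.map (red 6 V) (g l)) = 0 := hz l (mem_range.1 hl)
  rw [h', mul_zero] at h
  exact h

end CSLef.D6
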