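import Mathlib
import Pool.Agent.Work.MP_38c61c_al.D6.StmtsX

/-!
Block D6, item Xrelb: the relations modulo 2.
-/

namespace CSLef.D6

open MvPolynomial Finset

namespace IXrelb

variable {V : Type} [Fintype V] [DecidableEq V]

/-- reduction of the Lefschetz element -/
theorem map_w (α : Equiv.Perm V) (VP : Finset V) :
    MvPolynomial.map (red 6 V) (welA 6 α VP (ga α VP) (gm V) gc) =
      wel 6 α VP (fun l w => toF (pP α VP l w)) (fun l => toF (muP l)) (fun v => toF (cP v)) := by
  unfold welA wel
  rw [map_add, map_sum, map_sum]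
  congr 1
  · apply Finset.sum_congr rfl
    intro l _
    rw [map_mul, map_C, map_sum]
    congr 1
    apply Finset.sum_congr rfl
    intro v _
    rw [map_mul, map_C, map_X]
    rfl
  · apply Finset.sum_congr rfl
    intro v _
    rw [map_mul, map_C]
    unfold yy
    rw [map_add, map_X, map_X]
    rfl

end IXrelb

/-- Item Xrelb. -/
theorem pr_Xrelb {V : Type} [Fintype V] [DecidableEq V] (Δ : Finset (Finset V))
    (α : Equiv.Perm V) (VP : Finset V) (hG : HG Δ α VP) (h1 : StXpi Δ α VP)
    (h2 : StXpiT Δ α VP) (h3 : StRb2) : StXrelb Δ α VP := by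
  intro σ hσ hσd dg hdg T hT y hy hev hTev u v p q
  have hα := hG.cs
  have hvp := hG.vp
  have S := setupF hG.hs hα hvp
  have hy2 : (y ^ 2).IsHomogeneous 4 := by
    have h := hy.pow 2
    simpa using h
  have hw := welA_hom (d := 6) (α := α) VP (ga α VP) (gm V) (gc (V := V))
  -- the two hypotheses of the relations
  have e1 : ∀ u v, gpi Δ α VP (X u * X v * (MvPolynomial.map (red 6 V) y) ^ 2) = 0 := by
    intro u v
    have hom : (X u * X v * y ^ 2 : MvPolynomial V (RR 6 V)).IsHomogeneous 6 := by
      have h := ((isHomogeneous_X (RR 6 V) u).mul (isHomogeneous_X (RR 6 V) v)).mul hy2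
      simpa using h
    have h := ((h1 σ hσ hσd dg hdg).2.2 _ hom).2 (hev u v)
    have hm : MvPolynomial.map (red 6 V) (X u * X v * y ^ 2) =
        X u * X v * (MvPolynomial.map (red 6 V) y) ^ 2 := by
      rw [map_mul, map_mul, map_X, map_X, map_pow]
    rw [hm] at h
    exact h
  have e2 : ∀ u v, gpi Δ α VP
      (wel 6 α VP (fun l w => toF (pP α VP l w)) (fun l => toF (muP l)) (fun v => toF (cP v)) *
        (X u * X v * (MvPolynomial.map (red 6 V) y) ^ 2)) = 0 := by
    intro u v
    have hom : (X u * X v * welA 6 α VP (ga α VP) (gm V) gc * y ^ 2 :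
        MvPolynomial V (RR 6 V)).IsHomogeneous 7 := by
      have h := (((isHomogeneous_X (RR 6 V) u).mul (isHomogeneous_X (RR 6 V) v)).mul hw).mul hy2
      simpa using h
    have h := h2 σ hσ hσd dg hdg T hT _ hom (fun m hm => hTev u v m hm)
    have hm : MvPolynomial.map (red 6 V) (X u * X v * welA 6 α VP (ga α VP) (gm V) gc * y ^ 2) =
        wel 6 α VP (fun l w => toF (pP α VP l w)) (fun l => toF (muP l)) (fun v => toF (cP v)) *
          (X u * X v * (MvPolynomial.map (red 6 V) y) ^ 2) := by
      rw [map_mul, map_mul, map_mul, map_X, map_X, map_pow, IXrelb.map_w]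
      ring
    rw [hm] at h
    exact h
  have e3 : ∀ u v, ∑ v' ∈ VP, (fun l w => toF (pP α VP l w)) 0 (Sum.inl v') *
      piF Δ 6 (fun l w => toF (pP α VP l w)) (fun l w => FD (DP α VP l w))
        (X v' * (X u * X v * (MvPolynomial.map (red 6 V) y) ^ 2)) = 0 := by
    intro u v
    exact derive_m S (((Con.X u).mul (Con.X v)).mul (Con.sq _)) (e2 u v) (by norm_num)
  have e4 := h3 S 2 (by norm_num) (MvPolynomial.map (red 6 V) y) e1 e3 u v p [q] (by simp)
  have hom : (X u * X v * X p * yy (RR 6 V) α q * y).IsHomogeneous 6 := by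
    have hyy : (yy (RR 6 V) α q).IsHomogeneous 1 :=
      (isHomogeneous_X _ _).add (isHomogeneous_X _ _)
    have h := ((((isHomogeneous_X (RR 6 V) u).mul (isHomogeneous_X (RR 6 V) v)).mul
      (isHomogeneous_X (RR 6 V) p)).mul hyy).mul hy
    simpa using h
  refine ((h1 σ hσ hσd dg hdg).2.2 _ hom).1 ?_
  have h5 : MvPolynomial.map (red 6 V) (X u * X v * X p * yy (RR 6 V) α q * y) =
      X u * X v * X p * (([q] : List V).map (yy (FF 6 V) α)).prod *
        MvPolynomial.map (red 6 V) y := by
    unfold yy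
    simp
  rw [h5]
  exact e4

end CSLef.D6
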