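import Mathlib
import Pool.Agent.Work.MP_38c61c_al.D5.I_HCmap
import Pool.Agent.Work.MP_38c61c_al.D5.I_HCex
import Pool.Agent.Work.MP_38c61c_al.D5.I_XdualF
import Pool.Agent.Work.MP_38c61c_al.D5.I_TateF
import Pool.Agent.Work.MP_38c61c_al.D5.I_K4
import Pool.Agent.Work.MP_38c61c_al.D5.I_CL
import Pool.Agent.Work.MP_38c61c_al.D6.I_Beta
import Pool.Agent.Work.MP_38c61c_al.D6.I_C4
import Pool.Agent.Work.MP_38c61c_al.D6.I_Clo
import Pool.Agent.Work.MP_38c61c_al.D6.I_Core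
import Pool.Agent.Work.MP_38c61c_al.D6.I_Cr
import Pool.Agent.Work.MP_38c61c_al.D6.I_Dag1
import Pool.Agent.Work.MP_38c61c_al.D6.I_Dag2
import Pool.Agent.Work.MP_38c61c_al.D6.I_Der
import Pool.Agent.Work.MP_38c61c_al.D6.I_DisT
import Pool.Agent.Work.MP_38c61c_al.D6.I_E4
import Pool.Agent.Work.MP_38c61c_al.D6.I_Es
import Pool.Agent.Work.MP_38c61c_al.D6.I_Eul
import Pool.Agent.Work.MP_38c61c_al.D6.I_Ev
import Pool.Agent.Work.MP_38c61c_al.D6.I_ExA
import Pool.Agent.Work.MP_38c61c_al.D6.I_F3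
import Pool.Agent.Work.MP_38c61c_al.D6.I_Fin
import Pool.Agent.Work.MP_38c61c_al.D6.I_Four
import Pool.Agent.Work.MP_38c61c_al.D6.I_Gen
import Pool.Agent.Work.MP_38c61c_al.D6.I_Inj
import Pool.Agent.Work.MP_38c61c_al.D6.I_Int
import Pool.Agent.Work.MP_38c61c_al.D6.I_L4
import Pool.Agent.Work.MP_38c61c_al.D6.I_L5
import Pool.Agent.Work.MP_38c61c_al.D6.I_Lap
import Pool.Agent.Work.MP_38c61c_al.D6.I_Leq
import Pool.Agent.Work.MP_38c61c_al.D6.I_MI0
import Pool.Agent.Work.MP_38c61c_al.D6.I_MI2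
import Pool.Agent.Work.MP_38c61c_al.D6.I_MI3
import Pool.Agent.Work.MP_38c61c_al.D6.I_MI4
import Pool.Agent.Work.MP_38c61c_al.D6.I_MI5
import Pool.Agent.Work.MP_38c61c_al.D6.I_Non
import Pool.Agent.Work.MP_38c61c_al.D6.I_NonT
import Pool.Agent.Work.MP_38c61c_al.D6.I_Om
import Pool.Agent.Work.MP_38c61c_al.D6.I_P1
import Pool.Agent.Work.MP_38c61c_al.D6.I_Pe
import Pool.Agent.Work.MP_38c61c_al.D6.I_Ph
import Pool.Agent.Work.MP_38c61c_al.D6.I_PhA
import Pool.Agent.Work.MP_38c61c_al.D6.I_PhW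
import Pool.Agent.Work.MP_38c61c_al.D6.I_PhX
import Pool.Agent.Work.MP_38c61c_al.D6.I_Ps
import Pool.Agent.Work.MP_38c61c_al.D6.I_Rb2
import Pool.Agent.Work.MP_38c61c_al.D6.I_Red
import Pool.Agent.Work.MP_38c61c_al.D6.I_Rm
import Pool.Agent.Work.MP_38c61c_al.D6.I_SCex
import Pool.Agent.Work.MP_38c61c_al.D6.I_Star
import Pool.Agent.Work.MP_38c61c_al.D6.I_SumW
import Pool.Agent.Work.MP_38c61c_al.D6.I_SurjF
import Pool.Agent.Work.MP_38c61c_al.D6.I_Sym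
import Pool.Agent.Work.MP_38c61c_al.D6.I_T4
import Pool.Agent.Work.MP_38c61c_al.D6.I_TA1
import Pool.Agent.Work.MP_38c61c_al.D6.I_TA2
import Pool.Agent.Work.MP_38c61c_al.D6.I_Trans
import Pool.Agent.Work.MP_38c61c_al.D6.I_Tx
import Pool.Agent.Work.MP_38c61c_al.D6.I_VP6
import Pool.Agent.Work.MP_38c61c_al.D6.I_Ve
import Pool.Agent.Work.MP_38c61c_al.D6.I_WK
import Pool.Agent.Work.MP_38c61c_al.D6.I_WW
import Pool.Agent.Work.MP_38c61c_al.D6.I_Wa
import Pool.Agent.Work.MP_38c61c_al.D6.I_XK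
import Pool.Agent.Work.MP_38c61c_al.D6.I_XT
import Pool.Agent.Work.MP_38c61c_al.D6.I_Xall
import Pool.Agent.Work.MP_38c61c_al.D6.I_Xcube
import Pool.Agent.Work.MP_38c61c_al.D6.I_Xder
import Pool.Agent.Work.MP_38c61c_al.D6.I_Xdg
import Pool.Agent.Work.MP_38c61c_al.D6.I_Xdga
import Pool.Agent.Work.MP_38c61c_al.D6.I_Xdual
import Pool.Agent.Work.MP_38c61c_al.D6.I_XeK
import Pool.Agent.Work.MP_38c61c_al.D6.I_Xind
import Pool.Agent.Work.MP_38c61c_al.D6.I_Xnd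
import Pool.Agent.Work.MP_38c61c_al.D6.I_Xpi
import Pool.Agent.Work.MP_38c61c_al.D6.I_XpiT
import Pool.Agent.Work.MP_38c61c_al.D6.I_Xrelb
import Pool.Agent.Work.MP_38c61c_al.D6.I_Xtate

/-!
Block D6: assembly. Centrally symmetric homology 5-spheres have the weak Lefschetz property.
-/

namespace CSLef.D6

open MvPolynomial Finset

universe u

theorem core_of_ctx {V : Type} [Fintype V] [DecidableEq V] {R : Type} [CommRing R] [IsDomain R]
    (D : Dat V R) (hC : Ctx D) : StCore D := by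
  have phx := pr_PhX D hC
  have ph := pr_Ph D hC phx
  have pha := pr_PhA D hC
  have ps := pr_Ps D hC
  have ev := pr_Ev D hC
  have p1 := pr_P1 D hC phx ph pha
  have tx := pr_Tx D hC
  have f3 := pr_F3 D hC ps p1 tx
  have eul := pr_Eul D hC ev
  have non := pr_Non D hC ev f3 eul
  have der := pr_Der D hC
  have nonT := pr_NonT D hC pha non der
  have disT := pr_DisT D hC f3
  have exa := pr_ExA D hC tx
  have red := pr_Red D hC pha exa
  have four := pr_Four D hC exa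
  have xk := pr_XK D phx p1
  have wk := pr_WK D hC xk
  have rm := pr_Rm D hC phx pha wk
  have mi0 := pr_MI0 D hC p1 xk wk
  have mi2 := pr_MI2 D hC phx tx mi0
  have mi3 := pr_MI3 D hC tx mi0
  have mi4 := pr_MI4 D hC phx pha p1 tx
  have mi5 := pr_MI5 D hC p1 phx tx nonT disT
  have star := pr_Star D mi0 mi2 mi3 mi4 mi5
  have wa := pr_Wa D hC
  have sym := pr_Sym D hC
  have ww := pr_WW D hC wa
  have om := pr_Om D hC
  have phw := pr_PhW D phx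
  have sumw := pr_SumW D phw pr_Lap
  have beta := pr_Beta D hC p1 wa sym ww
  have ta1 := pr_TA1 D hC ph pha phw sumw beta
  have ta2 := pr_TA2 D hC ph pha phw wa sumw beta
  have int := pr_Int D hC p1 phx ta1
  have clo := pr_Clo D hC
  have pe := pr_Pe D
  have ve := pr_Ve D phx
  have es := pr_Es D hC p1 phx non
  have e4 := pr_E4 D hC es
  have t4 := pr_T4 D hC p1 phx tx f3 nonT
  have dag1 := pr_Dag1 D hC p1 star ta2 ve e4 t4 int pe om
  have dag2 := pr_Dag2 D hC pe ve e4 dag1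
  have leq := pr_Leq D hC p1 phx ta1 int clo pe es
  have c4 := pr_C4 D hC e4 dag2 leq
  have l4 := pr_L4 D hC ve c4 D5.pr_K4
  have l5 := pr_L5 D hC phx ta1 es pr_Cr
  have vp6 := pr_VP6 D hC
  have fin := pr_Fin D int clo l4 l5 vp6 D5.pr_CL
  exact pr_Core D hC red four rm fin

/-- injectivity over the generic ring in degree 2 -/
theorem inj6 {V : Type} [Fintype V] [DecidableEq V] (Δ : Finset (Finset V)) (α : Equiv.Perm V)
    (VP : Finset V) (hG : HG Δ α VP) (x : MvPolynomial V (RR 6 V)) (hx : x.IsHomogeneous 2)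
    (hw : welA 6 α VP (ga α VP) (gm V) gc * x ∈ Jid Δ (ga α VP) 6) :
    x ∈ Jid Δ (ga α VP) 6 := by
  have xpi := pr_Xpi Δ α VP hG
  have xpit := pr_XpiT Δ α VP hG xpi
  obtain ⟨D, h1, h2, h3, h4, h5, h6, hC⟩ := pr_Xall Δ α VP hG (pr_Xdg Δ α VP hG)
    (pr_Xdga Δ α VP hG) (pr_XT Δ α VP hG) (pr_Xnd Δ α VP hG xpi)
    (pr_Xrelb Δ α VP hG xpi xpit pr_Rb2)
    (pr_Xind α VP) (pr_Xder Δ α VP hG) pr_Xcube (pr_Xdual Δ α VP hG xpi D5.pr_XdualF)
    (pr_Xtate Δ α VP hG D5.pr_TateF)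
  have hJ : D.J = Jid Δ (ga α VP) 6 := by
    unfold Dat.J
    rw [h1, h4]
  have hW : D.w = welA 6 α VP (ga α VP) (gm V) gc := by
    unfold Dat.w
    rw [h2, h3, h4, h5, h6]
  rw [← hJ]
  apply pr_Inj D hC (core_of_ctx D hC) (max_eq 6 V) x hx
  rw [hW, hJ]
  exact hw

/-- generic weak Lefschetz property of centrally symmetric homology 5-spheres -/
theorem main6 {V : Type} [Fintype V] [DecidableEq V] (Δ : Finset (Finset V)) (α : Equiv.Perm V)
    (VP : Finset V) (hG : HG Δ α VP) {k : Type u} [Field k] [CharZero k] :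
    ∃ Φ : MvPolynomial (Fin 6 × V) k,
    (∃ A : Fin 6 → V → k, (∀ l v, A l (α v) = - A l v) ∧ eval (fun q => A q.1 q.2) Φ ≠ 0) ∧
    ∀ A : Fin 6 → V → k, (∀ l v, A l (α v) = - A l v) → eval (fun q => A q.1 q.2) Φ ≠ 0 →
      (∀ i, (∀ x ∈ gr (Jid Δ (rowN A) 6) i,
          Ideal.Quotient.mk _ (wsum V k) * x = 0 → x = 0) ∨
        (∀ y ∈ gr (Jid Δ (rowN A) 6) (i + 1), ∃ x ∈ gr (Jid Δ (rowN A) 6) i,
          Ideal.Quotient.mk _ (wsum V k) * x = y)) ∧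
      (∀ n, 6 < n → ∀ f : MvPolynomial V k, f.IsHomogeneous n → f ∈ Jid Δ (rowN A) 6) := by
  obtain ⟨g, hg, H⟩ := pr_Gen.{u} Δ α VP hG D5.pr_HCmap D5.pr_HCex
    (pr_XeK Δ α VP hG (pr_Xdg Δ α VP hG)) (pr_SurjF D5.pr_XdualF) pr_SCex (inj6 Δ α VP hG)
  exact pr_Trans.{u} Δ α VP hG g hg (fun ψ hψ => H ψ hψ)

end CSLef.D6
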